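import Pool.Agent.P8H8.HF.Ga

set_option autoImplicit false

/-!
# The mean excess of the gaps over a level decreases along the flow
-/

namespace Pool.Agent.P8H8.HF

open Filter Topology

/-- total excess of the first `N` gaps over the level `s` -/
noncomputable def SX (T τ s : ℝ) (N : ℕ) : ℝ := ∑ k ∈ Finset.range N, max (gg T τ k - s) 0

lemma SX_mono {T τ s : ℝ} {N M : ℕ} (h : N ≤ M) : SX T τ s N ≤ SX T τ s M := by
  unfold SX
  exact Finset.sum_le_sum_of_subset_of_nonneg (Finset.range_subset_range.2 h) (fun _ _ _ => le_max_right _ _)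

/-- the excess between two indices -/
lemma SX_diff (RH : RiemannHypothesis) {T τ s : ℝ} (hs : 0 ≤ s) (hT : 0 ≤ lam T) (h0 : 0 ≤ τ) (h1 : τ ≤ 1 / 8)
    {N M : ℕ} (h : N ≤ M) : SX T τ s M ≤ SX T τ s N + lam T * (GG τ M - GG τ N) := by
  unfold SX
  have e : lam T * (GG τ M - GG τ N) = ∑ k ∈ Finset.Ico N M, gg T τ k := by
    rw [Finset.sum_Ico_eq_sub _ h, gg_sum, gg_sum]
    ring
  rw [e, ← Finset.sum_range_add_sum_Ico (fun k => max (gg T τ k - s) 0) h]
  apply add_le_add le_rfl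
  refine Finset.sum_le_sum fun k _ => ?_
  have := gg_nonneg RH hT h0 h1 k
  exact max_le (by linarith) this

/-- monotonicity at positive times -/
lemma SX_pos (RH : RiemannHypothesis) {K s ε : ℝ} (hK : 0 < K) (hs : 0 < s) (hε : 0 < ε) :
    ∀ᶠ T : ℝ in atTop, ∀ a b : ℝ, 0 < a → a ≤ b → b * Real.log T ^ 2 ≤ K →
      SX T b s (NT T) ≤ SX T a s (NT T) + ε * MT T := by
  have hlogs := (log_small (16 / s * K) (3 / s) ε (by positivity) (by positivity) hε)
  filter_upwards [count_unif RH K (1 / 2) hK (by norm_num) le_rfl, time_ok hK,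
    lam_tendsto.eventually_ge_atTop 1, NTr, NT_ev, NT_tendsto'.eventually hlogs, MT_tendsto.eventually_ge_atTop 2] with
    T g1 g2 g3 g4 g4' g5 g6
  intro a b ha hab hbK
  have hlam0 : 0 < lam T := by linarith
  have hlamsq : 0 < lam T ^ 2 := by positivity
  have hpi := Real.pi_gt_three
  have hlogeq : lam T ^ 2 * (2 * Real.pi) ^ 2 = Real.log T ^ 2 := by
    unfold lam
    field_simp
  have hb : 0 < b := by linarith
  obtain ⟨t1, -, -⟩ := g2 b hb.le hbK
  have ea := YS_nat hlam0 ha 0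
  simp only [Nat.cast_zero] at ea
  have hN0 : (0 : ℝ) < NT T := by linarith [g4.1]
  have h1 := win_mono (flow_s RH hlam0) hs (a := 0) (b := (NT T : ℤ)) (by positivity) (τ₁ := a * lam T ^ 2)
    (τ₂ := b * lam T ^ 2) (by positivity) (mul_le_mul_of_nonneg_right hab hlamsq.le)
    (mul_lt_mul_of_pos_right t1 hlamsq) (L := 3 * NT T) (by
      intro θ hθ1 hθ2
      obtain ⟨σ, hσ⟩ : ∃ σ, σ = θ / lam T ^ 2 := ⟨_, rfl⟩
      have hθ : θ = σ * lam T ^ 2 := by rw [hσ]; field_simp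
      have hσ1 : a ≤ σ := by rw [hσ, le_div_iff₀ hlamsq]; exact hθ1
      have hσ2 : σ ≤ b := by rw [hσ, div_le_iff₀ hlamsq]; exact hθ2
      have hσ0 : 0 < σ := by linarith
      rw [hθ, YS_nat hlam0 hσ0]
      have e0 := YS_nat hlam0 hσ0 0
      simp only [Nat.cast_zero] at e0
      rw [e0]
      obtain ⟨c1, -⟩ := g1 σ hσ0.le ((mul_le_mul_of_nonneg_right hσ2 (by positivity)).trans hbK) (NT T) g4.1 g4.2
      rw [abs_le] at c1
      linarith [c1.2])
  rw [sum_int (fun k => max (gp (YS T (b * lam T ^ 2)) k - s) 0),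
    sum_int (fun k => max (gp (YS T (a * lam T ^ 2)) k - s) 0)] at h1
  have e1 : ∀ c : ℝ, 0 < c → ∑ k ∈ Finset.range (NT T), max (gp (YS T (c * lam T ^ 2)) (k : ℤ) - s) 0 =
      SX T c s (NT T) := by
    intro c hc
    unfold SX
    apply Finset.sum_congr rfl
    intro k _
    rw [gp_YS hlam0 hc]
  rw [e1 a ha, e1 b hb] at h1
  refine h1.trans ?_
  have h2 : 16 / s * (b * lam T ^ 2 - a * lam T ^ 2) * Real.log (1 + 3 * NT T / s) ≤ ε * NT T := by
    have h3 : b * lam T ^ 2 - a * lam T ^ 2 ≤ K := by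
      have h4 : 0 ≤ a * lam T ^ 2 := by positivity
      have h5 : b * lam T ^ 2 ≤ b * Real.log T ^ 2 := by
        apply mul_le_mul_of_nonneg_left _ hb.le
        rw [← hlogeq]
        have : (1 : ℝ) ≤ (2 * Real.pi) ^ 2 := by nlinarith
        nlinarith
      linarith
    have h6 : 0 ≤ Real.log (1 + 3 * NT T / s) := by
      apply Real.log_nonneg
      have : 0 ≤ 3 * (NT T : ℝ) / s := by positivity
      linarith
    have h7 : Real.log (1 + 3 * NT T / s) = Real.log (1 + 3 / s * NT T) := by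
      congr 1
      ring
    calc 16 / s * (b * lam T ^ 2 - a * lam T ^ 2) * Real.log (1 + 3 * NT T / s)
        ≤ 16 / s * K * Real.log (1 + 3 * NT T / s) := by
          apply mul_le_mul_of_nonneg_right _ h6
          exact mul_le_mul_of_nonneg_left h3 (by positivity)
      _ ≤ ε * NT T := by rw [h7]; exact g5
  have h8 : ε * NT T ≤ ε * MT T := mul_le_mul_of_nonneg_left g4'.2 hε.le
  linarith

/-- monotonicity, all times -/
lemma SX_all (RH : RiemannHypothesis) {K s ε : ℝ} (hK : 0 < K) (hs : 0 < s) (hε : 0 < ε) :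
    ∀ᶠ T : ℝ in atTop, ∀ a b : ℝ, 0 ≤ a → a ≤ b → b * Real.log T ^ 2 ≤ K →
      SX T b s (NT T) ≤ SX T a s (NT T) + ε * MT T := by
  filter_upwards [SX_pos RH hK hs (half_pos hε), MT_tendsto.eventually_ge_atTop (2 / ε),
    lam_tendsto.eventually_ge_atTop 1] with T g1 g2 g3
  intro a b ha hab hbK
  have hM : 1 ≤ ε / 2 * MT T := by
    rw [div_le_iff₀ hε] at g2
    linarith
  rcases ha.eq_or_lt with rfl | ha'
  · rcases hab.eq_or_lt with rfl | hb
    · linarith
    · obtain ⟨δ, hδ⟩ : ∃ δ, δ = min b (1 / (2 * (1 + |lam T|) * ((NT T : ℝ) + 1))) := ⟨_, rfl⟩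
      have hδ0 : 0 < δ := by rw [hδ]; positivity
      obtain ⟨σ, s1, -, s3, s4⟩ := GG_approx RH le_rfl (NT T) hδ0
      rw [zero_add] at s3
      have hσb : σ ≤ b := s3.trans (by rw [hδ]; exact min_le_left _ _)
      have h1 := g1 σ b s1 hσb hbK
      have h2 : SX T σ s (NT T) ≤ SX T 0 s (NT T) + 1 := by
        unfold SX
        have h3 : ∀ k ∈ Finset.range (NT T), max (gg T σ k - s) 0 ≤ max (gg T 0 k - s) 0 + 1 / ((NT T : ℝ) + 1) := by
          intro k hk
          rw [Finset.mem_range] at hk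
          have a1 := s4 k (by omega)
          have a2 := s4 (k + 1) (by omega)
          have e : gg T σ k - gg T 0 k = lam T * ((GG σ (k + 1) - GG 0 (k + 1)) - (GG σ k - GG 0 k)) := by
            unfold gg
            ring
          have h5 : |(GG σ (k + 1) - GG 0 (k + 1)) - (GG σ k - GG 0 k)| ≤ δ + δ :=
            (abs_sub _ _).trans (add_le_add a2 a1)
          have h6 : δ ≤ 1 / (2 * (1 + |lam T|) * ((NT T : ℝ) + 1)) := by rw [hδ]; exact min_le_right _ _
          have h7 : |gg T σ k - gg T 0 k| ≤ 1 / ((NT T : ℝ) + 1) := by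
            rw [e, abs_mul]
            calc |lam T| * |(GG σ (k + 1) - GG 0 (k + 1)) - (GG σ k - GG 0 k)|
                ≤ (1 + |lam T|) * (2 * (1 / (2 * (1 + |lam T|) * ((NT T : ℝ) + 1)))) := by
                  apply mul_le_mul (by linarith) (by linarith) (abs_nonneg _) (by positivity)
              _ = 1 / ((NT T : ℝ) + 1) := by field_simp
          have h8 := (le_abs_self _).trans h7
          have h9 := le_max_left (gg T 0 k - s) 0
          have h10 := le_max_right (gg T 0 k - s) 0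
          have h11 : (0 : ℝ) ≤ 1 / ((NT T : ℝ) + 1) := by positivity
          exact max_le (by linarith) (by linarith)
        refine (Finset.sum_le_sum h3).trans ?_
        rw [Finset.sum_add_distrib, Finset.sum_const, Finset.card_range, nsmul_eq_mul, mul_one_div]
        have h12 : (NT T : ℝ) / ((NT T : ℝ) + 1) ≤ 1 := by
          rw [div_le_one (by positivity)]
          linarith
        linarith
      linarith
  · have := g1 a b ha' hab hbK
    have hM0 : 0 ≤ ε / 2 * MT T := by linarith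
    linarith

/-- passing from the first `NT T` gaps to the gaps up to the height `T` -/
lemma SX_KK (RH : RiemannHypothesis) {K s ε : ℝ} (hK : 0 < K) (hs : 0 ≤ s) (hε : 0 < ε) {τ : ℝ → ℝ}
    (h0 : ∀ T, 0 ≤ τ T) (hτ : ∀ᶠ T in atTop, τ T * Real.log T ^ 2 ≤ K) :
    ∀ᶠ T : ℝ in atTop, SX T (τ T) s (KK (τ T) T) ≤ SX T (τ T) s (NT T) + ε * MT T ∧
      SX T (τ T) s (NT T) ≤ SX T (τ T) s (KK (τ T) T) + ε * MT T := by
  obtain ⟨η, hη⟩ : ∃ η, η = min (ε / 8) (1 / 4) := ⟨_, rfl⟩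
  have hη0 : 0 < η := by rw [hη]; positivity
  have hη1 : η ≤ 1 / 4 := by rw [hη]; exact min_le_right _ _
  have hη2 : η ≤ ε / 8 := by rw [hη]; exact min_le_left _ _
  have hlim := (Metric.tendsto_nhds.1 (KK_lim RH hK h0 hτ)) η hη0
  filter_upwards [hlim, count_unif RH K η hK hη0 (by linarith), NT_ev, NTr, hτ, time_ok hK,
    lam_tendsto.eventually_ge_atTop 1, MT_tendsto.eventually_ge_atTop (1 / η)] with T g1 g2 g3 g4 g5 g6 g7 g8
  have hM1 : 1 ≤ η * MT T := by
    rw [div_le_iff₀ hη0] at g8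
    linarith
  have hM : 0 < MT T := by
    by_contra hcon
    rw [not_lt] at hcon
    have : η * MT T ≤ 0 := mul_nonpos_of_nonneg_of_nonpos hη0.le hcon
    linarith
  obtain ⟨t1, -, -⟩ := g6 (τ T) (h0 T) g5
  rw [Real.dist_eq, abs_lt] at g1
  have k1 : (KK (τ T) T : ℝ) ≤ (1 + η) * MT T := by
    have : (KK (τ T) T : ℝ) / MT T ≤ 1 + η := by linarith [g1.2]
    rwa [div_le_iff₀ hM] at this
  have k2 : (1 - η) * MT T ≤ (KK (τ T) T : ℝ) := by
    have : 1 - η ≤ (KK (τ T) T : ℝ) / MT T := by linarith [g1.1]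
    rwa [le_div_iff₀ hM] at this
  have hr1 : MT T / 2 ≤ (KK (τ T) T : ℝ) := by nlinarith
  have hr2 : (KK (τ T) T : ℝ) ≤ 2 * MT T := by nlinarith
  obtain ⟨c1, -⟩ := g2 (τ T) (h0 T) g5 (KK (τ T) T) hr1 hr2
  obtain ⟨c2, -⟩ := g2 (τ T) (h0 T) g5 (NT T) g4.1 g4.2
  rw [abs_le] at c1 c2
  have u1 : η * (KK (τ T) T : ℝ) ≤ η * (2 * MT T) := mul_le_mul_of_nonneg_left hr2 hη0.le
  have u2 : η * (NT T : ℝ) ≤ η * (2 * MT T) := mul_le_mul_of_nonneg_left g4.2 hη0.le
  have hεM : 8 * (η * MT T) ≤ ε * MT T := by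
    have : 8 * η * MT T ≤ ε * MT T := mul_le_mul_of_nonneg_right (by linarith) hM.le
    linarith
  have hlam0 : 0 ≤ lam T := by linarith
  rcases le_total (NT T) (KK (τ T) T) with h | h
  · have h1 := SX_diff RH hs hlam0 (h0 T) t1.le h
    have h2 := SX_mono (T := T) (τ := τ T) (s := s) h
    constructor
    · nlinarith [g3.1, c1.2, c2.1]
    · nlinarith
  · have h1 := SX_diff RH hs hlam0 (h0 T) t1.le h
    have h2 := SX_mono (T := T) (τ := τ T) (s := s) h
    constructor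
    · nlinarith
    · nlinarith [g3.2, c1.1, c2.2]

/-- **The mean excess of the gaps up to the height `T` decreases along the flow.** -/
theorem exc_mono (RH : RiemannHypothesis) {K s ε : ℝ} (hK : 0 < K) (hs : 0 < s) (hε : 0 < ε) {τ1 τ2 : ℝ → ℝ}
    (h0 : ∀ T, 0 ≤ τ1 T) (h12 : ∀ T, τ1 T ≤ τ2 T) (hτ : ∀ᶠ T in atTop, τ2 T * Real.log T ^ 2 ≤ K) :
    ∀ᶠ T : ℝ in atTop, SX T (τ2 T) s (KK (τ2 T) T) ≤ SX T (τ1 T) s (KK (τ1 T) T) + ε * MT T := by
  have h2 : ∀ T, 0 ≤ τ2 T := fun T => (h0 T).trans (h12 T)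
  have hτ1 : ∀ᶠ T in atTop, τ1 T * Real.log T ^ 2 ≤ K := hτ.mono fun T g =>
    (mul_le_mul_of_nonneg_right (h12 T) (by positivity)).trans g
  filter_upwards [SX_all RH hK hs (show 0 < ε / 3 by positivity), SX_KK RH hK hs.le (show 0 < ε / 3 by positivity) h0 hτ1,
    SX_KK RH hK hs.le (show 0 < ε / 3 by positivity) h2 hτ, hτ] with T g1 g2 g3 g4
  have := g1 (τ1 T) (τ2 T) (h0 T) (h12 T) g4
  linarith [g2.2, g3.1]

/-- the limit of the mean excess under the limit law -/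
theorem exc_lim (RH : RiemannHypothesis) {D0 D1 : ℝ → ℝ} (hD : GD D0 D1) {s : ℝ} (hs : 0 ≤ s) {τ : ℝ → ℝ}
    (h0 : ∀ T, 0 ≤ τ T) (h8 : ∀ T, τ T < 1 / 8) (hGA : GA D1 τ) :
    Tendsto (fun T => SX T (τ T) s (KK (τ T) T) / MT T) atTop (𝓝 (D0 s)) := by
  obtain ⟨K, hK, hb⟩ := ga_bdd RH hD h0 h8 hGA
  have hLC := (ga_iff RH hD hK h0 hb).1 hGA
  have hnn : ∀ᶠ T in atTop, ∀ k, 0 ≤ gg T (τ T) k := by
    filter_upwards [hb, time_ok hK, lam_tendsto.eventually_ge_atTop 1] with T g1 g2 g3 k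
    exact gg_nonneg RH (by linarith) (h0 T) ((g2 (τ T) (h0 T) g1).1.le) k
  have hmean := mean_lim RH hK h0 hb (NTr.mono fun T g => g.1) (NTr.mono fun T g => g.2)
  have h1 := res_lim hD (NT_tendsto.eventually_gt_atTop 0) hnn hLC hmean hs
  have hMpos : ∀ᶠ T in atTop, 0 < MT T := MT_tendsto.eventually_gt_atTop 0
  have hNM : Tendsto (fun T => (NT T : ℝ) / MT T) atTop (𝓝 1) := by
    have h2 : Tendsto (fun T => 1 - 1 / MT T) atTop (𝓝 (1 - 0)) :=
      (MT_tendsto.const_div_atTop 1).const_sub 1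
    rw [sub_zero] at h2
    refine tendsto_of_tendsto_of_tendsto_of_le_of_le' h2 tendsto_const_nhds ?_ ?_
    · filter_upwards [NT_ev, hMpos] with T g1 g2
      rw [le_div_iff₀ g2, sub_mul, div_mul_cancel₀ _ g2.ne']
      linarith [g1.1]
    · filter_upwards [NT_ev, hMpos] with T g1 g2
      rw [div_le_iff₀ g2]
      linarith [g1.2]
  have h3 := h1.mul hNM
  rw [mul_one] at h3
  rw [Metric.tendsto_nhds] at h3 ⊢
  intro ε hε
  filter_upwards [h3 (ε / 2) (half_pos hε), SX_KK RH hK hs (show 0 < ε / 4 by positivity) h0 hb, hMpos,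
    NT_tendsto.eventually_gt_atTop 0] with T g1 g2 g3 g4
  have g4' : (0 : ℝ) < NT T := by exact_mod_cast g4
  have e1 : (∑ k ∈ Finset.range (NT T), max (gg T (τ T) k - s) 0) / (NT T : ℝ) * ((NT T : ℝ) / MT T) =
      SX T (τ T) s (NT T) / MT T := by
    unfold SX
    field_simp
  rw [e1, Real.dist_eq] at g1
  rw [Real.dist_eq]
  have h5 : |SX T (τ T) s (KK (τ T) T) / MT T - SX T (τ T) s (NT T) / MT T| ≤ ε / 4 := by
    rw [← sub_div, abs_div, abs_of_pos g3, div_le_iff₀ g3, abs_le]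
    constructor <;> linarith [g2.1, g2.2]
  have h6 : SX T (τ T) s (KK (τ T) T) / MT T - D0 s = (SX T (τ T) s (KK (τ T) T) / MT T - SX T (τ T) s (NT T) / MT T) +
    (SX T (τ T) s (NT T) / MT T - D0 s) := by ring
  rw [h6]
  exact (abs_add_le _ _).trans_lt (by linarith)

end Pool.Agent.P8H8.HF
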