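import Pool.Agent.P8H8.HF.Fin2
import Pool.Agent.P8H8.HF.Exc

set_option autoImplicit false

/-!
# The concrete form of the mean excess, and the class of laws
-/

namespace Pool.Agent.P8H8.HF

open Filter Topology MeasureTheory
open Pool.Agent.H986R2.DBN (XT Ht)

/-- pairs of consecutive positive zeros -/
def PR3 (t T : ℝ) : Set (ℝ × ℝ) := {p | 0 < p.1 ∧ p.1 < p.2 ∧ Ht t (p.1 : ℂ) = 0 ∧ Ht t (p.2 : ℂ) = 0 ∧
  (∀ y : ℝ, p.1 < y → y < p.2 → Ht t (y : ℂ) ≠ 0) ∧ p.1 / 2 ≤ T}

theorem PR3_image (RH : RiemannHypothesis) {t T : ℝ} (ht : 0 ≤ t) (ht2 : t < 1 / 2) (hT : 1 < T) :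
    PR3 t T = (fun k => ((2 * GG (t / 4) k, 2 * GG (t / 4) (k + 1)) : ℝ × ℝ)) ''
      (((Finset.range (KK (t / 4) T)).filter (fun k => 0 < gg T (t / 4) k) : Finset ℕ) : Set ℕ) ∧
    Set.InjOn (fun k => ((2 * GG (t / 4) k, 2 * GG (t / 4) (k + 1)) : ℝ × ℝ))
      (((Finset.range (KK (t / 4) T)).filter (fun k => 0 < gg T (t / 4) k) : Finset ℕ) : Set ℕ) := by
  classical
  obtain ⟨τ, hτ⟩ : ∃ τ, τ = t / 4 := ⟨_, rfl⟩
  have h0 : 0 ≤ τ := by rw [hτ]; positivity
  have h1 : τ ≤ 1 / 8 := by rw [hτ]; linarith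
  rw [← hτ]
  have hlam : 0 < lam T := by
    unfold lam
    have := Real.log_pos hT
    positivity
  have hz : ∀ x : ℝ, 0 < x → (Ht t (x : ℂ) = 0 ↔ x / 2 ∈ ZZ τ) := by
    intro x hx
    rw [Ht_zero_iff ht, ← hτ]
    constructor
    · intro h
      exact ⟨by positivity, h⟩
    · intro h
      exact h.2
  have hmono := GG_mono RH h0 h1
  have hGpos : ∀ n, 0 < GG τ n := fun n => ((ZZ_GG RH h0 h1 (GG τ n)).2 ⟨n, rfl⟩).1
  have hgap : ∀ j, 0 < gg T τ j → GG τ j < GG τ (j + 1) := by
    intro j h5
    unfold gg at h5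
    have := (mul_pos_iff_of_pos_left hlam).1 h5
    linarith
  constructor
  · ext ⟨x, x'⟩
    constructor
    · rintro ⟨q1, q2, q3, q4, q5, q6⟩
      simp only at q1 q2 q3 q4 q5 q6
      rw [hz x q1] at q3
      have hx' : 0 < x' := q1.trans q2
      rw [hz x' hx'] at q4
      obtain ⟨m, hm⟩ := (ZZ_GG RH h0 h1 _).1 q3
      obtain ⟨m', hm'⟩ := (ZZ_GG RH h0 h1 _).1 q4
      have hm1 : m < KK τ (x / 2) := (KK_spec RH h0 h1 _ _).1 hm.le
      obtain ⟨n, hn⟩ : ∃ n, KK τ (x / 2) = n + 1 := ⟨KK τ (x / 2) - 1, by omega⟩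
      have hn1 : GG τ n ≤ x / 2 := (KK_spec RH h0 h1 _ _).2 (by omega)
      have hn2 : x / 2 < GG τ (n + 1) := by
        rw [← not_le, KK_spec RH h0 h1]
        omega
      have hn3 : GG τ n = x / 2 := by
        apply le_antisymm hn1
        rw [← hm]
        exact hmono (by omega)
      have hmn : n < m' := by
        by_contra hcon
        rw [not_lt] at hcon
        have := hmono hcon
        linarith
      have hn4 : GG τ (n + 1) = x' / 2 := by
        apply le_antisymm
        · rw [← hm']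
          exact hmono (by omega)
        · by_contra hcon
          rw [not_le] at hcon
          refine q5 (2 * GG τ (n + 1)) (by linarith) (by linarith) ?_
          rw [hz _ (by linarith)]
          exact (ZZ_GG RH h0 h1 _).2 ⟨n + 1, by ring⟩
      refine ⟨n, ?_, ?_⟩
      · rw [Finset.mem_coe, Finset.mem_filter, Finset.mem_range]
        refine ⟨?_, ?_⟩
        · rw [← KK_spec RH h0 h1]
          linarith
        · unfold gg
          rw [hn3, hn4]
          apply mul_pos hlam
          linarith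
      · simp only
        rw [hn3, hn4]
        apply Prod.ext
        · simp only
          ring
        · simp only
          ring
    · rintro ⟨k, hk, he⟩
      rw [← he]
      rw [Finset.mem_coe, Finset.mem_filter, Finset.mem_range] at hk
      obtain ⟨hk1, hk2⟩ := hk
      have hk4 := (KK_spec RH h0 h1 T k).2 hk1
      have hg := hgap k hk2
      have hp1 := hGpos k
      have hp2 := hGpos (k + 1)
      refine ⟨by simpa using hp1, by simpa using hg, ?_, ?_, ?_, ?_⟩
      · simp only
        rw [hz _ (by linarith)]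
        exact (ZZ_GG RH h0 h1 _).2 ⟨k, by ring⟩
      · simp only
        rw [hz _ (by linarith)]
        exact (ZZ_GG RH h0 h1 _).2 ⟨k + 1, by ring⟩
      · intro y hy1 hy2
        simp only at hy1 hy2
        rw [Ne, hz y (by linarith)]
        intro hcon
        obtain ⟨m, hm⟩ := (ZZ_GG RH h0 h1 _).1 hcon
        rcases Nat.lt_or_ge k m with h5 | h5
        · have := hmono (show k + 1 ≤ m by omega)
          linarith
        · have := hmono h5
          linarith
      · simp only
        linarith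
  · intro k hk k' hk' he
    rw [Finset.mem_coe, Finset.mem_filter, Finset.mem_range] at hk hk'
    have he1 : GG τ k = GG τ k' := by
      have := congrArg Prod.fst he
      simp only at this
      linarith
    rcases lt_trichotomy k k' with h5 | h5 | h5
    · have h6 := hgap k hk.2
      have h7 := hmono (show k + 1 ≤ k' by omega)
      linarith
    · exact h5
    · have h6 := hgap k' hk'.2
      have h7 := hmono (show k' + 1 ≤ k by omega)
      linarith

theorem excess_eq (RH : RiemannHypothesis) {t T s : ℝ} (ht : 0 ≤ t) (ht2 : t < 1 / 2) (hT : 1 < T) (hs : 0 < s) :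
    ∑ᶠ p ∈ PR3 t T, max ((p.2 - p.1) / 2 * (Real.log T / (2 * Real.pi)) - s) 0 = SX T (t / 4) s (KK (t / 4) T) := by
  classical
  obtain ⟨h1, h2⟩ := PR3_image RH ht ht2 hT
  rw [h1, finsum_mem_image h2, finsum_mem_coe_finset]
  unfold SX
  rw [Finset.sum_filter]
  apply Finset.sum_congr rfl
  intro k _
  have e : (2 * GG (t / 4) (k + 1) - 2 * GG (t / 4) k) / 2 * (Real.log T / (2 * Real.pi)) = gg T (t / 4) k := by
    unfold gg lam
    ring
  simp only [e]
  split_ifs with h3
  · rfl
  · rw [max_eq_right]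
    linarith

/-- laws with continuous distribution function and mean `1` -/
theorem GD_of {F : ℝ → ℝ} (hF : Continuous F) (h0 : F 0 = 0)
    (h1 : Tendsto (fun x => ∫ s in (0 : ℝ)..x, (1 - F s)) atTop (𝓝 1))
    (hm : ∀ a b, 0 ≤ a → a < b → F a ≤ F b) :
    GD (fun x => 1 - ∫ s in (0 : ℝ)..x, (1 - F s)) (fun x => F x - 1) := by
  have hc : Continuous (fun s => 1 - F s) := by fun_prop
  have hd : ∀ x, HasDerivAt (fun x => 1 - ∫ s in (0 : ℝ)..x, (1 - F s)) (F x - 1) x := by
    intro x
    have h2 := (intervalIntegral.integral_hasDerivAt_right (hc.intervalIntegrable 0 x)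
      (hc.stronglyMeasurableAtFilter _ _) hc.continuousAt).const_sub 1
    rw [neg_sub] at h2
    exact h2
  have hlim : Tendsto (fun x => 1 - ∫ s in (0 : ℝ)..x, (1 - F s)) atTop (𝓝 0) := by
    have h2 := h1.const_sub 1
    rw [sub_self] at h2
    exact h2
  -- `F ≤ 1`
  have hle : ∀ x, 0 ≤ x → F x ≤ 1 := by
    intro x hx
    by_contra hcon
    rw [not_le] at hcon
    have h3 : ∀ᶠ y in atTop, ∫ s in (0 : ℝ)..y, (1 - F s) ≤ (∫ s in (0 : ℝ)..x, (1 - F s)) + (y - x) * (1 - F x) := by
      filter_upwards [eventually_gt_atTop x] with y hy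
      rw [← intervalIntegral.integral_add_adjacent_intervals (hc.intervalIntegrable 0 x) (hc.intervalIntegrable x y)]
      have h4 : ∫ s in x..y, (1 - F s) ≤ ∫ s in x..y, (1 - F x) := by
        apply intervalIntegral.integral_mono_on hy.le (hc.intervalIntegrable _ _) (by simp)
        intro s hs
        rcases hs.1.eq_or_lt with h5 | h5
        · rw [h5]
        · linarith [hm x s hx h5]
      rw [intervalIntegral.integral_const, smul_eq_mul] at h4
      linarith
    have h5 : Tendsto (fun y : ℝ => (∫ s in (0 : ℝ)..x, (1 - F s)) + (y - x) * (1 - F x)) atTop atBot := by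
      apply tendsto_atBot_add_const_left
      have h6 : Tendsto (fun y : ℝ => y - x) atTop atTop := tendsto_atTop_add_const_right _ _ tendsto_id
      exact h6.atTop_mul_const_of_neg (by linarith)
    have h7 := tendsto_atBot_mono' atTop h3 h5
    exact not_tendsto_nhds_of_tendsto_atBot h7 1 h1
  have hmono : ∀ x y, 0 ≤ x → x ≤ y → ∫ s in (0 : ℝ)..x, (1 - F s) ≤ ∫ s in (0 : ℝ)..y, (1 - F s) := by
    intro x y hx hxy
    rw [← intervalIntegral.integral_add_adjacent_intervals (hc.intervalIntegrable 0 x) (hc.intervalIntegrable x y)]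
    have : 0 ≤ ∫ s in x..y, (1 - F s) := by
      apply intervalIntegral.integral_nonneg hxy
      intro s hs
      linarith [hle s (hx.trans hs.1)]
    linarith
  refine ⟨hd, by fun_prop, by simp, by simp [h0], fun s hs => ⟨?_, ?_⟩, hlim⟩
  · have h2 : ∀ᶠ y in atTop, ∫ s in (0 : ℝ)..s, (1 - F s) ≤ ∫ s in (0 : ℝ)..y, (1 - F s) := by
      filter_upwards [eventually_ge_atTop s] with y hy
      exact hmono s y hs.le hy
    have := ge_of_tendsto h1 h2
    linarith
  · have := hmono 0 s le_rfl hs.le
    simp only [intervalIntegral.integral_same] at this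
    linarith

end Pool.Agent.P8H8.HF
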