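import Mathlib

set_option autoImplicit false

/-!
# The exchange inequality for the gaps of a configuration of points on the line
-/

namespace Pool.Agent.P8H8.HF

open Finset

/-- the gap after the `k`-th point -/
def gp (y : ℤ → ℝ) (k : ℤ) : ℝ := y (k + 1) - y k

/-- the exchange coefficient -/
noncomputable def cf (y : ℤ → ℝ) (i k : ℤ) : ℝ := ((y k - y i) * (y (k + 1) - y (i + 1)))⁻¹

lemma gp_pos {y : ℤ → ℝ} (hy : StrictMono y) (k : ℤ) : 0 < gp y k := sub_pos.2 (hy (by omega))

lemma cf_symm (y : ℤ → ℝ) (i k : ℤ) : cf y i k = cf y k i := by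
  unfold cf
  congr 1
  ring

lemma cf_pos {y : ℤ → ℝ} (hy : StrictMono y) {i k : ℤ} (h : i < k) : 0 < cf y i k := by
  unfold cf
  have h1 : 0 < y k - y i := sub_pos.2 (hy h)
  have h2 : 0 < y (k + 1) - y (i + 1) := sub_pos.2 (hy (by omega))
  positivity

lemma tele (f : ℤ → ℝ) {A a : ℤ} (h : A ≤ a) : ∑ i ∈ Ico A a, (f (i + 1) - f i) = f a - f A := by
  induction a, h using Int.leInduction with
  | base => simp
  | succ n hn ih =>
    have e : Ico A (n + 1) = insert n (Ico A n) := by
      ext i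
      simp only [mem_insert, mem_Ico]
      omega
    rw [e, sum_insert (by simp), ih]
    ring

/-- one term of the flux through the boundary -/
lemma flux_term {s d gi gk : ℝ} (hs : 0 < s) (hd : 0 ≤ d) (hgi : 0 < gi) (hgk : s < gk) :
    (gi - gk) * ((gi + d) * (gk + d))⁻¹ ≤ 2 * ((s + d)⁻¹ - (s + (d + gi))⁻¹) := by
  have hgk0 : 0 < gk := hs.trans hgk
  have hr : 0 ≤ 2 * ((s + d)⁻¹ - (s + (d + gi))⁻¹) := by
    have : (s + (d + gi))⁻¹ ≤ (s + d)⁻¹ := inv_anti₀ (by positivity) (by linarith)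
    linarith
  rcases le_or_gt gi gk with h | h
  · refine le_trans ?_ hr
    apply mul_nonpos_of_nonpos_of_nonneg (by linarith)
    positivity
  · have e : 2 * ((s + d)⁻¹ - (s + (d + gi))⁻¹) = (2 * gi) / ((s + d) * (s + (d + gi))) := by
      field_simp
      ring
    rw [e, ← div_eq_mul_inv, div_le_div_iff₀ (by positivity) (by positivity)]
    have h1 : s + (d + gi) ≤ 2 * (gi + d) := by linarith
    have h2 : (s + d) * (s + (d + gi)) ≤ (gk + d) * (2 * (gi + d)) :=
      mul_le_mul (by linarith) h1 (by positivity) (by positivity)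
    calc (gi - gk) * ((s + d) * (s + (d + gi))) ≤ gi * ((s + d) * (s + (d + gi))) := by
          apply mul_le_mul_of_nonneg_right (by linarith) (by positivity)
      _ ≤ gi * ((gk + d) * (2 * (gi + d))) := mul_le_mul_of_nonneg_left h2 hgi.le
      _ = 2 * gi * ((gi + d) * (gk + d)) := by ring

/-- comparison with a logarithm -/
lemma inv_le_log {s x g : ℝ} (hs : 0 < s) (hx : s ≤ x) (hg : s < g) :
    x⁻¹ ≤ 2 / s * (Real.log (x + g) - Real.log x) := by
  have hx0 : 0 < x := hs.trans_le hx
  have h1 : Real.log (x + s) ≤ Real.log (x + g) := Real.log_le_log (by positivity) (by linarith)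
  have h2 : s / (2 * x) ≤ Real.log (x + s) - Real.log x := by
    rw [← Real.log_div (by positivity) hx0.ne']
    have h3 := Real.one_sub_inv_le_log_of_pos (x := (x + s) / x) (by positivity)
    refine le_trans ?_ h3
    have e : 1 - ((x + s) / x)⁻¹ = s / (x + s) := by
      field_simp
      ring
    rw [e]
    apply div_le_div_of_nonneg_left hs.le (by positivity) (by linarith)
  calc x⁻¹ = 2 / s * (s / (2 * x)) := by field_simp
    _ ≤ 2 / s * (Real.log (x + g) - Real.log x) := by
        apply mul_le_mul_of_nonneg_left (by linarith) (by positivity)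

lemma flux_left {y : ℤ → ℝ} (hy : StrictMono y) {s : ℝ} (hs : 0 < s) {A a k : ℤ} (hA : A ≤ a) (hk : a ≤ k)
    (hg : s < gp y k) : ∑ i ∈ Ico A a, (gp y i - gp y k) * cf y i k ≤ 2 * (s + (y k - y a))⁻¹ := by
  have h1 : ∀ i ∈ Ico A a, (gp y i - gp y k) * cf y i k ≤
      2 * ((s + (y k - y (i + 1)))⁻¹ - (s + (y k - y i))⁻¹) := by
    intro i hi
    rw [mem_Ico] at hi
    have hd : 0 ≤ y k - y (i + 1) := sub_nonneg.2 (hy.monotone (by omega))
    have h2 := flux_term hs hd (gp_pos hy i) hg
    have e1 : gp y i + (y k - y (i + 1)) = y k - y i := by unfold gp; ring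
    have e2 : gp y k + (y k - y (i + 1)) = y (k + 1) - y (i + 1) := by unfold gp; ring
    have e3 : s + (y k - y (i + 1) + gp y i) = s + (y k - y i) := by unfold gp; ring
    rw [e1, e2, e3] at h2
    exact h2
  refine (sum_le_sum h1).trans ?_
  rw [← mul_sum]
  have h3 := tele (fun i => (s + (y k - y i))⁻¹) hA
  rw [h3]
  have h4 : 0 ≤ (s + (y k - y A))⁻¹ := by
    have : 0 ≤ y k - y A := sub_nonneg.2 (hy.monotone (by omega))
    positivity
  linarith

lemma flux_right {y : ℤ → ℝ} (hy : StrictMono y) {s : ℝ} (hs : 0 < s) {B b k : ℤ} (hB : b ≤ B) (hk : k < b)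
    (hg : s < gp y k) : ∑ i ∈ Ico b B, (gp y i - gp y k) * cf y i k ≤ 2 * (s + (y b - y (k + 1)))⁻¹ := by
  have h1 : ∀ i ∈ Ico b B, (gp y i - gp y k) * cf y i k ≤
      -(2 * ((s + (y (i + 1) - y (k + 1)))⁻¹ - (s + (y i - y (k + 1)))⁻¹)) := by
    intro i hi
    rw [mem_Ico] at hi
    have hd : 0 ≤ y i - y (k + 1) := sub_nonneg.2 (hy.monotone (by omega))
    have h2 := flux_term hs hd (gp_pos hy i) hg
    have e1 : (gp y i + (y i - y (k + 1))) * (gp y k + (y i - y (k + 1))) =
        (y k - y i) * (y (k + 1) - y (i + 1)) := by unfold gp; ring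
    have e3 : s + (y i - y (k + 1) + gp y i) = s + (y (i + 1) - y (k + 1)) := by unfold gp; ring
    rw [e1, e3] at h2
    refine h2.trans (le_of_eq ?_)
    ring
  refine (sum_le_sum h1).trans ?_
  rw [sum_neg_distrib, ← mul_sum]
  have h3 := tele (fun i => (s + (y i - y (k + 1)))⁻¹) hB
  rw [h3]
  have h4 : 0 ≤ (s + (y B - y (k + 1)))⁻¹ := by
    have : 0 ≤ y B - y (k + 1) := sub_nonneg.2 (hy.monotone (by omega))
    positivity
  linarith

lemma total_left {y : ℤ → ℝ} (hy : StrictMono y) {s : ℝ} (hs : 0 < s) {a b : ℤ} (hab : a ≤ b) :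
    ∑ k ∈ Ico a b, (if s < gp y k then (s + (y k - y a))⁻¹ else 0) ≤ 2 / s * Real.log (1 + (y b - y a) / s) := by
  have h1 : ∀ k ∈ Ico a b, (if s < gp y k then (s + (y k - y a))⁻¹ else 0) ≤
      2 / s * (Real.log (s + (y (k + 1) - y a)) - Real.log (s + (y k - y a))) := by
    intro k hk
    rw [mem_Ico] at hk
    have hd : 0 ≤ y k - y a := sub_nonneg.2 (hy.monotone hk.1)
    split_ifs with h
    · have h2 := inv_le_log hs (x := s + (y k - y a)) (by linarith) h
      have e : s + (y k - y a) + gp y k = s + (y (k + 1) - y a) := by unfold gp; ring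
      rw [e] at h2
      exact h2
    · have h3 : Real.log (s + (y k - y a)) ≤ Real.log (s + (y (k + 1) - y a)) :=
        Real.log_le_log (by positivity) (by have := gp_pos hy k; unfold gp at this; linarith)
      have : 0 ≤ 2 / s := by positivity
      exact mul_nonneg this (by linarith)
  refine (sum_le_sum h1).trans (le_of_eq ?_)
  rw [← mul_sum]
  have h3 := tele (fun i => Real.log (s + (y i - y a))) hab
  have hd : 0 ≤ y b - y a := sub_nonneg.2 (hy.monotone hab)
  rw [h3, sub_self, add_zero, ← Real.log_div (by positivity) hs.ne']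
  congr 2
  field_simp

lemma total_right {y : ℤ → ℝ} (hy : StrictMono y) {s : ℝ} (hs : 0 < s) {a b : ℤ} (hab : a ≤ b) :
    ∑ k ∈ Ico a b, (if s < gp y k then (s + (y b - y (k + 1)))⁻¹ else 0) ≤
      2 / s * Real.log (1 + (y b - y a) / s) := by
  have h1 : ∀ k ∈ Ico a b, (if s < gp y k then (s + (y b - y (k + 1)))⁻¹ else 0) ≤
      -(2 / s * (Real.log (s + (y b - y (k + 1))) - Real.log (s + (y b - y k)))) := by
    intro k hk
    rw [mem_Ico] at hk
    have hd : 0 ≤ y b - y (k + 1) := sub_nonneg.2 (hy.monotone (by omega))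
    split_ifs with h
    · have h2 := inv_le_log hs (x := s + (y b - y (k + 1))) (by linarith) h
      have e : s + (y b - y (k + 1)) + gp y k = s + (y b - y k) := by unfold gp; ring
      rw [e] at h2
      refine h2.trans (le_of_eq ?_)
      ring
    · have h3 : Real.log (s + (y b - y (k + 1))) ≤ Real.log (s + (y b - y k)) :=
        Real.log_le_log (by positivity) (by have := gp_pos hy k; unfold gp at this; linarith)
      have : 0 ≤ 2 / s := by positivity
      rw [← mul_neg]
      exact mul_nonneg this (by linarith)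
  refine (sum_le_sum h1).trans (le_of_eq ?_)
  rw [sum_neg_distrib, ← mul_sum]
  have h3 := tele (fun i => Real.log (s + (y b - y i))) hab
  have hd : 0 ≤ y b - y a := sub_nonneg.2 (hy.monotone hab)
  rw [h3, sub_self, add_zero, ← mul_neg, neg_sub, ← Real.log_div (by positivity) hs.ne']
  congr 2
  field_simp

/-- the interior exchange -/
lemma interior {y : ℤ → ℝ} (hy : StrictMono y) {ψ : ℝ → ℝ} (hm : Monotone ψ) {a b : ℤ} :
    ∑ k ∈ Ico a b, ψ (gp y k) * ∑ i ∈ (Ico a b).erase k, (gp y i - gp y k) * cf y i k ≤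
      -∑ k ∈ Ico a (b - 1), (ψ (gp y (k + 1)) - ψ (gp y k)) * (gp y (k + 1) - gp y k) /
        (gp y k * gp y (k + 1)) := by
  obtain ⟨F, hF⟩ : ∃ F : ℤ → ℤ → ℝ, F = fun i k => ψ (gp y k) * ((gp y i - gp y k) * cf y i k) := ⟨_, rfl⟩
  have e1 : ∑ k ∈ Ico a b, ψ (gp y k) * ∑ i ∈ (Ico a b).erase k, (gp y i - gp y k) * cf y i k =
      ∑ k ∈ Ico a b, ∑ i ∈ Ico a k, (F i k + F k i) := by
    have e2 : ∀ k ∈ Ico a b, ψ (gp y k) * ∑ i ∈ (Ico a b).erase k, (gp y i - gp y k) * cf y i k =
        ∑ i ∈ Ico a k, F i k + ∑ i ∈ Ico (k + 1) b, F i k := by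
      intro k hk
      rw [mem_Ico] at hk
      rw [mul_sum]
      have e3 : (Ico a b).erase k = Ico a k ∪ Ico (k + 1) b := by
        ext i
        simp only [mem_erase, mem_Ico, mem_union]
        omega
      rw [e3, sum_union (by
        rw [disjoint_left]
        intro i hi hi'
        rw [mem_Ico] at hi hi'
        omega), hF]
    rw [sum_congr rfl e2, sum_add_distrib]
    simp_rw [sum_add_distrib]
    congr 1
    apply sum_comm'
    intro x z
    simp only [mem_Ico]
    omega
  rw [e1, ← sum_neg_distrib]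
  have h1 : ∀ i k : ℤ, i < k → F i k + F k i =
      -((ψ (gp y k) - ψ (gp y i)) * (gp y k - gp y i) * cf y i k) := by
    intro i k _
    rw [hF]
    simp only
    rw [cf_symm y k i]
    ring
  have h2 : ∀ i k : ℤ, i < k → F i k + F k i ≤ 0 := by
    intro i k hik
    rw [h1 i k hik]
    have h3 : 0 ≤ (ψ (gp y k) - ψ (gp y i)) * (gp y k - gp y i) := by
      rcases le_total (gp y k) (gp y i) with h | h
      · exact mul_nonneg_of_nonpos_of_nonpos (by linarith [hm h]) (by linarith)
      · exact mul_nonneg (by linarith [hm h]) (by linarith)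
    have := mul_nonneg h3 (cf_pos hy hik).le
    linarith
  -- only the neighbours
  have h4 : ∀ k ∈ Ico a b, ∑ i ∈ Ico a k, (F i k + F k i) ≤
      if a < k then F (k - 1) k + F k (k - 1) else 0 := by
    intro k _
    split_ifs with hk
    · have hmem : k - 1 ∈ Ico a k := by rw [mem_Ico]; omega
      rw [← add_sum_erase _ _ hmem]
      have h5 : ∑ i ∈ (Ico a k).erase (k - 1), (F i k + F k i) ≤ 0 := by
        apply sum_nonpos
        intro i hi
        rw [mem_erase, mem_Ico] at hi
        exact h2 i k hi.2.2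
      linarith
    · apply sum_nonpos
      intro i hi
      rw [mem_Ico] at hi
      exact h2 i k hi.2
  refine (sum_le_sum h4).trans (le_of_eq ?_)
  rw [← sum_filter]
  have e5 : (Ico a b).filter (fun k => a < k) = (Ico a (b - 1)).image (fun k => k + 1) := by
    ext k
    simp only [mem_filter, mem_Ico, mem_image]
    constructor
    · rintro ⟨⟨h1, h2⟩, h3⟩
      exact ⟨k - 1, by omega, by omega⟩
    · rintro ⟨j, hj, rfl⟩
      omega
  rw [e5, sum_image (fun x _ z _ hxz => by omega)]
  apply sum_congr rfl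
  intro k _
  rw [add_sub_cancel_right]
  rw [h1 k (k + 1) (by omega)]
  have e6 : cf y k (k + 1) = (gp y k * gp y (k + 1))⁻¹ := by
    unfold cf gp
    rfl
  rw [e6, div_eq_mul_inv]

/-- **The exchange inequality.** -/
theorem window {y : ℤ → ℝ} (hy : StrictMono y) {ψ : ℝ → ℝ} (hm : Monotone ψ) {h s : ℝ} (hs : 0 < s)
    (h0 : ∀ x, 0 ≤ ψ x) (hh : ∀ x, ψ x ≤ h) (hψ : ∀ x, x ≤ s → ψ x = 0) {a b A B : ℤ} (hab : a ≤ b)
    (hA : A ≤ a) (hB : b ≤ B) :
    ∑ k ∈ Ico a b, ψ (gp y k) * ∑ i ∈ (Ico A B).erase k, (gp y i - gp y k) * cf y i k ≤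
      -(∑ k ∈ Ico a (b - 1), (ψ (gp y (k + 1)) - ψ (gp y k)) * (gp y (k + 1) - gp y k) /
        (gp y k * gp y (k + 1))) + 8 * h / s * Real.log (1 + (y b - y a) / s) := by
  have hh0 : 0 ≤ h := (h0 0).trans (hh 0)
  have e1 : ∀ k ∈ Ico a b, ψ (gp y k) * ∑ i ∈ (Ico A B).erase k, (gp y i - gp y k) * cf y i k =
      ψ (gp y k) * ∑ i ∈ (Ico a b).erase k, (gp y i - gp y k) * cf y i k +
      (ψ (gp y k) * ∑ i ∈ Ico A a, (gp y i - gp y k) * cf y i k +
        ψ (gp y k) * ∑ i ∈ Ico b B, (gp y i - gp y k) * cf y i k) := by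
    intro k hk
    rw [mem_Ico] at hk
    have e2 : (Ico A B).erase k = (Ico a b).erase k ∪ (Ico A a ∪ Ico b B) := by
      ext i
      simp only [mem_erase, mem_Ico, mem_union]
      omega
    rw [e2, sum_union (by
      rw [disjoint_left]
      intro i hi hi'
      simp only [mem_erase, mem_Ico, mem_union] at hi hi'
      omega), sum_union (by
      rw [disjoint_left]
      intro i hi hi'
      rw [mem_Ico] at hi hi'
      omega), mul_add, mul_add]
  rw [sum_congr rfl e1, sum_add_distrib, sum_add_distrib]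
  have h1 := interior hy hm (a := a) (b := b)
  have h2 : ∑ k ∈ Ico a b, ψ (gp y k) * ∑ i ∈ Ico A a, (gp y i - gp y k) * cf y i k ≤
      2 * h * (2 / s * Real.log (1 + (y b - y a) / s)) := by
    refine le_trans (sum_le_sum (g := fun k => 2 * h * (if s < gp y k then (s + (y k - y a))⁻¹ else 0)) ?_) ?_
    · intro k hk
      rw [mem_Ico] at hk
      split_ifs with h3
      · have h4 := flux_left hy hs hA hk.1 h3
        have h5 : 0 ≤ 2 * (s + (y k - y a))⁻¹ := by
          have : 0 ≤ y k - y a := sub_nonneg.2 (hy.monotone hk.1)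
          positivity
        calc ψ (gp y k) * ∑ i ∈ Ico A a, (gp y i - gp y k) * cf y i k
            ≤ ψ (gp y k) * (2 * (s + (y k - y a))⁻¹) := mul_le_mul_of_nonneg_left h4 (h0 _)
          _ ≤ h * (2 * (s + (y k - y a))⁻¹) := mul_le_mul_of_nonneg_right (hh _) h5
          _ = _ := by ring
      · rw [hψ _ (not_lt.1 h3), zero_mul, mul_zero]
    · rw [← mul_sum]
      exact mul_le_mul_of_nonneg_left (total_left hy hs hab) (by positivity)
  have h3 : ∑ k ∈ Ico a b, ψ (gp y k) * ∑ i ∈ Ico b B, (gp y i - gp y k) * cf y i k ≤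
      2 * h * (2 / s * Real.log (1 + (y b - y a) / s)) := by
    refine le_trans (sum_le_sum (g := fun k => 2 * h *
      (if s < gp y k then (s + (y b - y (k + 1)))⁻¹ else 0)) ?_) ?_
    · intro k hk
      rw [mem_Ico] at hk
      split_ifs with h3
      · have h4 := flux_right hy hs hB hk.2 h3
        have h5 : 0 ≤ 2 * (s + (y b - y (k + 1)))⁻¹ := by
          have : 0 ≤ y b - y (k + 1) := sub_nonneg.2 (hy.monotone (by omega))
          positivity
        calc ψ (gp y k) * ∑ i ∈ Ico b B, (gp y i - gp y k) * cf y i k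
            ≤ ψ (gp y k) * (2 * (s + (y b - y (k + 1)))⁻¹) := mul_le_mul_of_nonneg_left h4 (h0 _)
          _ ≤ h * (2 * (s + (y b - y (k + 1)))⁻¹) := mul_le_mul_of_nonneg_right (hh _) h5
          _ = _ := by ring
      · rw [hψ _ (not_lt.1 h3), zero_mul, mul_zero]
    · rw [← mul_sum]
      exact mul_le_mul_of_nonneg_left (total_right hy hs hab) (by positivity)
  have e7 : 8 * h / s * Real.log (1 + (y b - y a) / s) =
      2 * h * (2 / s * Real.log (1 + (y b - y a) / s)) + 2 * h * (2 / s * Real.log (1 + (y b - y a) / s)) := by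
    ring
  rw [e7]
  linarith

end Pool.Agent.P8H8.HF
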