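import Pool.Agent.P8H8.HF.Cnt2

set_option autoImplicit false

/-!
# The gaps at a large microscopic time
-/

namespace Pool.Agent.P8H8.HF

open Filter Topology Set

lemma MT_tendsto : Tendsto MT atTop atTop := by
  have h1 : Tendsto (fun T : ℝ => T * lam T) atTop atTop := tendsto_id.atTop_mul_atTop₀ lam_tendsto
  exact h1.congr (fun T => (MT_eq T).symm)

lemma time_ok {K3 : ℝ} (hK30 : 0 < K3) : ∀ᶠ T : ℝ in atTop, ∀ τ : ℝ, 0 ≤ τ → τ * Real.log T ^ 2 ≤ K3 →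
    τ < 1 / 8 ∧ τ * lam T ^ 2 ≤ K3 ∧ τ * Real.log T ≤ 1 := by
  filter_upwards [Real.tendsto_log_atTop.eventually_ge_atTop (8 * K3 + 1)] with T g4
  intro τ h0 h1
  have hpi := Real.pi_gt_three
  have hlog1 : 1 ≤ Real.log T := by linarith
  have hlam2 : lam T ^ 2 * (2 * Real.pi) ^ 2 = Real.log T ^ 2 := by
    unfold lam
    field_simp
  have hlamlog : lam T ^ 2 ≤ Real.log T ^ 2 := by
    rw [← hlam2]
    have h1 : (1 : ℝ) ≤ (2 * Real.pi) ^ 2 := by nlinarith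
    nlinarith [sq_nonneg (lam T)]
  have h2 : τ * Real.log T ≤ τ * Real.log T ^ 2 := by
    apply mul_le_mul_of_nonneg_left _ h0
    nlinarith
  have h3 : τ * (8 * K3 + 1) * 1 ≤ τ * Real.log T * Real.log T := by
    apply mul_le_mul _ hlog1 (by norm_num) (by positivity)
    exact mul_le_mul_of_nonneg_left g4 h0
  have h4 : τ * (8 * K3 + 1) ≤ K3 := by nlinarith
  have h5 : τ < 1 / 8 := by
    by_contra hcon
    rw [not_lt] at hcon
    nlinarith
  refine ⟨h5, (mul_le_mul_of_nonneg_left hlamlog h0).trans h1, ?_⟩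
  have h6 : τ * Real.log T * (8 * K3 + 1) ≤ τ * Real.log T * Real.log T :=
    mul_le_mul_of_nonneg_left g4 (by positivity)
  by_contra hcon
  rw [not_le] at hcon
  nlinarith

/-- the rescaled gaps -/
noncomputable def gg (T τ : ℝ) (k : ℕ) : ℝ := lam T * (GG τ (k + 1) - GG τ k)

lemma gg_nonneg (RH : RiemannHypothesis) {T τ : ℝ} (hT : 0 ≤ lam T) (h0 : 0 ≤ τ) (h1 : τ ≤ 1 / 8) (k : ℕ) :
    0 ≤ gg T τ k := by
  unfold gg
  have := GG_mono RH h0 h1 (Nat.le_succ k)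
  exact mul_nonneg hT (by linarith)

lemma gg_sum (T τ : ℝ) (N : ℕ) : ∑ k ∈ Finset.range N, gg T τ k = lam T * (GG τ N - GG τ 0) := by
  unfold gg
  rw [← Finset.mul_sum, tele_nat]

theorem crystal (RH : RiemannHypothesis) (κ : ℝ) (hκ : 0 < κ) (hκ1 : κ ≤ 1 / 2) : ∃ K1 : ℝ, 0 < K1 ∧
    ∀ K3 : ℝ, K1 ≤ K3 → ∀ᶠ T : ℝ in atTop, ∀ τ : ℝ, 0 < τ → K1 ≤ τ * Real.log T ^ 2 → τ * Real.log T ^ 2 ≤ K3 →
    ∀ N : ℕ, MT T / 2 ≤ N → (N : ℝ) ≤ 2 * MT T → ∑ k ∈ Finset.range N, |gg T τ k - 1| ≤ κ * N := by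
  obtain ⟨K1, hK1, hbad⟩ := bad_count RH (κ / 400) (by positivity) (by linarith)
  refine ⟨K1, hK1, fun K3 hK3 => ?_⟩
  filter_upwards [hbad, count_unif RH K3 (κ / 4) (by linarith) (by positivity) (by linarith),
    time_ok (show 0 < K3 by linarith), lam_tendsto.eventually_ge_atTop 1, MT_tendsto.eventually_ge_atTop 1]
    with T g1 g2 g3 g4 g5
  intro τ hτ hτ1 hτ3 N hN1 hN2
  obtain ⟨t1, t2, t3⟩ := g3 τ hτ.le hτ3
  obtain ⟨c1, c2⟩ := g2 τ hτ.le hτ3 N hN1 hN2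
  have hlam0 : 0 < lam T := by linarith
  have hN0 : (0 : ℝ) < N := by linarith
  rw [abs_le] at c1
  have hGN : GG τ N ≤ 3 * T := by
    have hMTN : MT T = T * lam T := MT_eq T
    have h2 : lam T * GG τ N ≤ lam T * (3 * T) := by nlinarith
    exact le_of_mul_le_mul_left h2 hlam0
  have hb := g1 τ hτ hτ1 t3 N hGN
  have hb2 : (((Finset.range N).filter (fun k => gg T τ k < 1 - 2 * (κ / 400))).card : ℝ) ≤
      κ / 4 * N := by
    refine hb.trans ?_
    have h1 : T * Real.log T = 2 * Real.pi * MT T := by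
      unfold MT
      field_simp
    rw [h1]
    have hpi4 : Real.pi < 3.15 := Real.pi_lt_d2
    have h2 : MT T ≤ 2 * N := by linarith
    have h3 : 0 ≤ MT T := by linarith
    have h4 : 2 * Real.pi * MT T ≤ 6.3 * (2 * N) := by
      apply mul_le_mul (by linarith) h2 h3 (by norm_num)
    nlinarith
  have h1 := sum_abs (g := gg T τ) (N := N) (fun k => gg_nonneg RH hlam0.le hτ.le t1.le k)
    (c := 2 * (κ / 400)) (b := κ / 4 * N) (by positivity) hb2
  rw [gg_sum] at h1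
  nlinarith

end Pool.Agent.P8H8.HF
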