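import Pool.Agent.P8H8.HF.Law2
import Pool.Agent.P8H8.HF.Cnt3

set_option autoImplicit false

/-!
# The law of the gaps cannot be the same at two different microscopic times
-/

namespace Pool.Agent.P8H8.HF

open Filter Topology

/-- number of gaps -/
noncomputable def NT (T : ℝ) : ℕ := ⌊MT T⌋₊

lemma NT_ev : ∀ᶠ T : ℝ in atTop, MT T - 1 ≤ NT T ∧ (NT T : ℝ) ≤ MT T := by
  filter_upwards [MT_tendsto.eventually_ge_atTop 0] with T hT
  unfold NT
  exact ⟨by have := Nat.lt_floor_add_one (MT T); linarith, Nat.floor_le hT⟩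

lemma NT_tendsto : Tendsto NT atTop atTop := tendsto_nat_floor_atTop.comp MT_tendsto

lemma NT_tendsto' : Tendsto (fun T => (NT T : ℝ)) atTop atTop := tendsto_natCast_atTop_atTop.comp NT_tendsto

lemma sum_int (f : ℤ → ℝ) (N : ℕ) : ∑ k ∈ Finset.Ico (0 : ℤ) N, f k = ∑ k ∈ Finset.range N, f (k : ℤ) := by
  have e : Finset.Ico (0 : ℤ) N = (Finset.range N).image (fun k : ℕ => (k : ℤ)) := by
    ext i
    simp only [Finset.mem_Ico, Finset.mem_image, Finset.mem_range]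
    constructor
    · rintro ⟨h1, h2⟩
      exact ⟨i.toNat, by omega, by omega⟩
    · rintro ⟨j, hj, rfl⟩
      omega
  rw [e, Finset.sum_image (by intro a _ b _ hab; simpa using hab)]

lemma gp_YS {T τ : ℝ} (hT : 0 < lam T) (hτ : 0 < τ) (k : ℕ) : gp (YS T (τ * lam T ^ 2)) (k : ℤ) = gg T τ k := by
  unfold gp gg
  have h1 := YS_nat hT hτ (k + 1)
  push_cast at h1
  rw [h1, YS_nat hT hτ]
  ring

lemma mean_lim (RH : RiemannHypothesis) {K : ℝ} (hK : 0 < K) {τ : ℝ → ℝ} (h0 : ∀ T, 0 ≤ τ T)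
    (hτ : ∀ᶠ T in atTop, τ T * Real.log T ^ 2 ≤ K) {N : ℝ → ℕ}
    (hN1 : ∀ᶠ T in atTop, MT T / 2 ≤ N T) (hN2 : ∀ᶠ T in atTop, (N T : ℝ) ≤ 2 * MT T) :
    Tendsto (fun T => (∑ k ∈ Finset.range (N T), gg T (τ T) k) / N T) atTop (𝓝 1) := by
  rw [Metric.tendsto_nhds]
  intro ε hε
  obtain ⟨η, hη⟩ : ∃ η, η = min (ε / 2) (1 / 2) := ⟨_, rfl⟩
  have hη0 : 0 < η := by rw [hη]; positivity
  have hη1 : η ≤ 1 / 2 := by rw [hη]; exact min_le_right _ _
  have hη2 : η ≤ ε / 2 := by rw [hη]; exact min_le_left _ _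
  filter_upwards [count_unif RH K η hK hη0 hη1, hτ, hN1, hN2, MT_tendsto.eventually_ge_atTop 1] with T g1 g2 g3 g4 g5
  obtain ⟨h1, -⟩ := g1 (τ T) (h0 T) g2 (N T) g3 g4
  have hN0 : (0 : ℝ) < N T := by linarith
  rw [gg_sum, Real.dist_eq]
  have e : lam T * (GG (τ T) (N T) - GG (τ T) 0) / (N T : ℝ) - 1 =
      (lam T * (GG (τ T) (N T) - GG (τ T) 0) - N T) / N T := by field_simp
  rw [e, abs_div, abs_of_pos hN0, div_lt_iff₀ hN0]
  nlinarith

theorem rig (RH : RiemannHypothesis) {D0 D1 : ℝ → ℝ} (hD : GD D0 D1) {K : ℝ} (hK : 0 < K) {τ1 τ2 : ℝ → ℝ}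
    (h1 : ∀ T, 0 < τ1 T) (h2 : ∀ T, 0 ≤ τ2 T) (hK1 : ∀ᶠ T in atTop, τ1 T * Real.log T ^ 2 ≤ K)
    (hK2 : ∀ᶠ T in atTop, τ2 T * Real.log T ^ 2 ≤ K)
    (hL1 : LC D1 NT (fun T => gg T (τ1 T))) (hL2 : LC D1 NT (fun T => gg T (τ2 T))) {c κ : ℝ} (hc : 0 < c)
    (hκ : 0 < κ) : ∀ᶠ T in atTop, c ≤ (τ2 T - τ1 T) * Real.log T ^ 2 →
      ∑ k ∈ Finset.range (NT T), max (gg T (τ2 T) k - 1) 0 ≤ κ * NT T := by
  obtain ⟨κ0, hκ0⟩ : ∃ κ0, κ0 = min κ (1 / 2) / 40 := ⟨_, rfl⟩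
  have hκ0p : 0 < κ0 := by rw [hκ0]; positivity
  have hκ0a : κ0 ≤ 1 / 80 := by rw [hκ0]; have := min_le_right κ (1 / 2); linarith
  have hκ0b : 40 * κ0 ≤ κ := by rw [hκ0]; have := min_le_left κ (1 / 2); linarith
  obtain ⟨K1, hK1p, hcry⟩ := crystal RH κ0 hκ0p (by linarith)
  obtain ⟨Θ, hΘ⟩ : ∃ Θ, Θ = K1 + K := ⟨_, rfl⟩
  have hΘ0 : 0 < Θ := by linarith
  obtain ⟨S, hS⟩ : ∃ S, S = Real.sqrt (8 * Θ) := ⟨_, rfl⟩
  have hS0 : 0 ≤ S := by rw [hS]; exact Real.sqrt_nonneg _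
  obtain ⟨C0, hC0⟩ : ∃ C0, C0 = 64 / κ0 * Θ * (3 + S) * Real.sqrt (1 / κ0) := ⟨_, rfl⟩
  have hC0p : 0 ≤ C0 := by rw [hC0]; positivity
  obtain ⟨m, hm1, hm2⟩ : ∃ m : ℕ, 1 ≤ m ∧ C0 ≤ κ0 * Real.sqrt m := by
    have h3 : Tendsto (fun m : ℕ => κ0 * Real.sqrt (m : ℝ)) atTop atTop :=
      (Real.tendsto_sqrt_atTop.comp tendsto_natCast_atTop_atTop).const_mul_atTop hκ0p
    obtain ⟨m, h4, h5⟩ := ((h3.eventually_ge_atTop C0).and (eventually_ge_atTop 1)).exists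
    exact ⟨m, h5, h4⟩
  have hm0 : (0 : ℝ) < m := by exact_mod_cast hm1
  obtain ⟨s, hs⟩ : ∃ s, s = κ0 / (6 * m) := ⟨_, rfl⟩
  have hs0 : 0 < s := by rw [hs]; positivity
  obtain ⟨ε2, hε2⟩ : ∃ ε2, ε2 = κ0 / (12 * m) := ⟨_, rfl⟩
  have hε20 : 0 < ε2 := by rw [hε2]; positivity
  obtain ⟨h, hh0, hhB⟩ : ∃ h : ℝ, 0 < h ∧ ∀ x, h / 2 ≤ x → D0 x < ε2 / 4 := by
    obtain ⟨B, hB⟩ := eventually_atTop.1 (hD.lim.eventually (gt_mem_nhds (show (0 : ℝ) < ε2 / 4 by positivity)))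
    refine ⟨2 * max B 1, by positivity, fun x hx => hB x ?_⟩
    have := le_max_left B 1
    linarith
  obtain ⟨ε1, hε1⟩ : ∃ ε1, ε1 = κ0 * s / (3 * m * (s + h) ^ 2) := ⟨_, rfl⟩
  have hε10 : 0 < ε1 := by rw [hε1]; positivity
  have hpi := Real.pi_gt_three
  obtain ⟨c', hc'⟩ : ∃ c', c' = c / (2 * Real.pi) ^ 2 := ⟨_, rfl⟩
  have hc'0 : 0 < c' := by rw [hc']; positivity
  -- the lengths
  obtain ⟨q, hq⟩ : ∃ q : ℝ → ℕ, q = fun T => NT T / m + 1 := ⟨_, rfl⟩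
  have hN1 : ∀ T, NT T ≤ m * q T := by
    intro T
    rw [hq]
    have := Nat.lt_mul_div_succ (NT T) (show 0 < m by omega)
    exact this.le
  have hN2 : ∀ T, m * q T ≤ NT T + m := by
    intro T
    rw [hq]
    have := Nat.mul_div_le (NT T) m
    show m * (NT T / m + 1) ≤ NT T + m
    rw [mul_add, mul_one]
    omega
  obtain ⟨N2, hN2d⟩ : ∃ N2 : ℝ → ℕ, N2 = fun T => m * q T + 1 := ⟨_, rfl⟩
  have hNTpos : ∀ᶠ T in atTop, 0 < NT T := NT_tendsto.eventually_gt_atTop 0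
  have hN2pos : ∀ᶠ T in atTop, 0 < N2 T := Eventually.of_forall fun T => by rw [hN2d]; exact Nat.succ_pos _
  have hratio : Tendsto (fun T => (N2 T : ℝ) / NT T) atTop (𝓝 1) := by
    have h3 : Tendsto (fun T => 1 + ((m : ℝ) + 1) / (NT T : ℝ)) atTop (𝓝 (1 + 0)) :=
      (NT_tendsto'.const_div_atTop _).const_add 1
    rw [add_zero] at h3
    refine tendsto_of_tendsto_of_tendsto_of_le_of_le' tendsto_const_nhds h3 ?_ ?_
    · filter_upwards [hNTpos] with T hT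
      have hT0 : (0 : ℝ) < NT T := by exact_mod_cast hT
      rw [le_div_iff₀ hT0, one_mul, hN2d]
      have := hN1 T
      show (NT T : ℝ) ≤ ((m * q T + 1 : ℕ) : ℝ)
      exact_mod_cast (by omega : NT T ≤ m * q T + 1)
    · filter_upwards [hNTpos] with T hT
      have hT0 : (0 : ℝ) < NT T := by exact_mod_cast hT
      rw [div_le_iff₀ hT0, add_mul, one_mul, div_mul_cancel₀ _ hT0.ne', hN2d]
      have := hN2 T
      have h4 : m * q T + 1 ≤ NT T + (m + 1) := by omega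
      show ((m * q T + 1 : ℕ) : ℝ) ≤ (NT T : ℝ) + ((m : ℝ) + 1)
      exact_mod_cast h4
  have hlarge : ∀ᶠ T in atTop, MT T / 2 ≤ (NT T : ℝ) ∧ (NT T : ℝ) + m + 2 ≤ 2 * MT T := by
    filter_upwards [NT_ev, MT_tendsto.eventually_ge_atTop (m + 4)] with T g1 g2
    constructor <;> linarith [g1.1, g1.2]
  have hrange : ∀ᶠ T in atTop, MT T / 2 ≤ (N2 T : ℝ) ∧ (N2 T : ℝ) ≤ 2 * MT T := by
    filter_upwards [hlarge] with T g
    have h3 : (NT T : ℝ) ≤ N2 T := by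
      rw [hN2d]
      have := hN1 T
      exact_mod_cast (by omega : NT T ≤ m * q T + 1)
    have h4 : (N2 T : ℝ) ≤ NT T + m + 1 := by
      rw [hN2d]
      have := hN2 T
      exact_mod_cast (by omega : m * q T + 1 ≤ NT T + m + 1)
    constructor <;> linarith [g.1, g.2]
  -- nonnegativity
  have hnn : ∀ τ : ℝ → ℝ, (∀ T, 0 ≤ τ T) → (∀ᶠ T in atTop, τ T * Real.log T ^ 2 ≤ K) →
      ∀ᶠ T in atTop, ∀ k, 0 ≤ gg T (τ T) k := by
    intro τ ht0 htK
    filter_upwards [htK, time_ok hK, lam_tendsto.eventually_ge_atTop 1] with T g1 g2 g3 k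
    exact gg_nonneg RH (by linarith) (ht0 T) ((g2 (τ T) (ht0 T) g1).1.le) k
  have hnn1 := hnn τ1 (fun T => (h1 T).le) hK1
  have hnn2 := hnn τ2 h2 hK2
  have hmean1 := mean_lim RH hK (fun T => (h1 T).le) hK1 (hrange.mono fun T g => g.1) (hrange.mono fun T g => g.2)
  have hmean2 := mean_lim RH hK h2 hK2 (hrange.mono fun T g => g.1) (hrange.mono fun T g => g.2)
  have hP1 := prim_lim hD hN2pos hnn1 (hL1.reidx hNTpos hratio) hmean1 hs0.le hh0.le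
  have hP2 := prim_lim hD hN2pos hnn2 (hL2.reidx hNTpos hratio) hmean2 hs0.le hh0.le
  have hPd := hP1.sub hP2
  rw [sub_self] at hPd
  have hR := res_lim hD hN2pos hnn1 (hL1.reidx hNTpos hratio) hmean1 (u := (s + h) / 2) (by positivity)
  have hRlt : D0 ((s + h) / 2) < ε2 / 4 := by
    exact hhB _ (by linarith)
  -- the logarithms
  have hMq : Tendsto (fun T => ((m * q T : ℕ) : ℝ)) atTop atTop := by
    refine tendsto_atTop_mono (fun T => ?_) NT_tendsto'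
    exact_mod_cast hN1 T
  have hlog1 := hMq.eventually (log_small (8 * h / s) (3 / s) (ε1 / 2) (by positivity) (by positivity) (by positivity))
  have hlog2 := hMq.eventually (log_small (32 / (s + h) * Θ) (6 / (s + h)) (ε2 / 2) (by positivity) (by positivity)
    (by positivity))
  have hlog3 := hMq.eventually (log_small (16 * Θ) 3 κ0 (by positivity) (by norm_num) hκ0p)
  filter_upwards [hcry Θ (by linarith), count_unif RH Θ κ0 hΘ0 hκ0p (by linarith), time_ok hΘ0, hPd.eventually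
    (gt_mem_nhds (show (0 : ℝ) < c' * ε1 / 2 by positivity)), hR.eventually (gt_mem_nhds hRlt), hlog1, hlog2, hlog3,
    hlarge, lam_tendsto.eventually_ge_atTop 1, hK1, hK2, MT_tendsto.eventually_ge_atTop (2 * (m : ℝ) + 4)] with
    T g1 g2 g3 g4 g5 g6 g7 g8 g9 g10 g11 g12 g13
  intro hgap
  obtain ⟨N', hN'⟩ : ∃ N', N' = m * q T := ⟨_, rfl⟩
  have hN2T : N2 T = N' + 1 := by rw [hN2d, hN']
  rw [← hN'] at g6 g7 g8
  rw [hN2T] at g4 g5
  push_cast at g4 g5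
  have hlam0 : 0 < lam T := by linarith
  have hlamsq : 0 < lam T ^ 2 := by positivity
  have hlogeq : lam T ^ 2 * (2 * Real.pi) ^ 2 = Real.log T ^ 2 := by
    unfold lam
    field_simp
  have hlogsq : 0 < Real.log T ^ 2 := by rw [← hlogeq]; positivity
  have hN'1 : (NT T : ℝ) ≤ N' := by rw [hN']; exact_mod_cast hN1 T
  have hN'2 : (N' : ℝ) ≤ NT T + m := by rw [hN']; exact_mod_cast hN2 T
  have hN'0 : (0 : ℝ) < N' := by linarith [g9.1]
  have hN'm : (m : ℝ) ≤ N' := by linarith [g9.1]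
  have hN'one : (1 : ℝ) ≤ N' := by
    have : (1 : ℝ) ≤ m := by exact_mod_cast hm1
    linarith
  have hN'NT : (N' : ℝ) ≤ 2 * NT T := by linarith [g9.1]
  -- the times
  have hτ1 := h1 T
  have hτ12 : τ1 T < τ2 T := by
    by_contra hcon
    rw [not_lt] at hcon
    have : (τ2 T - τ1 T) * Real.log T ^ 2 ≤ 0 := mul_nonpos_of_nonpos_of_nonneg (by linarith) hlogsq.le
    linarith
  have hτ2 : 0 < τ2 T := by linarith
  obtain ⟨τ3, hτ3⟩ : ∃ τ3, τ3 = Θ / Real.log T ^ 2 := ⟨_, rfl⟩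
  have hτ3K : τ3 * Real.log T ^ 2 = Θ := by rw [hτ3]; exact div_mul_cancel₀ _ hlogsq.ne'
  have hτ30 : 0 < τ3 := by rw [hτ3]; positivity
  have hτ23 : τ2 T ≤ τ3 := by
    rw [hτ3, le_div_iff₀ hlogsq]
    linarith
  obtain ⟨t1, t2, t3⟩ := g3 τ3 hτ30.le hτ3K.le
  have hF := flow_s RH hlam0
  have hθ1 : 0 < τ1 T * lam T ^ 2 := by positivity
  have hθ12 : τ1 T * lam T ^ 2 < τ2 T * lam T ^ 2 := mul_lt_mul_of_pos_right hτ12 hlamsq
  have hθ23 : τ2 T * lam T ^ 2 ≤ τ3 * lam T ^ 2 := mul_le_mul_of_nonneg_right hτ23 hlamsq.le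
  have hθR : τ3 * lam T ^ 2 < 1 / 8 * lam T ^ 2 := mul_lt_mul_of_pos_right t1 hlamsq
  have hcΔ : c' ≤ τ2 T * lam T ^ 2 - τ1 T * lam T ^ 2 := by
    have e : τ2 T * lam T ^ 2 - τ1 T * lam T ^ 2 = (τ2 T - τ1 T) * Real.log T ^ 2 / (2 * Real.pi) ^ 2 := by
      rw [← hlogeq]
      field_simp
    rw [e, hc']
    exact div_le_div_of_nonneg_right hgap (by positivity)
  -- the count at all the times
  have hcount : ∀ θ : ℝ, τ1 T * lam T ^ 2 ≤ θ → θ ≤ τ3 * lam T ^ 2 → ∀ n : ℕ, MT T / 2 ≤ n → (n : ℝ) ≤ 2 * MT T →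
      |YS T θ n - YS T θ 0 - n| ≤ κ0 * n := by
    intro θ a1 a2 n a3 a4
    obtain ⟨t, ht⟩ : ∃ t, t = θ / lam T ^ 2 := ⟨_, rfl⟩
    have hθt : θ = t * lam T ^ 2 := by rw [ht]; field_simp
    have ht1 : τ1 T ≤ t := by rw [ht, le_div_iff₀ hlamsq]; exact a1
    have ht2 : t ≤ τ3 := by rw [ht, div_le_iff₀ hlamsq]; exact a2
    have ht0 : 0 < t := by linarith
    have htK : t * Real.log T ^ 2 ≤ Θ := by
      rw [← hτ3K]
      exact mul_le_mul_of_nonneg_right ht2 hlogsq.le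
    obtain ⟨h5, -⟩ := g2 t ht0.le htK n a3 a4
    have e0 := YS_nat hlam0 ht0 0
    simp only [Nat.cast_zero] at e0
    rw [hθt, YS_nat hlam0 ht0, e0]
    rw [← mul_sub]
    exact h5
  have hD' : (∑ k ∈ Finset.Ico (0 : ℤ) (N' + 1), prim s h (gp (YS T (τ1 T * lam T ^ 2)) k) -
      ∑ k ∈ Finset.Ico (0 : ℤ) (N' + 1), prim s h (gp (YS T (τ2 T * lam T ^ 2)) k)) /
      (2 * (τ2 T * lam T ^ 2 - τ1 T * lam T ^ 2)) + 8 * h / s * Real.log (1 + 3 * N' / s) ≤ ε1 * N' := by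
    have e1 : ∀ t : ℝ, 0 < t → ∑ k ∈ Finset.Ico (0 : ℤ) (N' + 1), prim s h (gp (YS T (t * lam T ^ 2)) k) =
        ∑ k ∈ Finset.range (N' + 1), prim s h (gg T t k) := by
      intro t ht
      have := sum_int (fun k => prim s h (gp (YS T (t * lam T ^ 2)) k)) (N' + 1)
      push_cast at this
      rw [this]
      apply Finset.sum_congr rfl
      intro k _
      rw [gp_YS hlam0 ht]
    rw [e1 _ hτ1, e1 _ hτ2]
    have hN20 : (0 : ℝ) < (N' : ℝ) + 1 := by linarith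
    have h5 : ∑ k ∈ Finset.range (N' + 1), prim s h (gg T (τ1 T) k) -
        ∑ k ∈ Finset.range (N' + 1), prim s h (gg T (τ2 T) k) ≤ c' * ε1 / 2 * (N' + 1) := by
      rw [← sub_div, div_lt_iff₀ hN20] at g4
      exact g4.le
    have h6 : (∑ k ∈ Finset.range (N' + 1), prim s h (gg T (τ1 T) k) -
        ∑ k ∈ Finset.range (N' + 1), prim s h (gg T (τ2 T) k)) / (2 * (τ2 T * lam T ^ 2 - τ1 T * lam T ^ 2)) ≤
        ε1 / 2 * N' := by
      have h7 : 0 < 2 * (τ2 T * lam T ^ 2 - τ1 T * lam T ^ 2) := by linarith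
      rw [div_le_iff₀ h7]
      have h8 : c' * ε1 / 2 * (N' + 1) ≤ c' * ε1 * N' := by
        have h9 : 0 < c' * ε1 := by positivity
        nlinarith
      have h9 : ε1 / 2 * N' * (2 * c') ≤ ε1 / 2 * N' * (2 * (τ2 T * lam T ^ 2 - τ1 T * lam T ^ 2)) := by
        apply mul_le_mul_of_nonneg_left _ (by positivity)
        linarith
      linarith
    have h7 : 8 * h / s * Real.log (1 + 3 * N' / s) ≤ ε1 / 2 * N' := by
      have e : 3 / s * (N' : ℝ) = 3 * N' / s := by ring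
      rw [e] at g6
      exact g6
    linarith
  have hU' : ∑ k ∈ Finset.Ico (0 : ℤ) (N' + 1), max (gp (YS T (τ1 T * lam T ^ 2)) k - (s + h) / 2) 0 +
      32 / (s + h) * (τ2 T * lam T ^ 2 - τ1 T * lam T ^ 2) * Real.log (1 + 6 * N' / (s + h)) ≤ ε2 * N' := by
    have e1 : ∑ k ∈ Finset.Ico (0 : ℤ) (N' + 1), max (gp (YS T (τ1 T * lam T ^ 2)) k - (s + h) / 2) 0 =
        ∑ k ∈ Finset.range (N' + 1), max (gg T (τ1 T) k - (s + h) / 2) 0 := by
      have := sum_int (fun k => max (gp (YS T (τ1 T * lam T ^ 2)) k - (s + h) / 2) 0) (N' + 1)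
      push_cast at this
      rw [this]
      apply Finset.sum_congr rfl
      intro k _
      rw [gp_YS hlam0 hτ1]
    rw [e1]
    have hN20 : (0 : ℝ) < (N' : ℝ) + 1 := by linarith
    rw [div_lt_iff₀ hN20] at g5
    have h5 : 0 ≤ Real.log (1 + 6 * N' / (s + h)) := Real.log_nonneg (by
      have : 0 ≤ 6 * (N' : ℝ) / (s + h) := by positivity
      linarith)
    have h6 : 32 / (s + h) * (τ2 T * lam T ^ 2 - τ1 T * lam T ^ 2) * Real.log (1 + 6 * N' / (s + h)) ≤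
        32 / (s + h) * Θ * Real.log (1 + 6 * N' / (s + h)) := by
      apply mul_le_mul_of_nonneg_right _ h5
      apply mul_le_mul_of_nonneg_left _ (by positivity)
      linarith
    have h7 : 32 / (s + h) * Θ * Real.log (1 + 6 * N' / (s + h)) ≤ ε2 / 2 * N' := by
      have e : 6 / (s + h) * (N' : ℝ) = 6 * N' / (s + h) := by ring
      rw [e] at g7
      exact g7
    nlinarith
  have hmain := rigid hF hθ1 hθ12 hθ23 hθR (m := m) (q := q T) (N := N') hm1 hN' (s := s) (h := h) (e := s) (s0 := κ0)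
    (Θ := Θ) (η := κ0) (D := ε1 * N') (U := ε2 * N') hs0 hh0 hs0 hκ0p (by linarith) (by linarith)
    (fun θ a1 a2 => hcount θ a1 a2 N' (by linarith [g9.1]) (by linarith [g9.2]))
    (fun θ a1 a2 => by
      have h5 := hcount θ a1 a2 (N' + 1) (by push_cast; linarith [g9.1]) (by push_cast; linarith [g9.2])
      rw [abs_le] at h5
      push_cast at h5
      nlinarith [h5.2]) hD' hU'
  -- conclusion
  have e2 : ∑ k ∈ Finset.Ico (0 : ℤ) N', max (gp (YS T (τ2 T * lam T ^ 2)) k - 1) 0 =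
      ∑ k ∈ Finset.range N', max (gg T (τ2 T) k - 1) 0 := by
    rw [sum_int (fun k => max (gp (YS T (τ2 T * lam T ^ 2)) k - 1) 0)]
    apply Finset.sum_congr rfl
    intro k _
    rw [gp_YS hlam0 hτ2]
  have e3 : ∑ k ∈ Finset.Ico (0 : ℤ) N', |gp (YS T (τ3 * lam T ^ 2)) k - 1| =
      ∑ k ∈ Finset.range N', |gg T τ3 k - 1| := by
    rw [sum_int (fun k => |gp (YS T (τ3 * lam T ^ 2)) k - 1|)]
    apply Finset.sum_congr rfl
    intro k _
    rw [gp_YS hlam0 hτ30]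
  rw [e2, e3] at hmain
  have hsub : ∑ k ∈ Finset.range (NT T), max (gg T (τ2 T) k - 1) 0 ≤
      ∑ k ∈ Finset.range N', max (gg T (τ2 T) k - 1) 0 := by
    apply Finset.sum_le_sum_of_subset_of_nonneg
    · intro k hk
      rw [Finset.mem_range] at hk ⊢
      have : NT T ≤ N' := by exact_mod_cast hN'1
      omega
    · intro k _ _
      exact le_max_right _ _
  have hc3 := g1 τ3 hτ30 (by rw [hτ3K]; linarith) hτ3K.le N' (by linarith [g9.1]) (by linarith [g9.2])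
  have b1 : 3 * ((m : ℝ) * (N' * (s + s) + (s + h) ^ 2 * (ε1 * N') / s + 4 * (ε2 * N'))) = 3 * κ0 * N' := by
    rw [hε1, hε2]
    have e5 : (s + h) ^ 2 * (κ0 * s / (3 * m * (s + h) ^ 2) * N') / s = κ0 * N' / (3 * m) := by
      field_simp
    rw [e5, hs]
    field_simp
    ring
  have b2 : 64 / κ0 * Θ * Real.sqrt (m / κ0) * (3 + Real.sqrt (8 * Θ)) * (q T : ℝ) ≤ κ0 * N' := by
    have hsm : 0 < Real.sqrt (m : ℝ) := Real.sqrt_pos.2 hm0
    have e5 : Real.sqrt ((m : ℝ) / κ0) = Real.sqrt m * Real.sqrt (1 / κ0) := by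
      rw [← Real.sqrt_mul hm0.le]
      congr 1
      ring
    have e6 : (N' : ℝ) = Real.sqrt m * Real.sqrt m * q T := by
      rw [Real.mul_self_sqrt hm0.le, hN']
      push_cast
      rfl
    rw [e5, ← hS]
    have e7 : 64 / κ0 * Θ * (Real.sqrt m * Real.sqrt (1 / κ0)) * (3 + S) * (q T : ℝ) = C0 * (Real.sqrt m * q T) := by
      rw [hC0]
      ring
    rw [e7, e6]
    have h8 : C0 * (Real.sqrt m * q T) ≤ κ0 * Real.sqrt m * (Real.sqrt m * q T) :=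
      mul_le_mul_of_nonneg_right hm2 (by positivity)
    linarith
  have b3 : 16 * (τ2 T * lam T ^ 2 - τ1 T * lam T ^ 2) * Real.log (1 + 3 * N') ≤ κ0 * N' := by
    have h8 : 0 ≤ Real.log (1 + 3 * (N' : ℝ)) := Real.log_nonneg (by linarith)
    have h9 : 16 * (τ2 T * lam T ^ 2 - τ1 T * lam T ^ 2) * Real.log (1 + 3 * N') ≤ 16 * Θ * Real.log (1 + 3 * N') := by
      apply mul_le_mul_of_nonneg_right _ h8
      linarith
    linarith
  rw [b1] at hmain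
  have hfin : κ0 * N' ≤ κ0 * (2 * NT T) := mul_le_mul_of_nonneg_left hN'NT hκ0p.le
  have hfin2 : 40 * κ0 * NT T ≤ κ * NT T := mul_le_mul_of_nonneg_right hκ0b (Nat.cast_nonneg _)
  have hpos : 0 ≤ κ0 * (NT T : ℝ) := by positivity
  linarith

end Pool.Agent.P8H8.HF
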