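import Pool.Agent.H382R2.Final0
import Pool.Agent.H370R2.Count

set_option autoImplicit false

/-!
# The number of zeros of zeta up to height T
-/

namespace Pool.Agent.P8H8.HF

open Filter Topology Set

lemma NZ_dyad {T : ℝ} (hT : 1 ≤ T) : SG.NZ (2 * T) = SG.NZ T + H370.NN riemannZeta T (2 * T) := by
  have hfin := H370.zset_finite H370.good_zeta T (2 * T) hT
  have e : H370.NN riemannZeta T (2 * T) = ∑ s ∈ hfin.toFinset, H370.mult riemannZeta s := by
    unfold H370.NN
    exact finsum_mem_eq_finite_toFinset_sum _ hfin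
  have h1 := SG.NZ_add_le T (2 * T) (by linarith) hfin.toFinset (by
    intro s hs
    rw [Set.Finite.mem_toFinset] at hs
    obtain ⟨a1, a2, a3, a4, a5⟩ := hs
    exact ⟨⟨a5, a1, a2, by linarith, a4⟩, a3⟩)
  have h2 := SG.NZ_le_add T (2 * T) hT
  have h3 : ∑ s ∈ hfin.toFinset, SG.zmult s = ∑ s ∈ hfin.toFinset, H370.mult riemannZeta s := rfl
  omega

/-- the leading term -/
noncomputable def MT (T : ℝ) : ℝ := T * Real.log T / (2 * Real.pi)

theorem rvm : ∃ C T0 : ℝ, 0 < C ∧ 10 ≤ T0 ∧ ∀ T : ℝ, T0 ≤ T → |(SG.NZ T : ℝ) - MT T| ≤ C * T := by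
  obtain ⟨C, T0, hC, hT0, h⟩ := H370.nn_asymp H370.good_zeta
  have hpi := Real.pi_gt_three
  obtain ⟨B, hB⟩ : ∃ B, B = (SG.NZ (2 * T0) : ℝ) + MT (2 * T0) + C + 1 := ⟨_, rfl⟩
  have hMmono : ∀ x y : ℝ, 10 ≤ x → x ≤ y → MT x ≤ MT y ∧ 0 ≤ MT x := by
    intro x y hx hxy
    unfold MT
    have h1 : 0 ≤ Real.log x := Real.log_nonneg (by linarith)
    have h2 : Real.log x ≤ Real.log y := Real.log_le_log (by linarith) hxy
    constructor
    · have h3 : (0 : ℝ) ≤ y := by linarith
      gcongr
    · positivity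
  have hBC : C + 1 ≤ B := by
    have h1 := (hMmono (2 * T0) (2 * T0) (by linarith) le_rfl).2
    have h2 : (0 : ℝ) ≤ SG.NZ (2 * T0) := Nat.cast_nonneg _
    linarith
  have key : ∀ n : ℕ, ∀ T : ℝ, T0 * 2 ^ n ≤ T → T ≤ T0 * 2 ^ (n + 1) → |(SG.NZ T : ℝ) - MT T| ≤ B * T := by
    intro n
    induction n with
    | zero =>
      intro T h1 h2
      rw [pow_zero, mul_one] at h1
      rw [zero_add, pow_one] at h2
      have h3 : (SG.NZ T : ℝ) ≤ SG.NZ (2 * T0) := by exact_mod_cast SG.NZ_mono (by linarith)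
      have h4 := hMmono T (2 * T0) (by linarith) (by linarith)
      have h5 : (0 : ℝ) ≤ SG.NZ T := Nat.cast_nonneg _
      have h6 : |(SG.NZ T : ℝ) - MT T| ≤ B := by
        rw [abs_le]
        constructor <;> linarith
      have h7 : B * 1 ≤ B * T := mul_le_mul_of_nonneg_left (by linarith) (by linarith)
      linarith
    | succ n ih =>
      intro T h1 h2
      have hp : (1 : ℝ) ≤ 2 ^ n := one_le_pow₀ (by norm_num)
      have h3 := ih (T / 2) (by rw [pow_succ] at h1; linarith) (by
        rw [pow_succ] at h2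
        linarith)
      have hT2 : T0 ≤ T / 2 := by
        have h4 : T0 * 1 ≤ T0 * 2 ^ n := mul_le_mul_of_nonneg_left hp (by linarith)
        rw [pow_succ] at h1
        linarith
      have h5 := h (T / 2) hT2 (T / 2) (2 * (T / 2)) le_rfl (by linarith) (by linarith) le_rfl
      have h6 := NZ_dyad (T := T / 2) (by linarith)
      have e2 : 2 * (T / 2) = T := by ring
      rw [e2] at h5 h6
      have h7 : (SG.NZ T : ℝ) = SG.NZ (T / 2) + H370.NN riemannZeta (T / 2) T := by exact_mod_cast h6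
      have hlog : Real.log T = Real.log (T / 2) + Real.log 2 := by
        rw [Real.log_div (by linarith) (by norm_num)]
        ring
      have e3 : MT T = MT (T / 2) + T / 2 * Real.log (T / 2) / (2 * Real.pi) + T * Real.log 2 / (2 * Real.pi) := by
        unfold MT
        rw [hlog]
        ring
      have h8 : 0 ≤ T * Real.log 2 / (2 * Real.pi) := by
        have := Real.log_pos (show (1 : ℝ) < 2 by norm_num)
        have : 0 < T := by linarith
        positivity
      have h9 : T * Real.log 2 / (2 * Real.pi) ≤ T / 2 := by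
        have := Real.log_two_lt_d9
        rw [div_le_div_iff₀ (by positivity) (by norm_num)]
        have h10 : T * Real.log 2 ≤ T * 1 := mul_le_mul_of_nonneg_left (by linarith) (by linarith)
        have h11 : T * 6 ≤ T * (2 * Real.pi) := mul_le_mul_of_nonneg_left (by linarith) (by linarith)
        linarith
      rw [abs_le] at h3 h5 ⊢
      rw [h7, e3]
      have h12 : C * (T / 2) + T / 2 ≤ B * (T / 2) := by
        have := mul_le_mul_of_nonneg_right hBC (show 0 ≤ T / 2 by linarith)
        linarith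
      constructor
      · linarith [h3.1, h5.1]
      · linarith [h3.2, h5.2]
  refine ⟨B, T0, by linarith, hT0, fun T hT => ?_⟩
  obtain ⟨n, h1, h2⟩ : ∃ n : ℕ, T0 * 2 ^ n ≤ T ∧ T ≤ T0 * 2 ^ (n + 1) := by
    obtain ⟨n, h1, h2⟩ := exists_nat_pow_near (show (1 : ℝ) ≤ T / T0 by rw [le_div_iff₀ (by linarith)]; linarith)
      (show (1 : ℝ) < 2 by norm_num)
    refine ⟨n, ?_, ?_⟩
    · rw [le_div_iff₀ (by linarith)] at h1
      linarith
    · rw [div_lt_iff₀ (by linarith)] at h2
      linarith
  exact key n T h1 h2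

end Pool.Agent.P8H8.HF
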