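import Pool.Agent.P8H8.HF.Zero
import Pool.Agent.P8H8.HF.Rvm
import Pool.Agent.R838.ST.Cry

set_option autoImplicit false

/-!
# Uniform counting of the zeros at small times
-/

namespace Pool.Agent.P8H8.HF

open Complex Filter Topology MeasureTheory Set Metric
open Pool.Agent.H24R2.JP (XX HH)
open Pool.Agent.H986R2.DBN (XT ker FT b1A)
open Pool.Agent.R838.ST (stb_xi unit0_xi cryB BS BS_fin Od CP)

/-- the inverse of the mean spacing -/
noncomputable def lam (T : ℝ) : ℝ := Real.log T / (2 * Real.pi)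

lemma MT_eq (T : ℝ) : MT T = T * lam T := by unfold MT lam; ring

lemma lam_tendsto : Tendsto lam atTop atTop := by
  unfold lam
  exact Real.tendsto_log_atTop.atTop_div_const (by positivity)

theorem ord_asymp (η : ℝ) (hη : 0 < η) (hη1 : η ≤ 1 / 2) : ∀ᶠ T : ℝ in atTop, ∀ n : ℕ, MT T / 4 ≤ n → (n : ℝ) ≤ 4 * MT T →
    |lam T * SG.ord n - n| ≤ η * n := by
  obtain ⟨C, T0, hC, hT0, h⟩ := rvm
  have hpi := Real.pi_gt_three
  filter_upwards [eventually_ge_atTop (8 * T0), lam_tendsto.eventually_ge_atTop (3 * (C + 1) / η),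
    lam_tendsto.eventually_ge_atTop 1] with T hT hlam hlam1
  intro n hn1 hn2
  rw [MT_eq] at hn1 hn2
  have hT' : 0 < T := by linarith
  have hlam0 : 0 < lam T := by linarith
  have hn0 : 0 < (n : ℝ) := lt_of_lt_of_le (by positivity) hn1
  have hn : 1 ≤ n := by
    have : 0 < n := by exact_mod_cast hn0
    omega
  obtain ⟨u, hu⟩ : ∃ u, u = n / lam T := ⟨_, rfl⟩
  have hul : u * lam T = n := by rw [hu]; field_simp
  have hu1 : T / 4 ≤ u := by rw [hu, le_div_iff₀ hlam0]; linarith
  have hu2 : u ≤ 4 * T := by rw [hu, div_le_iff₀ hlam0]; linarith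
  have hu0 : 0 < u := by linarith
  have hl8 : Real.log 8 ≤ 2 * Real.pi := by
    have h1 : Real.log 8 = 3 * Real.log 2 := by
      rw [show (8 : ℝ) = 2 ^ 3 by norm_num, Real.log_pow]
      norm_num
    rw [h1]
    have := Real.log_two_lt_d9
    linarith
  -- the main term near `u`
  have hM : ∀ v : ℝ, T / 8 ≤ v → v ≤ 8 * T → |MT v - v * lam T| ≤ v := by
    intro v hv1 hv2
    have hv0 : 0 < v := by linarith
    have h1 : Real.log v ≤ Real.log T + Real.log 8 := by
      rw [← Real.log_mul hT'.ne' (by norm_num)]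
      exact Real.log_le_log hv0 (by linarith)
    have h2 : Real.log T ≤ Real.log v + Real.log 8 := by
      rw [← Real.log_mul hv0.ne' (by norm_num)]
      exact Real.log_le_log hT' (by linarith)
    have e : MT v - v * lam T = v * ((Real.log v - Real.log T) / (2 * Real.pi)) := by
      unfold MT lam
      ring
    rw [e, abs_mul, abs_of_pos hv0, abs_div, abs_of_pos (show 0 < 2 * Real.pi by positivity)]
    have h3 : |Real.log v - Real.log T| / (2 * Real.pi) ≤ 1 := by
      rw [div_le_one (by positivity), abs_le]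
      constructor <;> linarith
    calc v * (|Real.log v - Real.log T| / (2 * Real.pi)) ≤ v * 1 := mul_le_mul_of_nonneg_left h3 hv0.le
      _ = v := mul_one v
  rw [div_le_iff₀ hη] at hlam
  have hCn : 2 * ((C + 1) * u) ≤ η * n := by
    rw [← hul]
    have := mul_le_mul_of_nonneg_left hlam hu0.le
    nlinarith
  have hup : lam T * SG.ord n ≤ (1 + η) * n := by
    have h1 : SG.ord n ≤ (1 + η) * u := by
      rw [SG.ord_le_iff hn]
      have h2 := h ((1 + η) * u) (by nlinarith)
      have h3 := hM ((1 + η) * u) (by nlinarith) (by nlinarith)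
      rw [abs_le] at h2 h3
      have h4 : (n : ℝ) ≤ SG.NZ ((1 + η) * u) := by
        have e1 : (1 + η) * u * lam T = (1 + η) * n := by rw [mul_assoc, hul]
        have h5 : (C + 1) * ((1 + η) * u) ≤ η * n := by
          have h6 : (C + 1) * ((1 + η) * u) ≤ (C + 1) * (2 * u) := by
            apply mul_le_mul_of_nonneg_left _ (by linarith)
            nlinarith
          linarith
        rw [e1] at h3
        linarith [h2.1, h3.1]
      exact_mod_cast h4
    calc lam T * SG.ord n ≤ lam T * ((1 + η) * u) := mul_le_mul_of_nonneg_left h1 hlam0.le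
      _ = (1 + η) * (u * lam T) := by ring
      _ = (1 + η) * n := by rw [hul]
  have hlo : (1 - η) * n ≤ lam T * SG.ord n := by
    have h1 : (1 - η) * u ≤ SG.ord n := by
      by_contra hcon
      rw [not_le] at hcon
      have h7 := (SG.ord_le_iff hn _).1 hcon.le
      have h2 := h ((1 - η) * u) (by nlinarith)
      have h3 := hM ((1 - η) * u) (by nlinarith) (by nlinarith)
      rw [abs_le] at h2 h3
      have h4 : (n : ℝ) ≤ SG.NZ ((1 - η) * u) := by exact_mod_cast h7
      have e1 : (1 - η) * u * lam T = (1 - η) * n := by rw [mul_assoc, hul]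
      have h5 : (C + 1) * ((1 - η) * u) ≤ (C + 1) * u := by
        apply mul_le_mul_of_nonneg_left _ (by linarith)
        nlinarith
      rw [e1] at h3
      have h8 : 0 < (C + 1) * u := by positivity
      linarith [h2.2, h3.2]
    calc (1 - η) * (n : ℝ) = lam T * ((1 - η) * u) := by rw [← hul]; ring
      _ ≤ lam T * SG.ord n := mul_le_mul_of_nonneg_left h1 hlam0.le
  rw [abs_le]
  constructor <;> linarith

/-- few small gaps at a large time -/
theorem bad_count (RH : RiemannHypothesis) (κ : ℝ) (hκ : 0 < κ) (hκ1 : κ ≤ 1 / 4) : ∃ K1 : ℝ, 0 < K1 ∧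
    ∀ᶠ T : ℝ in atTop, ∀ τ : ℝ, 0 < τ → K1 ≤ τ * Real.log T ^ 2 → τ * Real.log T ≤ 1 → ∀ N : ℕ,
    GG τ N ≤ 3 * T →
    (((Finset.range N).filter (fun k => lam T * (GG τ (k + 1) - GG τ k) < 1 - 2 * κ)).card : ℝ) ≤
      7 * κ * (T * Real.log T) := by
  classical
  obtain ⟨K, T0, hK, hT0, h⟩ := cryB stb_xi unit0_xi κ 2 hκ (by linarith) (by norm_num)
  refine ⟨K, hK, ?_⟩
  have hpi := Real.pi_gt_three
  have hl3 : Real.log 3 ≤ 2 := by
    have := Real.log_le_sub_one_of_pos (show (0 : ℝ) < 3 by norm_num)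
    linarith
  have hl30 : 0 < Real.log 3 := Real.log_pos (by norm_num)
  filter_upwards [eventually_ge_atTop (max T0 2), Real.tendsto_log_atTop.eventually_ge_atTop (12 / κ + 20)] with T hT hlog
  intro τ hτ hK1 hA N hN
  have hT2 : 2 ≤ T := (le_max_right _ _).trans hT
  have hTT0 : T0 ≤ T := (le_max_left _ _).trans hT
  have hl1 : 20 ≤ Real.log T := by
    have : 0 < 12 / κ := by positivity
    linarith
  have hlog' : 12 / κ ≤ Real.log T := by linarith
  rw [div_le_iff₀ hκ] at hlog'
  have hlog3 : Real.log (3 * T) = Real.log T + Real.log 3 := by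
    rw [Real.log_mul (by norm_num) (by linarith)]
    ring
  have hτ8 : τ ≤ 1 / 8 := by
    have h1 : τ * 20 ≤ τ * Real.log T := mul_le_mul_of_nonneg_left hl1 hτ.le
    linarith
  have hLF := ZZ_LF RH hτ.le hτ8
  have h1 := h (3 * T) τ (by linarith) (by
    rw [hlog3]
    refine hK1.trans ?_
    apply mul_le_mul_of_nonneg_left _ hτ.le
    apply pow_le_pow_left₀ (by linarith)
    linarith) (by
    rw [hlog3, mul_add]
    have : τ * Real.log 3 ≤ 1 / 8 * 2 := mul_le_mul hτ8 hl3 hl30.le (by norm_num)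
    linarith)
  obtain ⟨-, hfin⟩ := BS_fin (stb_xi.heatd τ hτ.le) (fun s hs => stb_xi.strip τ s hτ.le hs) (3 * T) κ 0 (3 * T) le_rfl
  have hOd : ∀ y : ℝ, 0 < y → (y ∈ Od (XT τ) ↔ y ∈ ZZ τ) := by
    intro y hy
    constructor
    · rintro ⟨z, hz, hzy⟩
      rw [← DD_zero] at hz
      have hre := DD_re RH 0 hτ.le hz
      refine ⟨hy, ?_⟩
      rw [rn_zero_iff 0 hτ.le, ← hzy, ← axis hre]
      exact hz
    · rintro ⟨-, hz⟩
      rw [rn_zero_iff 0 hτ.le, DD_zero] at hz
      exact ⟨I * y, hz, by simp⟩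
  have hmaps : ∀ k ∈ (Finset.range N).filter (fun k => lam T * (GG τ (k + 1) - GG τ k) < 1 - 2 * κ),
      ((en (ZZ τ) k, en (ZZ τ) (k + 1)) : ℝ × ℝ) ∈ BS (Od (XT τ)) (3 * T) κ 0 (3 * T) := by
    intro k hk
    rw [Finset.mem_filter, Finset.mem_range, GG_pos_eq hτ, GG_pos_eq hτ] at hk
    obtain ⟨hkN, hk2⟩ := hk
    have hp0 := en_pos hLF k
    have hp1 := en_strictMono hLF (Nat.lt_succ_self k)
    have hp2 : en (ZZ τ) (k + 1) ≤ 3 * T := by
      rw [GG_pos_eq hτ] at hN
      exact ((en_strictMono hLF).monotone (by omega)).trans hN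
    refine ⟨⟨hp1, (hOd _ hp0).2 (en_spec hLF k).1, (hOd _ (en_pos hLF (k + 1))).2 (en_spec hLF (k + 1)).1,
      fun y hy hy2 => ?_⟩, hp0, by show en (ZZ τ) k ≤ 3 * T; linarith, hp2, ?_⟩
    · have hy0 : 0 < y := hp0.trans hy2.1
      exact en_consec hLF k ((hOd _ hy0).1 hy) hy2
    · have hg : 0 < en (ZZ τ) (k + 1) - en (ZZ τ) k := by linarith
      show κ ≤ |(en (ZZ τ) (k + 1) - en (ZZ τ) k) * (Real.log (3 * T) / (2 * Real.pi)) - 1|
      rw [hlog3]
      have e1 : (en (ZZ τ) (k + 1) - en (ZZ τ) k) * ((Real.log T + Real.log 3) / (2 * Real.pi)) =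
          lam T * (en (ZZ τ) (k + 1) - en (ZZ τ) k) +
          (en (ZZ τ) (k + 1) - en (ZZ τ) k) * (Real.log 3 / (2 * Real.pi)) := by
        unfold lam
        ring
      rw [e1]
      obtain ⟨g, hgd⟩ : ∃ g, g = en (ZZ τ) (k + 1) - en (ZZ τ) k := ⟨_, rfl⟩
      rw [← hgd] at hk2 hg ⊢
      have h5 : g * (Real.log 3 / (2 * Real.pi)) ≤ κ := by
        have h6 : g * Real.log T ≤ 2 * Real.pi := by
          have : lam T * g < 1 := by linarith
          unfold lam at this
          rw [div_mul_eq_mul_div, div_lt_one (by positivity)] at this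
          linarith
        have h7 : g * (12 : ℝ) ≤ κ * (2 * Real.pi) := by
          have h8 : g * 12 ≤ g * (Real.log T * κ) := mul_le_mul_of_nonneg_left hlog' hg.le
          have h9 : κ * (g * Real.log T) ≤ κ * (2 * Real.pi) := mul_le_mul_of_nonneg_left h6 hκ.le
          linarith
        rw [← mul_div_assoc, div_le_iff₀ (by positivity)]
        have h10 : g * Real.log 3 ≤ g * 2 := mul_le_mul_of_nonneg_left hl3 hg.le
        linarith
      rw [abs_of_nonpos (by linarith)]
      linarith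
  have hinj : Set.InjOn (fun k => ((en (ZZ τ) k, en (ZZ τ) (k + 1)) : ℝ × ℝ))
      ((Finset.range N).filter (fun k => lam T * (GG τ (k + 1) - GG τ k) < 1 - 2 * κ) : Set ℕ) := by
    intro a _ b _ hab
    have := congrArg Prod.fst hab
    exact (en_strictMono hLF).injective this
  have h2 : ((Finset.range N).filter (fun k => lam T * (GG τ (k + 1) - GG τ k) < 1 - 2 * κ)).card ≤
      (BS (Od (XT τ)) (3 * T) κ 0 (3 * T)).ncard := by
    rw [Set.ncard_eq_toFinset_card _ hfin]
    apply Finset.card_le_card_of_injOn _ _ hinj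
    intro k hk
    rw [Finset.mem_coe, Set.Finite.mem_toFinset]
    exact hmaps k hk
  have h3 : (((Finset.range N).filter (fun k => lam T * (GG τ (k + 1) - GG τ k) < 1 - 2 * κ)).card : ℝ) ≤
      ((BS (Od (XT τ)) (3 * T) κ 0 (3 * T)).ncard : ℝ) := by exact_mod_cast h2
  refine (h3.trans h1).trans ?_
  rw [hlog3]
  have h4 : 3 * (Real.log T + Real.log 3) ≤ 7 * Real.log T := by linarith
  have h5 : 0 ≤ κ * T := by positivity
  have h6 := mul_le_mul_of_nonneg_left h4 h5
  linarith

end Pool.Agent.P8H8.HF
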