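import Pool.Agent.P8H8.HF.Cnt

set_option autoImplicit false

/-!
# Uniform counting of the zeros at small times, and the gaps at a large time
-/

namespace Pool.Agent.P8H8.HF

open Filter Topology Set

/-- the length of a window hardly grows -/
theorem len_mono {y : ℝ → ℤ → ℝ} {R : ℝ} (hF : Flow y R) {τ₁ τ₂ : ℝ} (h0 : 0 < τ₁) (h12 : τ₁ ≤ τ₂) (hR : τ₂ < R)
    {N : ℕ} {s0 Θ L : ℝ} (hs0 : 0 < s0) (hΘ : τ₂ - τ₁ ≤ Θ)
    (hL : y τ₁ N - y τ₁ 0 + N * Real.sqrt (8 * Θ) ≤ L) :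
    y τ₂ N - y τ₂ 0 ≤ y τ₁ N - y τ₁ 0 + s0 * N + 16 / s0 * Θ * Real.log (1 + L / s0) := by
  have hΘ0 : 0 ≤ Θ := by linarith
  have hlen : ∀ τ, τ₁ ≤ τ → τ ≤ τ₂ → y τ N - y τ 0 ≤ L := by
    intro τ h1 h2
    have h3 := win_len hF (a := 0) (b := N) (by omega) h0 h1 h2 hR
    have h4 : Real.sqrt (8 * (τ₂ - τ₁)) ≤ Real.sqrt (8 * Θ) := Real.sqrt_le_sqrt (by linarith)
    have h5 : (((N : ℤ) - 0 : ℤ) : ℝ) * Real.sqrt (8 * (τ₂ - τ₁)) ≤ N * Real.sqrt (8 * Θ) := by
      simp only [sub_zero, Int.cast_natCast]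
      exact mul_le_mul_of_nonneg_left h4 (Nat.cast_nonneg N)
    linarith
  have hL0 : 0 ≤ L := by
    have h1 := hlen τ₁ le_rfl h12
    have h2 := (hF.mono τ₁ h0 (by linarith)).monotone (show (0 : ℤ) ≤ N by omega)
    linarith
  have h1 := win_mono hF hs0 (a := 0) (b := N) (by omega) h0 h12 hR hlen
  have hlog : 0 ≤ Real.log (1 + L / s0) := Real.log_nonneg (by
    have : 0 ≤ L / s0 := by positivity
    linarith)
  have h2 : 16 / s0 * (τ₂ - τ₁) * Real.log (1 + L / s0) ≤ 16 / s0 * Θ * Real.log (1 + L / s0) := by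
    apply mul_le_mul_of_nonneg_right _ hlog
    apply mul_le_mul_of_nonneg_left hΘ (by positivity)
  have h3 : ∑ k ∈ Finset.Ico (0 : ℤ) N, gp (y τ₂) k ≤ ∑ k ∈ Finset.Ico (0 : ℤ) N, (max (gp (y τ₂) k - s0) 0 + s0) := by
    refine Finset.sum_le_sum fun k _ => ?_
    have := le_max_left (gp (y τ₂) k - s0) 0
    linarith
  have h4 : ∑ k ∈ Finset.Ico (0 : ℤ) N, max (gp (y τ₁) k - s0) 0 ≤ ∑ k ∈ Finset.Ico (0 : ℤ) N, gp (y τ₁) k := by
    refine Finset.sum_le_sum fun k _ => ?_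
    have := gp_pos (hF.mono τ₁ h0 (by linarith)) k
    exact max_le (by linarith) this.le
  rw [Finset.sum_add_distrib, Finset.sum_const, Int.card_Ico, nsmul_eq_mul, sum_gp _ (by omega)] at h3
  rw [sum_gp _ (by omega)] at h4
  have e : ((((N : ℤ) - 0).toNat : ℕ) : ℝ) = N := by simp
  rw [e] at h3
  linarith

lemma log_small (A B ε : ℝ) (hA : 0 ≤ A) (hB : 0 < B) (hε : 0 < ε) : ∀ᶠ x : ℝ in atTop, A * Real.log (1 + B * x) ≤ ε * x := by
  have h1 := Real.isLittleO_log_id_atTop.bound (show 0 < ε / (2 * (A + 1) * (B + 1)) by positivity)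
  have h2 : Tendsto (fun x : ℝ => 1 + B * x) atTop atTop :=
    tendsto_atTop_add_const_left _ _ (tendsto_id.const_mul_atTop hB)
  filter_upwards [h2.eventually h1, eventually_ge_atTop 1] with x hx hx1
  have h3 : 0 ≤ B * x := by positivity
  rw [id, Real.norm_eq_abs, Real.norm_eq_abs, abs_of_pos (by positivity : 0 < 1 + B * x)] at hx
  have h4 := (le_abs_self _).trans hx
  have h5 : 1 + B * x ≤ (B + 1) * x := by linarith
  have h6 : ε / (2 * (A + 1) * (B + 1)) * (1 + B * x) ≤ ε / (2 * (A + 1) * (B + 1)) * ((B + 1) * x) :=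
    mul_le_mul_of_nonneg_left h5 (by positivity)
  have h7 : ε / (2 * (A + 1) * (B + 1)) * ((B + 1) * x) = ε * x / (2 * (A + 1)) := by field_simp
  have h8 : Real.log (1 + B * x) ≤ ε * x / (2 * (A + 1)) := by linarith
  have h9 : A * Real.log (1 + B * x) ≤ A * (ε * x / (2 * (A + 1))) := mul_le_mul_of_nonneg_left h8 hA
  refine h9.trans ?_
  rw [mul_div_assoc', div_le_iff₀ (by positivity)]
  have h10 : 0 ≤ ε * x := by positivity
  nlinarith

/-- the rescaled flow -/
noncomputable def YS (T θ : ℝ) (k : ℤ) : ℝ := lam T * YY (θ / lam T ^ 2) k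

lemma flow_s (RH : RiemannHypothesis) {T : ℝ} (hT : 0 < lam T) : Flow (YS T) (1 / 8 * lam T ^ 2) :=
  (flow_xi RH).scale hT

lemma YS_nat {T τ : ℝ} (hT : 0 < lam T) (hτ : 0 < τ) (n : ℕ) : YS T (τ * lam T ^ 2) n = lam T * GG τ n := by
  unfold YS
  rw [mul_div_assoc, div_self (by positivity), mul_one, YY_nat, GG_pos_eq hτ]

lemma sum_low {g : ℕ → ℝ} {N : ℕ} (hg : ∀ k, 0 ≤ g k) {c b : ℝ} (hc : 0 ≤ c)
    (hb : (((Finset.range N).filter (fun k => g k < c)).card : ℝ) ≤ b) : c * (N - b) ≤ ∑ k ∈ Finset.range N, g k := by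
  classical
  have h1 : ((Finset.range N).filter (fun k => g k < c)).card + ((Finset.range N).filter (fun k => ¬ g k < c)).card = N := by
    rw [Finset.card_filter_add_card_filter_not, Finset.card_range]
  have h2 : (((Finset.range N).filter (fun k => g k < c)).card : ℝ) +
      (((Finset.range N).filter (fun k => ¬ g k < c)).card : ℝ) = N := by exact_mod_cast h1
  calc c * (N - b) ≤ c * (((Finset.range N).filter (fun k => ¬ g k < c)).card : ℝ) :=
        mul_le_mul_of_nonneg_left (by linarith) hc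
    _ = ∑ k ∈ (Finset.range N).filter (fun k => ¬ g k < c), c := by rw [Finset.sum_const, nsmul_eq_mul]; ring
    _ ≤ ∑ k ∈ (Finset.range N).filter (fun k => ¬ g k < c), g k := by
        refine Finset.sum_le_sum fun k hk => ?_
        rw [Finset.mem_filter, not_lt] at hk
        exact hk.2
    _ ≤ _ := Finset.sum_le_sum_of_subset_of_nonneg (Finset.filter_subset _ _) (fun k _ _ => hg k)

lemma sum_abs {g : ℕ → ℝ} {N : ℕ} (hg : ∀ k, 0 ≤ g k) {c b : ℝ} (hc : 0 ≤ c)
    (hb : (((Finset.range N).filter (fun k => g k < 1 - c)).card : ℝ) ≤ b) :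
    ∑ k ∈ Finset.range N, |g k - 1| ≤ 2 * (c * N + b) + (∑ k ∈ Finset.range N, g k - N) := by
  classical
  have h1 : ∀ k ∈ Finset.range N, |g k - 1| ≤ (2 * c + (g k - 1)) + (if g k < 1 - c then 2 else 0) := by
    intro k _
    have h2 := hg k
    split_ifs with h3
    · rw [abs_of_nonpos (by linarith)]
      linarith
    · rw [not_lt] at h3
      rw [abs_le]
      constructor <;> linarith
  refine (Finset.sum_le_sum h1).trans ?_
  rw [Finset.sum_add_distrib, Finset.sum_add_distrib, Finset.sum_const, Finset.card_range, nsmul_eq_mul,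
    ← Finset.sum_filter, Finset.sum_const, nsmul_eq_mul, Finset.sum_sub_distrib, Finset.sum_const,
    Finset.card_range, nsmul_eq_mul]
  linarith

lemma tele_nat (y : ℕ → ℝ) (N : ℕ) : ∑ k ∈ Finset.range N, (y (k + 1) - y k) = y N - y 0 :=
  Finset.sum_range_sub y N

/-- the first zero is bounded -/
lemma first_zero (RH : RiemannHypothesis) {τ : ℝ} (h0 : 0 ≤ τ) (h1 : τ < 1 / 8) : GG τ 0 ≤ SG.ord 1 + 3 := by
  rcases h0.eq_or_lt with rfl | h
  · rw [GG_zero]
    linarith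
  obtain ⟨σ, s1, s2, s3, s4⟩ := GG_approx RH le_rfl 0 (ε := min τ 1) (lt_min h one_pos)
  have hστ : σ ≤ τ := by
    have := min_le_left τ 1
    linarith
  have h5 := s4 0 le_rfl
  rw [GG_zero, GG_pos_eq s1, abs_le] at h5
  have h6 : en (ZZ σ) 0 ≤ SG.ord 1 + 1 := by
    have := min_le_right τ 1
    simp only [zero_add] at h5
    linarith [h5.2]
  have h7 := gap_growth (flow_xi RH) s1 hστ h1 (-1)
  have e : ∀ t : ℝ, gp (YY t) (-1) = 2 * en (ZZ t) 0 := by
    intro t
    unfold gp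
    have e1 := YY_nat t 0
    have e2 := YY_neg t 0
    norm_num at e1 e2 ⊢
    rw [e1, e2]
    ring
  rw [e, e] at h7
  have h8 : Real.sqrt (8 * (τ - σ)) ≤ 2 := by
    rw [Real.sqrt_le_left (by norm_num)]
    linarith
  rw [GG_pos_eq h]
  linarith

/-- the constants of the window in the lemma below -/
lemma sqrt_pos_aux {Θ : ℝ} : 0 ≤ Real.sqrt (8 * Θ) := Real.sqrt_nonneg _

theorem count_unif (RH : RiemannHypothesis) (K η : ℝ) (hK : 0 < K) (hη : 0 < η) (hη1 : η ≤ 1 / 2) :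
    ∀ᶠ T : ℝ in atTop, ∀ τ : ℝ, 0 ≤ τ → τ * Real.log T ^ 2 ≤ K → ∀ N : ℕ, MT T / 2 ≤ N → (N : ℝ) ≤ 2 * MT T →
      |lam T * (GG τ N - GG τ 0) - N| ≤ η * N ∧ lam T * GG τ 0 ≤ η * N := by
  obtain ⟨κ, hκ⟩ : ∃ κ : ℝ, κ = η / 400 := ⟨_, rfl⟩
  have hκ0 : 0 < κ := by rw [hκ]; positivity
  obtain ⟨K1, hK1, hbad⟩ := bad_count RH κ hκ0 (by rw [hκ]; linarith)
  obtain ⟨K3, hK3⟩ : ∃ K3 : ℝ, K3 = K + K1 := ⟨_, rfl⟩
  have hK30 : 0 < K3 := by linarith
  obtain ⟨S, hS⟩ : ∃ S : ℝ, S = Real.sqrt (8 * K3) := ⟨_, rfl⟩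
  have hS0 : 0 ≤ S := by rw [hS]; exact Real.sqrt_nonneg _
  have hpi := Real.pi_gt_three
  have hpi4 : Real.pi < 3.15 := Real.pi_lt_d2
  have hMT : Tendsto MT atTop atTop := by
    have h1 : Tendsto (fun T : ℝ => T * lam T) atTop atTop := tendsto_id.atTop_mul_atTop₀ lam_tendsto
    exact h1.congr (fun T => (MT_eq T).symm)
  have hls := log_small (16 / (η / 8) * K3) ((4 + S) / (η / 8)) (η / 16) (by positivity) (by positivity) (by positivity)
  obtain ⟨X0, hX0⟩ := eventually_atTop.1 hls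
  filter_upwards [hbad, ord_asymp (η / 8) (by positivity) (by linarith), lam_tendsto.eventually_ge_atTop 1,
    Real.tendsto_log_atTop.eventually_ge_atTop (8 * K3 + 1), hMT.eventually_ge_atTop (2 * max X0 1 + 400 / η),
    eventually_ge_atTop (1 + 32 / η * (SG.ord 1 + 3))] with T g1 g2 g3 g4 g5 g6
  have hlam0 : 0 < lam T := by linarith
  have hlogpos : 0 < Real.log T := by linarith
  have hlog1 : 1 ≤ Real.log T := by linarith
  have hord1 : 0 < SG.ord 1 := SG.ord_pos le_rfl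
  have hT0 : 1 < T := by
    have : 0 < 32 / η * (SG.ord 1 + 3) := by positivity
    linarith
  have hlam2 : lam T ^ 2 * (2 * Real.pi) ^ 2 = Real.log T ^ 2 := by
    unfold lam
    field_simp
  have hlamlog : lam T ^ 2 ≤ Real.log T ^ 2 := by
    rw [← hlam2]
    have h1 : (1 : ℝ) ≤ (2 * Real.pi) ^ 2 := by nlinarith
    nlinarith [sq_nonneg (lam T)]
  -- times
  have htime : ∀ τ : ℝ, 0 ≤ τ → τ * Real.log T ^ 2 ≤ K3 → τ < 1 / 8 ∧ τ * lam T ^ 2 ≤ K3 ∧ τ * Real.log T ≤ 1 := by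
    intro τ h0 h1
    have h2 : τ * Real.log T ≤ τ * Real.log T ^ 2 := by
      apply mul_le_mul_of_nonneg_left _ h0
      nlinarith
    have h3 : τ * (8 * K3 + 1) * 1 ≤ τ * Real.log T * Real.log T := by
      apply mul_le_mul _ hlog1 (by norm_num) (by positivity)
      exact mul_le_mul_of_nonneg_left g4 h0
    have h4 : τ * (8 * K3 + 1) ≤ K3 := by nlinarith
    have h5 : τ < 1 / 8 := by
      by_contra hcon
      rw [not_lt] at hcon
      nlinarith
    refine ⟨h5, (mul_le_mul_of_nonneg_left hlamlog h0).trans h1, ?_⟩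
    have h6 : τ * Real.log T * (8 * K3 + 1) ≤ τ * Real.log T * Real.log T :=
      mul_le_mul_of_nonneg_left g4 (by positivity)
    by_contra hcon
    rw [not_le] at hcon
    nlinarith
  have hF := flow_s RH hlam0
  intro τ hτ0 hτK N hN1 hN2
  have hX1 : 1 ≤ max X0 1 := le_max_right _ _
  have hNη : 200 ≤ η * N := by
    have h1 : 400 / η ≤ 2 * N := by linarith
    rw [div_le_iff₀ hη] at h1
    linarith
  have hN400 : (400 : ℝ) ≤ N := by nlinarith
  have hN0 : (0 : ℝ) < N := by linarith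
  have hNX : X0 ≤ N := by
    have h1 : 0 < 400 / η := by positivity
    have := le_max_left X0 1
    linarith
  have hlogs : 16 / (η / 8) * K3 * Real.log (1 + (4 + S) * N / (η / 8)) ≤ η / 16 * N := by
    have := hX0 N hNX
    have e : (4 + S) / (η / 8) * (N : ℝ) = (4 + S) * N / (η / 8) := by ring
    rw [e] at this
    exact this
  have hMTN : MT T = T * lam T := MT_eq T
  have hfirst : lam T * (SG.ord 1 + 3) ≤ η / 16 * N := by
    have h1 : 32 / η * (SG.ord 1 + 3) * lam T ≤ 2 * N := by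
      have h2 : 32 / η * (SG.ord 1 + 3) * lam T ≤ T * lam T := mul_le_mul_of_nonneg_right (by linarith) hlam0.le
      linarith
    have h3 : 32 / η * (SG.ord 1 + 3) * lam T = (32 * (lam T * (SG.ord 1 + 3))) / η := by ring
    rw [h3, div_le_iff₀ hη] at h1
    linarith
  have hfz : ∀ τ : ℝ, 0 ≤ τ → τ < 1 / 8 → lam T * GG τ 0 ≤ η / 16 * N := by
    intro τ h0 h1
    refine le_trans ?_ hfirst
    exact mul_le_mul_of_nonneg_left (first_zero RH h0 h1) hlam0.le
  have hord := g2 (N + 1) (by push_cast; linarith) (by push_cast; linarith)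
  push_cast at hord
  rw [abs_le] at hord
  have hord1' : lam T * SG.ord 1 ≤ η / 16 * N := by
    refine le_trans ?_ hfirst
    exact mul_le_mul_of_nonneg_left (by linarith) hlam0.le
  have hord10 : 0 < lam T * SG.ord 1 := by positivity
  refine ⟨?_, ?_⟩
  swap
  · have := hfz τ hτ0 (htime τ hτ0 (by linarith)).1
    nlinarith
  rcases hτ0.eq_or_lt with rfl | hτ
  · rw [GG_zero, GG_zero, abs_le]
    simp only [zero_add]
    constructor <;> nlinarith [hord.1, hord.2]
  -- positive time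
  obtain ⟨σ, s1, -, s3, s4⟩ := GG_approx RH le_rfl (N + 1) (ε := min τ (1 / lam T)) (lt_min hτ (by positivity))
  have hστ : σ ≤ τ := by
    have := min_le_left τ (1 / lam T)
    linarith
  have hnear : ∀ n ≤ N + 1, |lam T * GG σ n - lam T * SG.ord (n + 1)| ≤ 1 := by
    intro n hn
    have h1 := s4 n hn
    rw [GG_zero] at h1
    rw [← mul_sub, abs_mul, abs_of_pos hlam0]
    calc lam T * |GG σ n - SG.ord (n + 1)| ≤ lam T * (1 / lam T) :=
          mul_le_mul_of_nonneg_left (h1.trans (min_le_right _ _)) hlam0.le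
      _ = 1 := by field_simp
  have hn0 := hnear 0 (by omega)
  have hnN := hnear N (by omega)
  rw [abs_le] at hn0 hnN
  simp only [zero_add] at hn0
  have hlen0 : lam T * GG σ N - lam T * GG σ 0 ≤ (1 + η / 8) * (N + 1) + 2 := by
    linarith [hn0.1, hnN.2, hord.2]
  obtain ⟨τ3, hτ3⟩ : ∃ τ3, τ3 = K3 / Real.log T ^ 2 := ⟨_, rfl⟩
  have hτ3K : τ3 * Real.log T ^ 2 = K3 := by rw [hτ3]; field_simp
  have hττ3 : τ ≤ τ3 := by
    rw [hτ3, le_div_iff₀ (by positivity)]
    linarith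
  have hτ30 : 0 < τ3 := by linarith
  obtain ⟨t1, t2, t3⟩ := htime τ3 hτ30.le hτ3K.le
  have hlamsq : 0 < lam T ^ 2 := by positivity
  have hRlt : τ3 * lam T ^ 2 < 1 / 8 * lam T ^ 2 := mul_lt_mul_of_pos_right t1 hlamsq
  have hσθ : 0 < σ * lam T ^ 2 := by positivity
  -- upper bound
  have hup : ∀ t : ℝ, σ ≤ t → t ≤ τ3 → lam T * (GG t N - GG t 0) ≤ (1 + η / 2) * N := by
    intro t h1 h2
    have ht0 : 0 < t := by linarith
    have h3 : σ * lam T ^ 2 ≤ t * lam T ^ 2 := mul_le_mul_of_nonneg_right h1 hlamsq.le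
    have h4 : t * lam T ^ 2 ≤ τ3 * lam T ^ 2 := mul_le_mul_of_nonneg_right h2 hlamsq.le
    have h5 := len_mono hF (N := N) (s0 := η / 8) (Θ := K3) (L := (4 + S) * N) hσθ h3 (by linarith) (by positivity)
      (by linarith) (by
        have e0 := YS_nat hlam0 s1 0
        simp only [Nat.cast_zero] at e0
        rw [YS_nat hlam0 s1, e0, ← hS]
        have : (4 + S) * (N : ℝ) = 4 * N + N * S := by ring
        rw [this]
        nlinarith)
    have e0 := YS_nat hlam0 s1 0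
    have e1 := YS_nat hlam0 ht0 0
    simp only [Nat.cast_zero] at e0 e1
    rw [YS_nat hlam0 s1, YS_nat hlam0 ht0, e0, e1] at h5
    nlinarith
  have hup3 := hup τ3 (by linarith) le_rfl
  have hupτ := hup τ hστ hττ3
  -- the gaps at the time `τ3`
  have hGN : GG τ3 N ≤ 3 * T := by
    have h1 := hfz τ3 hτ30.le t1
    have h2 : lam T * GG τ3 N ≤ lam T * (3 * T) := by nlinarith
    exact le_of_mul_le_mul_left h2 hlam0
  have hb := g1 τ3 hτ30 (by linarith) t3 N hGN
  have hb2 : (((Finset.range N).filter (fun k => lam T * (GG τ3 (k + 1) - GG τ3 k) < 1 - 2 * κ)).card : ℝ) ≤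
      η / 4 * N := by
    refine hb.trans ?_
    have h1 : T * Real.log T = 2 * Real.pi * MT T := by
      unfold MT
      field_simp
    rw [h1, hκ]
    have h2 : MT T ≤ 2 * N := by linarith
    have h3 : 0 ≤ MT T := by linarith
    have h4 : 2 * Real.pi * MT T ≤ 6.3 * (2 * N) := by
      apply mul_le_mul (by linarith) h2 h3 (by norm_num)
    nlinarith
  have hmono := GG_mono RH hτ30.le t1.le
  have hlow := sum_low (g := fun k => lam T * (GG τ3 (k + 1) - GG τ3 k)) (N := N) (c := 1 - 2 * κ) (b := η / 4 * N)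
    (fun k => mul_nonneg hlam0.le (by linarith [hmono (Nat.le_succ k)])) (by rw [hκ]; linarith) hb2
  rw [← Finset.mul_sum, tele_nat] at hlow
  have h3 : τ * lam T ^ 2 ≤ τ3 * lam T ^ 2 := mul_le_mul_of_nonneg_right hττ3 hlamsq.le
  have h5 := len_mono hF (N := N) (s0 := η / 8) (Θ := K3) (L := (4 + S) * N) (show 0 < τ * lam T ^ 2 by positivity) h3
    hRlt (by positivity)
      (by
        have : 0 < τ * lam T ^ 2 := by positivity
        linarith) (by
        have e0 := YS_nat hlam0 hτ 0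
        simp only [Nat.cast_zero] at e0
        rw [YS_nat hlam0 hτ, e0, ← hS]
        have : (4 + S) * (N : ℝ) = 4 * N + N * S := by ring
        rw [this]
        nlinarith)
  have e0 := YS_nat hlam0 hτ 0
  have e1 := YS_nat hlam0 hτ30 0
  simp only [Nat.cast_zero] at e0 e1
  rw [YS_nat hlam0 hτ, YS_nat hlam0 hτ30, e0, e1] at h5
  rw [abs_le]
  constructor
  · rw [hκ] at hlow
    nlinarith
  · nlinarith

end Pool.Agent.P8H8.HF
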