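import Mathlib

set_option autoImplicit false

/-!
# Enumeration of a locally finite set of positive reals
-/

namespace Pool.Agent.P8H8.HF

open Set Filter Topology

/-- number of elements up to `x` -/
noncomputable def cn (A : Set ℝ) (x : ℝ) : ℕ := (A ∩ Iic x).ncard

/-- the `n`-th element, `n = 0, 1, 2, …` -/
noncomputable def en (A : Set ℝ) (n : ℕ) : ℝ := sInf {x : ℝ | n < cn A x}

/-- locally finite and unbounded -/
structure LF (A : Set ℝ) : Prop where
  pos : ∀ x ∈ A, 0 < x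
  fin : ∀ x : ℝ, (A ∩ Iic x).Finite
  inf : ∀ x : ℝ, ∃ y ∈ A, x < y

variable {A : Set ℝ}

lemma cn_mono (h : LF A) {x y : ℝ} (hxy : x ≤ y) : cn A x ≤ cn A y :=
  Set.ncard_le_ncard (inter_subset_inter_right _ (Iic_subset_Iic.2 hxy)) (h.fin y)

lemma cn_lt (h : LF A) {x y : ℝ} (hxy : x < y) (hy : y ∈ A) : cn A x < cn A y := by
  apply Set.ncard_lt_ncard _ (h.fin y)
  rw [Set.ssubset_iff_of_subset (inter_subset_inter_right _ (Iic_subset_Iic.2 hxy.le))]
  exact ⟨y, ⟨hy, self_mem_Iic⟩, fun h2 => absurd h2.2 (not_le.2 hxy)⟩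

lemma exists_large (h : LF A) (n : ℕ) : ∃ x ∈ A, n < cn A x := by
  induction n with
  | zero =>
    obtain ⟨y, hy, -⟩ := h.inf 0
    refine ⟨y, hy, ?_⟩
    unfold cn
    rw [Set.ncard_pos (h.fin y)]
    exact ⟨y, hy, self_mem_Iic⟩
  | succ n ih =>
    obtain ⟨x, hx, hn⟩ := ih
    obtain ⟨y, hy, hxy⟩ := h.inf x
    exact ⟨y, hy, by have := cn_lt h hxy hy; omega⟩

/-- the `n`-th element exists -/
lemma exists_nth (h : LF A) (n : ℕ) : ∃ e ∈ A, cn A e = n + 1 := by
  classical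
  obtain ⟨X, hX, hn⟩ := exists_large h n
  obtain ⟨S, hS⟩ : ∃ S : Finset ℝ, S = (h.fin X).toFinset.filter (fun x => n < cn A x) := ⟨_, rfl⟩
  have hmem : ∀ x, x ∈ S ↔ (x ∈ A ∧ x ≤ X) ∧ n < cn A x := by
    intro x
    rw [hS, Finset.mem_filter, Set.Finite.mem_toFinset]
    rfl
  have hne : S.Nonempty := ⟨X, (hmem X).2 ⟨⟨hX, le_rfl⟩, hn⟩⟩
  obtain ⟨e, he, hmin⟩ := S.exists_min_image id hne
  obtain ⟨⟨heA, heX⟩, hen⟩ := (hmem e).1 he
  refine ⟨e, heA, ?_⟩
  by_contra hcon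
  have h2 : n + 1 < cn A e := by omega
  -- the elements below e
  have h3 : ((A ∩ Iic e) \ {e}).ncard = cn A e - 1 :=
    Set.ncard_sdiff_singleton_of_mem (show e ∈ A ∩ Iic e from ⟨heA, self_mem_Iic⟩)
  have hfin : ((A ∩ Iic e) \ {e}).Finite := (h.fin e).subset Set.sdiff_subset
  have hne2 : ((A ∩ Iic e) \ {e}).Nonempty := by
    rw [← Set.ncard_pos hfin]
    omega
  obtain ⟨a, ha, hmax⟩ := Set.exists_max_image _ id hfin hne2
  obtain ⟨⟨haA, hae⟩, hne'⟩ := ha
  have hae' : a < e := lt_of_le_of_ne hae hne'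
  have h4 : (A ∩ Iic e) \ {e} ⊆ A ∩ Iic a := by
    intro x hx
    exact ⟨hx.1.1, hmax x hx⟩
  have h5 := Set.ncard_le_ncard h4 (h.fin a)
  have h6 : n < cn A a := by
    unfold cn
    rw [h3] at h5
    unfold cn at h2 h5
    omega
  have h7 := hmin a ((hmem a).2 ⟨⟨haA, hae'.le.trans heX⟩, h6⟩)
  simp only [id] at h7
  linarith

lemma en_spec (h : LF A) (n : ℕ) : en A n ∈ A ∧ cn A (en A n) = n + 1 := by
  obtain ⟨e, heA, hen⟩ := exists_nth h n
  have e1 : {x : ℝ | n < cn A x} = Ici e := by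
    ext x
    constructor
    · intro hx
      by_contra hcon
      rw [mem_Ici, not_le] at hcon
      have h1 := cn_lt h hcon heA
      have hx' : n < cn A x := hx
      omega
    · intro hx
      have h1 := cn_mono h (show e ≤ x from hx)
      show n < cn A x
      omega
  have e2 : en A n = e := by
    unfold en
    rw [e1, csInf_Ici]
  rw [e2]
  exact ⟨heA, hen⟩

lemma en_le_iff (h : LF A) (n : ℕ) (x : ℝ) : en A n ≤ x ↔ n < cn A x := by
  obtain ⟨h1, h2⟩ := en_spec h n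
  constructor
  · intro h3
    have := cn_mono h h3
    omega
  · intro h3
    by_contra hcon
    rw [not_le] at hcon
    have := cn_lt h hcon h1
    omega

lemma en_strictMono (h : LF A) : StrictMono (en A) := by
  apply strictMono_nat_of_lt_succ
  intro n
  by_contra hcon
  rw [not_lt] at hcon
  have h1 := cn_mono h hcon
  rw [(en_spec h n).2, (en_spec h (n + 1)).2] at h1
  omega

lemma en_pos (h : LF A) (n : ℕ) : 0 < en A n := h.pos _ (en_spec h n).1

lemma en_cn (h : LF A) {x : ℝ} (hx : x ∈ A) : en A (cn A x - 1) = x := by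
  have h0 : 0 < cn A x := by
    unfold cn
    rw [Set.ncard_pos (h.fin x)]
    exact ⟨x, hx, self_mem_Iic⟩
  apply le_antisymm
  · rw [en_le_iff h]
    omega
  · by_contra hcon
    rw [not_le] at hcon
    have h1 := cn_lt h hcon hx
    rw [(en_spec h _).2] at h1
    omega

lemma en_surj (h : LF A) {x : ℝ} (hx : x ∈ A) : ∃ n : ℕ, en A n = x := ⟨_, en_cn h hx⟩

lemma en_tendsto (h : LF A) : Tendsto (en A) atTop atTop := by
  rw [tendsto_atTop]
  intro x
  filter_upwards [eventually_ge_atTop (cn A x)] with n hn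
  by_contra hcon
  rw [not_le] at hcon
  have h1 := (en_le_iff h n x).1 hcon.le
  omega

lemma en_consec (h : LF A) (n : ℕ) {x : ℝ} (hx : x ∈ A) : ¬ (en A n < x ∧ x < en A (n + 1)) := by
  rintro ⟨h1, h2⟩
  obtain ⟨m, rfl⟩ := en_surj h hx
  have h3 := (en_strictMono h).lt_iff_lt.1 h1
  have h4 := (en_strictMono h).lt_iff_lt.1 h2
  omega

lemma cn_zero (h : LF A) : cn A 0 = 0 := by
  unfold cn
  rw [Set.ncard_eq_zero (h.fin 0), eq_empty_iff_forall_notMem]
  rintro x ⟨h1, h2⟩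
  have := h.pos x h1
  have h3 : x ≤ 0 := h2
  linarith

/-- `cn A x` is the number of `n` with `en A n ≤ x`. -/
lemma cn_eq (h : LF A) (x : ℝ) (n : ℕ) : n < cn A x ↔ en A n ≤ x := (en_le_iff h n x).symm

end Pool.Agent.P8H8.HF
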