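import Pool.Agent.P8H8.HF.Gd3

set_option autoImplicit false

/-!
# The Fredholm determinant of the sine kernel: regularity
-/

namespace Pool.Agent.P8H8.HF

open Complex MeasureTheory Filter Topology Matrix Metric
open scoped ComplexOrder

/-- complex cardinal sine -/
noncomputable def csc : ℂ → ℂ := dslope Complex.sin 0

lemma csc_diff : Differentiable ℂ csc := by
  have h := (Complex.differentiableOn_dslope (f := Complex.sin) (c := 0) (s := Set.univ) Filter.univ_mem).2
    Complex.differentiable_sin.differentiableOn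
  exact differentiableOn_univ.1 h

lemma csc_real (x : ℝ) : csc (x : ℂ) = ((Real.sinc x : ℝ) : ℂ) := by
  unfold csc
  by_cases hx : x = 0
  · rw [hx, Complex.ofReal_zero, dslope_same, Real.sinc_zero, Complex.ofReal_one]
    simp
  · have hxc : (x : ℂ) ≠ 0 := by exact_mod_cast hx
    rw [dslope_of_ne _ hxc, slope_def_field, Real.sinc_of_ne_zero hx]
    simp

lemma param_diff {k : ℕ} {g : ℂ × (Fin k → ℂ) → ℂ} (hg : ContDiff ℂ 1 g) {K : Set (Fin k → ℝ)} (hK : IsCompact K) :
    Differentiable ℂ (fun z : ℂ => ∫ u in K, g (z, fun i => (u i : ℂ))) := by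
  intro z0
  have hemb : Continuous (fun p : ℂ × (Fin k → ℝ) => ((p.1, fun i => (p.2 i : ℂ)) : ℂ × (Fin k → ℂ))) := by fun_prop
  have hcont : Continuous (fun p : ℂ × (Fin k → ℝ) => fderiv ℂ g (p.1, fun i => (p.2 i : ℂ)) (1, 0)) := by
    have h1 : Continuous (fderiv ℂ g) := hg.continuous_fderiv one_ne_zero
    exact (h1.comp hemb).clm_apply continuous_const
  obtain ⟨C, hC⟩ := ((isCompact_closedBall z0 1).prod hK).exists_bound_of_continuousOn hcont.continuousOn
  have hfin : IsFiniteMeasure (volume.restrict K) := ⟨by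
    rw [Measure.restrict_apply_univ]
    exact hK.measure_lt_top⟩
  have hgc : ∀ z : ℂ, Continuous (fun u : Fin k → ℝ => g (z, fun i => (u i : ℂ))) := by
    intro z
    exact hg.continuous.comp (by fun_prop)
  have h := hasDerivAt_integral_of_dominated_loc_of_deriv_le (μ := volume.restrict K) (𝕜 := ℂ)
    (F := fun z u => g (z, fun i => (u i : ℂ))) (F' := fun z u => fderiv ℂ g (z, fun i => (u i : ℂ)) (1, 0))
    (x₀ := z0) (s := ball z0 1) (bound := fun _ => C) (ball_mem_nhds z0 one_pos) ?_ ?_ ?_ ?_ (integrable_const C) ?_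
  · exact h.2.differentiableAt
  · exact Eventually.of_forall fun z => (hgc z).aestronglyMeasurable
  · exact (hgc z0).continuousOn.integrableOn_compact hK
  · apply Continuous.aestronglyMeasurable
    exact hcont.comp (by fun_prop : Continuous fun u : Fin k → ℝ => ((z0, u) : ℂ × (Fin k → ℝ)))
  · refine ae_restrict_of_forall_mem hK.measurableSet (fun u hu z hz => ?_)
    exact hC (z, u) ⟨ball_subset_closedBall hz, hu⟩
  · refine Eventually.of_forall fun u z _ => ?_
    have h1 := (hg.differentiable one_ne_zero (z, fun i => (u i : ℂ))).hasFDerivAt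
    exact h1.comp_hasDerivAt z ((hasDerivAt_id z).prodMk (hasDerivAt_const z _))

/-- the complex determinants -/
noncomputable def cdet (k : ℕ) (p : ℂ × (Fin k → ℂ)) : ℂ :=
  p.1 ^ k * Matrix.det (Matrix.of fun i j : Fin k => csc (Real.pi * p.1 * (p.2 i - p.2 j)))

lemma cdet_smooth (k : ℕ) : ContDiff ℂ 1 (cdet k) := by
  unfold cdet
  apply ContDiff.mul (by fun_prop)
  simp_rw [det_apply']
  apply ContDiff.sum
  intro σ _
  apply contDiff_const.mul
  apply contDiff_prod
  intro i _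
  simp only [of_apply]
  exact csc_diff.contDiff.comp (by fun_prop)

/-- the terms of the series -/
noncomputable def Tk (k : ℕ) (z : ℂ) : ℂ := ∫ u in Set.Icc (0 : Fin k → ℝ) (fun _ => 1), cdet k (z, fun i => (u i : ℂ))

lemma Tk_diff (k : ℕ) : Differentiable ℂ (Tk k) := param_diff (cdet_smooth k) isCompact_Icc

lemma Tk_real (k : ℕ) {s : ℝ} (hs : 0 < s) : Tk k (s : ℂ) = ((fint k s : ℝ) : ℂ) := by
  rw [fint_scale k hs, cube_Icc]
  unfold Tk
  rw [Complex.ofReal_mul, ← integral_complex_ofReal, ← integral_const_mul]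
  congr 1
  funext u
  unfold cdet sdet
  rw [det_cast]
  push_cast
  congr 2
  ext i j
  simp only [of_apply, Pi.smul_apply, smul_eq_mul]
  rw [← csc_real]
  congr 1
  push_cast
  ring

/-- Hadamard's inequality for a complex matrix -/
lemma had_c {k : ℕ} (M : Matrix (Fin k) (Fin k) ℂ) {B : ℝ} (hB : 0 ≤ B) (h : ∀ i j, ‖M i j‖ ≤ B) :
    ‖M.det‖ ≤ (B * Real.sqrt k) ^ k := by
  have h1 := Pool.Agent.H940R3.VD.hadamard (posSemidef_conjTranspose_mul_self M)
  have h2 : (Mᴴ * M).det.re = ‖M.det‖ ^ 2 := by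
    rw [det_mul, det_conjTranspose]
    have : star M.det * M.det = ((‖M.det‖ ^ 2 : ℝ) : ℂ) := by
      rw [mul_comm]
      show M.det * (starRingEnd ℂ) M.det = _
      rw [Complex.mul_conj, Complex.normSq_eq_norm_sq]
    rw [this, Complex.ofReal_re]
  have h3 : ∀ i, ((Mᴴ * M) i i).re ≤ B ^ 2 * k := by
    intro i
    rw [mul_apply, Complex.re_sum]
    have h4 : ∀ j ∈ (Finset.univ : Finset (Fin k)), (Mᴴ i j * M j i).re ≤ B ^ 2 := by
      intro j _
      rw [conjTranspose_apply]
      have : star (M j i) * M j i = ((‖M j i‖ ^ 2 : ℝ) : ℂ) := by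
        rw [mul_comm]
        show M j i * (starRingEnd ℂ) (M j i) = _
        rw [Complex.mul_conj, Complex.normSq_eq_norm_sq]
      rw [this, Complex.ofReal_re]
      exact pow_le_pow_left₀ (norm_nonneg _) (h j i) 2
    refine (Finset.sum_le_sum h4).trans (le_of_eq ?_)
    rw [Finset.sum_const, Finset.card_univ, Fintype.card_fin, nsmul_eq_mul]
    ring
  have h5 : ∏ i, ((Mᴴ * M) i i).re ≤ (B ^ 2 * k) ^ k := by
    have h6 := Finset.prod_le_prod (s := (Finset.univ : Finset (Fin k))) (f := fun i => ((Mᴴ * M) i i).re)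
      (g := fun _ => B ^ 2 * k) (fun i _ => Pool.Agent.H940R3.VD.diag_re_nonneg
        (posSemidef_conjTranspose_mul_self M) i) (fun i _ => h3 i)
    rwa [Finset.prod_const, Finset.card_univ, Fintype.card_fin] at h6
  rw [h2] at h1
  have h7 : (B ^ 2 * k) ^ k = ((B * Real.sqrt k) ^ k) ^ 2 := by
    rw [← pow_mul, mul_comm k 2, pow_mul, mul_pow B, Real.sq_sqrt (Nat.cast_nonneg k)]
  rw [h7] at h5
  have h8 : 0 ≤ (B * Real.sqrt k) ^ k := by positivity
  exact (pow_le_pow_iff_left₀ (norm_nonneg _) h8 two_ne_zero).1 (h1.trans h5)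

lemma summ (a : ℝ) (ha : 0 ≤ a) : Summable (fun k : ℕ => (a * Real.sqrt k) ^ k / (k.factorial : ℝ)) := by
  apply Summable.of_norm_bounded_eventually_nat (g := fun k : ℕ => (1 / 2 : ℝ) ^ k)
    (summable_geometric_of_lt_one (by norm_num) (by norm_num))
  have h1 : Tendsto (fun k : ℕ => Real.sqrt (k : ℝ)) atTop atTop :=
    Real.tendsto_sqrt_atTop.comp tendsto_natCast_atTop_atTop
  filter_upwards [h1.eventually_ge_atTop (2 * (a * Real.exp 1)), eventually_gt_atTop 0] with k hk hk0
  have hk0' : (0 : ℝ) < k := by exact_mod_cast hk0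
  have hsq : 0 < Real.sqrt (k : ℝ) := Real.sqrt_pos.2 hk0'
  have h2 := Real.pow_div_factorial_le_exp (k : ℝ) hk0'.le k
  rw [Real.norm_eq_abs, abs_of_nonneg (by positivity)]
  have hf : (0 : ℝ) < (k.factorial : ℝ) := by positivity
  have h3 : (a * Real.sqrt k) ^ k / (k.factorial : ℝ) = (a / Real.sqrt k) ^ k * ((k : ℝ) ^ k / (k.factorial : ℝ)) := by
    rw [← mul_div_assoc, ← mul_pow]
    congr 2
    have : (k : ℝ) = Real.sqrt k * Real.sqrt k := (Real.mul_self_sqrt hk0'.le).symm
    rw [eq_comm, div_mul_eq_mul_div, div_eq_iff hsq.ne']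
    linear_combination a * this
  rw [h3]
  have h4 : Real.exp (k : ℝ) = Real.exp 1 ^ k := by
    rw [← Real.exp_nat_mul, mul_one]
  rw [h4] at h2
  calc (a / Real.sqrt k) ^ k * ((k : ℝ) ^ k / (k.factorial : ℝ)) ≤ (a / Real.sqrt k) ^ k * Real.exp 1 ^ k :=
        mul_le_mul_of_nonneg_left h2 (by positivity)
    _ = (a / Real.sqrt k * Real.exp 1) ^ k := by rw [mul_pow]
    _ ≤ (1 / 2) ^ k := by
        apply pow_le_pow_left₀ (by positivity)
        rw [div_mul_eq_mul_div, div_le_iff₀ hsq]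
        linarith

lemma Tk_bound {R : ℝ} (hR : 0 < R) : ∃ a : ℝ, 0 ≤ a ∧ ∀ (k : ℕ) (z : ℂ), ‖z‖ ≤ R → ‖Tk k z‖ ≤ (a * Real.sqrt k) ^ k := by
  obtain ⟨B, hB⟩ := (isCompact_closedBall (0 : ℂ) (Real.pi * R)).exists_bound_of_continuousOn
    csc_diff.continuous.continuousOn
  have hB0 : 0 ≤ B := (norm_nonneg _).trans (hB 0 (by simp; positivity))
  refine ⟨R * B, by positivity, fun k z hz => ?_⟩
  unfold Tk
  have hvol : (volume.real (Set.Icc (0 : Fin k → ℝ) (fun _ => 1))) = 1 := by
    have h0 := Real.volume_Icc_pi_toReal (a := (0 : Fin k → ℝ)) (b := fun _ => 1) (fun i => zero_le_one)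
    rw [Measure.real, h0]
    simp
  have h1 : ∀ u ∈ Set.Icc (0 : Fin k → ℝ) (fun _ => 1), ‖cdet k (z, fun i => (u i : ℂ))‖ ≤
      (R * B * Real.sqrt k) ^ k := by
    intro u hu
    unfold cdet
    rw [norm_mul, norm_pow, mul_assoc R, mul_pow]
    apply mul_le_mul (pow_le_pow_left₀ (norm_nonneg _) hz k) _ (norm_nonneg _) (by positivity)
    apply had_c _ hB0
    intro i j
    simp only [of_apply]
    apply hB
    rw [mem_closedBall, dist_zero_right, norm_mul, norm_mul, Complex.norm_real, Real.norm_eq_abs,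
      abs_of_pos Real.pi_pos, ← Complex.ofReal_sub, Complex.norm_real, Real.norm_eq_abs]
    have h2 : |u i - u j| ≤ 1 := by
      have a1 := hu.1 i
      have a2 := hu.2 i
      have a3 := hu.1 j
      have a4 := hu.2 j
      simp only [Pi.zero_apply] at a1 a3
      rw [abs_le]
      constructor <;> linarith
    calc Real.pi * ‖z‖ * |u i - u j| ≤ Real.pi * R * 1 := by
          apply mul_le_mul _ h2 (abs_nonneg _) (by positivity)
          exact mul_le_mul_of_nonneg_left hz Real.pi_pos.le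
      _ = Real.pi * R := mul_one _
  have h2 := norm_setIntegral_le_of_norm_le_const (μ := volume) (C := (R * B * Real.sqrt k) ^ k)
    (s := Set.Icc (0 : Fin k → ℝ) (fun _ => 1)) (isCompact_Icc.measure_lt_top) h1
  rwa [hvol, mul_one] at h2

/-- the entire extension -/
noncomputable def Ef (z : ℂ) : ℂ := ∑' k : ℕ, (-1) ^ k / (k.factorial : ℂ) * Tk k z

lemma Ef_diff : Differentiable ℂ Ef := by
  intro z0
  obtain ⟨a, ha, hb⟩ := Tk_bound (R := ‖z0‖ + 1) (by positivity)
  have h1 : DifferentiableOn ℂ Ef (ball 0 (‖z0‖ + 1)) := by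
    unfold Ef
    apply Complex.differentiableOn_tsum_of_summable_norm (summ a ha)
    · intro k
      exact ((Tk_diff k).const_mul _).differentiableOn
    · exact isOpen_ball
    · intro k w hw
      rw [mem_ball, dist_zero_right] at hw
      have h2 := hb k w hw.le
      rw [norm_mul, norm_div, norm_pow, norm_neg, norm_one, one_pow, Complex.norm_natCast, div_mul_eq_mul_div, one_mul]
      exact div_le_div_of_nonneg_right h2 (by positivity)
  exact h1.differentiableAt (isOpen_ball.mem_nhds (by rw [mem_ball, dist_zero_right]; linarith))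

lemma Ef_real {s : ℝ} (hs : 0 < s) : Ef (s : ℂ) = ((fred s : ℝ) : ℂ) := by
  unfold Ef fred
  rw [Complex.ofReal_tsum]
  congr 1
  funext k
  rw [Tk_real k hs]
  push_cast
  rfl

theorem gaudin_reg : ∃ D0 D1 D2 : ℝ → ℝ, (∀ s, HasDerivAt D0 (D1 s) s) ∧ (∀ s, HasDerivAt D1 (D2 s) s) ∧
    Continuous D2 ∧ (∀ s, 0 < s → D0 s = fred s) ∧ D0 0 = 1 ∧ D1 0 = -1 := by
  have hE1 : Differentiable ℂ (deriv Ef) := fun w => ((Ef_diff.analyticAt w).deriv).differentiableAt
  have hE2 : Differentiable ℂ (deriv (deriv Ef)) := fun w => ((hE1.analyticAt w).deriv).differentiableAt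
  have h1 : ∀ s : ℝ, HasDerivAt (fun x : ℝ => (Ef x).re) (deriv Ef s).re s := fun s =>
    (Ef_diff (s : ℂ)).hasDerivAt.real_of_complex
  have h2 : ∀ s : ℝ, HasDerivAt (fun x : ℝ => (deriv Ef x).re) (deriv (deriv Ef) s).re s := fun s =>
    (hE1 (s : ℂ)).hasDerivAt.real_of_complex
  have h3 : ∀ s : ℝ, 0 < s → (Ef s).re = fred s := by
    intro s hs
    rw [Ef_real hs, Complex.ofReal_re]
  have h4 : (Ef ((0 : ℝ) : ℂ)).re = 1 := by
    have c1 : Tendsto (fun x : ℝ => (Ef x).re) (𝓝[>] 0) (𝓝 ((Ef ((0 : ℝ) : ℂ)).re)) :=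
      (h1 0).continuousAt.tendsto.mono_left nhdsWithin_le_nhds
    have c2 : Tendsto (fun x : ℝ => (Ef x).re) (𝓝[>] 0) (𝓝 1) := by
      have d1 : Tendsto (fun x : ℝ => 1 - x - x ^ 2) (𝓝[>] 0) (𝓝 1) := by
        have : ContinuousAt (fun x : ℝ => 1 - x - x ^ 2) 0 := by fun_prop
        have := this.tendsto.mono_left (nhdsWithin_le_nhds (s := Set.Ioi 0))
        simpa using this
      have d2 : Tendsto (fun x : ℝ => 1 - x + x ^ 2) (𝓝[>] 0) (𝓝 1) := by
        have : ContinuousAt (fun x : ℝ => 1 - x + x ^ 2) 0 := by fun_prop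
        have := this.tendsto.mono_left (nhdsWithin_le_nhds (s := Set.Ioi 0))
        simpa using this
      have hev : ∀ᶠ x : ℝ in 𝓝[>] 0, 0 < x ∧ x ≤ 1 := by
        have := Ioc_mem_nhdsGT (show (0 : ℝ) < 1 by norm_num)
        exact this
      refine tendsto_of_tendsto_of_tendsto_of_le_of_le' d1 d2 ?_ ?_
      · filter_upwards [hev] with x hx
        have := abs_le.1 (fred_near hx.1 hx.2)
        rw [h3 x hx.1]
        linarith [this.1]
      · filter_upwards [hev] with x hx
        have := abs_le.1 (fred_near hx.1 hx.2)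
        rw [h3 x hx.1]
        linarith [this.2]
    exact tendsto_nhds_unique c1 c2
  refine ⟨fun x => (Ef x).re, fun x => (deriv Ef x).re, fun x => (deriv (deriv Ef) x).re, h1, h2, ?_, h3, h4, ?_⟩
  · exact Complex.continuous_re.comp (hE2.continuous.comp Complex.continuous_ofReal)
  · have c1 : Tendsto (fun x : ℝ => x⁻¹ * ((Ef x).re - 1)) (𝓝[>] 0) (𝓝 ((deriv Ef ((0 : ℝ) : ℂ)).re)) := by
      have := (hasDerivAt_iff_tendsto_slope.1 (h1 0)).mono_left
        (nhdsWithin_mono _ (fun x (hx : x ∈ Set.Ioi (0 : ℝ)) => ne_of_gt hx))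
      refine this.congr (fun x => ?_)
      rw [slope_def_module, h4, sub_zero, smul_eq_mul]
    have c2 : Tendsto (fun x : ℝ => x⁻¹ * ((Ef x).re - 1)) (𝓝[>] 0) (𝓝 (-1)) := by
      have d1 : Tendsto (fun x : ℝ => -1 - x) (𝓝[>] 0) (𝓝 (-1)) := by
        have : ContinuousAt (fun x : ℝ => -1 - x) 0 := by fun_prop
        have := this.tendsto.mono_left (nhdsWithin_le_nhds (s := Set.Ioi 0))
        simpa using this
      have d2 : Tendsto (fun x : ℝ => -1 + x) (𝓝[>] 0) (𝓝 (-1)) := by
        have : ContinuousAt (fun x : ℝ => -1 + x) 0 := by fun_prop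
        have := this.tendsto.mono_left (nhdsWithin_le_nhds (s := Set.Ioi 0))
        simpa using this
      have hev : ∀ᶠ x : ℝ in 𝓝[>] 0, 0 < x ∧ x ≤ 1 := by
        have := Ioc_mem_nhdsGT (show (0 : ℝ) < 1 by norm_num)
        exact this
      refine tendsto_of_tendsto_of_tendsto_of_le_of_le' d1 d2 ?_ ?_
      · filter_upwards [hev] with x hx
        have h5 := abs_le.1 (fred_near hx.1 hx.2)
        rw [h3 x hx.1, ← div_eq_inv_mul, le_div_iff₀ hx.1]
        nlinarith [h5.1]
      · filter_upwards [hev] with x hx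
        have h5 := abs_le.1 (fred_near hx.1 hx.2)
        rw [h3 x hx.1, ← div_eq_inv_mul, div_le_iff₀ hx.1]
        nlinarith [h5.2]
    exact tendsto_nhds_unique c1 c2

end Pool.Agent.P8H8.HF
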