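import Pool.Agent.P8H8.HF.Ga
import Pool.Agent.P8H8.HF.Gd4

set_option autoImplicit false

/-!
# The threshold law for the Gaudin distribution
-/

namespace Pool.Agent.P8H8.HF

open Filter Topology MeasureTheory
open Pool.Agent.H986R2.DBN (XT Ht)
open Pool.Agent.H24R2.JP (XX HH)
open Pool.Agent.R838.ST (HH_ne)

/-! ## the normalised gaps of zeta -/

/-- the normalised gaps -/
noncomputable def dl (k : ℕ) : ℝ :=
  1 / (2 * Real.pi) * SG.ord (k + 2) * Real.log (SG.ord (k + 2)) -
    1 / (2 * Real.pi) * SG.ord (k + 1) * Real.log (SG.ord (k + 1))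

lemma dl_close : ∀ ε : ℝ, 0 < ε → ∀ᶠ T in atTop, ∑ k ∈ Finset.range (NT T), |dl k - gg T 0 k| ≤ ε * NT T := by
  intro ε hε
  obtain ⟨η, hη⟩ : ∃ η, η = min (ε / 10) (1 / 10) := ⟨_, rfl⟩
  have hη0 : 0 < η := by rw [hη]; positivity
  have hη1 : η ≤ 1 / 10 := by rw [hη]; exact min_le_right _ _
  have hη2 : η ≤ ε / 10 := by rw [hη]; exact min_le_left _ _
  have hpi := Real.pi_gt_three
  obtain ⟨C, hC⟩ : ∃ C, C = |SG.ord 1 * Real.log (SG.ord 1)| := ⟨_, rfl⟩
  have hC0 : 0 ≤ C := by rw [hC]; exact abs_nonneg _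
  filter_upwards [ord_asymp η hη0 (by linarith), NT_ev, lam_tendsto.eventually_ge_atTop (8 / η),
    Real.tendsto_log_atTop.eventually_ge_atTop (2 / η), eventually_ge_atTop (C + 10)] with T g1 g2 g3 g4 g5
  have hT0 : 0 < T := by linarith
  have hlam8 : 8 ≤ η * lam T := by
    rw [div_le_iff₀ hη0] at g3
    linarith
  have hlam0 : 0 < lam T := by
    have : 0 < 8 / η := by positivity
    linarith
  have hlog2 : 2 ≤ η * Real.log T := by
    rw [div_le_iff₀ hη0] at g4
    linarith
  have hlogpos : 0 < Real.log T := by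
    have : 0 < 2 / η := by positivity
    linarith
  have hMT := MT_eq T
  have hMT8 : 80 ≤ MT T := by
    rw [hMT]
    have : 8 ≤ lam T := by nlinarith
    nlinarith
  have hN1 : MT T / 2 ≤ NT T := by linarith [g2.1]
  have hN2 : (NT T : ℝ) ≤ MT T := g2.2
  have hord := g1 (NT T + 1) (by push_cast; linarith) (by push_cast; linarith)
  push_cast at hord
  rw [abs_le] at hord
  obtain ⟨y, hy⟩ : ∃ y, y = SG.ord (NT T + 1) := ⟨_, rfl⟩
  rw [← hy] at hord
  have hy2 : y ≤ 2 * T := by
    have h1 : lam T * y ≤ lam T * (2 * T) := by nlinarith [hord.2]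
    exact le_of_mul_le_mul_left h1 hlam0
  have hy1 : T / 2 ≤ y := by
    have h1 : lam T * (T / 2) ≤ lam T * y := by nlinarith [hord.1, g2.1]
    exact le_of_mul_le_mul_left h1 hlam0
  have hy0 : 0 < y := by linarith
  have hord1 : 0 < SG.ord 1 := SG.ord_pos le_rfl
  -- the positive part
  have hpos : ∀ k ∈ Finset.range (NT T), |dl k - gg T 0 k| ≤ 2 * (η * gg T 0 k) - (dl k - gg T 0 k) := by
    intro k hk
    rw [Finset.mem_range] at hk
    obtain ⟨u, hu⟩ : ∃ u, u = SG.ord (k + 1) := ⟨_, rfl⟩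
    obtain ⟨v, hv⟩ : ∃ v, v = SG.ord (k + 2) := ⟨_, rfl⟩
    have hu0 : 0 < u := by rw [hu]; exact SG.ord_pos (by omega)
    have huv : u ≤ v := by rw [hu, hv]; exact SG.ord_mono (by omega) (by omega)
    have hv0 : 0 < v := by linarith
    have hvy : v ≤ 2 * T := by
      refine le_trans ?_ hy2
      rw [hv, hy]
      exact SG.ord_mono (by omega) (by omega)
    have hgg : gg T 0 k = lam T * (v - u) := by
      unfold gg
      rw [GG_zero, GG_zero, hu, hv]
    have hdl : dl k = (v * Real.log v - u * Real.log u) / (2 * Real.pi) := by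
      unfold dl
      rw [← hu, ← hv]
      ring
    have h1 : v * Real.log v - u * Real.log u ≤ (v - u) * (Real.log v + 1) := by
      have h2 := Real.log_le_sub_one_of_pos (show 0 < v / u by positivity)
      rw [Real.log_div hv0.ne' hu0.ne'] at h2
      have h3 := mul_le_mul_of_nonneg_left h2 hu0.le
      have h4 : u * (v / u - 1) = v - u := by field_simp
      rw [h4] at h3
      nlinarith
    have h2 : Real.log v + 1 ≤ (1 + η) * Real.log T := by
      have h3 : Real.log v ≤ Real.log (2 * T) := Real.log_le_log hv0 hvy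
      rw [Real.log_mul (by norm_num) hT0.ne'] at h3
      have := Real.log_two_lt_d9
      linarith
    have h3 : dl k ≤ (1 + η) * gg T 0 k := by
      rw [hdl, hgg, div_le_iff₀ (by positivity)]
      have h4 : (v - u) * (Real.log v + 1) ≤ (v - u) * ((1 + η) * Real.log T) :=
        mul_le_mul_of_nonneg_left h2 (by linarith)
      have h5 : lam T * (2 * Real.pi) = Real.log T := by
        unfold lam
        field_simp
      calc v * Real.log v - u * Real.log u ≤ (v - u) * ((1 + η) * Real.log T) := h1.trans h4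
        _ = (1 + η) * (lam T * (v - u)) * (2 * Real.pi) := by rw [← h5]; ring
    have hg0 : 0 ≤ gg T 0 k := by
      rw [hgg]
      exact mul_nonneg hlam0.le (by linarith)
    have h6 : 0 ≤ η * gg T 0 k := by positivity
    rw [abs_le]
    constructor <;> linarith
  refine (Finset.sum_le_sum hpos).trans ?_
  rw [Finset.sum_sub_distrib, ← Finset.mul_sum, ← Finset.mul_sum, Finset.sum_sub_distrib, gg_sum, GG_zero, GG_zero]
  have htel : ∑ k ∈ Finset.range (NT T), dl k = (y * Real.log y - SG.ord 1 * Real.log (SG.ord 1)) / (2 * Real.pi) := by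
    have h1 := Finset.sum_range_sub (fun k => 1 / (2 * Real.pi) * SG.ord (k + 1) * Real.log (SG.ord (k + 1))) (NT T)
    have h2 : ∀ k ∈ Finset.range (NT T), dl k = (fun k => 1 / (2 * Real.pi) * SG.ord (k + 1) *
        Real.log (SG.ord (k + 1))) (k + 1) - (fun k => 1 / (2 * Real.pi) * SG.ord (k + 1) *
        Real.log (SG.ord (k + 1))) k := fun k _ => rfl
    rw [Finset.sum_congr rfl h2, h1, hy]
    simp only [zero_add]
    ring
  rw [htel, zero_add, ← hy]
  have h1 : lam T * (y - SG.ord 1) ≤ 2 * NT T := by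
    have : 0 ≤ lam T * SG.ord 1 := by positivity
    nlinarith [hord.2]
  have h2 : lam T * (y - SG.ord 1) - (y * Real.log y - SG.ord 1 * Real.log (SG.ord 1)) / (2 * Real.pi) ≤ η * NT T := by
    have e : lam T * (y - SG.ord 1) = (y * Real.log T - SG.ord 1 * Real.log T) / (2 * Real.pi) := by
      unfold lam
      ring
    rw [e, ← sub_div, div_le_iff₀ (by positivity)]
    have h3 : Real.log T - Real.log y ≤ 1 := by
      have h4 : Real.log (T / 2) ≤ Real.log y := Real.log_le_log (by positivity) hy1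
      rw [Real.log_div hT0.ne' (by norm_num)] at h4
      have := Real.log_two_lt_d9
      linarith
    have h4 : y * (Real.log T - Real.log y) ≤ y * 1 := mul_le_mul_of_nonneg_left h3 hy0.le
    have h5 : 0 ≤ SG.ord 1 * Real.log T := by positivity
    have h6 : SG.ord 1 * Real.log (SG.ord 1) ≤ C := by rw [hC]; exact le_abs_self _
    have h7 : 4 * T ≤ η * NT T := by
      have h8 : T * 8 ≤ T * (η * lam T) := mul_le_mul_of_nonneg_left hlam8 hT0.le
      have h9 : η * (MT T / 2) ≤ η * NT T := mul_le_mul_of_nonneg_left hN1 hη0.le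
      rw [hMT] at h9
      linarith
    have h8 : η * (NT T : ℝ) * 6 ≤ η * NT T * (2 * Real.pi) := by
      apply mul_le_mul_of_nonneg_left (by linarith)
      positivity
    nlinarith
  have h3 : η * (lam T * (y - SG.ord 1)) ≤ η * (2 * NT T) := mul_le_mul_of_nonneg_left h1 hη0.le
  have h4 : η * (NT T : ℝ) ≤ ε / 10 * NT T := mul_le_mul_of_nonneg_right hη2 (Nat.cast_nonneg _)
  have h5 : 0 ≤ ε * (NT T : ℝ) := by positivity
  linarith

lemma MT_cont : ContinuousOn MT (Set.Ici 1) := by
  unfold MT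
  apply ContinuousOn.div_const
  apply ContinuousOn.mul continuousOn_id
  apply ContinuousOn.log continuousOn_id
  intro x hx
  have hx' : (1 : ℝ) ≤ x := hx
  simp only [id]
  linarith

lemma q1_la {D1 : ℝ → ℝ} (g : ℕ → ℝ) : (∀ a b : ℝ, 0 ≤ a → a < b →
    Tendsto (fun N : ℕ => (cnt g N a b : ℝ) / N) atTop (𝓝 (D1 b - D1 a))) ↔ LA D1 NT (fun _ => g) := by
  constructor
  · intro h a b ha hab
    exact (h a b ha hab).comp NT_tendsto
  · intro h a b ha hab
    rw [Metric.tendsto_atTop]
    intro ε hε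
    obtain ⟨T0, hT0⟩ := eventually_atTop.1 ((Metric.tendsto_nhds.1 (h a b ha hab)) ε hε)
    obtain ⟨T1, hT1⟩ : ∃ T1, T1 = max T0 1 := ⟨_, rfl⟩
    have h1 : 1 ≤ T1 := by rw [hT1]; exact le_max_right _ _
    have h0 : T0 ≤ T1 := by rw [hT1]; exact le_max_left _ _
    refine ⟨⌈MT T1⌉₊, fun N hN => ?_⟩
    have hN1 : MT T1 ≤ N := (Nat.le_ceil _).trans (by exact_mod_cast hN)
    obtain ⟨X, hX1, hX2⟩ := ((eventually_ge_atTop T1).and (MT_tendsto.eventually_ge_atTop (N : ℝ))).exists
    obtain ⟨T, hT, hTN⟩ := intermediate_value_Icc hX1 (MT_cont.mono (fun x hx => h1.trans hx.1)) ⟨hN1, hX2⟩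
    have h2 := hT0 T (h0.trans hT.1)
    have h3 : NT T = N := by
      unfold NT
      rw [hTN, Nat.floor_natCast]
    simp only [h3] at h2
    exact h2

/-- the law for the normalised gaps of zeta -/
theorem q1_ga (RH : RiemannHypothesis) {D0 D1 : ℝ → ℝ} (hD : GD D0 D1) : (∀ a b : ℝ, 0 ≤ a → a < b →
    Tendsto (fun N : ℕ => (cnt dl N a b : ℝ) / N) atTop (𝓝 (D1 b - D1 a))) ↔ GA D1 (fun _ => 0) := by
  have hNp : ∀ᶠ T in atTop, 0 < NT T := NT_tendsto.eventually_gt_atTop 0
  rw [q1_la, ga_iff RH hD one_pos (fun _ => le_rfl) (Eventually.of_forall fun T => by simp)]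
  constructor
  · intro h
    refine LC.close hD hNp (h.toLC hD hNp) (fun ε hε => ?_)
    filter_upwards [dl_close ε hε] with T hT
    refine le_trans (le_of_eq ?_) hT
    exact Finset.sum_congr rfl fun k _ => abs_sub_comm _ _
  · intro h
    apply LC.toLA
    exact LC.close (g' := fun _ => dl) hD hNp h (fun ε hε => dl_close ε hε)

end Pool.Agent.P8H8.HF
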