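import Pool.Agent.P8H8.HF.Fin

set_option autoImplicit false

/-!
# Concrete forms of the counting functions and of the density
-/

namespace Pool.Agent.P8H8.HF

open Filter Topology MeasureTheory
open Pool.Agent.H986R2.DBN (XT Ht)
open Pool.Agent.H24R2.JP (XX HH)
open Pool.Agent.R838.ST (HH_ne)

/-! ## the density -/

lemma dens_int {D0 D1 D2 : ℝ → ℝ} (h1 : ∀ s, HasDerivAt D0 (D1 s) s) (h2 : ∀ s, HasDerivAt D1 (D2 s) s)
    (h3 : Continuous D2) (h4 : ∀ s, 0 < s → D0 s = fred s) {a b : ℝ} (ha : 0 ≤ a) (hab : a ≤ b) :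
    ∫ x in a..b, deriv (deriv fred) x = D1 b - D1 a := by
  have e0 : ∀ s : ℝ, 0 < s → deriv fred s = D1 s := by
    intro s hs
    have h5 : fred =ᶠ[𝓝 s] D0 := by
      filter_upwards [lt_mem_nhds hs] with x hx
      exact (h4 x hx).symm
    rw [h5.deriv_eq]
    exact (h1 s).deriv
  have e1 : ∀ s : ℝ, 0 < s → deriv (deriv fred) s = D2 s := by
    intro s hs
    have h5 : deriv fred =ᶠ[𝓝 s] D1 := by
      filter_upwards [lt_mem_nhds hs] with x hx
      exact e0 x hx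
    rw [h5.deriv_eq]
    exact (h2 s).deriv
  have h5 : ∫ x in a..b, deriv (deriv fred) x = ∫ x in a..b, D2 x := by
    apply intervalIntegral.integral_congr_ae
    refine Eventually.of_forall fun x hx => ?_
    rw [Set.uIoc_of_le hab] at hx
    exact e1 x (lt_of_le_of_lt ha hx.1)
  rw [h5]
  exact intervalIntegral.integral_eq_sub_of_hasDerivAt (fun x _ => h2 x) (h3.intervalIntegrable _ _)

/-! ## the zeros -/

lemma ZZ_zero_iff (y : ℝ) (hy : 0 < y) : y ∈ ZZ 0 ↔ ∃ s : ℂ, riemannZeta s = 0 ∧ s = 1 / 2 + Complex.I * y := by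
  have him : 0 < (Complex.I * (y : ℂ)).im := by simpa using hy
  constructor
  · rintro ⟨-, h⟩
    rw [rn_zero_iff 0 le_rfl, DD_XX, Pool.Agent.H24R2.JP.ZetaTask.part1 _ him] at h
    rcases mul_eq_zero.1 h with h1 | h1
    · exact absurd h1 (HH_ne him)
    · exact ⟨_, h1, rfl⟩
  · rintro ⟨s, hs, rfl⟩
    refine ⟨hy, ?_⟩
    rw [rn_zero_iff 0 le_rfl, DD_XX, Pool.Agent.H24R2.JP.ZetaTask.part1 _ him, hs, mul_zero]

lemma ord_mem (RH : RiemannHypothesis) (n : ℕ) : SG.ord (n + 1) ∈ ZZ 0 := by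
  have hpos : 0 < SG.ord (n + 1) := SG.ord_pos (by omega)
  obtain ⟨t', ht', he⟩ := SG.NZ_left (SG.ord (n + 1))
  have h1 : n + 1 ≤ SG.NZ (SG.ord (n + 1)) := SG.le_NZ_ord (by omega)
  have h2 : SG.NZ t' < n + 1 := by
    by_contra hcon
    rw [not_lt] at hcon
    have := (SG.ord_le_iff (show 1 ≤ n + 1 by omega) t').2 hcon
    linarith
  have h3 : (∑ᶠ s ∈ {s : ℂ | riemannZeta s = 0 ∧ 0 < s.re ∧ s.re < 1 ∧ 0 < s.im ∧
      s.im = SG.ord (n + 1)}, SG.zmult s) ≠ 0 := by omega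
  obtain ⟨s, hs⟩ : ∃ s, s ∈ {s : ℂ | riemannZeta s = 0 ∧ 0 < s.re ∧ s.re < 1 ∧ 0 < s.im ∧ s.im = SG.ord (n + 1)} := by
    by_contra hcon
    push Not at hcon
    apply h3
    apply finsum_mem_eq_zero_of_forall_eq_zero
    intro s hs
    exact absurd hs (hcon s)
  obtain ⟨s1, s2, s3, s4, s5⟩ := hs
  have hre := ZS_re RH (t := SG.ord (n + 1)) ⟨s1, s2, s3, s4, s5.le⟩
  rw [ZZ_zero_iff _ hpos]
  refine ⟨s, s1, ?_⟩
  apply Complex.ext
  · simp [hre]
  · simp [s5]

lemma mem_ord {y : ℝ} (h : y ∈ ZZ 0) : ∃ n : ℕ, SG.ord (n + 1) = y := by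
  have hy := h.1
  obtain ⟨s, hs, hsy⟩ := (ZZ_zero_iff y hy).1 h
  have him : s.im = y := by rw [hsy]; simp
  have hre : s.re = 1 / 2 := by rw [hsy]; simp
  have hj := SG.jump_one hs (by rw [hre]; norm_num) (by rw [hre]; norm_num) (by rw [him]; exact hy)
  have hm := SG.zmult_pos (by rw [him]; exact hy) hs
  rw [him] at hj
  have h0 := hj 0 hy
  have hN1 : 1 ≤ SG.NZ y := by omega
  refine ⟨SG.NZ y - 1, ?_⟩
  rw [Nat.sub_add_cancel hN1]
  apply le_antisymm
  · exact (SG.ord_le_iff hN1 y).2 le_rfl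
  · by_contra hcon
    rw [not_le] at hcon
    have h1 := hj _ hcon
    have h2 := SG.le_NZ_ord hN1
    omega

/-- the positive zeros at any time -/
lemma ZZ_GG (RH : RiemannHypothesis) {τ : ℝ} (h0 : 0 ≤ τ) (h1 : τ ≤ 1 / 8) (y : ℝ) :
    y ∈ ZZ τ ↔ ∃ n, GG τ n = y := by
  rcases h0.eq_or_lt with rfl | h
  · constructor
    · intro hy
      obtain ⟨n, hn⟩ := mem_ord hy
      exact ⟨n, by rw [GG_zero, hn]⟩
    · rintro ⟨n, rfl⟩
      rw [GG_zero]
      exact ord_mem RH n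
  · constructor
    · intro hy
      obtain ⟨n, hn⟩ := en_surj (ZZ_LF RH h0 h1) hy
      exact ⟨n, by rw [GG_pos_eq h, hn]⟩
    · rintro ⟨n, rfl⟩
      rw [GG_pos_eq h]
      exact (en_spec (ZZ_LF RH h0 h1) n).1

lemma Ht_zero_iff {t : ℝ} (ht : 0 ≤ t) (x : ℝ) : Ht t (x : ℂ) = 0 ↔ rn 0 (t / 4) (x / 2) = 0 := by
  have ht4 : 0 ≤ t / 4 := by positivity
  rw [rn_zero_iff 0 ht4, DD_zero, Pool.Agent.W186.SD.CntH.Ht_eq ht]
  have e : Complex.I / 2 * (x : ℂ) = Complex.I * ((x / 2 : ℝ) : ℂ) := by push_cast; ring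
  simp only
  rw [e]
  constructor
  · intro h
    rcases mul_eq_zero.1 h with h1 | h1
    · norm_num at h1
    · exact h1
  · intro h
    rw [h, mul_zero]

/-- pairs of consecutive positive zeros -/
def PR2 (t T a b : ℝ) : Set (ℝ × ℝ) := {p | 0 < p.1 ∧ p.1 < p.2 ∧ Ht t (p.1 : ℂ) = 0 ∧ Ht t (p.2 : ℂ) = 0 ∧
  (∀ y : ℝ, p.1 < y → y < p.2 → Ht t (y : ℂ) ≠ 0) ∧ p.1 / 2 ≤ T ∧
  a < (p.2 - p.1) / 2 * (Real.log T / (2 * Real.pi)) ∧ (p.2 - p.1) / 2 * (Real.log T / (2 * Real.pi)) ≤ b}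

theorem pairs_ncard (RH : RiemannHypothesis) {t T a b : ℝ} (ht : 0 ≤ t) (ht2 : t < 1 / 2) (hT : 1 < T) (ha : 0 ≤ a) :
    (PR2 t T a b).ncard = cnt (gg T (t / 4)) (KK (t / 4) T) a b := by
  classical
  obtain ⟨τ, hτ⟩ : ∃ τ, τ = t / 4 := ⟨_, rfl⟩
  have h0 : 0 ≤ τ := by rw [hτ]; positivity
  have h1 : τ ≤ 1 / 8 := by rw [hτ]; linarith
  rw [← hτ]
  have hlam : 0 < lam T := by
    unfold lam
    have := Real.log_pos hT
    positivity
  have hz : ∀ x : ℝ, 0 < x → (Ht t (x : ℂ) = 0 ↔ x / 2 ∈ ZZ τ) := by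
    intro x hx
    rw [Ht_zero_iff ht, ← hτ]
    constructor
    · intro h
      exact ⟨by positivity, h⟩
    · intro h
      exact h.2
  have hmono := GG_mono RH h0 h1
  have hGpos : ∀ n, 0 < GG τ n := fun n => ((ZZ_GG RH h0 h1 (GG τ n)).2 ⟨n, rfl⟩).1
  have key := Set.ncard_congr (s := ((((Finset.range (KK τ T)).filter (fun k => a < gg T τ k ∧ gg T τ k ≤ b)) : Finset ℕ) : Set ℕ))
    (t := PR2 t T a b) (fun k _ => ((2 * GG τ k, 2 * GG τ (k + 1)) : ℝ × ℝ)) ?_ ?_ ?_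
  · unfold cnt
    rw [← Set.ncard_coe_finset]
    exact key.symm
  · intro k hk
    rw [Finset.mem_coe, Finset.mem_filter, Finset.mem_range] at hk
    obtain ⟨hk1, hk2, hk3⟩ := hk
    have hk4 := (KK_spec RH h0 h1 T k).2 hk1
    have hgap : GG τ k < GG τ (k + 1) := by
      have h5 : 0 < gg T τ k := lt_of_le_of_lt ha hk2
      unfold gg at h5
      have := (mul_pos_iff_of_pos_left hlam).1 h5
      linarith
    have hp1 := hGpos k
    have hp2 := hGpos (k + 1)
    refine ⟨by simpa using hp1, by simpa using hgap, ?_, ?_, ?_, ?_, ?_, ?_⟩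
    · simp only
      rw [hz _ (by linarith)]
      exact (ZZ_GG RH h0 h1 _).2 ⟨k, by ring⟩
    · simp only
      rw [hz _ (by linarith)]
      exact (ZZ_GG RH h0 h1 _).2 ⟨k + 1, by ring⟩
    · intro y hy1 hy2
      simp only at hy1 hy2
      rw [Ne, hz y (by linarith)]
      intro hcon
      obtain ⟨m, hm⟩ := (ZZ_GG RH h0 h1 _).1 hcon
      rcases Nat.lt_or_ge k m with h5 | h5
      · have := hmono (show k + 1 ≤ m by omega)
        linarith
      · have := hmono h5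
        linarith
    · simp only
      linarith
    · simp only
      unfold gg lam at hk2
      calc a < _ := hk2
        _ = _ := by ring
    · simp only
      unfold gg lam at hk3
      calc _ = _ := by ring
        _ ≤ b := hk3
  · intro k k' hk hk' he
    rw [Finset.mem_coe, Finset.mem_filter, Finset.mem_range] at hk hk'
    have hgap : ∀ j, a < gg T τ j → GG τ j < GG τ (j + 1) := by
      intro j hj
      have h5 : 0 < gg T τ j := lt_of_le_of_lt ha hj
      unfold gg at h5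
      have := (mul_pos_iff_of_pos_left hlam).1 h5
      linarith
    have he1 : GG τ k = GG τ k' := by
      have := congrArg Prod.fst he
      simp only at this
      linarith
    rcases lt_trichotomy k k' with h5 | h5 | h5
    · have h6 := hgap k hk.2.1
      have h7 := hmono (show k + 1 ≤ k' by omega)
      linarith
    · exact h5
    · have h6 := hgap k' hk'.2.1
      have h7 := hmono (show k' + 1 ≤ k by omega)
      linarith
  · rintro ⟨x, x'⟩ ⟨q1, q2, q3, q4, q5, q6, q7, q8⟩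
    simp only at q1 q2 q3 q4 q5 q6 q7 q8
    rw [hz x q1] at q3
    have hx' : 0 < x' := q1.trans q2
    rw [hz x' hx'] at q4
    obtain ⟨m, hm⟩ := (ZZ_GG RH h0 h1 _).1 q3
    obtain ⟨m', hm'⟩ := (ZZ_GG RH h0 h1 _).1 q4
    have hm1 : m < KK τ (x / 2) := (KK_spec RH h0 h1 _ _).1 hm.le
    obtain ⟨n, hn⟩ : ∃ n, KK τ (x / 2) = n + 1 := ⟨KK τ (x / 2) - 1, by omega⟩
    have hn1 : GG τ n ≤ x / 2 := (KK_spec RH h0 h1 _ _).2 (by omega)
    have hn2 : x / 2 < GG τ (n + 1) := by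
      rw [← not_le, KK_spec RH h0 h1]
      omega
    have hn3 : GG τ n = x / 2 := by
      apply le_antisymm hn1
      rw [← hm]
      exact hmono (by omega)
    have hmn : n < m' := by
      by_contra hcon
      rw [not_lt] at hcon
      have := hmono hcon
      linarith
    have hn4 : GG τ (n + 1) = x' / 2 := by
      apply le_antisymm
      · rw [← hm']
        exact hmono (by omega)
      · by_contra hcon
        rw [not_le] at hcon
        refine q5 (2 * GG τ (n + 1)) (by linarith) (by linarith) ?_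
        rw [hz _ (by linarith)]
        exact (ZZ_GG RH h0 h1 _).2 ⟨n + 1, by ring⟩
    have hgn : gg T τ n = (x' - x) / 2 * (Real.log T / (2 * Real.pi)) := by
      unfold gg lam
      rw [hn3, hn4]
      ring
    refine ⟨n, ?_, ?_⟩
    · rw [Finset.mem_coe, Finset.mem_filter, Finset.mem_range, hgn]
      refine ⟨?_, q7, q8⟩
      rw [← KK_spec RH h0 h1]
      linarith
    · rw [hn3, hn4]
      apply Prod.ext
      · simp only
        ring
      · simp only
        ring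

end Pool.Agent.P8H8.HF
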