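import Pool.Agent.P8H8.HF.Alg

set_option autoImplicit false

/-!
# Flows of points on the line that repel each other
-/

namespace Pool.Agent.P8H8.HF

open Finset Filter Topology

/-- the truncated velocity of the `k`-th point -/
noncomputable def vel (y : ℤ → ℝ) (M : ℕ) (k : ℤ) : ℝ := 2 * ∑ i ∈ (Ico (-(M : ℤ)) M).erase k, (y k - y i)⁻¹

/-- A flow on the time interval `(0, R)`. -/
structure Flow (y : ℝ → ℤ → ℝ) (R : ℝ) : Prop where
  mono : ∀ τ : ℝ, 0 < τ → τ < R → StrictMono (y τ)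
  der : ∀ τ : ℝ, 0 < τ → τ < R → ∀ k : ℤ, ∃ v : ℝ, HasDerivAt (fun s => y s k) v τ ∧
    Tendsto (fun M : ℕ => vel (y τ) M k) atTop (𝓝 v)
  top : ∀ τ : ℝ, 0 < τ → τ < R → Tendsto (fun M : ℕ => y τ M) atTop atTop
  bot : ∀ τ : ℝ, 0 < τ → τ < R → Tendsto (fun M : ℕ => y τ (-(M : ℤ))) atTop atBot

/-- the truncated velocity of the gap -/
lemma vel_gap (y : ℤ → ℝ) (hy : StrictMono y) (k : ℤ) {M : ℕ} (h1 : -(M : ℤ) ≤ k) (h2 : k + 1 < M) :
    vel y M (k + 1) - vel y M k = 2 * ∑ i ∈ (Ico (-(M : ℤ)) (M - 1)).erase k, (gp y i - gp y k) * cf y i k +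
      (2 * (y (k + 1) - y (-(M : ℤ)))⁻¹ - 2 * (y k - y ((M : ℤ) - 1))⁻¹) := by
  have e1 : (Ico (-(M : ℤ)) M).erase (k + 1) =
      insert (-(M : ℤ)) (((Ico (-(M : ℤ)) (M - 1)).erase k).image (fun i => i + 1)) := by
    ext i
    simp only [mem_erase, mem_Ico, mem_insert, mem_image]
    constructor
    · rintro ⟨h3, h4, h5⟩
      by_cases h6 : i = -(M : ℤ)
      · left; exact h6
      · right; exact ⟨i - 1, by omega, by omega⟩
    · rintro (rfl | ⟨j, hj, rfl⟩) <;> omega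
  have e2 : (Ico (-(M : ℤ)) M).erase k = insert ((M : ℤ) - 1) ((Ico (-(M : ℤ)) (M - 1)).erase k) := by
    ext i
    simp only [mem_erase, mem_Ico, mem_insert]
    omega
  unfold vel
  rw [e1, sum_insert (by
      simp only [mem_image, mem_erase, mem_Ico]
      rintro ⟨j, hj, hj2⟩
      omega), sum_image (fun x _ z _ hxz => by omega), e2, sum_insert (by
      simp only [mem_erase, mem_Ico]
      omega)]
  have e3 : ∀ i ∈ (Ico (-(M : ℤ)) (M - 1)).erase k, (gp y i - gp y k) * cf y i k =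
      (y (k + 1) - y (i + 1))⁻¹ - (y k - y i)⁻¹ := by
    intro i hi
    rw [mem_erase] at hi
    have h3 : y k - y i ≠ 0 := sub_ne_zero.2 (fun h => hi.1 (hy.injective h).symm)
    have h4 : y (k + 1) - y (i + 1) ≠ 0 :=
      sub_ne_zero.2 (fun h => hi.1 (by have := hy.injective h; omega))
    unfold cf gp
    field_simp
    ring
  rw [sum_congr rfl e3, sum_sub_distrib]
  ring

lemma ev_idx (k : ℤ) : ∀ᶠ M : ℕ in atTop, -(M : ℤ) ≤ k ∧ k + 1 < M := by
  filter_upwards [eventually_gt_atTop (k.natAbs + 1)] with M hM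
  omega

lemma inv_lim1 {y : ℝ → ℤ → ℝ} {R : ℝ} (hF : Flow y R) {τ : ℝ} (h0 : 0 < τ) (hR : τ < R) (x : ℝ) :
    Tendsto (fun M : ℕ => 2 * (x - y τ (-(M : ℤ)))⁻¹) atTop (𝓝 0) := by
  have h1 := hF.bot τ h0 hR
  have h2 : Tendsto (fun M : ℕ => x - y τ (-(M : ℤ))) atTop atTop :=
    tendsto_atTop_add_const_left _ x (tendsto_neg_atBot_atTop.comp h1)
  have h3 := (tendsto_inv_atTop_zero.comp h2).const_mul 2
  rw [mul_zero] at h3
  exact h3

lemma inv_lim2 {y : ℝ → ℤ → ℝ} {R : ℝ} (hF : Flow y R) {τ : ℝ} (h0 : 0 < τ) (hR : τ < R) (x : ℝ) :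
    Tendsto (fun M : ℕ => 2 * (x - y τ ((M : ℤ) - 1))⁻¹) atTop (𝓝 0) := by
  have h1 : Tendsto (fun M : ℕ => y τ ((M : ℤ) - 1)) atTop atTop := by
    rw [← tendsto_add_atTop_iff_nat 1]
    refine (hF.top τ h0 hR).congr (fun M => ?_)
    congr 1
    push_cast
    ring
  have h2 : Tendsto (fun M : ℕ => x - y τ ((M : ℤ) - 1)) atTop atBot :=
    tendsto_atBot_add_const_left _ x (tendsto_neg_atTop_atBot.comp h1)
  have h3 := (tendsto_inv_atBot_zero.comp h2).const_mul 2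
  rw [mul_zero] at h3
  exact h3

/-- the truncated gap velocity converges -/
lemma gap_lim {y : ℝ → ℤ → ℝ} {R : ℝ} (hF : Flow y R) {τ : ℝ} (h0 : 0 < τ) (hR : τ < R) (k : ℤ) :
    ∃ v : ℝ, HasDerivAt (fun s => gp (y s) k) v τ ∧ v ≤ 4 / gp (y τ) k ∧
      Tendsto (fun M : ℕ => 2 * ∑ i ∈ (Ico (-(M : ℤ)) (M - 1)).erase k,
        (gp (y τ) i - gp (y τ) k) * cf (y τ) i k) atTop (𝓝 v) := by
  obtain ⟨v1, hv1, hl1⟩ := hF.der τ h0 hR (k + 1)
  obtain ⟨v0, hv0, hl0⟩ := hF.der τ h0 hR k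
  have hy := hF.mono τ h0 hR
  have hlim : Tendsto (fun M : ℕ => vel (y τ) M (k + 1) - vel (y τ) M k) atTop (𝓝 (v1 - v0)) := hl1.sub hl0
  refine ⟨v1 - v0, hv1.sub hv0, ?_, ?_⟩
  · refine le_of_tendsto hlim ?_
    filter_upwards [ev_idx k] with M hM
    have e1 : (Ico (-(M : ℤ)) M).erase (k + 1) = insert k (((Ico (-(M : ℤ)) M).erase k).erase (k + 1)) := by
      ext i
      simp only [mem_erase, mem_Ico, mem_insert]
      omega
    have e2 : (Ico (-(M : ℤ)) M).erase k = insert (k + 1) (((Ico (-(M : ℤ)) M).erase k).erase (k + 1)) := by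
      ext i
      simp only [mem_erase, mem_Ico, mem_insert]
      omega
    have e3 : vel (y τ) M (k + 1) = 2 * ((y τ (k + 1) - y τ k)⁻¹ +
        ∑ i ∈ ((Ico (-(M : ℤ)) M).erase k).erase (k + 1), (y τ (k + 1) - y τ i)⁻¹) := by
      unfold vel
      rw [e1, sum_insert (by simp)]
    have e4 : vel (y τ) M k = 2 * ((y τ k - y τ (k + 1))⁻¹ +
        ∑ i ∈ ((Ico (-(M : ℤ)) M).erase k).erase (k + 1), (y τ k - y τ i)⁻¹) := by
      unfold vel
      conv_lhs => rw [e2]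
      rw [sum_insert (by simp)]
    have h3 : ∑ i ∈ ((Ico (-(M : ℤ)) M).erase k).erase (k + 1), (y τ (k + 1) - y τ i)⁻¹ ≤
        ∑ i ∈ ((Ico (-(M : ℤ)) M).erase k).erase (k + 1), (y τ k - y τ i)⁻¹ := by
      apply sum_le_sum
      intro i hi
      rw [mem_erase, mem_erase] at hi
      have hk : y τ k < y τ (k + 1) := hy (by omega)
      rcases lt_or_gt_of_ne hi.2.1 with h | h
      · have h4 : y τ i < y τ k := hy h
        exact inv_anti₀ (by linarith) (by linarith)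
      · have h4 : y τ (k + 1) < y τ i := hy (by have := hi.1; omega)
        exact (inv_le_inv_of_neg (by linarith) (by linarith)).2 (by linarith)
    have e5 : (y τ k - y τ (k + 1))⁻¹ = -(gp (y τ) k)⁻¹ := by
      unfold gp
      rw [← neg_sub, inv_neg]
    have e6 : (y τ (k + 1) - y τ k)⁻¹ = (gp (y τ) k)⁻¹ := rfl
    rw [e3, e4, e5, e6, div_eq_mul_inv]
    linarith
  · have h5 := hlim.sub ((inv_lim1 hF h0 hR (y τ (k + 1))).sub (inv_lim2 hF h0 hR (y τ k)))
    rw [sub_zero, sub_zero] at h5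
    refine h5.congr' ?_
    filter_upwards [ev_idx k] with M hM
    rw [vel_gap (y τ) hy k hM.1 hM.2]
    ring

/-- squares of gaps grow at most linearly -/
theorem gap_growth {y : ℝ → ℤ → ℝ} {R : ℝ} (hF : Flow y R) {τ₁ τ₂ : ℝ} (h0 : 0 < τ₁) (h12 : τ₁ ≤ τ₂) (hR : τ₂ < R)
    (k : ℤ) : gp (y τ₂) k ≤ gp (y τ₁) k + Real.sqrt (8 * (τ₂ - τ₁)) := by
  have hder : ∀ τ ∈ Set.Icc τ₁ τ₂, ∃ v : ℝ, HasDerivAt (fun s => gp (y s) k ^ 2 - 8 * s) v τ ∧ v ≤ 0 := by
    intro τ hτ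
    obtain ⟨v, hv, hv4, -⟩ := gap_lim hF (h0.trans_le hτ.1) (hτ.2.trans_lt hR) k
    have hg := gp_pos (hF.mono τ (h0.trans_le hτ.1) (hτ.2.trans_lt hR)) k
    refine ⟨_, (hv.pow 2).sub ((hasDerivAt_id τ).const_mul 8), ?_⟩
    have h1 : v * gp (y τ) k ≤ 4 := by
      rw [le_div_iff₀ hg] at hv4
      exact hv4
    simp
    nlinarith
  have hanti : AntitoneOn (fun s => gp (y s) k ^ 2 - 8 * s) (Set.Icc τ₁ τ₂) := by
    apply antitoneOn_of_deriv_nonpos (convex_Icc _ _)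
    · intro τ hτ
      obtain ⟨v, hv, -⟩ := hder τ hτ
      exact hv.continuousAt.continuousWithinAt
    · intro τ hτ
      rw [interior_Icc] at hτ
      obtain ⟨v, hv, -⟩ := hder τ ⟨hτ.1.le, hτ.2.le⟩
      exact hv.differentiableAt.differentiableWithinAt
    · intro τ hτ
      rw [interior_Icc] at hτ
      obtain ⟨v, hv, hv0⟩ := hder τ ⟨hτ.1.le, hτ.2.le⟩
      rw [hv.deriv]
      exact hv0
  have h1 := hanti (Set.left_mem_Icc.2 h12) (Set.right_mem_Icc.2 h12) h12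
  simp only at h1
  have hg1 := gp_pos (hF.mono τ₁ h0 (h12.trans_lt hR)) k
  have hg2 := gp_pos (hF.mono τ₂ (h0.trans_le h12) hR) k
  have hd : 0 ≤ 8 * (τ₂ - τ₁) := by linarith
  have h2 := Real.sq_sqrt hd
  have h3 := Real.sqrt_nonneg (8 * (τ₂ - τ₁))
  nlinarith

/-- the linear ramp -/
noncomputable def ramp (s h x : ℝ) : ℝ := min (max (x - s) 0) h

/-- its primitive -/
noncomputable def prim (s h x : ℝ) : ℝ := ∫ t in (0 : ℝ)..x, ramp s h t

lemma ramp_cont (s h : ℝ) : Continuous (ramp s h) := by unfold ramp; fun_prop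

lemma ramp_mono (s h : ℝ) : Monotone (ramp s h) := by
  intro x z hxz
  unfold ramp
  exact min_le_min_right _ (max_le_max_right _ (by linarith))

lemma ramp_nonneg {s h : ℝ} (hh : 0 ≤ h) (x : ℝ) : 0 ≤ ramp s h x := le_min (le_max_right _ _) hh

lemma ramp_le (s h x : ℝ) : ramp s h x ≤ h := min_le_right _ _

lemma ramp_zero {s h : ℝ} (hh : 0 ≤ h) {x : ℝ} (hx : x ≤ s) : ramp s h x = 0 := by
  unfold ramp
  rw [max_eq_right (by linarith), min_eq_left hh]

lemma prim_der (s h x : ℝ) : HasDerivAt (prim s h) (ramp s h x) x :=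
  intervalIntegral.integral_hasDerivAt_right ((ramp_cont s h).intervalIntegrable _ _)
    ((ramp_cont s h).stronglyMeasurableAtFilter _ _) (ramp_cont s h).continuousAt

lemma prim_le {s h : ℝ} (hs : 0 ≤ s) (hh : 0 ≤ h) {x : ℝ} (hx : 0 ≤ x) : prim s h x ≤ h * max (x - s) 0 := by
  have hint : ∀ a b : ℝ, IntervalIntegrable (ramp s h) MeasureTheory.volume a b :=
    fun a b => (ramp_cont s h).intervalIntegrable _ _
  rcases le_total x s with h1 | h1
  · rw [max_eq_right (by linarith), mul_zero]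
    unfold prim
    refine le_of_eq (intervalIntegral.integral_zero_ae (Eventually.of_forall fun t ht => ?_))
    rw [Set.uIoc_of_le hx] at ht
    exact ramp_zero hh (ht.2.trans h1)
  · rw [max_eq_left (by linarith)]
    unfold prim
    rw [← intervalIntegral.integral_add_adjacent_intervals (hint 0 s) (hint s x)]
    have e1 : ∫ t in (0 : ℝ)..s, ramp s h t = 0 := by
      refine intervalIntegral.integral_zero_ae (Eventually.of_forall fun t ht => ?_)
      rw [Set.uIoc_of_le hs] at ht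
      exact ramp_zero hh ht.2
    have e2 : ∫ t in s..x, ramp s h t ≤ ∫ _t in s..x, h :=
      intervalIntegral.integral_mono_on h1 (hint _ _) (by simp) (fun t _ => ramp_le s h t)
    rw [intervalIntegral.integral_const, smul_eq_mul] at e2
    linarith

lemma le_prim {s h : ℝ} (hs : 0 ≤ s) (hh : 0 ≤ h) {x : ℝ} (hx : 0 ≤ x) : h * max (x - s - h) 0 ≤ prim s h x := by
  have hint : ∀ a b : ℝ, IntervalIntegrable (ramp s h) MeasureTheory.volume a b :=
    fun a b => (ramp_cont s h).intervalIntegrable _ _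
  rcases le_total x (s + h) with h1 | h1
  · rw [max_eq_right (by linarith), mul_zero]
    exact intervalIntegral.integral_nonneg hx (fun t _ => ramp_nonneg hh t)
  · rw [max_eq_left (by linarith)]
    unfold prim
    rw [← intervalIntegral.integral_add_adjacent_intervals (hint 0 (s + h)) (hint (s + h) x)]
    have e1 : 0 ≤ ∫ t in (0 : ℝ)..(s + h), ramp s h t :=
      intervalIntegral.integral_nonneg (by linarith) (fun t _ => ramp_nonneg hh t)
    have e2 : ∫ _t in (s + h)..x, h ≤ ∫ t in (s + h)..x, ramp s h t := by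
      refine intervalIntegral.integral_mono_on h1 (by simp) (hint _ _) (fun t ht => ?_)
      unfold ramp
      exact le_min (le_max_of_le_left (by linarith [ht.1])) le_rfl
    rw [intervalIntegral.integral_const, smul_eq_mul] at e2
    linarith

/-- the dissipation -/
noncomputable def dis (s h : ℝ) (y : ℤ → ℝ) (a b : ℤ) : ℝ :=
  ∑ k ∈ Ico a (b - 1), (ramp s h (gp y (k + 1)) - ramp s h (gp y k)) * (gp y (k + 1) - gp y k) /
    (gp y k * gp y (k + 1))

lemma dis_nonneg {s h : ℝ} {y : ℤ → ℝ} (hy : StrictMono y) (a b : ℤ) : 0 ≤ dis s h y a b := by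
  unfold dis
  apply sum_nonneg
  intro k _
  have h1 := gp_pos hy k
  have h2 := gp_pos hy (k + 1)
  apply div_nonneg _ (by positivity)
  rcases le_total (gp y (k + 1)) (gp y k) with h' | h'
  · exact mul_nonneg_of_nonpos_of_nonpos (by linarith [ramp_mono s h h']) (by linarith)
  · exact mul_nonneg (by linarith [ramp_mono s h h']) (by linarith)

/-- the derivative of the window functional -/
lemma win_der {y : ℝ → ℤ → ℝ} {R : ℝ} (hF : Flow y R) {s h : ℝ} (hs : 0 < s) (hh : 0 ≤ h) {a b : ℤ} (hab : a ≤ b)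
    {τ : ℝ} (h0 : 0 < τ) (hR : τ < R) :
    ∃ v : ℝ, HasDerivAt (fun t => ∑ k ∈ Ico a b, prim s h (gp (y t) k)) v τ ∧
      v ≤ 2 * (-dis s h (y τ) a b + 8 * h / s * Real.log (1 + (y τ b - y τ a) / s)) := by
  choose v hv _ hl using fun k : ℤ => gap_lim hF h0 hR k
  have hy := hF.mono τ h0 hR
  refine ⟨∑ k ∈ Ico a b, ramp s h (gp (y τ) k) * v k, ?_, ?_⟩
  · apply HasDerivAt.fun_sum
    intro k _
    exact (prim_der s h (gp (y τ) k)).comp τ (hv k)
  · have hlim : Tendsto (fun M : ℕ => ∑ k ∈ Ico a b, ramp s h (gp (y τ) k) *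
        (2 * ∑ i ∈ (Ico (-(M : ℤ)) (M - 1)).erase k, (gp (y τ) i - gp (y τ) k) * cf (y τ) i k)) atTop
        (𝓝 (∑ k ∈ Ico a b, ramp s h (gp (y τ) k) * v k)) :=
      tendsto_finsetSum _ (fun k _ => (hl k).const_mul _)
    refine le_of_tendsto hlim ?_
    filter_upwards [eventually_gt_atTop (a.natAbs + b.natAbs + 1)] with M hM
    have h1 := window hy (ramp_mono s h) hs (ramp_nonneg hh) (ramp_le s h) (fun x hx => ramp_zero hh hx) hab
      (A := -(M : ℤ)) (B := (M : ℤ) - 1) (by omega) (by omega)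
    have e : ∑ k ∈ Ico a b, ramp s h (gp (y τ) k) *
        (2 * ∑ i ∈ (Ico (-(M : ℤ)) (M - 1)).erase k, (gp (y τ) i - gp (y τ) k) * cf (y τ) i k) =
        2 * ∑ k ∈ Ico a b, ramp s h (gp (y τ) k) *
        (∑ i ∈ (Ico (-(M : ℤ)) (M - 1)).erase k, (gp (y τ) i - gp (y τ) k) * cf (y τ) i k) := by
      rw [mul_sum]
      apply sum_congr rfl
      intro k _
      ring
    rw [e]
    unfold dis
    linarith

/-- mean value form -/
theorem win_mvt {y : ℝ → ℤ → ℝ} {R : ℝ} (hF : Flow y R) {s h : ℝ} (hs : 0 < s) (hh : 0 ≤ h) {a b : ℤ} (hab : a ≤ b)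
    {τ₁ τ₂ : ℝ} (h0 : 0 < τ₁) (h12 : τ₁ < τ₂) (hR : τ₂ < R) : ∃ τ : ℝ, τ₁ < τ ∧ τ < τ₂ ∧
    ∑ k ∈ Ico a b, prim s h (gp (y τ₂) k) ≤ ∑ k ∈ Ico a b, prim s h (gp (y τ₁) k) +
      2 * (τ₂ - τ₁) * (-dis s h (y τ) a b + 8 * h / s * Real.log (1 + (y τ b - y τ a) / s)) := by
  have hder : ∀ τ : ℝ, ∃ v : ℝ, τ₁ ≤ τ → τ ≤ τ₂ →
      HasDerivAt (fun t => ∑ k ∈ Ico a b, prim s h (gp (y t) k)) v τ ∧
      v ≤ 2 * (-dis s h (y τ) a b + 8 * h / s * Real.log (1 + (y τ b - y τ a) / s)) := by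
    intro τ
    by_cases h1 : τ₁ ≤ τ ∧ τ ≤ τ₂
    · obtain ⟨v, hv⟩ := win_der hF hs hh hab (h0.trans_le h1.1) (h1.2.trans_lt hR)
      exact ⟨v, fun _ _ => hv⟩
    · exact ⟨0, fun h2 h3 => absurd ⟨h2, h3⟩ h1⟩
  choose v hv using hder
  obtain ⟨τ, hτ, hs'⟩ := exists_hasDerivAt_eq_slope (fun t => ∑ k ∈ Ico a b, prim s h (gp (y t) k)) v h12
    (fun t ht => (hv t ht.1 ht.2).1.continuousAt.continuousWithinAt)
    (fun t ht => (hv t ht.1.le ht.2.le).1)
  refine ⟨τ, hτ.1, hτ.2, ?_⟩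
  have h3 := (hv τ hτ.1.le hτ.2.le).2
  rw [hs', div_le_iff₀ (by linarith)] at h3
  linarith

/-- **Monotonicity in the convex order.** -/
theorem win_mono {y : ℝ → ℤ → ℝ} {R : ℝ} (hF : Flow y R) {s : ℝ} (hs : 0 < s) {a b : ℤ} (hab : a ≤ b)
    {τ₁ τ₂ : ℝ} (h0 : 0 < τ₁) (h12 : τ₁ ≤ τ₂) (hR : τ₂ < R) {L : ℝ}
    (hL : ∀ τ, τ₁ ≤ τ → τ ≤ τ₂ → y τ b - y τ a ≤ L) :
    ∑ k ∈ Ico a b, max (gp (y τ₂) k - s) 0 ≤ ∑ k ∈ Ico a b, max (gp (y τ₁) k - s) 0 +
      16 / s * (τ₂ - τ₁) * Real.log (1 + L / s) := by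
  rcases h12.eq_or_lt with rfl | h12'
  · simp
  have hlog : ∀ τ, τ₁ ≤ τ → τ ≤ τ₂ → Real.log (1 + (y τ b - y τ a) / s) ≤ Real.log (1 + L / s) := by
    intro τ h1 h2
    have h3 : 0 ≤ y τ b - y τ a := sub_nonneg.2 ((hF.mono τ (h0.trans_le h1) (h2.trans_lt hR)).monotone hab)
    apply Real.log_le_log (by positivity)
    have := div_le_div_of_nonneg_right (hL τ h1 h2) hs.le
    linarith
  have key : ∀ h : ℝ, 0 < h → ∑ k ∈ Ico a b, max (gp (y τ₂) k - s) 0 ≤
      ∑ k ∈ Ico a b, max (gp (y τ₁) k - s) 0 + 16 / s * (τ₂ - τ₁) * Real.log (1 + L / s) +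
      h * ((Ico a b).card : ℝ) := by
    intro h hh
    obtain ⟨τ, h1, h2, h3⟩ := win_mvt hF hs hh.le hab h0 h12' hR
    have h4 := dis_nonneg (s := s) (h := h) (hF.mono τ (h0.trans h1) (h2.trans hR)) a b
    have h5 : ∑ k ∈ Ico a b, prim s h (gp (y τ₁) k) ≤ h * ∑ k ∈ Ico a b, max (gp (y τ₁) k - s) 0 := by
      rw [mul_sum]
      exact sum_le_sum fun k _ => prim_le hs.le hh.le (gp_pos (hF.mono τ₁ h0 (h12'.trans hR)) k).le
    have h6 : h * ∑ k ∈ Ico a b, max (gp (y τ₂) k - s) 0 - h * (h * ((Ico a b).card : ℝ)) ≤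
        ∑ k ∈ Ico a b, prim s h (gp (y τ₂) k) := by
      have e : h * ∑ k ∈ Ico a b, max (gp (y τ₂) k - s) 0 - h * (h * ((Ico a b).card : ℝ)) =
          ∑ k ∈ Ico a b, h * (max (gp (y τ₂) k - s) 0 - h) := by
        rw [← mul_sum, sum_sub_distrib, sum_const, nsmul_eq_mul]
        ring
      rw [e]
      refine sum_le_sum fun k _ => ?_
      refine le_trans ?_ (le_prim hs.le hh.le (gp_pos (hF.mono τ₂ (h0.trans h12') hR) k).le)
      apply mul_le_mul_of_nonneg_left _ hh.le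
      rcases le_total (gp (y τ₂) k - s) 0 with h7 | h7
      · rw [max_eq_right h7]
        exact le_trans (by linarith) (le_max_right _ _)
      · rw [max_eq_left h7]
        exact le_max_left _ _
    have h7 := hlog τ h1.le h2.le
    have h8 : 2 * (τ₂ - τ₁) * (-dis s h (y τ) a b + 8 * h / s * Real.log (1 + (y τ b - y τ a) / s)) ≤
        h * (16 / s * (τ₂ - τ₁) * Real.log (1 + L / s)) := by
      have h9 : -dis s h (y τ) a b + 8 * h / s * Real.log (1 + (y τ b - y τ a) / s) ≤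
          8 * h / s * Real.log (1 + L / s) := by
        have := mul_le_mul_of_nonneg_left h7 (show 0 ≤ 8 * h / s by positivity)
        linarith
      calc 2 * (τ₂ - τ₁) * (-dis s h (y τ) a b + 8 * h / s * Real.log (1 + (y τ b - y τ a) / s))
          ≤ 2 * (τ₂ - τ₁) * (8 * h / s * Real.log (1 + L / s)) :=
            mul_le_mul_of_nonneg_left h9 (by linarith)
        _ = _ := by ring
    have h10 : h * (∑ k ∈ Ico a b, max (gp (y τ₂) k - s) 0) ≤
        h * (∑ k ∈ Ico a b, max (gp (y τ₁) k - s) 0 + 16 / s * (τ₂ - τ₁) * Real.log (1 + L / s) +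
          h * ((Ico a b).card : ℝ)) := by
      have e : h * (∑ k ∈ Ico a b, max (gp (y τ₁) k - s) 0 + 16 / s * (τ₂ - τ₁) * Real.log (1 + L / s) +
          h * ((Ico a b).card : ℝ)) = h * ∑ k ∈ Ico a b, max (gp (y τ₁) k - s) 0 +
          h * (16 / s * (τ₂ - τ₁) * Real.log (1 + L / s)) + h * (h * ((Ico a b).card : ℝ)) := by ring
      rw [e]
      linarith
    exact le_of_mul_le_mul_left h10 hh
  refine le_of_forall_pos_le_add fun ε hε => ?_
  have hc : (0 : ℝ) < (Ico a b).card + 1 := by positivity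
  refine (key (ε / ((Ico a b).card + 1)) (by positivity)).trans ?_
  have : ε / ((Ico a b).card + 1) * ((Ico a b).card : ℝ) ≤ ε := by
    rw [div_mul_eq_mul_div, div_le_iff₀ hc]
    nlinarith
  linarith

end Pool.Agent.P8H8.HF
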