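import Pool.Agent.P8H8.HF.Late

set_option autoImplicit false

/-!
# The law for the zeros up to height `T`
-/

namespace Pool.Agent.P8H8.HF

open Filter Topology

/-- the law of the gaps at the times `τ T`, for the zeros up to `T` -/
def GA (D1 : ℝ → ℝ) (τ : ℝ → ℝ) : Prop := ∀ a b : ℝ, 0 ≤ a → a < b →
  Tendsto (fun T : ℝ => (cnt (gg T (τ T)) (KK (τ T) T) a b : ℝ) / MT T) atTop (𝓝 (D1 b - D1 a))

lemma GA.mono {D1 : ℝ → ℝ} {τ : ℝ → ℝ} (h : GA D1 τ) : ∀ a b, 0 ≤ a → a < b → D1 a ≤ D1 b := by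
  intro a b ha hab
  have h1 : ∀ᶠ T : ℝ in atTop, (0 : ℝ) ≤ (cnt (gg T (τ T)) (KK (τ T) T) a b : ℝ) / MT T := by
    filter_upwards [MT_tendsto.eventually_ge_atTop 0] with T hT
    positivity
  have h2 := ge_of_tendsto (h a b ha hab) h1
  linarith

lemma cnt_mono_len (g : ℕ → ℝ) {N M : ℕ} (h : N ≤ M) (a b : ℝ) : cnt g N a b ≤ cnt g M a b := by
  unfold cnt
  apply Finset.card_le_card
  intro k hk
  rw [Finset.mem_filter, Finset.mem_range] at hk ⊢
  exact ⟨by omega, hk.2⟩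

/-- Markov -/
lemma cnt_markov (g : ℕ → ℝ) (N : ℕ) {u δ b : ℝ} (_hδ : 0 < δ) :
    δ * (cnt g N (u + δ) b : ℝ) ≤ ∑ k ∈ Finset.range N, max (g k - u) 0 := by
  classical
  unfold cnt
  calc δ * (((Finset.range N).filter (fun k => u + δ < g k ∧ g k ≤ b)).card : ℝ)
      = ∑ k ∈ (Finset.range N).filter (fun k => u + δ < g k ∧ g k ≤ b), δ := by
        rw [Finset.sum_const, nsmul_eq_mul]; ring
    _ ≤ ∑ k ∈ (Finset.range N).filter (fun k => u + δ < g k ∧ g k ≤ b), max (g k - u) 0 := by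
        refine Finset.sum_le_sum fun k hk => ?_
        rw [Finset.mem_filter] at hk
        exact le_max_of_le_left (by linarith [hk.2.1])
    _ ≤ _ := Finset.sum_le_sum_of_subset_of_nonneg (Finset.filter_subset _ _) (fun k _ _ => le_max_right _ _)

/-- the law holds only at microscopic times -/
theorem ga_bdd (RH : RiemannHypothesis) {D0 D1 : ℝ → ℝ} (hD : GD D0 D1) {τ : ℝ → ℝ} (h0 : ∀ T, 0 ≤ τ T)
    (h8 : ∀ T, τ T < 1 / 8) (hGA : GA D1 τ) : ∃ K : ℝ, 0 < K ∧ ∀ᶠ T in atTop, τ T * Real.log T ^ 2 ≤ K := by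
  classical
  have hm := hGA.mono
  have hone := hD.one hm
  -- `D1 1 < 0`
  have hneg : D1 1 < 0 := by
    by_contra hcon
    rw [not_lt] at hcon
    have hz : ∀ x, 1 < x → D1 x = 0 := by
      intro x hx
      exact le_antisymm (hD.nonpos hm (by linarith)) (hcon.trans (hm 1 x (by norm_num) hx))
    obtain ⟨B, hB1, hB2⟩ := ((eventually_gt_atTop (1 : ℝ)).and (hD.lim.eventually (gt_mem_nhds hone))).exists
    obtain ⟨c, c1, c2, c3⟩ := hD.step hB1
    rw [hz c c1, zero_mul] at c3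
    linarith
  obtain ⟨c, hc⟩ : ∃ c, c = -D1 1 := ⟨_, rfl⟩
  have hc0 : 0 < c := by rw [hc]; linarith
  obtain ⟨δ, hδ, hδ1⟩ : ∃ δ, 0 < δ ∧ D1 (1 + δ) < -(3 / 4 * c) := by
    have h1 : ∀ᶠ x in 𝓝 (1 : ℝ), D1 x < -(3 / 4 * c) := (hD.c1.tendsto 1).eventually (gt_mem_nhds (by
      have : D1 1 = -c := by rw [hc]; ring
      rw [this]
      linarith))
    have h2 : ∀ᶠ x in 𝓝[>] (1 : ℝ), D1 x < -(3 / 4 * c) := nhdsWithin_le_nhds h1
    have h3 : ∀ᶠ x in 𝓝[>] (1 : ℝ), 1 < x := self_mem_nhdsWithin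
    obtain ⟨x, h4, h5⟩ := (h2.and h3).exists
    exact ⟨x - 1, by linarith, by rw [show 1 + (x - 1) = x by ring]; exact h4⟩
  obtain ⟨B, hB1, hB0, hB2⟩ := hD.large hm (show 0 < c / 4 by positivity) (1 + δ)
  obtain ⟨κ, hκ⟩ : ∃ κ, κ = min (c * δ / 16) (1 / 2) := ⟨_, rfl⟩
  have hκ0 : 0 < κ := by rw [hκ]; positivity
  obtain ⟨K1, hK1, hlate⟩ := crystal_late RH κ hκ0 (by rw [hκ]; exact min_le_right _ _)
  refine ⟨K1, hK1, ?_⟩
  filter_upwards [hlate, (hGA (1 + δ) B (by positivity) hB1).eventually (lt_mem_nhds (show c / 4 < D1 B - D1 (1 + δ) by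
    linarith)), (hGA 0 3 le_rfl (by norm_num)).eventually (gt_mem_nhds (show D1 3 - D1 0 < 11 / 10 by
    rw [hD.z1]; linarith [hD.nonpos hm (show (0 : ℝ) ≤ 3 by norm_num)])), lam_tendsto.eventually_ge_atTop 1,
    MT_tendsto.eventually_ge_atTop 10, Real.tendsto_log_atTop.eventually_ge_atTop 1] with T g1 g2 g3 g4 g5 g6
  by_contra hcon
  rw [not_le] at hcon
  have hlog : 0 < Real.log T ^ 2 := by positivity
  have hτ : 0 < τ T := by
    by_contra hcon2
    rw [not_lt] at hcon2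
    have : τ T * Real.log T ^ 2 ≤ 0 := mul_nonpos_of_nonpos_of_nonneg hcon2 hlog.le
    linarith
  have hM : 0 < MT T := by linarith
  have hlam0 : 0 < lam T := by linarith
  have hLF := ZZ_LF RH (h0 T) (h8 T).le
  rw [lt_div_iff₀ hM] at g2
  rw [div_lt_iff₀ hM] at g3
  obtain ⟨N, hN⟩ : ∃ N, N = ⌊2 * MT T⌋₊ := ⟨_, rfl⟩
  have hN1 : (N : ℝ) ≤ 2 * MT T := by rw [hN]; exact Nat.floor_le (by linarith)
  have hN2 : 2 * MT T - 1 ≤ N := by
    rw [hN]
    have := Nat.lt_floor_add_one (2 * MT T)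
    linarith
  have hgpos : ∀ k, 0 < gg T (τ T) k := by
    intro k
    unfold gg
    rw [GG_pos_eq hτ, GG_pos_eq hτ]
    have := en_strictMono hLF (Nat.lt_succ_self k)
    exact mul_pos hlam0 (by linarith)
  -- the number of zeros
  have hKN : KK (τ T) T ≤ N := by
    rcases Nat.eq_zero_or_pos (KK (τ T) T) with h | h
    · rw [h]; exact Nat.zero_le _
    obtain ⟨J, hJ⟩ : ∃ J, KK (τ T) T = J + 1 := ⟨KK (τ T) T - 1, by omega⟩
    have hGJ := (KK_spec RH (h0 T) (h8 T).le T J).2 (by omega)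
    have hsum : ∑ k ∈ Finset.range J, gg T (τ T) k ≤ MT T := by
      rw [gg_sum, MT_eq, mul_comm T]
      apply mul_le_mul_of_nonneg_left _ hlam0.le
      have : 0 < GG (τ T) 0 := by
        rw [GG_pos_eq hτ]
        exact en_pos hLF 0
      linarith
    have hbig : 3 * (((Finset.range J).filter (fun k => ¬ gg T (τ T) k ≤ 3)).card : ℝ) ≤ MT T := by
      refine le_trans ?_ hsum
      calc 3 * (((Finset.range J).filter (fun k => ¬ gg T (τ T) k ≤ 3)).card : ℝ)
          = ∑ k ∈ (Finset.range J).filter (fun k => ¬ gg T (τ T) k ≤ 3), (3 : ℝ) := by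
            rw [Finset.sum_const, nsmul_eq_mul]; ring
        _ ≤ ∑ k ∈ (Finset.range J).filter (fun k => ¬ gg T (τ T) k ≤ 3), gg T (τ T) k := by
            refine Finset.sum_le_sum fun k hk => ?_
            rw [Finset.mem_filter, not_le] at hk
            exact hk.2.le
        _ ≤ _ := Finset.sum_le_sum_of_subset_of_nonneg (Finset.filter_subset _ _) (fun k _ _ => (hgpos k).le)
    have hsmall : (((Finset.range J).filter (fun k => gg T (τ T) k ≤ 3)).card : ℝ) ≤ 11 / 10 * MT T := by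
      have h1 : ((Finset.range J).filter (fun k => gg T (τ T) k ≤ 3)).card ≤ cnt (gg T (τ T)) (KK (τ T) T) 0 3 := by
        unfold cnt
        apply Finset.card_le_card
        intro k hk
        rw [Finset.mem_filter, Finset.mem_range] at hk ⊢
        exact ⟨by omega, hgpos k, hk.2⟩
      have h2 : (((Finset.range J).filter (fun k => gg T (τ T) k ≤ 3)).card : ℝ) ≤
          (cnt (gg T (τ T)) (KK (τ T) T) 0 3 : ℝ) := by exact_mod_cast h1
      linarith
    have hsplit : (((Finset.range J).filter (fun k => gg T (τ T) k ≤ 3)).card : ℝ) +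
        (((Finset.range J).filter (fun k => ¬ gg T (τ T) k ≤ 3)).card : ℝ) = J := by
      have := Finset.card_filter_add_card_filter_not (s := Finset.range J) (fun k => gg T (τ T) k ≤ 3)
      rw [Finset.card_range] at this
      exact_mod_cast this
    have hJN : (J : ℝ) + 1 ≤ N := by linarith
    rw [hJ]
    exact_mod_cast hJN
  have h1 := g1 (τ T) hcon.le (h8 T) N (by linarith) hN1
  have h2 := cnt_markov (gg T (τ T)) N (u := 1) (b := B) hδ
  have h3 : (cnt (gg T (τ T)) (KK (τ T) T) (1 + δ) B : ℝ) ≤ cnt (gg T (τ T)) N (1 + δ) B := by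
    exact_mod_cast cnt_mono_len _ hKN _ _
  have hκle : κ ≤ c * δ / 16 := by rw [hκ]; exact min_le_left _ _
  have h4 : κ * N ≤ c * δ / 16 * (2 * MT T) := mul_le_mul hκle hN1 (Nat.cast_nonneg _) (by positivity)
  have h5 : δ * (c / 4 * MT T) < δ * (cnt (gg T (τ T)) N (1 + δ) B : ℝ) := mul_lt_mul_of_pos_left (by linarith) hδ
  have h6 : 0 < δ * (c * MT T) := by positivity
  linarith

theorem ga_iff (RH : RiemannHypothesis) {D0 D1 : ℝ → ℝ} (hD : GD D0 D1) {K : ℝ} (hK : 0 < K) {τ : ℝ → ℝ}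
    (h0 : ∀ T, 0 ≤ τ T) (hτ : ∀ᶠ T in atTop, τ T * Real.log T ^ 2 ≤ K) :
    GA D1 τ ↔ LC D1 NT (fun T => gg T (τ T)) := by
  have hlim := KK_lim RH hK h0 hτ
  have hMpos : ∀ᶠ T in atTop, 0 < MT T := MT_tendsto.eventually_gt_atTop 0
  have hKpos : ∀ᶠ T in atTop, 0 < KK (τ T) T := by
    filter_upwards [hlim.eventually (lt_mem_nhds one_pos), hMpos] with T g1 g2
    by_contra hcon
    have h1 : KK (τ T) T = 0 := by omega
    rw [h1, Nat.cast_zero, zero_div] at g1
    exact lt_irrefl _ g1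
  have hNM : Tendsto (fun T => (NT T : ℝ) / MT T) atTop (𝓝 1) := by
    have h1 : Tendsto (fun T => 1 - 1 / MT T) atTop (𝓝 (1 - 0)) := (MT_tendsto.const_div_atTop 1).const_sub 1
    rw [sub_zero] at h1
    refine tendsto_of_tendsto_of_tendsto_of_le_of_le' h1 tendsto_const_nhds ?_ ?_
    · filter_upwards [NT_ev, hMpos] with T g1 g2
      rw [le_div_iff₀ g2, sub_mul, div_mul_cancel₀ _ g2.ne']
      linarith [g1.1]
    · filter_upwards [NT_ev, hMpos] with T g1 g2
      rw [div_le_iff₀ g2]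
      linarith [g1.2]
  have hKN : Tendsto (fun T => (KK (τ T) T : ℝ) / NT T) atTop (𝓝 1) := by
    have h1 := hlim.div hNM one_ne_zero
    rw [div_one] at h1
    refine h1.congr' ?_
    filter_upwards [hMpos] with T g2
    simp only [Pi.div_apply]
    rw [div_div_div_cancel_right₀ g2.ne']
  have hNK : Tendsto (fun T => (NT T : ℝ) / KK (τ T) T) atTop (𝓝 1) := by
    have h1 := hNM.div hlim one_ne_zero
    rw [div_one] at h1
    refine h1.congr' ?_
    filter_upwards [hMpos] with T g2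
    simp only [Pi.div_apply]
    rw [div_div_div_cancel_right₀ g2.ne']
  -- the law over `KK`
  have key : GA D1 τ ↔ LA D1 (fun T => KK (τ T) T) (fun T => gg T (τ T)) := by
    constructor
    · intro h a b ha hab
      have h1 := (h a b ha hab).div hlim one_ne_zero
      rw [div_one] at h1
      refine h1.congr' ?_
      filter_upwards [hMpos] with T g2
      simp only [Pi.div_apply]
      rw [div_div_div_cancel_right₀ g2.ne']
    · intro h a b ha hab
      have h1 := (h a b ha hab).mul hlim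
      rw [mul_one] at h1
      refine h1.congr' ?_
      filter_upwards [hKpos] with T g2
      have g3 : (0 : ℝ) < KK (τ T) T := by exact_mod_cast g2
      exact div_mul_div_cancel₀ g3.ne'
  rw [key]
  constructor
  · intro h
    exact (h.toLC hD hKpos).reidx hKpos hNK
  · intro h
    exact (h.reidx (NT_tendsto.eventually_gt_atTop 0) hKN).toLA

/-- **The threshold law for the zeros up to height `T`.** -/
theorem ga_threshold (RH : RiemannHypothesis) {D0 D1 : ℝ → ℝ} (hD : GD D0 D1) {τ1 τ2 : ℝ → ℝ}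
    (h1 : ∀ T, 0 ≤ τ1 T) (h1' : ∀ T, τ1 T < 1 / 8) (h2 : ∀ T, 0 ≤ τ2 T) (h2' : ∀ T, τ2 T < 1 / 8)
    (hGA : GA D1 τ1) : GA D1 τ2 ↔ Tendsto (fun T => (τ1 T - τ2 T) * Real.log T ^ 2) atTop (𝓝 0) := by
  obtain ⟨K1, hK1, hb1⟩ := ga_bdd RH hD h1 h1' hGA
  constructor
  · intro hGA2
    obtain ⟨K2, hK2, hb2⟩ := ga_bdd RH hD h2 h2' hGA2
    have b1 : ∀ᶠ T in atTop, τ1 T * Real.log T ^ 2 ≤ K1 + K2 := hb1.mono fun T g => by linarith
    have b2 : ∀ᶠ T in atTop, τ2 T * Real.log T ^ 2 ≤ K1 + K2 := hb2.mono fun T g => by linarith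
    exact (lc_iff RH hD (show 0 < K1 + K2 by linarith) h1 h2 b1 b2
      ((ga_iff RH hD (show 0 < K1 + K2 by linarith) h1 b1).1 hGA)).1
      ((ga_iff RH hD (show 0 < K1 + K2 by linarith) h2 b2).1 hGA2)
  · intro hd
    have b1 : ∀ᶠ T in atTop, τ1 T * Real.log T ^ 2 ≤ K1 + 1 := hb1.mono fun T g => by linarith
    have b2 : ∀ᶠ T in atTop, τ2 T * Real.log T ^ 2 ≤ K1 + 1 := by
      filter_upwards [hb1, hd.eventually (lt_mem_nhds (show (-1 : ℝ) < 0 by norm_num))] with T g1 g2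
      have e : (τ1 T - τ2 T) * Real.log T ^ 2 = τ1 T * Real.log T ^ 2 - τ2 T * Real.log T ^ 2 := by ring
      rw [e] at g2
      linarith
    exact (ga_iff RH hD (show 0 < K1 + 1 by linarith) h2 b2).2 ((lc_iff RH hD (show 0 < K1 + 1 by linarith) h1 h2 b1 b2
      ((ga_iff RH hD (show 0 < K1 + 1 by linarith) h1 b1).1 hGA)).2 hd)

end Pool.Agent.P8H8.HF
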