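import Pool.Agent.H940R3.VD.Lin

set_option autoImplicit false

/-!
# The determinants of the sine kernel
-/

namespace Pool.Agent.P8H8.HF

open Complex MeasureTheory Filter Topology Matrix
open scoped ComplexOrder MatrixOrder

lemma int_ee (x L : ℝ) : ∫ t in (-L)..L, cexp (((2 * Real.pi * x * t : ℝ) : ℂ) * I) =
    ((2 * L * Real.sinc (2 * Real.pi * L * x) : ℝ) : ℂ) := by
  by_cases hL : L = 0
  · rw [hL]
    simp
  by_cases hx : x = 0
  · rw [hx]
    simp
    ring
  have hpi := Real.pi_pos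
  have hc : (2 * (Real.pi : ℂ) * x * I) ≠ 0 := by
    have h1 : (Real.pi : ℂ) ≠ 0 := by exact_mod_cast hpi.ne'
    have h2 : (x : ℂ) ≠ 0 := by exact_mod_cast hx
    simp [h1, h2, I_ne_zero]
  have e1 : ∫ t in (-L)..L, cexp (((2 * Real.pi * x * t : ℝ) : ℂ) * I) =
      ∫ t in (-L)..L, cexp ((2 * (Real.pi : ℂ) * x * I) * (t : ℂ)) := by
    congr 1
    funext t
    congr 1
    push_cast
    ring
  rw [e1, integral_exp_mul_complex hc]
  have e2 : (2 * (Real.pi : ℂ) * x * I) * ((L : ℝ) : ℂ) = ((2 * Real.pi * L * x : ℝ) : ℂ) * I := by push_cast; ring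
  have e3 : (2 * (Real.pi : ℂ) * x * I) * (((-L : ℝ)) : ℂ) = -((2 * Real.pi * L * x : ℝ) : ℂ) * I := by push_cast; ring
  have hne : 2 * Real.pi * L * x ≠ 0 := by positivity
  rw [e2, e3, Real.sinc_of_ne_zero hne]
  have h3 : cexp (((2 * Real.pi * L * x : ℝ) : ℂ) * I) - cexp (-((2 * Real.pi * L * x : ℝ) : ℂ) * I) =
      2 * I * ((Real.sin (2 * Real.pi * L * x) : ℝ) : ℂ) := by
    rw [Complex.ofReal_sin, Complex.sin]
    have : I * I = -1 := I_mul_I
    linear_combination (-(cexp (-((2 * Real.pi * L * x : ℝ) : ℂ) * I) -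
      cexp (((2 * Real.pi * L * x : ℝ) : ℂ) * I))) * this
  rw [h3]
  have h1 : (Real.pi : ℂ) ≠ 0 := by exact_mod_cast hpi.ne'
  have h2 : (x : ℂ) ≠ 0 := by exact_mod_cast hx
  have h4 : (L : ℂ) ≠ 0 := by exact_mod_cast hL
  push_cast
  field_simp

variable {ι : Type*}

/-- Fourier matrices -/
noncomputable def Qm (x : ι → ℝ) (a b : ℝ) : Matrix ι ι ℂ :=
  Matrix.of fun i j => ∫ t in a..b, cexp (((2 * Real.pi * (x i - x j) * t : ℝ) : ℂ) * I)

lemma Qm_psd [Fintype ι] (x : ι → ℝ) {a b : ℝ} (hab : a ≤ b) : (Qm x a b).PosSemidef := by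
  apply PosSemidef.of_dotProduct_mulVec_nonneg
  · ext i j
    rw [conjTranspose_apply]
    unfold Qm
    simp only [of_apply]
    rw [intervalIntegral.integral_of_le hab, intervalIntegral.integral_of_le hab]
    show (starRingEnd ℂ) _ = _
    rw [← integral_conj]
    congr 1
    funext t
    rw [← Complex.exp_conj, map_mul, Complex.conj_I, Complex.conj_ofReal]
    congr 1
    push_cast
    ring
  · intro v
    obtain ⟨w, hw⟩ : ∃ w : ℝ → ℂ, w = fun t => ∑ j, v j * cexp (-((2 * Real.pi * x j * t : ℝ) : ℂ) * I) := ⟨_, rfl⟩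
    have key : star v ⬝ᵥ (Qm x a b *ᵥ v) = ((∫ t in a..b, ‖w t‖ ^ 2 : ℝ) : ℂ) := by
      unfold dotProduct mulVec dotProduct Qm
      simp only [of_apply, Pi.star_apply]
      rw [← intervalIntegral.integral_ofReal]
      have e1 : ∀ t : ℝ, ((‖w t‖ ^ 2 : ℝ) : ℂ) = ∑ i, ∑ j, (star (v i) * v j) *
          cexp (((2 * Real.pi * (x i - x j) * t : ℝ) : ℂ) * I) := by
        intro t
        have h1 : ((‖w t‖ ^ 2 : ℝ) : ℂ) = (starRingEnd ℂ) (w t) * w t := by
          rw [mul_comm, Complex.mul_conj, Complex.normSq_eq_norm_sq]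
        rw [h1, hw]
        simp only
        rw [map_sum, Finset.sum_mul_sum]
        apply Finset.sum_congr rfl
        intro i _
        apply Finset.sum_congr rfl
        intro j _
        rw [map_mul, ← Complex.exp_conj, map_mul, Complex.conj_I, map_neg, Complex.conj_ofReal]
        have h2 : cexp (((2 * Real.pi * (x i - x j) * t : ℝ) : ℂ) * I) =
            cexp (-((2 * Real.pi * x i * t : ℝ) : ℂ) * -I) * cexp (-((2 * Real.pi * x j * t : ℝ) : ℂ) * I) := by
          rw [← Complex.exp_add]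
          congr 1
          push_cast
          ring
        rw [h2]
        have h3 : star (v i) = (starRingEnd ℂ) (v i) := rfl
        rw [h3]
        ring
      simp_rw [e1]
      rw [intervalIntegral.integral_finsetSum (fun i _ => Continuous.intervalIntegrable (by fun_prop) _ _)]
      apply Finset.sum_congr rfl
      intro i _
      rw [intervalIntegral.integral_finsetSum (fun j _ => Continuous.intervalIntegrable (by fun_prop) _ _),
        Finset.mul_sum]
      apply Finset.sum_congr rfl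
      intro j _
      rw [intervalIntegral.integral_const_mul]
      ring
    rw [key]
    have h1 : 0 ≤ ∫ t in a..b, ‖w t‖ ^ 2 := intervalIntegral.integral_nonneg hab (fun t _ => by positivity)
    exact_mod_cast h1

lemma Qm_sym (x : ι → ℝ) (L : ℝ) (i j : ι) :
    Qm x (-L) L i j = ((2 * L * Real.sinc (2 * Real.pi * L * (x i - x j)) : ℝ) : ℂ) := by
  unfold Qm
  simp only [of_apply]
  exact int_ee _ _

/-- the determinant of the sine kernel -/
noncomputable def sdet (n : ℕ) (x : Fin n → ℝ) : ℝ :=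
  Matrix.det (Matrix.of fun i j : Fin n => Real.sinc (Real.pi * (x i - x j)))

lemma det_cast {n : ℕ} (M : Matrix (Fin n) (Fin n) ℝ) :
    ((M.det : ℝ) : ℂ) = (Matrix.of fun i j => ((M i j : ℝ) : ℂ)).det := by
  have := RingHom.map_det Complex.ofRealHom M
  exact this

lemma sdet_cast (n : ℕ) (x : Fin n → ℝ) : ((sdet n x : ℝ) : ℂ) = (Qm x (-(1 / 2)) (1 / 2)).det := by
  unfold sdet
  rw [det_cast]
  congr 1
  ext i j
  rw [Qm_sym]
  simp only [of_apply]
  congr 1
  have : 2 * Real.pi * (1 / 2) * (x i - x j) = Real.pi * (x i - x j) := by ring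
  rw [this]
  ring

lemma sdet_bd (n : ℕ) (x : Fin n → ℝ) : 0 ≤ sdet n x ∧ sdet n x ≤ 1 := by
  have h := Qm_psd x (show (-(1 / 2) : ℝ) ≤ 1 / 2 by norm_num)
  have h1 := Pool.Agent.H940R3.VD.det_re_nonneg h
  have h2 := Pool.Agent.H940R3.VD.hadamard h
  rw [← sdet_cast, Complex.ofReal_re] at h1 h2
  refine ⟨h1, h2.trans (le_of_eq ?_)⟩
  apply Finset.prod_eq_one
  intro i _
  rw [Qm_sym, sub_self, mul_zero, Real.sinc_zero, Complex.ofReal_re]
  norm_num

/-- the discretised operator -/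
noncomputable def Am (s : ℝ) (m : ℕ) : Matrix (Fin m) (Fin m) ℝ :=
  Matrix.of fun i j => s / m * Real.sinc (Real.pi * (s * ((i : ℕ) / m) - s * ((j : ℕ) / m)))

lemma Am_det {s : ℝ} {m : ℕ} (hs : 0 ≤ s) (hm : 0 < m) (hsm : s ≤ m) :
    0 ≤ (1 - Am s m).det ∧ (1 - Am s m).det ≤ Real.exp (-s) := by
  have hm0 : (0 : ℝ) < m := by exact_mod_cast hm
  obtain ⟨L, hL⟩ : ∃ L, L = s / m / 2 := ⟨_, rfl⟩
  have hL0 : 0 ≤ L := by rw [hL]; positivity
  have hL1 : L ≤ 1 / 2 := by
    have : s / m ≤ 1 := by rw [div_le_one hm0]; exact hsm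
    rw [hL]; linarith
  obtain ⟨x, hx⟩ : ∃ x : Fin m → ℝ, x = fun i : Fin m => ((i : ℕ) : ℝ) := ⟨_, rfl⟩
  have hadd : ∀ i j, Qm x (-(1 / 2)) (1 / 2) i j = Qm x (-(1 / 2)) (-L) i j + Qm x (-L) L i j + Qm x L (1 / 2) i j := by
    intro i j
    unfold Qm
    simp only [of_apply]
    have hi : ∀ a b : ℝ, IntervalIntegrable (fun t : ℝ => cexp (((2 * Real.pi * (x i - x j) * t : ℝ) : ℂ) * I))
        volume a b := fun a b => Continuous.intervalIntegrable (by fun_prop) _ _
    rw [intervalIntegral.integral_add_adjacent_intervals (hi _ _) (hi _ _),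
      intervalIntegral.integral_add_adjacent_intervals (hi _ _) (hi _ _)]
  have hone : Qm x (-(1 / 2)) (1 / 2) = 1 := by
    ext i j
    rw [Qm_sym]
    have e : 2 * Real.pi * (1 / 2) * (x i - x j) = (((i : ℕ) : ℤ) - ((j : ℕ) : ℤ) : ℤ) * Real.pi := by
      rw [hx]; push_cast; ring
    rw [e]
    by_cases hij : i = j
    · rw [hij, sub_self, Int.cast_zero, zero_mul, Real.sinc_zero, one_apply_eq]
      norm_num
    · rw [one_apply_ne hij]
      have hne : ((((i : ℕ) : ℤ) - ((j : ℕ) : ℤ) : ℤ) : ℝ) * Real.pi ≠ 0 := by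
        apply mul_ne_zero _ Real.pi_ne_zero
        have : ((i : ℕ) : ℤ) - ((j : ℕ) : ℤ) ≠ 0 := by
          intro h
          apply hij
          ext
          omega
        exact_mod_cast this
      rw [Real.sinc_of_ne_zero hne, Real.sin_int_mul_pi, zero_div, mul_zero, Complex.ofReal_zero]
  have hA : ∀ i j, Qm x (-L) L i j = ((Am s m i j : ℝ) : ℂ) := by
    intro i j
    rw [Qm_sym]
    unfold Am
    simp only [of_apply]
    congr 1
    have e1 : 2 * L = s / m := by rw [hL]; ring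
    have e2 : 2 * Real.pi * L * (x i - x j) = Real.pi * (s * ((i : ℕ) / m) - s * ((j : ℕ) / m)) := by
      rw [hL, hx]
      ring
    rw [e1, e2]
  have hsum : (Matrix.of fun i j => (((1 - Am s m) i j : ℝ) : ℂ)) = Qm x (-(1 / 2)) (-L) + Qm x L (1 / 2) := by
    ext i j
    have h1 := hadd i j
    rw [hone, hA] at h1
    simp only [of_apply, Matrix.sub_apply, Matrix.add_apply]
    push_cast
    have h2 : (((1 : Matrix (Fin m) (Fin m) ℝ) i j : ℝ) : ℂ) = (1 : Matrix (Fin m) (Fin m) ℂ) i j := by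
      by_cases hij : i = j
      · rw [hij, one_apply_eq, one_apply_eq, Complex.ofReal_one]
      · rw [one_apply_ne hij, one_apply_ne hij, Complex.ofReal_zero]
    rw [h2]
    linear_combination h1
  have hpsd : (Qm x (-(1 / 2)) (-L) + Qm x L (1 / 2)).PosSemidef :=
    (Qm_psd x (by linarith)).add (Qm_psd x hL1)
  have h1 := Pool.Agent.H940R3.VD.det_re_nonneg hpsd
  have h2 := Pool.Agent.H940R3.VD.hadamard hpsd
  rw [← hsum, ← det_cast, Complex.ofReal_re] at h1 h2
  refine ⟨h1, h2.trans ?_⟩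
  have h3 : ∀ i : Fin m, ((Matrix.of fun i j => (((1 - Am s m) i j : ℝ) : ℂ)) i i).re = 1 - s / m := by
    intro i
    simp only [of_apply, Complex.ofReal_re, Matrix.sub_apply, one_apply_eq]
    unfold Am
    simp only [of_apply]
    rw [sub_self, mul_zero, Real.sinc_zero, mul_one]
  rw [Finset.prod_congr rfl (fun i _ => h3 i), Finset.prod_const, Finset.card_univ, Fintype.card_fin]
  have h4 : 1 - s / m ≤ Real.exp (-(s / m)) := by
    have := Real.add_one_le_exp (-(s / m))
    linarith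
  have h5 : 0 ≤ 1 - s / m := by
    have : s / m ≤ 1 := by rw [div_le_one hm0]; exact hsm
    linarith
  calc (1 - s / m) ^ m ≤ Real.exp (-(s / m)) ^ m := pow_le_pow_left₀ h5 h4 m
    _ = Real.exp (-s) := by
        rw [← Real.exp_nat_mul]
        congr 1
        field_simp

end Pool.Agent.P8H8.HF
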