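import Pool.Agent.P8H8.HF.Gd1

set_option autoImplicit false

/-!
# The discretised Fredholm series
-/

namespace Pool.Agent.P8H8.HF

open Complex MeasureTheory Filter Topology Matrix

lemma sum_minors {m : ℕ} (A : Matrix (Fin m) (Fin m) ℝ) (k : ℕ) :
    ∑ f : Fin k → Fin m, (A.submatrix f f).det =
      k.factorial * ∑ J ∈ (Finset.univ : Finset (Fin m)).powersetCard k,
        (A.submatrix (Subtype.val : J → Fin m) (Subtype.val : J → Fin m)).det := by
  classical
  have h1 : ∑ f : Fin k → Fin m, (A.submatrix f f).det =
      ∑ f ∈ (Finset.univ : Finset (Fin k → Fin m)).filter Function.Injective, (A.submatrix f f).det := by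
    rw [Finset.sum_filter]
    apply Finset.sum_congr rfl
    intro f _
    split_ifs with hf
    · rfl
    · unfold Function.Injective at hf
      push Not at hf
      obtain ⟨a, b, hab, hne⟩ := hf
      apply det_zero_of_row_eq hne
      ext j
      simp only [submatrix_apply, hab]
  rw [h1, Finset.mul_sum, ← Finset.sum_fiberwise_of_maps_to (g := fun f : Fin k → Fin m => Finset.univ.image f)
    (t := (Finset.univ : Finset (Fin m)).powersetCard k)]
  · apply Finset.sum_congr rfl
    intro J hJ
    rw [Finset.mem_powersetCard] at hJ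
    have hcard : Fintype.card (Fin k) = Fintype.card J := by
      rw [Fintype.card_fin, Fintype.card_coe, hJ.2]
    have hfib : ((Finset.univ : Finset (Fin k → Fin m)).filter Function.Injective).filter
        (fun f => Finset.univ.image f = J) =
        (Finset.univ : Finset (Fin k ≃ J)).image (fun e => fun i => (e i : Fin m)) := by
      ext f
      simp only [Finset.mem_filter, Finset.mem_univ, true_and, Finset.mem_image]
      constructor
      · rintro ⟨hf, himg⟩
        have hmem : ∀ i, f i ∈ J := fun i => by
          rw [← himg]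
          exact Finset.mem_image_of_mem f (Finset.mem_univ i)
        have hinj : Function.Injective (fun i => (⟨f i, hmem i⟩ : J)) := by
          intro a b hab
          apply hf
          exact congrArg Subtype.val hab
        have hbij : Function.Bijective (fun i => (⟨f i, hmem i⟩ : J)) :=
          (Fintype.bijective_iff_injective_and_card _).2 ⟨hinj, hcard⟩
        exact ⟨Equiv.ofBijective _ hbij, rfl⟩
      · rintro ⟨e, rfl⟩
        refine ⟨fun a b hab => e.injective (Subtype.ext hab), ?_⟩
        ext y
        simp only [Finset.mem_image, Finset.mem_univ, true_and]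
        constructor
        · rintro ⟨i, rfl⟩
          exact (e i).2
        · intro hy
          exact ⟨e.symm ⟨y, hy⟩, by rw [Equiv.apply_symm_apply]⟩
    rw [hfib, Finset.sum_image]
    · have h2 : ∀ e ∈ (Finset.univ : Finset (Fin k ≃ J)),
          (A.submatrix (fun i => (e i : Fin m)) (fun i => (e i : Fin m))).det =
          (A.submatrix (Subtype.val : J → Fin m) (Subtype.val : J → Fin m)).det := by
        intro e _
        have := det_submatrix_equiv_self e (A.submatrix (Subtype.val : J → Fin m) (Subtype.val : J → Fin m))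
        rw [submatrix_submatrix] at this
        exact this
      rw [Finset.sum_congr rfl h2, Finset.sum_const, nsmul_eq_mul, Finset.card_univ]
      congr 1
      have e0 : Fin k ≃ J := Fintype.equivOfCardEq hcard
      rw [Fintype.card_equiv e0, Fintype.card_fin]
    · intro a _ b _ hab
      ext i
      have := congrFun hab i
      simp only at this
      rw [this]
  · intro f hf
    rw [Finset.mem_filter] at hf
    rw [Finset.mem_powersetCard]
    refine ⟨Finset.subset_univ _, ?_⟩
    rw [Finset.card_image_of_injective _ hf.2, Finset.card_univ, Fintype.card_fin]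

lemma det_one_sub {m : ℕ} (A : Matrix (Fin m) (Fin m) ℝ) :
    (1 - A).det = ∑ k ∈ Finset.range (m + 1), (-1) ^ k / (k.factorial : ℝ) *
      ∑ f : Fin k → Fin m, (A.submatrix f f).det := by
  classical
  obtain ⟨P, hP⟩ : ∃ P : Polynomial ℝ, P = (1 + (Polynomial.X : Polynomial ℝ) • (-A).map Polynomial.C).det := ⟨_, rfl⟩
  have hcoef : ∀ k, P.coeff k = (-1) ^ k / (k.factorial : ℝ) * ∑ f : Fin k → Fin m, (A.submatrix f f).det := by
    intro k
    rw [hP, coeff_det_one_add_X_smul_eq_sum_minors, sum_minors]
    have h1 : (k.factorial : ℝ) ≠ 0 := by exact_mod_cast k.factorial_ne_zero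
    rw [← mul_assoc, div_mul_cancel₀ _ h1, Finset.mul_sum]
    apply Finset.sum_congr rfl
    intro J hJ
    rw [Finset.mem_powersetCard] at hJ
    simp only [submatrix_neg, Pi.neg_apply, det_neg, Fintype.card_coe]
    rw [hJ.2]
  have hdeg : P.natDegree ≤ m := by
    rw [Polynomial.natDegree_le_iff_coeff_eq_zero]
    intro k hk
    rw [hP, coeff_det_one_add_X_smul_eq_sum_minors]
    have : (Finset.univ : Finset (Fin m)).powersetCard k = ∅ := by
      rw [Finset.powersetCard_eq_empty, Finset.card_univ, Fintype.card_fin]
      exact hk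
    rw [this, Finset.sum_empty]
  have heval : P.eval 1 = (1 - A).det := by
    rw [hP]
    have h1 := RingHom.map_det (Polynomial.evalRingHom (1 : ℝ)) (1 + (Polynomial.X : Polynomial ℝ) • (-A).map Polynomial.C)
    rw [Polynomial.coe_evalRingHom] at h1
    rw [h1]
    congr 1
    ext i j
    simp only [RingHom.mapMatrix_apply, map_apply, Polynomial.coe_evalRingHom, Matrix.add_apply, Matrix.smul_apply,
      Matrix.neg_apply, smul_eq_mul, Polynomial.eval_add, Polynomial.eval_mul, Polynomial.eval_X, Polynomial.eval_C,
      Matrix.sub_apply]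
    by_cases hij : i = j
    · rw [hij, one_apply_eq, one_apply_eq, Polynomial.eval_one]
      ring
    · rw [one_apply_ne hij, one_apply_ne hij, Polynomial.eval_zero]
      ring
  rw [← heval, Polynomial.eval_eq_sum_range' (Nat.lt_succ_of_le hdeg)]
  apply Finset.sum_congr rfl
  intro k _
  rw [one_pow, mul_one, hcoef]

/-- the Riemann sums -/
noncomputable def rs (s : ℝ) (m k : ℕ) : ℝ :=
  (s / m) ^ k * ∑ f : Fin k → Fin m, sdet k (fun i => s * (((f i : Fin m) : ℕ) / m))

lemma rs_eq (s : ℝ) (m k : ℕ) : ∑ f : Fin k → Fin m, ((Am s m).submatrix f f).det = rs s m k := by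
  unfold rs
  rw [Finset.mul_sum]
  apply Finset.sum_congr rfl
  intro f _
  have e : (Am s m).submatrix f f = (s / m) • (Matrix.of fun i j : Fin k =>
      Real.sinc (Real.pi * (s * (((f i : Fin m) : ℕ) / m) - s * (((f j : Fin m) : ℕ) / m)))) := by
    ext i j
    unfold Am
    simp only [submatrix_apply, of_apply, Matrix.smul_apply, smul_eq_mul]
  rw [e, det_smul, Fintype.card_fin]
  rfl

lemma rs_bd {s : ℝ} (hs : 0 ≤ s) {m : ℕ} (hm : 0 < m) (k : ℕ) : 0 ≤ rs s m k ∧ rs s m k ≤ s ^ k := by
  have hm0 : (0 : ℝ) < m := by exact_mod_cast hm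
  unfold rs
  constructor
  · apply mul_nonneg (by positivity)
    exact Finset.sum_nonneg fun f _ => (sdet_bd k _).1
  · have h1 : ∑ f : Fin k → Fin m, sdet k (fun i => s * (((f i : Fin m) : ℕ) / m)) ≤ (m : ℝ) ^ k := by
      refine (Finset.sum_le_sum fun f _ => (sdet_bd k _).2).trans (le_of_eq ?_)
      rw [Finset.sum_const, nsmul_eq_mul, mul_one, Finset.card_univ, Fintype.card_fun, Fintype.card_fin,
        Fintype.card_fin]
      push_cast
      rfl
    calc (s / m) ^ k * ∑ f : Fin k → Fin m, sdet k (fun i => s * (((f i : Fin m) : ℕ) / m)) ≤ (s / m) ^ k * m ^ k :=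
          mul_le_mul_of_nonneg_left h1 (by positivity)
      _ = s ^ k := by rw [← mul_pow]; congr 1; field_simp

lemma rs_zero {s : ℝ} {m k : ℕ} (h : m < k) : rs s m k = 0 := by
  rw [← rs_eq, sum_minors]
  have : (Finset.univ : Finset (Fin m)).powersetCard k = ∅ := by
    rw [Finset.powersetCard_eq_empty, Finset.card_univ, Fintype.card_fin]
    exact h
  rw [this, Finset.sum_empty, mul_zero]

lemma det_tsum (s : ℝ) (m : ℕ) : (1 - Am s m).det = ∑' k : ℕ, (-1) ^ k / (k.factorial : ℝ) * rs s m k := by
  rw [det_one_sub, tsum_eq_sum (s := Finset.range (m + 1))]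
  · apply Finset.sum_congr rfl
    intro k _
    rw [rs_eq]
  · intro k hk
    rw [Finset.mem_range, not_lt] at hk
    rw [rs_zero (by omega), mul_zero]

end Pool.Agent.P8H8.HF
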