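import Pool.Agent.P8H8.HF.Gd2

set_option autoImplicit false

/-!
# The Fredholm determinant of the sine kernel: bounds
-/

namespace Pool.Agent.P8H8.HF

open MeasureTheory Filter Topology
open scoped Pointwise

lemma sdet_cont (k : ℕ) : Continuous (sdet k) := by
  unfold sdet
  apply Continuous.matrix_det
  apply continuous_matrix
  intro i j
  simp only [Matrix.of_apply]
  exact Real.continuous_sinc.comp (by fun_prop)

/-- the unit cube -/
def cube (k : ℕ) : Set (Fin k → ℝ) := Set.univ.pi (fun _ => Set.Ico 0 1)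

/-- grid points -/
noncomputable def stp (k m : ℕ) (u : Fin k → ℝ) : Fin k → ℝ := fun i => (⌊u i * m⌋₊ : ℝ) / m

lemma cube_vol (k : ℕ) : volume (cube k) = 1 := by
  unfold cube
  rw [Real.volume_pi_Ico]
  simp

lemma cube_meas (k : ℕ) : MeasurableSet (cube k) := MeasurableSet.univ_pi fun _ => measurableSet_Ico

lemma stp_meas (k m : ℕ) : Measurable (stp k m) := by
  apply measurable_pi_lambda
  intro i
  unfold stp
  have h1 : Measurable (fun u : Fin k → ℝ => ⌊u i * m⌋₊) :=
    Nat.measurable_floor.comp ((measurable_pi_apply i).mul_const _)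
  exact (measurable_from_nat.comp h1).div_const _

lemma riemann (k : ℕ) {G : (Fin k → ℝ) → ℝ} (hG : Continuous G) {B : ℝ} (hB : ∀ u, |G u| ≤ B) :
    Tendsto (fun m : ℕ => (1 / (m : ℝ)) ^ k * ∑ f : Fin k → Fin m, G (fun i => (((f i : Fin m) : ℕ) : ℝ) / m)) atTop
      (𝓝 (∫ u in cube k, G u)) := by
  have hfin : IsFiniteMeasure (volume.restrict (cube k)) := ⟨by
    rw [Measure.restrict_apply_univ, cube_vol]
    exact ENNReal.one_lt_top⟩
  have h1 : Tendsto (fun m : ℕ => ∫ u in cube k, G (stp k m u)) atTop (𝓝 (∫ u in cube k, G u)) := by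
    apply tendsto_integral_of_dominated_convergence (fun _ => B)
    · intro m
      exact (hG.measurable.comp (stp_meas k m)).aestronglyMeasurable
    · exact integrable_const B
    · intro m
      exact Eventually.of_forall fun u => by rw [Real.norm_eq_abs]; exact hB _
    · rw [ae_restrict_iff' (cube_meas k)]
      refine Eventually.of_forall fun u hu => ?_
      have hu' : ∀ i, 0 ≤ u i := fun i => (hu i (Set.mem_univ i)).1
      apply (hG.tendsto u).comp
      rw [tendsto_pi_nhds]
      intro i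
      exact (tendsto_nat_floor_mul_div_atTop (hu' i)).comp tendsto_natCast_atTop_atTop
  refine h1.congr' ?_
  filter_upwards [eventually_gt_atTop 0] with m hm
  have hm0 : (0 : ℝ) < m := by exact_mod_cast hm
  obtain ⟨C, hC⟩ : ∃ C : (Fin k → Fin m) → Set (Fin k → ℝ), C = fun f => Set.univ.pi
    (fun i => Set.Ico ((((f i : Fin m) : ℕ) : ℝ) / m) (((((f i : Fin m) : ℕ) : ℝ) + 1) / m)) := ⟨_, rfl⟩
  have hfl : ∀ f : Fin k → Fin m, ∀ u ∈ C f, ∀ i, ⌊u i * m⌋₊ = ((f i : Fin m) : ℕ) := by
    intro f u hu i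
    rw [hC] at hu
    have h2 := hu i (Set.mem_univ i)
    rw [Set.mem_Ico, div_le_iff₀ hm0, lt_div_iff₀ hm0] at h2
    rw [Nat.floor_eq_iff (by
      have : (0 : ℝ) ≤ (((f i : Fin m) : ℕ) : ℝ) := Nat.cast_nonneg _
      linarith [h2.1])]
    exact h2
  have hun : cube k = ⋃ f : Fin k → Fin m, C f := by
    ext u
    rw [Set.mem_iUnion]
    constructor
    · intro hu
      have hu' : ∀ i, 0 ≤ u i ∧ u i < 1 := fun i => hu i (Set.mem_univ i)
      have hlt : ∀ i, ⌊u i * m⌋₊ < m := by
        intro i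
        rw [Nat.floor_lt (mul_nonneg (hu' i).1 hm0.le)]
        have := mul_lt_mul_of_pos_right (hu' i).2 hm0
        linarith
      refine ⟨fun i => ⟨⌊u i * m⌋₊, hlt i⟩, ?_⟩
      rw [hC]
      intro i _
      have h2 := Nat.floor_le (mul_nonneg (hu' i).1 hm0.le)
      have h3 := Nat.lt_floor_add_one (u i * m)
      rw [Set.mem_Ico, div_le_iff₀ hm0, lt_div_iff₀ hm0]
      exact ⟨h2, h3⟩
    · rintro ⟨f, hf⟩ i _
      rw [hC] at hf
      have h2 := hf i (Set.mem_univ i)
      have h3 : ((((f i : Fin m) : ℕ) : ℝ) + 1) / m ≤ 1 := by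
        rw [div_le_one hm0]
        have := (f i).2
        exact_mod_cast this
      have h4 : 0 ≤ (((f i : Fin m) : ℕ) : ℝ) / m := by positivity
      exact ⟨h4.trans h2.1, h2.2.trans_le h3⟩
  have hmeas : ∀ f, MeasurableSet (C f) := by
    intro f
    rw [hC]
    exact MeasurableSet.univ_pi fun _ => measurableSet_Ico
  have hdisj : Pairwise (Function.onFun Disjoint C) := by
    intro f g hfg
    rw [Function.onFun, Set.disjoint_left]
    intro u hu hu2
    apply hfg
    funext i
    ext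
    rw [← hfl f u hu i, ← hfl g u hu2 i]
  have hbd : ∀ S : Set (Fin k → ℝ), MeasurableSet S → S ⊆ cube k →
      IntegrableOn (fun u => G (stp k m u)) S volume := by
    intro S hS hsub
    have h2 : Integrable (fun u => G (stp k m u)) (volume.restrict (cube k)) := by
      refine (integrable_const B).mono' (hG.measurable.comp (stp_meas k m)).aestronglyMeasurable
        (Eventually.of_forall fun u => by rw [Real.norm_eq_abs]; exact hB _)
    exact (show IntegrableOn (fun u => G (stp k m u)) (cube k) volume from h2).mono_set hsub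
  rw [hun, integral_iUnion_fintype hmeas hdisj (fun f => hbd _ (hmeas f) (by
    rw [hun]; exact Set.subset_iUnion C f)), Finset.mul_sum]
  apply Finset.sum_congr rfl
  intro f _
  have h2 : ∫ u in C f, G (stp k m u) = ∫ _u in C f, G (fun i => (((f i : Fin m) : ℕ) : ℝ) / m) := by
    apply setIntegral_congr_fun (hmeas f)
    intro u hu
    simp only
    congr 1
    funext i
    unfold stp
    rw [hfl f u hu i]
  rw [h2, setIntegral_const, smul_eq_mul]
  congr 1
  rw [Measure.real, hC, Real.volume_pi_Ico_toReal (fun i => by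
    apply div_le_div_of_nonneg_right _ hm0.le
    linarith)]
  rw [Finset.prod_congr rfl (g := fun _ => 1 / (m : ℝ)) (fun i _ => by ring), Finset.prod_const, Finset.card_univ,
    Fintype.card_fin]

/-- the `k`-th integral of the Fredholm series -/
noncomputable def fint (k : ℕ) (s : ℝ) : ℝ := ∫ x in Set.Icc (0 : Fin k → ℝ) (fun _ => s), sdet k x

/-- the Fredholm determinant -/
noncomputable def fred (s : ℝ) : ℝ := ∑' k : ℕ, (-1) ^ k / (k.factorial : ℝ) * fint k s

lemma cube_Icc (k : ℕ) {F : Type*} [NormedAddCommGroup F] [NormedSpace ℝ F] (G : (Fin k → ℝ) → F) :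
    ∫ u in cube k, G u = ∫ u in Set.Icc (0 : Fin k → ℝ) (fun _ => 1), G u := by
  apply setIntegral_congr_set
  exact Measure.univ_pi_Ico_ae_eq_Icc (μ := fun _ : Fin k => (volume : Measure ℝ)) (f := fun _ => 0) (g := fun _ => 1)

lemma smul_Icc (k : ℕ) {s : ℝ} (hs : 0 < s) : s • (Set.Icc (0 : Fin k → ℝ) (fun _ => 1)) =
    Set.Icc (0 : Fin k → ℝ) (fun _ => s) := by
  ext x
  rw [Set.mem_smul_set_iff_inv_smul_mem₀ hs.ne', Set.mem_Icc, Set.mem_Icc, Pi.le_def, Pi.le_def, Pi.le_def, Pi.le_def]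
  simp only [Pi.zero_apply, Pi.smul_apply, smul_eq_mul]
  constructor
  · rintro ⟨h1, h2⟩
    refine ⟨fun i => ?_, fun i => ?_⟩
    · have := mul_nonneg hs.le (h1 i)
      rwa [mul_inv_cancel_left₀ hs.ne'] at this
    · have := mul_le_mul_of_nonneg_left (h2 i) hs.le
      rwa [mul_inv_cancel_left₀ hs.ne', mul_one] at this
  · rintro ⟨h1, h2⟩
    refine ⟨fun i => by have := h1 i; positivity, fun i => ?_⟩
    rw [inv_mul_le_one₀ hs]
    exact h2 i

lemma fint_scale (k : ℕ) {s : ℝ} (hs : 0 < s) : fint k s = s ^ k * ∫ u in cube k, sdet k (s • u) := by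
  rw [cube_Icc]
  have h := Measure.setIntegral_comp_smul_of_pos (volume : Measure (Fin k → ℝ)) (sdet k)
    (Set.Icc (0 : Fin k → ℝ) (fun _ => 1)) hs
  rw [h, smul_Icc k hs, Module.finrank_fin_fun, smul_eq_mul, ← mul_assoc, mul_inv_cancel₀ (by positivity), one_mul]
  rfl

lemma rs_tendsto {s : ℝ} (hs : 0 < s) (k : ℕ) : Tendsto (fun m : ℕ => rs s m k) atTop (𝓝 (fint k s)) := by
  rw [fint_scale k hs]
  have h1 := (riemann k (G := fun u => sdet k (s • u)) ((sdet_cont k).comp (continuous_const_smul s)) (B := 1)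
    (fun u => abs_le.2 ⟨by have := (sdet_bd k (s • u)).1; linarith, (sdet_bd k (s • u)).2⟩)).const_mul (s ^ k)
  refine h1.congr (fun m => ?_)
  unfold rs
  rw [← mul_assoc, ← mul_pow]
  congr 2
  · ring

lemma fint_bd (k : ℕ) {s : ℝ} (hs : 0 ≤ s) : 0 ≤ fint k s ∧ fint k s ≤ s ^ k := by
  unfold fint
  have hvol : (volume (Set.Icc (0 : Fin k → ℝ) (fun _ => s))).toReal = s ^ k := by
    have h0 := Real.volume_Icc_pi_toReal (a := (0 : Fin k → ℝ)) (b := fun _ => s) (fun i => hs)
    rw [h0]
    simp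
  constructor
  · exact setIntegral_nonneg measurableSet_Icc (fun x _ => (sdet_bd k x).1)
  · have h1 : ∫ x in Set.Icc (0 : Fin k → ℝ) (fun _ => s), sdet k x ≤
        ∫ _x in Set.Icc (0 : Fin k → ℝ) (fun _ => s), (1 : ℝ) := by
      apply setIntegral_mono
      · exact (sdet_cont k).continuousOn.integrableOn_compact isCompact_Icc
      · exact continuous_const.continuousOn.integrableOn_compact isCompact_Icc
      · exact fun x => (sdet_bd k x).2
    refine h1.trans (le_of_eq ?_)
    rw [setIntegral_const, smul_eq_mul, mul_one, Measure.real, hvol]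

lemma fint_zero (k : ℕ) (hk : k ≠ 0) : fint k 0 = 0 := by
  have h := fint_bd k (le_refl (0 : ℝ))
  rw [zero_pow hk] at h
  linarith [h.1, h.2]

lemma fint_nought (s : ℝ) : fint 0 s = 1 := by
  unfold fint
  have h1 : Set.Icc (0 : Fin 0 → ℝ) (fun _ => s) = Set.univ := by
    ext x
    simp only [Set.mem_Icc, Set.mem_univ, iff_true, Pi.le_def]
    exact ⟨fun i => i.elim0, fun i => i.elim0⟩
  rw [h1]
  have h2 : ∀ x : Fin 0 → ℝ, sdet 0 x = 1 := by
    intro x
    unfold sdet
    exact Matrix.det_fin_zero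
  simp only [h2]
  rw [setIntegral_const, smul_eq_mul, mul_one, Measure.real]
  have : volume (Set.univ : Set (Fin 0 → ℝ)) = 1 := by
    have h3 := cube_vol 0
    have h4 : cube 0 = Set.univ := by
      ext x
      simp [cube]
    rwa [h4] at h3
  rw [this]
  rfl

/-- the gap probability is between `0` and `exp (-s)` -/
theorem fred_bd {s : ℝ} (hs : 0 < s) : 0 ≤ fred s ∧ fred s ≤ Real.exp (-s) := by
  have h1 : Tendsto (fun m : ℕ => (1 - Am s m).det) atTop (𝓝 (fred s)) := by
    simp_rw [det_tsum]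
    unfold fred
    apply tendsto_tsum_of_dominated_convergence (bound := fun k => s ^ k / (k.factorial : ℝ))
    · exact Real.summable_pow_div_factorial s
    · intro k
      exact (rs_tendsto hs k).const_mul _
    · filter_upwards [eventually_gt_atTop 0] with m hm k
      obtain ⟨h2, h3⟩ := rs_bd hs.le hm k
      rw [Real.norm_eq_abs, abs_mul, abs_div, abs_pow, abs_neg, abs_one, one_pow, abs_of_nonneg h2,
        abs_of_nonneg (show (0 : ℝ) ≤ (k.factorial : ℝ) by positivity), div_mul_eq_mul_div, one_mul]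
      exact div_le_div_of_nonneg_right h3 (by positivity)
  have h4 : ∀ᶠ m : ℕ in atTop, 0 ≤ (1 - Am s m).det ∧ (1 - Am s m).det ≤ Real.exp (-s) := by
    filter_upwards [eventually_gt_atTop 0, tendsto_natCast_atTop_atTop.eventually_ge_atTop s] with m hm hsm
    exact Am_det hs.le hm hsm
  exact ⟨ge_of_tendsto h1 (h4.mono fun m hm => hm.1), le_of_tendsto h1 (h4.mono fun m hm => hm.2)⟩

lemma fred_zero : fred 0 = 1 := by
  unfold fred
  rw [tsum_eq_single 0 (fun k hk => by rw [fint_zero k hk, mul_zero]), fint_nought]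
  simp

/-- the behaviour at zero -/
theorem fred_near {s : ℝ} (hs : 0 < s) (hs1 : s ≤ 1) : |fred s - (1 - s)| ≤ s ^ 2 := by
  have hsum : Summable (fun k : ℕ => (-1) ^ k / (k.factorial : ℝ) * fint k s) := by
    refine Summable.of_norm_bounded (Real.summable_pow_div_factorial s) (fun k => ?_)
    obtain ⟨h2, h3⟩ := fint_bd k hs.le
    rw [Real.norm_eq_abs, abs_mul, abs_div, abs_pow, abs_neg, abs_one, one_pow, abs_of_nonneg h2,
      abs_of_nonneg (show (0 : ℝ) ≤ (k.factorial : ℝ) by positivity), div_mul_eq_mul_div, one_mul]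
    exact div_le_div_of_nonneg_right h3 (by positivity)
  have h1 : fint 1 s = s := by
    unfold fint
    have h2 : ∀ x : Fin 1 → ℝ, sdet 1 x = 1 := by
      intro x
      unfold sdet
      simp
    simp only [h2]
    have h0 := Real.volume_Icc_pi_toReal (a := (0 : Fin 1 → ℝ)) (b := fun _ => s) (fun i => hs.le)
    rw [setIntegral_const, smul_eq_mul, mul_one, Measure.real, h0]
    simp
  have e1 : fred s = 1 - s + ∑' k : ℕ, (-1) ^ (k + 2) / ((k + 2).factorial : ℝ) * fint (k + 2) s := by
    unfold fred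
    rw [← hsum.sum_add_tsum_nat_add 2, Finset.sum_range_succ, Finset.sum_range_one, fint_nought, h1]
    norm_num
    ring
  rw [e1]
  have e2 : 1 - s + ∑' k : ℕ, (-1) ^ (k + 2) / ((k + 2).factorial : ℝ) * fint (k + 2) s - (1 - s) =
      ∑' k : ℕ, (-1) ^ (k + 2) / ((k + 2).factorial : ℝ) * fint (k + 2) s := by ring
  rw [e2]
  have hgeo : HasSum (fun k : ℕ => s ^ 2 * ((1 : ℝ) / 2) ^ (k + 1)) (s ^ 2 * 1) := by
    apply HasSum.mul_left
    have h0 := hasSum_geometric_two' (1 : ℝ)
    have h9 : (fun k : ℕ => ((1 : ℝ) / 2) ^ (k + 1)) = fun n : ℕ => 1 / 2 / 2 ^ n := by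
      funext k
      rw [pow_succ, one_div_pow]
      ring
    rw [h9]
    exact h0
  have h3 : ‖∑' k : ℕ, (-1) ^ (k + 2) / ((k + 2).factorial : ℝ) * fint (k + 2) s‖ ≤ s ^ 2 * 1 := by
    apply tsum_of_norm_bounded hgeo
    intro k
    obtain ⟨h2, h3⟩ := fint_bd (k + 2) hs.le
    rw [Real.norm_eq_abs, abs_mul, abs_div, abs_pow, abs_neg, abs_one, one_pow, abs_of_nonneg h2,
      abs_of_nonneg (show (0 : ℝ) ≤ ((k + 2).factorial : ℝ) by positivity), div_mul_eq_mul_div, one_mul]
    have h4 : s ^ (k + 2) ≤ s ^ 2 := pow_le_pow_of_le_one hs.le hs1 (by omega)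
    have h5 : (2 : ℝ) ^ (k + 1) ≤ ((k + 2).factorial : ℝ) := by
      have : ∀ j : ℕ, 2 ^ (j + 1) ≤ (j + 2).factorial := by
        intro j
        induction j with
        | zero => simp
        | succ j ih =>
          rw [Nat.factorial_succ (j + 2), pow_succ]
          nlinarith
      exact_mod_cast this k
    rw [div_le_iff₀ (by positivity)]
    have h6 : s ^ 2 * (1 / 2) ^ (k + 1) * 2 ^ (k + 1) ≤ s ^ 2 * (1 / 2) ^ (k + 1) * ((k + 2).factorial : ℝ) :=
      mul_le_mul_of_nonneg_left h5 (by positivity)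
    have h7 : s ^ 2 * (1 / 2 : ℝ) ^ (k + 1) * 2 ^ (k + 1) = s ^ 2 := by
      rw [mul_assoc, ← mul_pow]
      norm_num
    linarith
  rw [mul_one, Real.norm_eq_abs] at h3
  exact h3

end Pool.Agent.P8H8.HF
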