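import Pool.Agent.P8H8.HF.Flow

set_option autoImplicit false

/-!
# Consequences of small dissipation
-/

namespace Pool.Agent.P8H8.HF

open Finset Filter Topology

lemma le_sq_aux {x e : ℝ} (he : 0 < e) : x ≤ e + x ^ 2 / e := by
  rw [← sub_nonneg]
  have e1 : e + x ^ 2 / e - x = ((x - e / 2) ^ 2 + 3 * e ^ 2 / 4) / e := by
    field_simp
    ring
  rw [e1]
  positivity

lemma ramp_mid {s h x : ℝ} (h1 : s ≤ x) (h2 : x ≤ s + h) : ramp s h x = x - s := by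
  unfold ramp
  rw [max_eq_left (by linarith), min_eq_left (by linarith)]

/-- one pair of neighbouring gaps, ordered -/
lemma pair_aux {s h e a b : ℝ} (hs : 0 < s) (hh : 0 < h) (he : 0 < e) (ha : 0 < a) (hab : a ≤ b) :
    b - a ≤ s + e + (s + h) ^ 2 * ((ramp s h b - ramp s h a) * (b - a) / (a * b)) / e +
      2 * max (a - (s + h) / 2) 0 + 2 * max (b - (s + h) / 2) 0 := by
  have hb : 0 < b := ha.trans_le hab
  have h1 : 0 ≤ max (a - (s + h) / 2) 0 := le_max_right _ _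
  have h2 : 0 ≤ max (b - (s + h) / 2) 0 := le_max_right _ _
  have h3 : b - (s + h) / 2 ≤ max (b - (s + h) / 2) 0 := le_max_left _ _
  have h4 : 0 ≤ (ramp s h b - ramp s h a) * (b - a) / (a * b) := by
    apply div_nonneg _ (by positivity)
    exact mul_nonneg (by linarith [ramp_mono s h hab]) (by linarith)
  have h5 : 0 ≤ (s + h) ^ 2 * ((ramp s h b - ramp s h a) * (b - a) / (a * b)) / e := by positivity
  rcases lt_or_ge (s + h) b with hb1 | hb1
  · linarith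
  rcases le_total b s with hb2 | hb2
  · linarith
  have hab2 : a * b ≤ (s + h) ^ 2 := by nlinarith
  rcases le_total a s with ha1 | ha1
  · -- a ≤ s ≤ b
    rw [ramp_mid hb2 hb1, ramp_zero hh.le ha1, sub_zero] at h5 ⊢
    have h6 : (b - s) ^ 2 ≤ (s + h) ^ 2 * ((b - s) * (b - a) / (a * b)) := by
      rw [mul_div_assoc', le_div_iff₀ (by positivity)]
      have h7 : (b - s) ^ 2 ≤ (b - s) * (b - a) := by nlinarith
      calc (b - s) ^ 2 * (a * b) ≤ (b - s) * (b - a) * (s + h) ^ 2 :=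
            mul_le_mul h7 hab2 (by positivity) (mul_nonneg (by linarith) (by linarith))
        _ = _ := by ring
    have h8 := le_sq_aux (x := b - s) he
    have h9 : (b - s) ^ 2 / e ≤ (s + h) ^ 2 * ((b - s) * (b - a) / (a * b)) / e :=
      div_le_div_of_nonneg_right h6 he.le
    linarith
  · rw [ramp_mid hb2 hb1, ramp_mid ha1 (hab.trans hb1)] at h5 ⊢
    have h6 : (b - a) ^ 2 ≤ (s + h) ^ 2 * ((b - s - (a - s)) * (b - a) / (a * b)) := by
      rw [mul_div_assoc', le_div_iff₀ (by positivity)]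
      calc (b - a) ^ 2 * (a * b) ≤ (b - a) ^ 2 * (s + h) ^ 2 :=
            mul_le_mul_of_nonneg_left hab2 (by positivity)
        _ = _ := by ring
    have h8 := le_sq_aux (x := b - a) he
    have h9 : (b - a) ^ 2 / e ≤ (s + h) ^ 2 * ((b - s - (a - s)) * (b - a) / (a * b)) / e :=
      div_le_div_of_nonneg_right h6 he.le
    linarith

lemma pair_le {s h e a b : ℝ} (hs : 0 < s) (hh : 0 < h) (he : 0 < e) (ha : 0 < a) (hb : 0 < b) :
    |b - a| ≤ s + e + (s + h) ^ 2 * ((ramp s h b - ramp s h a) * (b - a) / (a * b)) / e +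
      2 * max (a - (s + h) / 2) 0 + 2 * max (b - (s + h) / 2) 0 := by
  rcases le_total a b with h1 | h1
  · rw [abs_of_nonneg (by linarith)]
    exact pair_aux hs hh he ha h1
  · rw [abs_of_nonpos (by linarith)]
    have h2 := pair_aux hs hh he hb h1
    have e1 : (ramp s h a - ramp s h b) * (a - b) / (b * a) = (ramp s h b - ramp s h a) * (b - a) / (a * b) := by
      rw [mul_comm b a]
      congr 1
      ring
    rw [e1] at h2
    linarith

/-- neighbouring gaps are close on average if the dissipation is small -/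
lemma adj_le {y : ℤ → ℝ} (hy : StrictMono y) {s h e : ℝ} (hs : 0 < s) (hh : 0 < h) (he : 0 < e) (N : ℕ) :
    ∑ k ∈ Ico (0 : ℤ) N, |gp y (k + 1) - gp y k| ≤ N * (s + e) + (s + h) ^ 2 * dis s h y 0 (N + 1) / e +
      4 * ∑ k ∈ Ico (0 : ℤ) (N + 1), max (gp y k - (s + h) / 2) 0 := by
  have h1 : ∀ k ∈ Ico (0 : ℤ) N, |gp y (k + 1) - gp y k| ≤ s + e + (s + h) ^ 2 *
      ((ramp s h (gp y (k + 1)) - ramp s h (gp y k)) * (gp y (k + 1) - gp y k) / (gp y k * gp y (k + 1))) / e +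
      2 * max (gp y k - (s + h) / 2) 0 + 2 * max (gp y (k + 1) - (s + h) / 2) 0 :=
    fun k _ => pair_le hs hh he (gp_pos hy k) (gp_pos hy (k + 1))
  refine (sum_le_sum h1).trans ?_
  rw [sum_add_distrib, sum_add_distrib, sum_add_distrib, sum_const, Int.card_Ico, ← sum_div, ← mul_sum,
    ← mul_sum, ← mul_sum]
  have e1 : ∑ k ∈ Ico (0 : ℤ) N, (ramp s h (gp y (k + 1)) - ramp s h (gp y k)) * (gp y (k + 1) - gp y k) /
      (gp y k * gp y (k + 1)) = dis s h y 0 (N + 1) := by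
    unfold dis
    rw [add_sub_cancel_right]
  rw [e1]
  have h2 : ∑ k ∈ Ico (0 : ℤ) N, max (gp y k - (s + h) / 2) 0 ≤
      ∑ k ∈ Ico (0 : ℤ) (N + 1), max (gp y k - (s + h) / 2) 0 := by
    apply sum_le_sum_of_subset_of_nonneg
    · intro k hk
      rw [mem_Ico] at hk ⊢
      omega
    · intro k _ _
      exact le_max_right _ _
  have h3 : ∑ k ∈ Ico (0 : ℤ) N, max (gp y (k + 1) - (s + h) / 2) 0 ≤
      ∑ k ∈ Ico (0 : ℤ) (N + 1), max (gp y k - (s + h) / 2) 0 := by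
    have e2 : ∑ k ∈ Ico (0 : ℤ) N, max (gp y (k + 1) - (s + h) / 2) 0 =
        ∑ k ∈ (Ico (0 : ℤ) N).image (fun k => k + 1), max (gp y k - (s + h) / 2) 0 := by
      rw [sum_image (fun x _ z _ hxz => by simpa using hxz)]
    rw [e2]
    apply sum_le_sum_of_subset_of_nonneg
    · intro k hk
      rw [mem_image] at hk
      obtain ⟨j, hj, rfl⟩ := hk
      rw [mem_Ico] at hj ⊢
      omega
    · intro k _ _
      exact le_max_right _ _
  simp only [sub_zero, Int.toNat_natCast, nsmul_eq_mul]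
  linarith

/-- the total gap -/
lemma sum_gp (y : ℤ → ℝ) {a b : ℤ} (hab : a ≤ b) : ∑ k ∈ Ico a b, gp y k = y b - y a := tele y hab

lemma path_le (g : ℤ → ℝ) {a j k b : ℤ} (h1 : a ≤ j) (h2 : j ≤ k) (h3 : k < b) :
    |g k - g j| ≤ ∑ i ∈ Ico a (b - 1), |g (i + 1) - g i| := by
  rw [← tele g h2]
  refine (abs_sum_le_sum_abs _ _).trans ?_
  apply sum_le_sum_of_subset_of_nonneg
  · intro i hi
    rw [mem_Ico] at hi ⊢
    omega
  · intro i _ _
    exact abs_nonneg _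

/-- deviation from the mean in one block -/
lemma block_dev (g : ℤ → ℝ) (a : ℤ) {m : ℕ} (hm : 1 ≤ m) :
    ∑ k ∈ Ico a (a + m), |g k - (∑ j ∈ Ico a (a + m), g j) / m| ≤
      m * ∑ i ∈ Ico a (a + m - 1), |g (i + 1) - g i| := by
  have hm0 : (0 : ℝ) < m := by exact_mod_cast hm
  have hcard : ((Ico a (a + m)).card : ℝ) = m := by
    rw [Int.card_Ico]
    simp
  have h1 : ∀ k ∈ Ico a (a + m), |g k - (∑ j ∈ Ico a (a + m), g j) / m| ≤
      ∑ i ∈ Ico a (a + m - 1), |g (i + 1) - g i| := by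
    intro k hk
    rw [mem_Ico] at hk
    have e1 : g k - (∑ j ∈ Ico a (a + m), g j) / m = (∑ j ∈ Ico a (a + m), (g k - g j)) / m := by
      rw [sum_sub_distrib, sum_const, nsmul_eq_mul, hcard]
      field_simp
    rw [e1, abs_div, abs_of_pos hm0, div_le_iff₀ hm0]
    refine (abs_sum_le_sum_abs _ _).trans ?_
    have h2 : ∀ j ∈ Ico a (a + m), |g k - g j| ≤ ∑ i ∈ Ico a (a + m - 1), |g (i + 1) - g i| := by
      intro j hj
      rw [mem_Ico] at hj
      rcases le_total j k with h | h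
      · exact path_le g hj.1 h hk.2
      · rw [abs_sub_comm]
        exact path_le g hk.1 h hj.2
    refine (sum_le_sum h2).trans (le_of_eq ?_)
    rw [sum_const, nsmul_eq_mul, hcard, mul_comm]
  refine (sum_le_sum h1).trans (le_of_eq ?_)
  rw [sum_const, nsmul_eq_mul, hcard]

/-- decomposition into blocks -/
lemma sum_blocks (f : ℤ → ℝ) (m : ℕ) (q : ℕ) :
    ∑ k ∈ Ico (0 : ℤ) ((m * q : ℕ) : ℤ), f k =
      ∑ B ∈ range q, ∑ k ∈ Ico ((m * B : ℕ) : ℤ) ((m * B : ℕ) + m), f k := by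
  induction q with
  | zero => simp
  | succ q ih =>
    rw [sum_range_succ, ← ih]
    have e : Ico (0 : ℤ) ((m * (q + 1) : ℕ) : ℤ) = Ico (0 : ℤ) ((m * q : ℕ) : ℤ) ∪
        Ico ((m * q : ℕ) : ℤ) ((m * q : ℕ) + m) := by
      ext i
      simp only [mem_Ico, mem_union]
      push_cast
      have : (0 : ℤ) ≤ m * q := by positivity
      have h2 : (m : ℤ) * (q + 1) = m * q + m := by ring
      rw [h2]
      omega
    rw [e, sum_union]
    rw [disjoint_left]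
    intro i hi hi'
    rw [mem_Ico] at hi hi'
    omega

lemma log_le_two_sqrt {x : ℝ} (hx : 0 ≤ x) : Real.log (1 + x) ≤ 2 * Real.sqrt x := by
  have h1 := Real.sqrt_nonneg x
  have h2 : 1 + x ≤ (1 + Real.sqrt x) ^ 2 := by
    have := Real.sq_sqrt hx
    nlinarith
  calc Real.log (1 + x) ≤ Real.log ((1 + Real.sqrt x) ^ 2) := Real.log_le_log (by positivity) h2
    _ = 2 * Real.log (1 + Real.sqrt x) := by
        rw [Real.log_pow]
        norm_num
    _ ≤ 2 * Real.sqrt x := by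
        have := Real.log_le_sub_one_of_pos (show 0 < 1 + Real.sqrt x by positivity)
        linarith

/-- growth of a window -/
lemma win_len {y : ℝ → ℤ → ℝ} {R : ℝ} (hF : Flow y R) {a b : ℤ} (hab : a ≤ b)
    {τ₁ τ τ₂ : ℝ} (h0 : 0 < τ₁) (h1 : τ₁ ≤ τ) (h2 : τ ≤ τ₂) (hR : τ₂ < R) :
    y τ b - y τ a ≤ y τ₁ b - y τ₁ a + ((b - a : ℤ) : ℝ) * Real.sqrt (8 * (τ₂ - τ₁)) := by
  rw [← sum_gp (y τ) hab, ← sum_gp (y τ₁) hab]
  have h3 : ∀ k ∈ Ico a b, gp (y τ) k ≤ gp (y τ₁) k + Real.sqrt (8 * (τ₂ - τ₁)) := by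
    intro k _
    refine (gap_growth hF h0 h1 (h2.trans_lt hR) k).trans ?_
    have : Real.sqrt (8 * (τ - τ₁)) ≤ Real.sqrt (8 * (τ₂ - τ₁)) := Real.sqrt_le_sqrt (by linarith)
    linarith
  refine (sum_le_sum h3).trans (le_of_eq ?_)
  rw [sum_add_distrib, sum_const, Int.card_Ico, nsmul_eq_mul]
  congr 2
  have : ((b - a).toNat : ℤ) = b - a := Int.toNat_of_nonneg (by omega)
  exact_mod_cast this

/-- propagation in one block -/
lemma block_prop {y : ℝ → ℤ → ℝ} {R : ℝ} (hF : Flow y R) {τ₁ τ₂ : ℝ} (h0 : 0 < τ₁) (h12 : τ₁ ≤ τ₂) (hR : τ₂ < R)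
    (a : ℤ) {m : ℕ} (hm : 1 ≤ m) {v s0 Θ : ℝ} (hv : 0 ≤ v) (hs0 : 0 < s0) (hΘ : τ₂ - τ₁ ≤ Θ)
    (hva : y τ₁ (a + m) - y τ₁ a = m * v) :
    ∑ k ∈ Ico a (a + m), max (gp (y τ₂) k - v) 0 ≤
      ∑ k ∈ Ico a (a + m), |gp (y τ₁) k - v| + m * s0 +
      32 / s0 * Θ * Real.sqrt (m / s0) * (1 + v + Real.sqrt (8 * Θ)) := by
  have hm0 : (0 : ℝ) < m := by exact_mod_cast hm
  have hΘ0 : 0 ≤ Θ := by linarith
  obtain ⟨s, hs⟩ : ∃ s, s = max v s0 := ⟨_, rfl⟩
  have hsv : v ≤ s := by rw [hs]; exact le_max_left _ _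
  have hss : s0 ≤ s := by rw [hs]; exact le_max_right _ _
  have hs1 : s ≤ v + s0 := by rw [hs]; exact max_le (by linarith) (by linarith)
  have hspos : 0 < s := hs0.trans_le hss
  have hcard : ((Ico a (a + m)).card : ℝ) = m := by
    rw [Int.card_Ico]
    simp
  obtain ⟨L, hL⟩ : ∃ L, L = m * v + m * Real.sqrt (8 * Θ) := ⟨_, rfl⟩
  have hL0 : 0 ≤ L := by rw [hL]; positivity
  have h1 := win_mono hF hspos (a := a) (b := a + m) (by omega) h0 h12 hR (L := L) (by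
    intro τ h3 h4
    have h5 := win_len hF (a := a) (b := a + m) (by omega) h0 h3 h4 hR
    rw [hva] at h5
    have e1 : ((a + m - a : ℤ) : ℝ) = m := by push_cast; ring
    rw [e1] at h5
    have h6 : Real.sqrt (8 * (τ₂ - τ₁)) ≤ Real.sqrt (8 * Θ) := Real.sqrt_le_sqrt (by linarith)
    have h7 := mul_le_mul_of_nonneg_left h6 hm0.le
    rw [hL]
    linarith)
  have h2 : ∑ k ∈ Ico a (a + m), max (gp (y τ₂) k - v) 0 ≤
      ∑ k ∈ Ico a (a + m), max (gp (y τ₂) k - s) 0 + m * s0 := by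
    have e : (m : ℝ) * s0 = ∑ k ∈ Ico a (a + m), s0 := by
      rw [sum_const, nsmul_eq_mul, hcard]
    rw [e, ← sum_add_distrib]
    refine sum_le_sum fun k _ => ?_
    apply max_le
    · have := le_max_left (gp (y τ₂) k - s) 0
      linarith
    · have := le_max_right (gp (y τ₂) k - s) 0
      linarith
  have h3 : ∑ k ∈ Ico a (a + m), max (gp (y τ₁) k - s) 0 ≤ ∑ k ∈ Ico a (a + m), |gp (y τ₁) k - v| := by
    refine sum_le_sum fun k _ => ?_
    apply max_le _ (abs_nonneg _)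
    have := le_abs_self (gp (y τ₁) k - v)
    linarith
  have h4 : Real.log (1 + L / s) ≤ 2 * (Real.sqrt (m / s0) * (1 + v + Real.sqrt (8 * Θ))) := by
    have h5 : L / s ≤ L / s0 := div_le_div_of_nonneg_left hL0 hs0 hss
    have h6 : Real.log (1 + L / s) ≤ Real.log (1 + L / s0) :=
      Real.log_le_log (by positivity) (by linarith)
    refine h6.trans ((log_le_two_sqrt (by positivity)).trans ?_)
    have e : L / s0 = m / s0 * (v + Real.sqrt (8 * Θ)) := by rw [hL]; ring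
    rw [e, Real.sqrt_mul (by positivity)]
    apply mul_le_mul_of_nonneg_left _ (by norm_num)
    apply mul_le_mul_of_nonneg_left _ (Real.sqrt_nonneg _)
    have h7 := Real.sqrt_nonneg (8 * Θ)
    rw [Real.sqrt_le_left (by positivity)]
    nlinarith
  have h5 : 16 / s * (τ₂ - τ₁) * Real.log (1 + L / s) ≤
      32 / s0 * Θ * Real.sqrt (m / s0) * (1 + v + Real.sqrt (8 * Θ)) := by
    have h6 : 16 / s * (τ₂ - τ₁) ≤ 16 / s0 * Θ :=
      mul_le_mul (div_le_div_of_nonneg_left (by norm_num) hs0 hss) hΘ (by linarith) (by positivity)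
    have h7 : 0 ≤ Real.log (1 + L / s) := Real.log_nonneg (by
      have : 0 ≤ L / s := by positivity
      linarith)
    calc 16 / s * (τ₂ - τ₁) * Real.log (1 + L / s)
        ≤ 16 / s0 * Θ * (2 * (Real.sqrt (m / s0) * (1 + v + Real.sqrt (8 * Θ)))) :=
          mul_le_mul h6 h4 h7 (by positivity)
      _ = _ := by ring
  linarith

lemma pos_part (x : ℝ) : |x| = 2 * max x 0 - x := by
  rcases le_total 0 x with h | h
  · rw [abs_of_nonneg h, max_eq_left h]; ring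
  · rw [abs_of_nonpos h, max_eq_right h]; ring

/-- **Propagation.** If neighbouring gaps are close on average at the time `τ₁`, then the gaps hardly change
afterwards. -/
theorem prop_all {y : ℝ → ℤ → ℝ} {R : ℝ} (hF : Flow y R) {τ₁ τ₂ : ℝ} (h0 : 0 < τ₁) (h12 : τ₁ ≤ τ₂) (hR : τ₂ < R)
    {m q : ℕ} (hm : 1 ≤ m) {s0 Θ η A : ℝ} (hs0 : 0 < s0) (hΘ : τ₂ - τ₁ ≤ Θ)
    (hη : η ≤ 1) (hm1 : |y τ₁ ((m * q : ℕ) : ℤ) - y τ₁ 0 - (m * q : ℕ)| ≤ η * (m * q : ℕ))
    (hm2 : |y τ₂ ((m * q : ℕ) : ℤ) - y τ₂ 0 - (m * q : ℕ)| ≤ η * (m * q : ℕ))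
    (hA : ∑ k ∈ Ico (0 : ℤ) ((m * q : ℕ) : ℤ), |gp (y τ₁) (k + 1) - gp (y τ₁) k| ≤ A) :
    ∑ k ∈ Ico (0 : ℤ) ((m * q : ℕ) : ℤ), |gp (y τ₁) k - gp (y τ₂) k| ≤
      3 * (m * A) + 2 * (s0 * (m * q : ℕ)) + 2 * (η * (m * q : ℕ)) +
      64 / s0 * Θ * Real.sqrt (m / s0) * (3 + Real.sqrt (8 * Θ)) * q := by
  have hm0 : (0 : ℝ) < m := by exact_mod_cast hm
  have hΘ0 : 0 ≤ Θ := by linarith
  have hy1 := hF.mono τ₁ h0 (h12.trans_lt hR)
  have hy2 := hF.mono τ₂ (h0.trans_le h12) hR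
  obtain ⟨N, hN⟩ : ∃ N : ℕ, N = m * q := ⟨_, rfl⟩
  rw [← hN] at hm1 hm2 hA ⊢
  have hNq : (N : ℝ) = m * q := by rw [hN]; push_cast; ring
  obtain ⟨v, hv⟩ : ∃ v : ℕ → ℝ, v = fun B => (∑ j ∈ Ico ((m * B : ℕ) : ℤ) ((m * B : ℕ) + m), gp (y τ₁) j) / m :=
    ⟨_, rfl⟩
  have hv0 : ∀ B, 0 ≤ v B := fun B => by
    rw [hv]
    exact div_nonneg (sum_nonneg fun k _ => (gp_pos hy1 k).le) hm0.le
  have hvm : ∀ B, m * v B = ∑ j ∈ Ico ((m * B : ℕ) : ℤ) ((m * B : ℕ) + m), gp (y τ₁) j := fun B => by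
    rw [hv]; field_simp
  -- sums over blocks
  have hb1 : ∑ B ∈ range q, ∑ k ∈ Ico ((m * B : ℕ) : ℤ) ((m * B : ℕ) + m), |gp (y τ₁) k - v B| ≤ m * A := by
    have h1 : ∀ B ∈ range q, ∑ k ∈ Ico ((m * B : ℕ) : ℤ) ((m * B : ℕ) + m), |gp (y τ₁) k - v B| ≤
        m * ∑ k ∈ Ico ((m * B : ℕ) : ℤ) ((m * B : ℕ) + m), |gp (y τ₁) (k + 1) - gp (y τ₁) k| := by
      intro B _
      have h2 := block_dev (gp (y τ₁)) ((m * B : ℕ) : ℤ) hm
      rw [hv]
      refine h2.trans ?_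
      apply mul_le_mul_of_nonneg_left _ hm0.le
      apply sum_le_sum_of_subset_of_nonneg
      · intro k hk
        rw [mem_Ico] at hk ⊢
        omega
      · intro k _ _
        exact abs_nonneg _
    refine (sum_le_sum h1).trans ?_
    rw [← mul_sum, ← sum_blocks (fun k => |gp (y τ₁) (k + 1) - gp (y τ₁) k|) m q, ← hN]
    exact mul_le_mul_of_nonneg_left hA hm0.le
  have hvs : ∑ B ∈ range q, v B ≤ 2 * q := by
    have e1 : m * ∑ B ∈ range q, v B = y τ₁ N - y τ₁ 0 := by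
      rw [mul_sum, sum_congr rfl (fun B _ => hvm B), ← sum_blocks (gp (y τ₁)) m q, ← hN,
        sum_gp _ (by omega)]
    have h1 := (abs_le.1 hm1).2
    have h2 : η * N ≤ 1 * N := mul_le_mul_of_nonneg_right hη (Nat.cast_nonneg _)
    have h3 : m * ∑ B ∈ range q, v B ≤ m * (2 * q) := by
      rw [e1]
      have : (m : ℝ) * (2 * q) = 2 * N := by rw [hNq]; ring
      rw [this]
      linarith
    exact le_of_mul_le_mul_left h3 hm0
  have hb2 : ∑ B ∈ range q, ∑ k ∈ Ico ((m * B : ℕ) : ℤ) ((m * B : ℕ) + m), max (gp (y τ₂) k - v B) 0 ≤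
      m * A + s0 * N + 32 / s0 * Θ * Real.sqrt (m / s0) * (3 + Real.sqrt (8 * Θ)) * q := by
    have h1 : ∀ B ∈ range q, ∑ k ∈ Ico ((m * B : ℕ) : ℤ) ((m * B : ℕ) + m), max (gp (y τ₂) k - v B) 0 ≤
        ∑ k ∈ Ico ((m * B : ℕ) : ℤ) ((m * B : ℕ) + m), |gp (y τ₁) k - v B| + m * s0 +
        32 / s0 * Θ * Real.sqrt (m / s0) * (1 + v B + Real.sqrt (8 * Θ)) := by
      intro B _
      apply block_prop hF h0 h12 hR _ hm (hv0 B) hs0 hΘ
      rw [hvm, sum_gp _ (by omega)]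
    refine (sum_le_sum h1).trans ?_
    rw [sum_add_distrib, sum_add_distrib, sum_const, card_range, ← mul_sum, nsmul_eq_mul]
    have e1 : (q : ℝ) * (m * s0) = s0 * N := by rw [hNq]; ring
    rw [e1]
    have h2 : ∑ B ∈ range q, (1 + v B + Real.sqrt (8 * Θ)) ≤ (3 + Real.sqrt (8 * Θ)) * q := by
      rw [sum_add_distrib, sum_add_distrib, sum_const, sum_const, card_range, nsmul_eq_mul, nsmul_eq_mul]
      linarith
    have h3 := mul_le_mul_of_nonneg_left h2 (show 0 ≤ 32 / s0 * Θ * Real.sqrt (m / s0) by positivity)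
    linarith
  have hb3 : ∑ B ∈ range q, ∑ k ∈ Ico ((m * B : ℕ) : ℤ) ((m * B : ℕ) + m), (gp (y τ₂) k - v B) =
      (y τ₂ N - y τ₂ 0) - (y τ₁ N - y τ₁ 0) := by
    have h1 : ∀ B ∈ range q, ∑ k ∈ Ico ((m * B : ℕ) : ℤ) ((m * B : ℕ) + m), (gp (y τ₂) k - v B) =
        ∑ k ∈ Ico ((m * B : ℕ) : ℤ) ((m * B : ℕ) + m), gp (y τ₂) k -
        ∑ k ∈ Ico ((m * B : ℕ) : ℤ) ((m * B : ℕ) + m), gp (y τ₁) k := by
      intro B _
      rw [sum_sub_distrib, sum_const, Int.card_Ico, nsmul_eq_mul, ← hvm]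
      congr 2
      simp
    rw [sum_congr rfl h1, sum_sub_distrib, ← sum_blocks (gp (y τ₂)) m q, ← sum_blocks (gp (y τ₁)) m q, ← hN,
      sum_gp _ (by omega), sum_gp _ (by omega)]
  have hb4 : ∑ B ∈ range q, ∑ k ∈ Ico ((m * B : ℕ) : ℤ) ((m * B : ℕ) + m), |gp (y τ₂) k - v B| ≤
      2 * (m * A + s0 * N + 32 / s0 * Θ * Real.sqrt (m / s0) * (3 + Real.sqrt (8 * Θ)) * q) + 2 * (η * N) := by
    have e1 : ∑ B ∈ range q, ∑ k ∈ Ico ((m * B : ℕ) : ℤ) ((m * B : ℕ) + m), |gp (y τ₂) k - v B| =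
        2 * ∑ B ∈ range q, ∑ k ∈ Ico ((m * B : ℕ) : ℤ) ((m * B : ℕ) + m), max (gp (y τ₂) k - v B) 0 -
        ∑ B ∈ range q, ∑ k ∈ Ico ((m * B : ℕ) : ℤ) ((m * B : ℕ) + m), (gp (y τ₂) k - v B) := by
      rw [mul_sum, ← sum_sub_distrib]
      apply sum_congr rfl
      intro B _
      rw [mul_sum, ← sum_sub_distrib]
      apply sum_congr rfl
      intro k _
      exact pos_part _
    rw [e1, hb3]
    have h1 := (abs_le.1 hm1).2
    have h2 := (abs_le.1 hm2).1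
    linarith
  rw [hN, sum_blocks (fun k => |gp (y τ₁) k - gp (y τ₂) k|) m q]
  have h5 : ∀ B ∈ range q, ∑ k ∈ Ico ((m * B : ℕ) : ℤ) ((m * B : ℕ) + m), |gp (y τ₁) k - gp (y τ₂) k| ≤
      ∑ k ∈ Ico ((m * B : ℕ) : ℤ) ((m * B : ℕ) + m), |gp (y τ₁) k - v B| +
      ∑ k ∈ Ico ((m * B : ℕ) : ℤ) ((m * B : ℕ) + m), |gp (y τ₂) k - v B| := by
    intro B _
    rw [← sum_add_distrib]
    refine sum_le_sum fun k _ => ?_
    have e : gp (y τ₁) k - gp (y τ₂) k = (gp (y τ₁) k - v B) - (gp (y τ₂) k - v B) := by ring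
    rw [e]
    exact abs_sub _ _
  refine (sum_le_sum h5).trans ?_
  rw [sum_add_distrib, ← hN]
  have e9 : 64 / s0 * Θ * Real.sqrt (m / s0) * (3 + Real.sqrt (8 * Θ)) * q =
      2 * (32 / s0 * Θ * Real.sqrt (m / s0) * (3 + Real.sqrt (8 * Θ)) * q) := by ring
  rw [e9]
  linarith

end Pool.Agent.P8H8.HF
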