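import Pool.Agent.P8H8.HF.HeatC
import Pool.Agent.H24R2.JP.Had

set_option autoImplicit false

/-!
# The Hadamard product at positive times
-/

namespace Pool.Agent.P8H8.HF

open Complex Filter Topology MeasureTheory Set Metric
open Pool.Agent.H986R2.DBN (XT ker FT b1A)
open Pool.Agent.H24R2.JP (had_base had_lim)
open Pool.Agent.Helper242.KK (Ph Ph_upper continuous_Ph lnz_split)

lemma young_aux {r u : ℝ} (hr : 0 ≤ r) (hu : 0 ≤ u) : r * u ≤ r ^ (3 / 2 : ℝ) + u ^ 3 := by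
  have h0 : 0 ≤ r ^ (3 / 2 : ℝ) := Real.rpow_nonneg hr _
  rcases le_total (u ^ 2) r with h | h
  · have h1 : u ≤ Real.sqrt r := Real.le_sqrt_of_sq_le h
    have e : r ^ (3 / 2 : ℝ) = r * Real.sqrt r := by
      rw [Real.sqrt_eq_rpow, show (3 / 2 : ℝ) = 1 + 1 / 2 by norm_num, Real.rpow_one_add' hr (by norm_num)]
    have h2 := mul_le_mul_of_nonneg_left h1 hr
    have h3 : 0 ≤ u ^ 3 := by positivity
    rw [e]
    linarith
  · have h2 : r * u ≤ u ^ 2 * u := mul_le_mul_of_nonneg_right h hu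
    have h3 : u ^ 2 * u = u ^ 3 := by ring
    linarith

/-- growth of the heat flow -/
theorem XT_growth {τ : ℝ} (h0 : 0 ≤ τ) : ∃ C : ℝ, 0 < C ∧ ∀ z : ℂ, ‖XT τ z‖ ≤ C * Real.exp (‖z‖ ^ (3 / 2 : ℝ)) := by
  obtain ⟨A, hA, hb⟩ := Ph_upper
  obtain ⟨C1, hC1⟩ : ∃ C1, C1 = A * Real.exp (25 / 4 + (τ + 2) ^ 2 / 4) := ⟨_, rfl⟩
  have hC10 : 0 < C1 := by rw [hC1]; positivity
  have hint : Integrable (fun u : ℝ => C1 * Real.exp (-1 * u ^ 2)) :=
    (integrable_exp_neg_mul_sq one_pos).const_mul C1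
  have hIpos : 0 < ∫ u : ℝ, C1 * Real.exp (-1 * u ^ 2) := by
    rw [integral_const_mul]
    have := integral_gaussian 1
    rw [this]
    positivity
  refine ⟨8 * ∫ u : ℝ, C1 * Real.exp (-1 * u ^ 2), by positivity, fun z => ?_⟩
  unfold XT
  rw [norm_mul, mul_assoc]
  have h8 : ‖(8 : ℂ)‖ = 8 := by norm_num
  rw [h8]
  apply mul_le_mul_of_nonneg_left _ (by norm_num)
  rw [← integral_mul_const]
  refine norm_integral_le_of_norm_le (hint.mul_const _) (Eventually.of_forall fun u => ?_)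
  rw [norm_mul, Complex.norm_real, Real.norm_eq_abs, Complex.norm_exp, abs_mul, abs_of_pos (Real.exp_pos _)]
  have h1 := hb u
  obtain ⟨y, hy⟩ : ∃ y, y = |u| := ⟨_, rfl⟩
  have hy0 : 0 ≤ y := by rw [hy]; exact abs_nonneg u
  have huy : u ^ 2 = y ^ 2 := by rw [hy, sq_abs]
  rw [← hy] at h1
  have h2 : (z * u).re ≤ ‖z‖ ^ (3 / 2 : ℝ) + y ^ 3 := by
    refine (Complex.re_le_norm _).trans ?_
    rw [norm_mul, Complex.norm_real, Real.norm_eq_abs, ← hy]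
    exact young_aux (norm_nonneg z) hy0
  have h3 : y ^ 4 + y ^ 3 ≤ Real.pi * Real.exp (2 * y) := by
    have g1 := Real.pow_div_factorial_le_exp (2 * y) (by positivity) 4
    have g2 := Real.pow_div_factorial_le_exp (2 * y) (by positivity) 3
    have e1 : (2 * y) ^ 4 / (Nat.factorial 4 : ℝ) = 2 / 3 * y ^ 4 := by
      have : (Nat.factorial 4 : ℝ) = 24 := by norm_num [Nat.factorial]
      rw [this]; ring
    have e2 : (2 * y) ^ 3 / (Nat.factorial 3 : ℝ) = 4 / 3 * y ^ 3 := by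
      have : (Nat.factorial 3 : ℝ) = 6 := by norm_num [Nat.factorial]
      rw [this]; ring
    rw [e1] at g1
    rw [e2] at g2
    have h5 : 3 * Real.exp (2 * y) ≤ Real.pi * Real.exp (2 * y) :=
      mul_le_mul_of_nonneg_right Real.pi_gt_three.le (Real.exp_pos _).le
    have h6 : 0 ≤ y ^ 4 := by positivity
    have h7 : 0 ≤ y ^ 3 := by positivity
    linarith
  have h4 : 5 * y - Real.pi * Real.exp (2 * y) + τ * y ^ 2 + (‖z‖ ^ (3 / 2 : ℝ) + y ^ 3) ≤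
      (25 / 4 + (τ + 2) ^ 2 / 4) + -1 * y ^ 2 + ‖z‖ ^ (3 / 2 : ℝ) := by
    nlinarith [sq_nonneg (y ^ 2 - (τ + 2) / 2), sq_nonneg (y - 5 / 2)]
  calc |Ph u| * Real.exp (τ * u ^ 2) * Real.exp ((z * u).re)
      ≤ A * Real.exp (5 * y - Real.pi * Real.exp (2 * y)) * Real.exp (τ * u ^ 2) *
        Real.exp (‖z‖ ^ (3 / 2 : ℝ) + y ^ 3) := by gcongr
    _ = A * Real.exp (5 * y - Real.pi * Real.exp (2 * y) + τ * y ^ 2 + (‖z‖ ^ (3 / 2 : ℝ) + y ^ 3)) := by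
        rw [huy, mul_assoc A, mul_assoc A, ← Real.exp_add, ← Real.exp_add]
    _ ≤ A * Real.exp ((25 / 4 + (τ + 2) ^ 2 / 4) + -1 * y ^ 2 + ‖z‖ ^ (3 / 2 : ℝ)) :=
        mul_le_mul_of_nonneg_left (Real.exp_le_exp.2 h4) hA.le
    _ = C1 * Real.exp (-1 * u ^ 2) * Real.exp (‖z‖ ^ (3 / 2 : ℝ)) := by
        rw [hC1, huy, Real.exp_add, Real.exp_add]
        ring

/-- growth in the variable `w = z ^ 2` -/
theorem FT_growth {τ : ℝ} (h0 : 0 ≤ τ) : ∃ K : ℝ, 0 ≤ K ∧ ∀ w : ℂ, ‖FT τ w‖ ≤ Real.exp (K * (1 + ‖w‖) ^ (3 / 4 : ℝ)) := by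
  obtain ⟨C, hC, h⟩ := XT_growth h0
  refine ⟨1 + |Real.log C|, by positivity, fun w => ?_⟩
  obtain ⟨z, hz⟩ : ∃ z : ℂ, z ^ 2 = w := ⟨w ^ (1 / 2 : ℂ), by
    rw [← Complex.cpow_nat_mul]
    norm_num⟩
  have h1 := (b1A τ h0).2.1 z
  rw [hz] at h1
  rw [h1]
  refine (h z).trans ?_
  have h2 : ‖z‖ ^ (3 / 2 : ℝ) ≤ (1 + ‖w‖) ^ (3 / 4 : ℝ) := by
    have e : ‖z‖ ^ (3 / 2 : ℝ) = ‖w‖ ^ (3 / 4 : ℝ) := by
      rw [← hz, norm_pow, ← Real.rpow_natCast, ← Real.rpow_mul (norm_nonneg z)]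
      norm_num
    rw [e]
    exact Real.rpow_le_rpow (norm_nonneg w) (by linarith) (by norm_num)
  have h3 : 1 ≤ (1 + ‖w‖) ^ (3 / 4 : ℝ) := Real.one_le_rpow (by linarith [norm_nonneg w]) (by norm_num)
  have h4 : C = Real.exp (Real.log C) := (Real.exp_log hC).symm
  rw [h4, ← Real.exp_add, Real.log_exp]
  apply Real.exp_le_exp.2
  have h5 := le_abs_self (Real.log C)
  have h6 : |Real.log C| * 1 ≤ |Real.log C| * (1 + ‖w‖) ^ (3 / 4 : ℝ) :=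
    mul_le_mul_of_nonneg_left h3 (abs_nonneg _)
  linarith

/-- division by finitely many zeros -/
theorem fac {F : ℂ → ℂ} (hF : Differentiable ℂ F) {ρ M : ℝ} (hρ : 0 < ρ) (h0 : F 0 ≠ 0)
    (hb : ∀ w ∈ closedBall (0 : ℂ) (2 * ρ), ‖F w‖ ≤ Real.exp M) (J : Finset ℝ) :
    (∀ r ∈ J, 0 < r ∧ r ≤ ρ ∧ F (-(r : ℂ)) = 0) → ∃ G : ℂ → ℂ, Differentiable ℂ G ∧ G 0 = F 0 ∧
      (∀ w ∈ closedBall (0 : ℂ) (2 * ρ), ‖G w‖ ≤ Real.exp M) ∧
      ∀ w, F w = (∏ r ∈ J, (1 + w / (r : ℂ))) * G w := by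
  classical
  induction J using Finset.induction_on with
  | empty =>
    intro _
    exact ⟨F, hF, rfl, hb, fun w => by simp⟩
  | insert r J hr ih =>
    intro hJ
    obtain ⟨G, hG, hG0, hGb, hFG⟩ := ih (fun s hs => hJ s (Finset.mem_insert_of_mem hs))
    obtain ⟨hr0, hrρ, hrz⟩ := hJ r (Finset.mem_insert_self _ _)
    have hrc : (r : ℂ) ≠ 0 := by exact_mod_cast hr0.ne'
    have hGr : G (-(r : ℂ)) = 0 := by
      have h1 := hFG (-(r : ℂ))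
      rw [hrz] at h1
      rcases mul_eq_zero.1 h1.symm with h2 | h2
      · exfalso
        rw [Finset.prod_eq_zero_iff] at h2
        obtain ⟨s, hs, h3⟩ := h2
        have hs0 := (hJ s (Finset.mem_insert_of_mem hs)).1
        have hsc : (s : ℂ) ≠ 0 := by exact_mod_cast hs0.ne'
        have h4 : (s : ℂ) = r := by
          field_simp at h3
          linear_combination h3
        have h5 : s = r := by exact_mod_cast h4
        rw [h5] at hs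
        exact hr hs
      · exact h2
    obtain ⟨G2, hG2, hG20, hG2b, hGG2, -⟩ := lnz_split hG hρ (by rw [hG0]; exact h0) hGb
      (u := -(r : ℂ)) (by simpa [abs_of_pos hr0] using hrρ) hGr
    refine ⟨G2, hG2, by rw [hG20, hG0], hG2b, fun w => ?_⟩
    rw [hFG w, hGG2 w, Finset.prod_insert hr]
    have : w / -(r : ℂ) = -(w / r) := by rw [div_neg]
    rw [this]
    ring

lemma FT_axis {τ : ℝ} (h0 : 0 ≤ τ) (y : ℝ) : FT τ (-((y ^ 2 : ℝ) : ℂ)) = DD 0 τ (I * y) := by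
  rw [DD_zero, ← (b1A τ h0).2.1]
  congr 1
  push_cast
  rw [mul_pow, I_sq]
  ring

lemma FT_zero_ne {τ : ℝ} (h0 : 0 ≤ τ) : FT τ 0 ≠ 0 := by
  have h := FT_axis h0 0
  have e : -(((0 : ℝ) ^ 2 : ℝ) : ℂ) = 0 := by push_cast; ring
  rw [e] at h
  rw [h]
  intro h2
  exact rn_zero_ne h0 ((rn_zero_iff 0 h0 0).2 h2)

lemma FT_zeros (RH : RiemannHypothesis) {τ : ℝ} (h0 : 0 ≤ τ) {w : ℂ} (hw : FT τ w = 0) :
    ∃ y ∈ ZZ τ, w = -((y ^ 2 : ℝ) : ℂ) := by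
  obtain ⟨z, hz⟩ : ∃ z : ℂ, z ^ 2 = w := ⟨w ^ (1 / 2 : ℂ), by
    rw [← Complex.cpow_nat_mul]
    norm_num⟩
  have h1 := (b1A τ h0).2.1 z
  rw [hz, hw, ← DD_zero] at h1
  have hre := DD_re RH 0 h0 h1.symm
  have hz' := axis hre
  have hr : rn 0 τ z.im = 0 := by
    rw [rn_zero_iff 0 h0, ← hz']
    exact h1.symm
  have hw' : w = -((z.im ^ 2 : ℝ) : ℂ) := by
    rw [← hz, hz']
    simp only [Complex.mul_im, Complex.I_re, Complex.I_im, Complex.ofReal_re, Complex.ofReal_im]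
    push_cast
    rw [mul_pow, I_sq]
    ring
  have hne : z.im ≠ 0 := by
    intro h
    rw [h] at hr
    exact rn_zero_ne h0 hr
  rcases lt_or_gt_of_ne hne with h | h
  · refine ⟨-z.im, ⟨by linarith, ?_⟩, by rw [hw']; congr 2; ring⟩
    rw [rn_zero_iff 0 h0, DD_zero]
    have h2 := (ker.2 τ h0).2.1 (I * (z.im : ℂ))
    have e : I * ((-z.im : ℝ) : ℂ) = -(I * (z.im : ℂ)) := by push_cast; ring
    rw [e, h2, ← DD_zero, ← rn_zero_iff 0 h0]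
    exact hr
  · exact ⟨z.im, ⟨h, hr⟩, hw'⟩

/-- derivatives in the two variables -/
lemma FT_der1 {τ : ℝ} (h0 : 0 ≤ τ) (z : ℂ) : DD 1 τ z = 2 * z * deriv (FT τ) (z ^ 2) := by
  have hd := (b1A τ h0).1
  have h1 : HasDerivAt (fun z => FT τ (z ^ 2)) (deriv (FT τ) (z ^ 2) * (2 * z)) z := by
    have h2 : HasDerivAt (fun z : ℂ => z ^ 2) (2 * z) z := by simpa using hasDerivAt_pow 2 z
    exact (hd (z ^ 2)).hasDerivAt.comp z h2
  have h3 : (fun z => FT τ (z ^ 2)) = DD 0 τ := by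
    rw [DD_zero]
    funext z
    exact (b1A τ h0).2.1 z
  rw [h3] at h1
  rw [(DD_var 0 h0 z).unique h1]
  ring

lemma FT_der2 {τ : ℝ} (h0 : 0 ≤ τ) (z : ℂ) :
    DD 2 τ z = 2 * deriv (FT τ) (z ^ 2) + 4 * z ^ 2 * deriv (deriv (FT τ)) (z ^ 2) := by
  have hd := (b1A τ h0).1
  have hd1 : Differentiable ℂ (deriv (FT τ)) := fun w => ((hd.analyticAt w).deriv).differentiableAt
  have h2 : HasDerivAt (fun z : ℂ => z ^ 2) (2 * z) z := by simpa using hasDerivAt_pow 2 z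
  have h1 : HasDerivAt (fun z => 2 * z * deriv (FT τ) (z ^ 2))
      (2 * 1 * deriv (FT τ) (z ^ 2) + 2 * z * (deriv (deriv (FT τ)) (z ^ 2) * (2 * z))) z := by
    have h4 := (hd1 (z ^ 2)).hasDerivAt.comp z h2
    exact ((hasDerivAt_id z).const_mul 2).mul h4
  have h3 : (fun z => 2 * z * deriv (FT τ) (z ^ 2)) = DD 1 τ := by
    funext z
    rw [FT_der1 h0]
  rw [h3] at h1
  rw [(DD_var 1 h0 z).unique h1]
  ring

/-- the zeros of `FT τ` are simple -/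
lemma FT_simple (RH : RiemannHypothesis) {τ : ℝ} (h0 : 0 < τ) (h1 : τ < 1) {y : ℝ} (hy : y ∈ ZZ τ) :
    deriv (FT τ) (-((y ^ 2 : ℝ) : ℂ)) ≠ 0 := by
  intro h
  have h2 := simple RH h0 h1 hy.2
  apply h2
  rw [rn_zero_iff 1 h0.le, FT_der1 h0.le]
  have e : (I * (y : ℂ)) ^ 2 = -((y ^ 2 : ℝ) : ℂ) := by
    push_cast
    rw [mul_pow, I_sq]
    ring
  rw [e, h, mul_zero]

/-- the points of a locally finite set up to a bound -/
lemma LF_image {A : Set ℝ} (h : LF A) (x : ℝ) :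
    (h.fin x).toFinset = (Finset.range (cn A x)).image (en A) := by
  ext y
  rw [Set.Finite.mem_toFinset, Finset.mem_image]
  constructor
  · rintro ⟨hy, hyx⟩
    obtain ⟨n, rfl⟩ := en_surj h hy
    exact ⟨n, Finset.mem_range.2 ((en_le_iff h n x).1 hyx), rfl⟩
  · rintro ⟨n, hn, rfl⟩
    exact ⟨(en_spec h n).1, (en_le_iff h n x).2 (Finset.mem_range.1 hn)⟩

/-- the factorisation in a disc -/
theorem fac_disc (RH : RiemannHypothesis) {τ : ℝ} (h0 : 0 < τ) (h1 : τ ≤ 1 / 8) {K : ℝ}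
    (hK : ∀ w : ℂ, ‖FT τ w‖ ≤ Real.exp (K * (1 + ‖w‖) ^ (3 / 4 : ℝ))) (hK0 : 0 ≤ K) {ρ : ℝ} (hρ : 0 < ρ) :
    ∃ G : ℂ → ℂ, Differentiable ℂ G ∧
      (∀ w, FT τ w = (∏ j ∈ Finset.range (cn (ZZ τ) (Real.sqrt ρ)), (1 + w / ((en (ZZ τ) j ^ 2 : ℝ) : ℂ))) * G w) ∧
      ∀ w : ℂ, ‖w‖ < ρ → ∃ l : ℂ, G w = FT τ 0 * cexp l ∧
        ‖l‖ ≤ 2 * (K * (1 + 2 * ρ) ^ (3 / 4 : ℝ) + |Real.log ‖FT τ 0‖|) * (‖w‖ / (ρ - ‖w‖)) := by
  classical
  have hLF := ZZ_LF RH h0.le h1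
  have hd := (b1A τ h0.le).1
  obtain ⟨J, hJ⟩ : ∃ J : Finset ℝ, J = ((Finset.range (cn (ZZ τ) (Real.sqrt ρ))).image (en (ZZ τ))).image
    (fun y => y ^ 2) := ⟨_, rfl⟩
  have hb : ∀ w ∈ closedBall (0 : ℂ) (2 * ρ), ‖FT τ w‖ ≤ Real.exp (K * (1 + 2 * ρ) ^ (3 / 4 : ℝ)) := by
    intro w hw
    rw [mem_closedBall, dist_zero_right] at hw
    refine (hK w).trans (Real.exp_le_exp.2 ?_)
    apply mul_le_mul_of_nonneg_left _ hK0
    exact Real.rpow_le_rpow (by positivity) (by linarith) (by norm_num)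
  have hmem : ∀ r, r ∈ J ↔ ∃ y ∈ ZZ τ, y ≤ Real.sqrt ρ ∧ y ^ 2 = r := by
    intro r
    rw [hJ, ← LF_image hLF, Finset.mem_image]
    constructor
    · rintro ⟨y, hy, rfl⟩
      rw [Set.Finite.mem_toFinset] at hy
      exact ⟨y, hy.1, hy.2, rfl⟩
    · rintro ⟨y, hy, hy2, rfl⟩
      exact ⟨y, by rw [Set.Finite.mem_toFinset]; exact ⟨hy, hy2⟩, rfl⟩
  obtain ⟨G, hG, hG0, hGb, hFG⟩ := fac hd hρ (FT_zero_ne h0.le) hb J (by
    intro r hr
    obtain ⟨y, hy, hy2, rfl⟩ := (hmem r).1 hr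
    have hy0 := hy.1
    refine ⟨by positivity, ?_, ?_⟩
    · have := pow_le_pow_left₀ hy0.le hy2 2
      rwa [Real.sq_sqrt hρ.le] at this
    · rw [FT_axis h0.le, ← rn_zero_iff 0 h0.le]
      exact hy.2)
  have hGnz : ∀ u ∈ ball (0 : ℂ) ρ, G u ≠ 0 := by
    intro u hu hGu
    have hFu : FT τ u = 0 := by rw [hFG, hGu, mul_zero]
    obtain ⟨y, hy, rfl⟩ := FT_zeros RH h0.le hFu
    have hy0 := hy.1
    rw [mem_ball, dist_zero_right, norm_neg, Complex.norm_real, Real.norm_eq_abs, abs_of_pos (by positivity)] at hu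
    have hyJ : y ^ 2 ∈ J := (hmem _).2 ⟨y, hy, Real.le_sqrt_of_sq_le hu.le, rfl⟩
    apply FT_simple RH h0 (by linarith) hy
    have hP : DifferentiableAt ℂ (fun w : ℂ => ∏ r ∈ J, (1 + w / (r : ℂ))) (-((y ^ 2 : ℝ) : ℂ)) := by fun_prop
    have e : FT τ = fun w => (∏ r ∈ J, (1 + w / (r : ℂ))) * G w := funext hFG
    rw [e]
    have h2 := hP.hasDerivAt.mul (hG (-((y ^ 2 : ℝ) : ℂ))).hasDerivAt
    have h3 := h2.deriv
    have h4 : (∏ r ∈ J, (1 + (-((y ^ 2 : ℝ) : ℂ)) / (r : ℂ))) = 0 := by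
      apply Finset.prod_eq_zero hyJ
      have hyc : ((y ^ 2 : ℝ) : ℂ) ≠ 0 := by exact_mod_cast (by positivity : y ^ 2 ≠ 0)
      field_simp
      ring
    rw [hGu, h4, mul_zero, zero_mul, add_zero] at h3
    exact h3
  obtain ⟨L, hL0, hL⟩ := had_base hG hρ hGnz (fun w hw => hGb w (ball_subset_closedBall (ball_subset_ball (by linarith) hw)))
  refine ⟨G, hG, fun w => ?_, fun w hw => ?_⟩
  · rw [hFG w, hJ, Finset.prod_image, Finset.prod_image]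
    · intro a _ b _ hab
      exact (en_strictMono hLF).injective hab
    · intro a ha b hb hab
      rw [Finset.mem_coe, ← LF_image hLF, Set.Finite.mem_toFinset] at ha hb
      exact (pow_left_inj₀ ha.1.1.le hb.1.1.le (by norm_num)).1 hab
  · obtain ⟨h2, h3⟩ := hL w hw
    refine ⟨L w, by rw [h2, hG0], h3.trans ?_⟩
    apply mul_le_mul_of_nonneg_right _ (div_nonneg (norm_nonneg _) (by linarith))
    rw [hG0]
    have := neg_abs_le (Real.log ‖FT τ 0‖)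
    linarith

end Pool.Agent.P8H8.HF
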