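import Pool.Agent.H986R2.DBN.All

set_option autoImplicit false

/-!
# The heat flow of the Riemann Xi function: joint regularity
-/

namespace Pool.Agent.P8H8.HF

open Complex Filter Topology MeasureTheory Set
open Pool.Agent.H24R2.JP (XX)
open Pool.Agent.H24R2.JP.MomAux (Cl L L_hasDerivAt L_integrable)
open Pool.Agent.H986R2.DBN (XT ker rhRealA toZA)
open Pool.Agent.H986R2.DBN.AppTAux (Cl_heat Cl_absexp)
open Pool.Agent.Helper242.KK (Ph Ph_even Ph_pos Ph_upper continuous_Ph)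

/-- the integrand of the `n`-th derivative -/
noncomputable def kr (n : ℕ) (τ u : ℝ) : ℝ := u ^ n * (Ph u * Real.exp (τ * u ^ 2))

/-- the `n`-th derivative of the heat flow -/
noncomputable def DD (n : ℕ) (τ : ℝ) (z : ℂ) : ℂ := 8 * ∫ u : ℝ, ((kr n τ u : ℝ) : ℂ) * cexp (z * u)

theorem DD_eq {τ : ℝ} (hτ : 0 ≤ τ) (n : ℕ) : iteratedDeriv n (XT τ) = DD n τ := by
  funext z
  exact (ker.2 τ hτ).2.2.2.1 n z

theorem DD_zero (τ : ℝ) : DD 0 τ = XT τ := by
  funext z
  unfold DD XT kr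
  congr 1
  apply integral_congr_ae
  refine Eventually.of_forall fun u => ?_
  simp only [pow_zero, one_mul]

lemma kr_cont (n : ℕ) (τ : ℝ) : Continuous (kr n τ) := by
  unfold kr
  exact (continuous_pow n).mul (continuous_Ph.mul (by fun_prop))

lemma kr_bound (n : ℕ) {B : ℝ} {τ : ℝ} (hτ : τ ≤ 1) {z : ℂ} (hz : ‖z‖ ≤ B) (u : ℝ) :
    ‖((kr n τ u : ℝ) : ℂ) * cexp (z * u)‖ ≤ |u ^ n * (Ph u * Real.exp (1 * u ^ 2))| * Real.exp (B * |u|) := by
  rw [norm_mul, Complex.norm_real, Real.norm_eq_abs, Complex.norm_exp]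
  unfold kr
  rw [abs_mul, abs_mul, abs_mul, abs_mul, abs_of_pos (Real.exp_pos _), abs_of_pos (Real.exp_pos _)]
  have h1 : Real.exp (τ * u ^ 2) ≤ Real.exp (1 * u ^ 2) :=
    Real.exp_le_exp.2 (mul_le_mul_of_nonneg_right hτ (sq_nonneg u))
  have h2 : Real.exp ((z * u).re) ≤ Real.exp (B * |u|) := by
    apply Real.exp_le_exp.2
    refine (Complex.re_le_norm _).trans ?_
    rw [norm_mul, Complex.norm_real, Real.norm_eq_abs]
    exact mul_le_mul_of_nonneg_right hz (abs_nonneg _)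
  gcongr

lemma bd_int (n : ℕ) (B : ℝ) :
    Integrable (fun u : ℝ => |u ^ n * (Ph u * Real.exp (1 * u ^ 2))| * Real.exp (B * |u|)) :=
  Cl_absexp ((Cl_heat (zero_le_one)).pow n) B

/-- joint continuity -/
theorem DD_cont (n : ℕ) {τ : ℝ} (hτ : τ < 1) (z : ℂ) :
    ContinuousAt (fun p : ℝ × ℂ => DD n p.1 p.2) (τ, z) := by
  unfold DD
  apply ContinuousAt.mul continuousAt_const
  apply continuousAt_of_dominated (bound := fun u : ℝ => |u ^ n * (Ph u * Real.exp (1 * u ^ 2))| *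
    Real.exp ((‖z‖ + 1) * |u|))
  · refine Eventually.of_forall fun p => Continuous.aestronglyMeasurable ?_
    have := kr_cont n p.1
    fun_prop
  · have h1 : ∀ᶠ p : ℝ × ℂ in 𝓝 (τ, z), p.1 < 1 ∧ ‖p.2‖ < ‖z‖ + 1 := by
      apply Filter.Eventually.and
      · exact (continuous_fst.tendsto (τ, z)).eventually (gt_mem_nhds hτ)
      · exact ((continuous_norm.comp continuous_snd).tendsto (τ, z)).eventually (gt_mem_nhds (by simp))
    filter_upwards [h1] with p hp
    exact Eventually.of_forall fun u => kr_bound n hp.1.le hp.2.le u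
  · exact bd_int n _
  · refine Eventually.of_forall fun u => ?_
    apply Continuous.continuousAt
    unfold kr
    fun_prop

/-- the derivative in the time -/
theorem DD_time (n : ℕ) {τ : ℝ} (hτ : τ < 1) (z : ℂ) :
    HasDerivAt (fun t : ℝ => DD n t z) (DD (n + 2) τ z) τ := by
  unfold DD
  apply HasDerivAt.const_mul
  have h := hasDerivAt_integral_of_dominated_loc_of_deriv_le (μ := volume) (𝕜 := ℝ)
    (F := fun (t : ℝ) (u : ℝ) => ((kr n t u : ℝ) : ℂ) * cexp (z * u))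
    (F' := fun (t : ℝ) (u : ℝ) => ((kr (n + 2) t u : ℝ) : ℂ) * cexp (z * u)) (x₀ := τ)
    (s := Iio 1)
    (bound := fun u : ℝ => |u ^ (n + 2) * (Ph u * Real.exp (1 * u ^ 2))| * Real.exp (‖z‖ * |u|))
    (Iio_mem_nhds hτ) ?_ ?_ ?_ ?_ (bd_int _ _) ?_
  · exact h.2
  · refine Eventually.of_forall fun t => Continuous.aestronglyMeasurable ?_
    have := kr_cont n t
    fun_prop
  · refine (bd_int n ‖z‖).mono' (Continuous.aestronglyMeasurable ?_)
      (Eventually.of_forall fun u => kr_bound n hτ.le le_rfl u)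
    have := kr_cont n τ
    fun_prop
  · apply Continuous.aestronglyMeasurable
    have := kr_cont (n + 2) τ
    fun_prop
  · exact Eventually.of_forall fun u t ht => kr_bound (n + 2) (le_of_lt ht) le_rfl u
  · refine Eventually.of_forall fun u t _ => ?_
    have h1 : HasDerivAt (fun t : ℝ => kr n t u) (kr (n + 2) t u) t := by
      unfold kr
      have h2 : HasDerivAt (fun t : ℝ => Real.exp (t * u ^ 2)) (Real.exp (t * u ^ 2) * (1 * u ^ 2)) t :=
        ((hasDerivAt_id t).mul_const (u ^ 2)).exp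
      refine ((h2.const_mul (Ph u)).const_mul (u ^ n)).congr_deriv ?_
      ring
    exact (h1.ofReal_comp).mul_const _

/-- the derivative in the variable -/
theorem DD_var (n : ℕ) {τ : ℝ} (hτ : 0 ≤ τ) (z : ℂ) : HasDerivAt (DD n τ) (DD (n + 1) τ z) z := by
  have h1 : Differentiable ℂ (XT τ) := (ker.2 τ hτ).1
  rw [← DD_eq hτ, ← DD_eq hτ, iteratedDeriv_succ]
  have h2 : DifferentiableAt ℂ (iteratedDeriv n (XT τ)) z := by
    have h3 : ContDiff ℂ (n + 1) (XT τ) := h1.contDiff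
    exact h3.differentiable_iteratedDeriv n (by exact_mod_cast Nat.lt_succ_self n) z
  exact h2.hasDerivAt

theorem DD_diff (n : ℕ) {τ : ℝ} (hτ : 0 ≤ τ) : Differentiable ℂ (DD n τ) := fun z =>
  (DD_var n hτ z).differentiableAt

/-- under RH all the zeros of the derivatives are on the axis -/
theorem DD_re (RH : RiemannHypothesis) (n : ℕ) {τ : ℝ} (hτ : 0 ≤ τ) {z : ℂ} (h : DD n τ z = 0) : z.re = 0 := by
  rw [← DD_eq hτ] at h
  exact toZA τ n hτ (rhRealA RH τ hτ _) z h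

/-! ## Real functions -/

/-- the `n`-th derivative on the critical line, as a real function -/
noncomputable def rn (n : ℕ) (τ x : ℝ) : ℝ := (I ^ n * DD n τ (I * x)).re

lemma cx_der (n : ℕ) {τ : ℝ} (hτ : 0 ≤ τ) (x : ℝ) :
    HasDerivAt (fun x : ℝ => I ^ n * DD n τ (I * x)) (I ^ (n + 1) * DD (n + 1) τ (I * x)) x := by
  have h1 : HasDerivAt (fun x : ℝ => I * (x : ℂ)) (I * 1) x := (hasDerivAt_id x).ofReal_comp.const_mul I
  have h2 := ((DD_var n hτ (I * x)).comp x h1).const_mul (I ^ n)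
  refine h2.congr_deriv ?_
  ring

lemma rn_der (n : ℕ) {τ : ℝ} (hτ : 0 ≤ τ) (x : ℝ) : HasDerivAt (rn n τ) (rn (n + 1) τ x) x :=
  (Complex.reCLM.hasFDerivAt.comp_hasDerivAt x (cx_der n hτ x))

lemma rn_im (n : ℕ) {τ : ℝ} (hτ : 0 ≤ τ) (x : ℝ) : (I ^ n * DD n τ (I * x)).im = 0 := by
  induction n generalizing x with
  | zero =>
    rw [pow_zero, one_mul, DD_zero]
    obtain ⟨-, h2, h3, -⟩ := ker.2 τ hτ
    apply Complex.conj_eq_iff_im.1
    rw [← h3, map_mul, Complex.conj_I, Complex.conj_ofReal, neg_mul, h2]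
  | succ n ih =>
    have h1 := (Complex.imCLM.hasFDerivAt.comp_hasDerivAt x (cx_der n hτ x))
    have h2 : (fun x : ℝ => Complex.imCLM (I ^ n * DD n τ (I * x))) = fun _ => (0 : ℝ) := by
      funext x
      exact ih x
    have h3 : HasDerivAt (fun x : ℝ => Complex.imCLM (I ^ n * DD n τ (I * x))) 0 x := by
      rw [h2]
      exact hasDerivAt_const x 0
    exact h1.unique h3

lemma rn_eq (n : ℕ) {τ : ℝ} (hτ : 0 ≤ τ) (x : ℝ) : ((rn n τ x : ℝ) : ℂ) = I ^ n * DD n τ (I * x) := by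
  apply Complex.ext
  · simp [rn]
  · rw [rn_im n hτ x]
    simp

lemma rn_zero_iff (n : ℕ) {τ : ℝ} (hτ : 0 ≤ τ) (x : ℝ) : rn n τ x = 0 ↔ DD n τ (I * x) = 0 := by
  have h := rn_eq n hτ x
  constructor
  · intro h1
    rw [h1, Complex.ofReal_zero] at h
    rcases mul_eq_zero.1 h.symm with h2 | h2
    · exact absurd h2 (pow_ne_zero _ I_ne_zero)
    · exact h2
  · intro h1
    rw [h1, mul_zero] at h
    exact_mod_cast h

lemma rn_time (n : ℕ) {τ : ℝ} (hτ : τ < 1) (x : ℝ) :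
    HasDerivAt (fun t : ℝ => rn n t x) (-rn (n + 2) τ x) τ := by
  have h1 := (Complex.reCLM.hasFDerivAt.comp_hasDerivAt τ ((DD_time n hτ (I * x)).const_mul (I ^ n)))
  refine h1.congr_deriv ?_
  unfold rn
  have e : I ^ (n + 2) * DD (n + 2) τ (I * x) = -(I ^ n * DD (n + 2) τ (I * x)) := by
    rw [pow_add, I_sq]
    ring
  rw [e]
  simp

lemma rn_cont (n : ℕ) {τ : ℝ} (hτ : τ < 1) (x : ℝ) : ContinuousAt (fun p : ℝ × ℝ => rn n p.1 p.2) (τ, x) := by
  unfold rn
  have h1 : ContinuousAt (fun p : ℝ × ℝ => ((p.1, I * (p.2 : ℂ)) : ℝ × ℂ)) (τ, x) := by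
    apply Continuous.continuousAt
    fun_prop
  have h2 : ContinuousAt (fun p : ℝ × ℝ => DD n p.1 (I * p.2)) (τ, x) :=
    ContinuousAt.comp (f := fun p : ℝ × ℝ => ((p.1, I * (p.2 : ℂ)) : ℝ × ℂ))
      (g := fun p : ℝ × ℂ => DD n p.1 p.2) (DD_cont n hτ (I * x)) h1
  exact Complex.continuous_re.continuousAt.comp (continuousAt_const.mul h2)

end Pool.Agent.P8H8.HF
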