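import Pool.Agent.P8H8.HF.HeatA
import Pool.Agent.P8H8.HF.Enum
import Pool.Agent.R838.ST.Rou

set_option autoImplicit false

/-!
# The zeros of the heat flow are simple at positive times, under the Riemann hypothesis
-/

namespace Pool.Agent.P8H8.HF

open Complex Filter Topology MeasureTheory Set Metric
open Pool.Agent.H986R2.DBN (XT ker)
open Pool.Agent.R838.ST (nb rouche)

/-- uniform convergence on compact sets -/
lemma DD_unif (n : ℕ) {τ : ℝ} (hτ : τ < 1) {K : Set ℂ} (hK : IsCompact K) {ε : ℝ} (hε : 0 < ε) :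
    ∀ᶠ σ in 𝓝 τ, ∀ z ∈ K, ‖DD n τ z - DD n σ z‖ < ε := by
  apply hK.eventually_forall_of_forall_eventually (P := fun σ z => ‖DD n τ z - DD n σ z‖ < ε)
  intro z hz
  have h1 : ContinuousAt (fun p : ℝ × ℂ => DD n τ p.2 - DD n p.1 p.2) (τ, z) := by
    apply ContinuousAt.sub _ (DD_cont n hτ z)
    exact ContinuousAt.comp (f := fun p : ℝ × ℂ => ((τ, p.2) : ℝ × ℂ)) (g := fun p : ℝ × ℂ => DD n p.1 p.2)
      (DD_cont n hτ z) (by apply Continuous.continuousAt; fun_prop)
  have h2 := h1.norm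
  have h3 : (fun p : ℝ × ℂ => ‖DD n τ p.2 - DD n p.1 p.2‖) (τ, z) < ε := by simpa using hε
  exact h2.eventually (gt_mem_nhds h3)

/-- a positive number of zeros -/
lemma nb_pos {f : ℂ → ℂ} (hf : Differentiable ℂ f) {c : ℂ} {r : ℝ} (hr : 0 < r)
    (hfin : {z | z ∈ ball c r ∧ f z = 0}.Finite) (hc : f c = 0) (w : ℂ) (hw : f w ≠ 0) : 0 < nb f c r := by
  have hord : analyticOrderNatAt f c ≠ 0 := by
    intro h0
    have h1 : analyticOrderAt f c ≠ 0 := (hf.analyticAt c).analyticOrderAt_ne_zero.2 hc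
    have h2 : analyticOrderAt f c ≠ ⊤ := by
      intro h3
      rw [analyticOrderAt_eq_top] at h3
      have hfa : AnalyticOnNhd ℂ f univ := fun z _ => hf.analyticAt z
      have h4 := hfa.eq_of_eventuallyEq (g := fun _ => 0) (fun z _ => analyticAt_const) (z₀ := c) h3
      exact hw (by rw [h4])
    apply h1
    rw [← Nat.cast_analyticOrderNatAt h2, h0]
    rfl
  unfold nb
  have hsup : (ball c r ∩ Function.support fun z => analyticOrderNatAt f z).Finite := by
    refine hfin.subset ?_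
    rintro z ⟨h1, h2⟩
    refine ⟨h1, ?_⟩
    exact apply_eq_zero_of_analyticOrderNatAt_ne_zero h2
  rw [← finsum_mem_inter_support, finsum_mem_eq_finite_toFinset_sum _ hsup]
  have hmem : c ∈ hsup.toFinset := by
    rw [Set.Finite.mem_toFinset]
    exact ⟨mem_ball_self hr, hord⟩
  exact lt_of_lt_of_le (Nat.pos_of_ne_zero hord)
    (Finset.single_le_sum (f := fun z => analyticOrderNatAt f z) (fun _ _ => Nat.zero_le _) hmem)

lemma exists_of_nb {f : ℂ → ℂ} {c : ℂ} {r : ℝ} (h : 0 < nb f c r) : ∃ z ∈ ball c r, f z = 0 := by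
  by_contra hcon
  push Not at hcon
  have : nb f c r = 0 := by
    unfold nb
    apply finsum_mem_eq_zero_of_forall_eq_zero
    intro z hz
    by_contra h2
    exact hcon z hz (apply_eq_zero_of_analyticOrderNatAt_ne_zero h2)
  omega

/-- If the zeros of `DD n` are on the axis at the times before `τ`, there is no exact double zero. -/
theorem no_double (RH : RiemannHypothesis) (n : ℕ) {τ : ℝ} (h0 : 0 < τ) (h1 : τ < 1) {x : ℝ}
    (hz0 : rn n τ x = 0) (hz1 : rn (n + 1) τ x = 0) (hz2 : rn (n + 2) τ x ≠ 0) : False := by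
  obtain ⟨c, hc⟩ : ∃ c, c = rn (n + 2) τ x := ⟨_, rfl⟩
  have hc0 : c ≠ 0 := by rw [hc]; exact hz2
  have hpos : 0 < c * rn (n + 2) τ x := by rw [← hc]; exact mul_self_pos.2 hc0
  -- a box on which the second derivative has a sign
  have hcont : ContinuousAt (fun p : ℝ × ℝ => c * rn (n + 2) p.1 p.2) (τ, x) :=
    continuousAt_const.mul (rn_cont (n + 2) h1 x)
  have hev := hcont.eventually (lt_mem_nhds hpos)
  obtain ⟨r, hr, hbox⟩ := Metric.eventually_nhds_iff.1 hev
  have hbox' : ∀ σ y : ℝ, |σ - τ| < r → |y - x| < r → 0 < c * rn (n + 2) σ y := by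
    intro σ y h2 h3
    apply hbox (y := (σ, y))
    rw [Prod.dist_eq, max_lt_iff, Real.dist_eq, Real.dist_eq]
    exact ⟨h2, h3⟩
  -- at the time τ
  have hG : ∀ y : ℝ, |y - x| < r → y ≠ x → 0 < c * rn n τ y := by
    intro y hy hne
    have hd1 : ∀ t : ℝ, HasDerivAt (fun t => c * rn (n + 1) τ t) (c * rn (n + 2) τ t) t :=
      fun t => (rn_der (n + 1) h0.le t).const_mul c
    have hd0 : ∀ t : ℝ, HasDerivAt (fun t => c * rn n τ t) (c * rn (n + 1) τ t) t :=
      fun t => (rn_der n h0.le t).const_mul c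
    rcases lt_or_gt_of_ne hne with h | h
    · obtain ⟨ξ, hξ, e1⟩ := exists_hasDerivAt_eq_slope (fun t => c * rn n τ t) _ h
        (fun t _ => (hd0 t).continuousAt.continuousWithinAt) (fun t _ => hd0 t)
      obtain ⟨ζ, hζ, e2⟩ := exists_hasDerivAt_eq_slope (fun t => c * rn (n + 1) τ t) _ hξ.2
        (fun t _ => (hd1 t).continuousAt.continuousWithinAt) (fun t _ => hd1 t)
      have hy' := abs_lt.1 hy
      have h2 := hbox' τ ζ (by simpa using hr) (by
        rw [abs_lt]
        constructor <;> linarith [hζ.1, hζ.2, hξ.1, hξ.2])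
      simp only [hz0, hz1, mul_zero, zero_sub] at e1 e2
      rw [e2, lt_div_iff₀ (by linarith [hξ.2]), zero_mul] at h2
      rw [e1, neg_pos, div_neg_iff] at h2
      rcases h2 with h3 | h3
      · linarith [h3.2]
      · linarith [h3.1]
    · obtain ⟨ξ, hξ, e1⟩ := exists_hasDerivAt_eq_slope (fun t => c * rn n τ t) _ h
        (fun t _ => (hd0 t).continuousAt.continuousWithinAt) (fun t _ => hd0 t)
      obtain ⟨ζ, hζ, e2⟩ := exists_hasDerivAt_eq_slope (fun t => c * rn (n + 1) τ t) _ hξ.1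
        (fun t _ => (hd1 t).continuousAt.continuousWithinAt) (fun t _ => hd1 t)
      have hy' := abs_lt.1 hy
      have h2 := hbox' τ ζ (by simpa using hr) (by
        rw [abs_lt]
        constructor <;> linarith [hζ.1, hζ.2, hξ.1, hξ.2])
      simp only [hz0, hz1, mul_zero, sub_zero] at e1 e2
      rw [e2, lt_div_iff₀ (by linarith [hξ.1]), zero_mul] at h2
      rw [e1, lt_div_iff₀ (by linarith), zero_mul] at h2
      exact h2
  -- at earlier times
  have hF : ∀ σ y : ℝ, σ < τ → τ - r < σ → |y - x| < r → rn n σ y ≠ 0 := by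
    intro σ y h2 h3 h4 h5
    obtain ⟨ξ, hξ, e1⟩ := exists_hasDerivAt_eq_slope (fun t => rn n t y) (fun t => -rn (n + 2) t y) h2
      (fun t ht => (rn_time n (ht.2.trans_lt h1) y).continuousAt.continuousWithinAt)
      (fun t ht => rn_time n (ht.2.trans h1) y)
    simp only [h5, sub_zero] at e1
    have h6 := hbox' ξ y (by
      rw [abs_lt]
      constructor <;> linarith [hξ.1, hξ.2]) h4
    have h7 : 0 ≤ c * rn n τ y := by
      by_cases h8 : y = x
      · rw [h8, hz0, mul_zero]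
      · exact (hG y h4 h8).le
    have h9 : rn n τ y = -rn (n + 2) ξ y * (τ - σ) := by
      rw [e1]
      field_simp [show τ - σ ≠ 0 by intro h; linarith]
    rw [h9] at h7
    have : c * (-rn (n + 2) ξ y * (τ - σ)) = -(c * rn (n + 2) ξ y * (τ - σ)) := by ring
    rw [this] at h7
    have : 0 < c * rn (n + 2) ξ y * (τ - σ) := mul_pos h6 (by linarith)
    linarith
  -- a circle
  obtain ⟨ρ, hρ⟩ : ∃ ρ, ρ = r / 2 := ⟨_, rfl⟩
  have hρ0 : 0 < ρ := by rw [hρ]; linarith
  have hρr : ρ < r := by rw [hρ]; linarith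
  have hsph : ∀ z ∈ sphere (I * (x : ℂ)) ρ, DD n τ z ≠ 0 := by
    intro z hz hzero
    have hre := DD_re RH n h0.le hzero
    have hz' : z = I * (z.im : ℂ) := by
      apply Complex.ext <;> simp [hre]
    rw [mem_sphere, Complex.dist_eq, hz'] at hz
    have e1 : I * (z.im : ℂ) - I * (x : ℂ) = I * ((z.im - x : ℝ) : ℂ) := by push_cast; ring
    rw [e1, norm_mul, Complex.norm_I, one_mul, Complex.norm_real, Real.norm_eq_abs] at hz
    have h2 : z.im ≠ x := by
      intro h3
      rw [h3, sub_self, abs_zero] at hz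
      linarith
    have h3 := hG z.im (by rw [hz]; exact hρr) h2
    have h4 : rn n τ z.im = 0 := by
      rw [rn_zero_iff n h0.le, ← hz']
      exact hzero
    rw [h4, mul_zero] at h3
    exact lt_irrefl _ h3
  have hne : (sphere (I * (x : ℂ)) ρ).Nonempty := NormedSpace.sphere_nonempty.2 hρ0.le
  obtain ⟨z0, hz0', hmin⟩ := (isCompact_sphere (I * (x : ℂ)) ρ).exists_isMinOn hne
    (f := fun z => ‖DD n τ z‖) (DD_diff n h0.le).continuous.norm.continuousOn
  have hδ : 0 < ‖DD n τ z0‖ := norm_pos_iff.2 (hsph z0 hz0')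
  have hun := DD_unif n h1 (isCompact_sphere (I * (x : ℂ)) ρ) hδ
  have hev2 : ∀ᶠ σ in 𝓝 τ, 0 < σ ∧ τ - r < σ :=
    (lt_mem_nhds h0).and (lt_mem_nhds (by linarith))
  have hfreq : ∃ σ : ℝ, σ < τ ∧ (0 < σ ∧ τ - r < σ) ∧
      ∀ z ∈ sphere (I * (x : ℂ)) ρ, ‖DD n τ z - DD n σ z‖ < ‖DD n τ z0‖ := by
    have h2 : ∃ᶠ σ in 𝓝 τ, σ < τ := frequently_lt_nhds τ
    obtain ⟨σ, h3, h4⟩ := (h2.and_eventually (hev2.and hun)).exists
    exact ⟨σ, h3, h4.1, h4.2⟩
  obtain ⟨σ, hστ, ⟨hσ0, hσr⟩, hσ⟩ := hfreq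
  obtain ⟨hnb, hfin, -⟩ := rouche (DD_diff n h0.le) (DD_diff n hσ0.le) hρ0
    (fun z hz => (hσ z hz).trans_le (hmin hz))
  have h2 := nb_pos (DD_diff n h0.le) hρ0 hfin ((rn_zero_iff n h0.le x).1 hz0) z0 (hsph z0 hz0')
  rw [hnb] at h2
  obtain ⟨z, hz, hzero⟩ := exists_of_nb h2
  have hre := DD_re RH n hσ0.le hzero
  have hz' : z = I * (z.im : ℂ) := by
    apply Complex.ext <;> simp [hre]
  rw [mem_ball, Complex.dist_eq, hz'] at hz
  have e1 : I * (z.im : ℂ) - I * (x : ℂ) = I * ((z.im - x : ℝ) : ℂ) := by push_cast; ring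
  rw [e1, norm_mul, Complex.norm_I, one_mul, Complex.norm_real, Real.norm_eq_abs] at hz
  apply hF σ z.im hστ hσr (hz.trans hρr)
  rw [rn_zero_iff n hσ0.le, ← hz']
  exact hzero

/-- **Simple zeros at positive times.** -/
theorem simple (RH : RiemannHypothesis) {τ : ℝ} (h0 : 0 < τ) (h1 : τ < 1) {x : ℝ} (hz : rn 0 τ x = 0) :
    rn 1 τ x ≠ 0 := by
  intro hz1
  have hex : ∃ m : ℕ, rn m τ x ≠ 0 := by
    by_contra hcon
    push Not at hcon
    have h2 : Differentiable ℂ (XT τ) := (ker.2 τ h0.le).1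
    have h3 := Complex.taylorSeries_eq_of_entire' (c := I * (x : ℂ)) (z := 0) h2
    have h4 : XT τ 0 ≠ 0 := by
      have := (ker.2 τ h0.le).2.2.2.2 0 0 (Or.inl (by simp))
      rw [iteratedDeriv_zero] at this
      simpa using this
    apply h4
    rw [← h3]
    have h5 : ∀ n : ℕ, iteratedDeriv n (XT τ) (I * (x : ℂ)) = 0 := fun n => by
      rw [DD_eq h0.le]
      exact (rn_zero_iff n h0.le x).1 (hcon n)
    simp [h5]
  classical
  obtain ⟨m, hm, hmin⟩ : ∃ m, rn m τ x ≠ 0 ∧ ∀ k < m, rn k τ x = 0 := by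
    refine ⟨Nat.find hex, Nat.find_spec hex, fun k hk => ?_⟩
    have := Nat.find_min hex hk
    push Not at this
    exact this
  have hm2 : 2 ≤ m := by
    by_contra hcon
    have : m = 0 ∨ m = 1 := by omega
    rcases this with rfl | rfl
    · exact hm hz
    · exact hm hz1
  obtain ⟨n, rfl⟩ : ∃ n, m = n + 2 := ⟨m - 2, by omega⟩
  exact no_double RH n h0 h1 (hmin n (by omega)) (hmin (n + 1) (by omega)) hm

end Pool.Agent.P8H8.HF
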