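import Pool.Agent.P8H8.HF.HeatB
import Pool.Agent.R838.ST.Zst
import Pool.Agent.W186.SD.FinHt

set_option autoImplicit false

/-!
# The positive zeros as functions of the time
-/

namespace Pool.Agent.P8H8.HF

open Complex Filter Topology MeasureTheory Set Metric
open Pool.Agent.H986R2.DBN (XT ker)
open Pool.Agent.R838.ST (nb rouche stb_xi zfin)

/-- the positive zeros at the time `τ` -/
def ZZ (τ : ℝ) : Set ℝ := {x : ℝ | 0 < x ∧ rn 0 τ x = 0}

lemma rn_zero_ne {τ : ℝ} (h0 : 0 ≤ τ) : rn 0 τ 0 ≠ 0 := by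
  intro h
  rw [rn_zero_iff 0 h0, DD_zero] at h
  have := (ker.2 τ h0).2.2.2.2 0 0 (Or.inl (by simp))
  rw [iteratedDeriv_zero] at this
  apply this
  simpa using h

lemma axis {z : ℂ} (h : z.re = 0) : z = I * (z.im : ℂ) := by
  apply Complex.ext <;> simp [h]

lemma ZZ_fin {τ : ℝ} (h0 : 0 ≤ τ) (x : ℝ) : (ZZ τ ∩ Iic x).Finite := by
  have h1 := zfin (stb_xi.heatd τ h0) (fun s hs => stb_xi.strip τ s h0 hs) 0 x
  refine (h1.image (fun s => s.im)).subset ?_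
  rintro y ⟨⟨h2, h3⟩, h4⟩
  refine ⟨I * y, ⟨?_, by simpa using h2.le, by simpa using h4⟩, by simp⟩
  rw [rn_zero_iff 0 h0, DD_zero] at h3
  exact h3

theorem ZZ_LF (RH : RiemannHypothesis) {τ : ℝ} (h0 : 0 ≤ τ) (h1 : τ ≤ 1 / 8) : LF (ZZ τ) := by
  refine ⟨fun x hx => hx.1, fun x => ZZ_fin h0 x, fun x => ?_⟩
  obtain ⟨c, T0, hc, hT0, h⟩ := Pool.Agent.W186.SD.HH.toth
  obtain ⟨S, hS, hsum⟩ := h (max T0 (max x 2)) τ (le_max_left _ _) h0 h1
  have hpos : 0 < c * max T0 (max x 2) * Real.log (max T0 (max x 2)) := by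
    have h2 : (2 : ℝ) ≤ max T0 (max x 2) := (le_max_right _ _).trans (le_max_right _ _)
    have h3 : 0 < Real.log (max T0 (max x 2)) := Real.log_pos (by linarith)
    positivity
  have hne : S.Nonempty := by
    by_contra hcon
    rw [Finset.not_nonempty_iff_eq_empty] at hcon
    rw [hcon, Finset.sum_empty] at hsum
    linarith
  obtain ⟨s, hs⟩ := hne
  obtain ⟨h2, h3, -⟩ := hS s hs
  have hx : x < s.im := lt_of_le_of_lt ((le_max_left _ _).trans (le_max_right _ _)) h3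
  have h4 : (0 : ℝ) < s.im := lt_of_le_of_lt (le_trans (by norm_num) ((le_max_right x (2 : ℝ)).trans
    (le_max_right T0 _))) h3
  refine ⟨s.im, ⟨h4, ?_⟩, hx⟩
  rw [← DD_zero] at h2
  have hre := DD_re RH 0 h0 h2
  rw [rn_zero_iff 0 h0, ← axis hre]
  exact h2

/-- the number of positive zeros as a number of zeros in a disc -/
theorem cn_nb (RH : RiemannHypothesis) {τ : ℝ} (h0 : 0 < τ) (h1 : τ ≤ 1 / 8) {x : ℝ}
    (hxz : rn 0 τ x ≠ 0) : nb (DD 0 τ) (I * ((x / 2 : ℝ) : ℂ)) (x / 2) = cn (ZZ τ) x := by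
  classical
  have hLF := ZZ_LF RH h0.le h1
  unfold nb
  rw [← finsum_mem_inter_support]
  have e1 : ball (I * ((x / 2 : ℝ) : ℂ)) (x / 2) ∩ Function.support (fun z => analyticOrderNatAt (DD 0 τ) z) =
      (fun y : ℝ => I * (y : ℂ)) '' (ZZ τ ∩ Iic x) := by
    ext z
    constructor
    · rintro ⟨h2, h3⟩
      have hz : DD 0 τ z = 0 := apply_eq_zero_of_analyticOrderNatAt_ne_zero h3
      have hre := DD_re RH 0 h0.le hz
      have hz' := axis hre
      rw [mem_ball, Complex.dist_eq, hz'] at h2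
      have e1 : I * (z.im : ℂ) - I * ((x / 2 : ℝ) : ℂ) = I * ((z.im - x / 2 : ℝ) : ℂ) := by push_cast; ring
      rw [e1, norm_mul, Complex.norm_I, one_mul, Complex.norm_real, Real.norm_eq_abs, abs_lt] at h2
      refine ⟨z.im, ⟨⟨by linarith [h2.1], ?_⟩, ?_⟩, hz'.symm⟩
      · rw [rn_zero_iff 0 h0.le, ← hz']
        exact hz
      · have : z.im ≤ x := by linarith [h2.2]
        exact this
    · rintro ⟨y, ⟨⟨h2, h3⟩, h4⟩, rfl⟩
      have h4' : y ≤ x := h4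
      have h5 : y < x := lt_of_le_of_ne h4' (fun h => hxz (by rw [← h]; exact h3))
      have hz : DD 0 τ (I * (y : ℂ)) = 0 := (rn_zero_iff 0 h0.le y).1 h3
      refine ⟨?_, ?_⟩
      · simp only
        rw [mem_ball, Complex.dist_eq]
        have e1 : I * (y : ℂ) - I * ((x / 2 : ℝ) : ℂ) = I * ((y - x / 2 : ℝ) : ℂ) := by push_cast; ring
        rw [e1, norm_mul, Complex.norm_I, one_mul, Complex.norm_real, Real.norm_eq_abs, abs_lt]
        constructor <;> linarith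
      · have hd := simple RH h0 (by linarith) h3
        have hd' : deriv (DD 0 τ) (I * (y : ℂ)) ≠ 0 := by
          rw [(DD_var 0 h0.le _).deriv]
          intro h6
          exact hd ((rn_zero_iff 1 h0.le y).2 h6)
        have h7 := ((DD_diff 0 h0.le).analyticAt (I * (y : ℂ))).analyticOrderAt_eq_one_of_zero_deriv_ne_zero hz hd'
        show analyticOrderNatAt (DD 0 τ) (I * (y : ℂ)) ≠ 0
        unfold analyticOrderNatAt
        rw [h7]
        norm_num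
  have hinj : Set.InjOn (fun y : ℝ => I * (y : ℂ)) (ZZ τ ∩ Iic x) := by
    intro a _ b _ hab
    have := mul_left_cancel₀ I_ne_zero hab
    exact_mod_cast this
  rw [e1, finsum_mem_image hinj]
  have e2 : ∀ y ∈ ZZ τ ∩ Iic x, analyticOrderNatAt (DD 0 τ) (I * (y : ℂ)) = 1 := by
    rintro y ⟨⟨h2, h3⟩, -⟩
    have hz : DD 0 τ (I * (y : ℂ)) = 0 := (rn_zero_iff 0 h0.le y).1 h3
    have hd := simple RH h0 (by linarith) h3
    have hd' : deriv (DD 0 τ) (I * (y : ℂ)) ≠ 0 := by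
      rw [(DD_var 0 h0.le _).deriv]
      intro h6
      exact hd ((rn_zero_iff 1 h0.le y).2 h6)
    have h7 := ((DD_diff 0 h0.le).analyticAt (I * (y : ℂ))).analyticOrderAt_eq_one_of_zero_deriv_ne_zero hz hd'
    unfold analyticOrderNatAt
    rw [h7]
    rfl
  rw [finsum_mem_congr rfl e2]
  unfold cn
  rw [finsum_mem_eq_finite_toFinset_sum _ (hLF.fin x), Finset.sum_const, smul_eq_mul, mul_one,
    Set.ncard_eq_toFinset_card _ (hLF.fin x)]

/-- the counting function is locally constant in the time -/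
theorem cn_const (RH : RiemannHypothesis) {τ : ℝ} (h0 : 0 < τ) (h1 : τ < 1 / 8) {x : ℝ} (hx : 0 < x)
    (hxz : rn 0 τ x ≠ 0) : ∀ᶠ σ in 𝓝 τ, cn (ZZ σ) x = cn (ZZ τ) x := by
  have hx2 : 0 < x / 2 := by positivity
  have hsph : ∀ z ∈ sphere (I * ((x / 2 : ℝ) : ℂ)) (x / 2), DD 0 τ z ≠ 0 := by
    intro z hz hzero
    have hre := DD_re RH 0 h0.le hzero
    have hz' := axis hre
    rw [mem_sphere, Complex.dist_eq, hz'] at hz
    have e1 : I * (z.im : ℂ) - I * ((x / 2 : ℝ) : ℂ) = I * ((z.im - x / 2 : ℝ) : ℂ) := by push_cast; ring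
    rw [e1, norm_mul, Complex.norm_I, one_mul, Complex.norm_real, Real.norm_eq_abs] at hz
    have h4 : rn 0 τ z.im = 0 := by
      rw [rn_zero_iff 0 h0.le, ← hz']
      exact hzero
    rcases (abs_eq hx2.le).1 hz with h | h
    · have : z.im = x := by linarith
      rw [this] at h4
      exact hxz h4
    · have : z.im = 0 := by linarith
      rw [this] at h4
      exact rn_zero_ne h0.le h4
  have hne : (sphere (I * ((x / 2 : ℝ) : ℂ)) (x / 2)).Nonempty := NormedSpace.sphere_nonempty.2 hx2.le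
  obtain ⟨z0, hz0', hmin⟩ := (isCompact_sphere (I * ((x / 2 : ℝ) : ℂ)) (x / 2)).exists_isMinOn hne
    (f := fun z => ‖DD 0 τ z‖) (DD_diff 0 h0.le).continuous.norm.continuousOn
  have hδ : 0 < ‖DD 0 τ z0‖ := norm_pos_iff.2 (hsph z0 hz0')
  have hun := DD_unif 0 (show τ < 1 by linarith) (isCompact_sphere (I * ((x / 2 : ℝ) : ℂ)) (x / 2)) hδ
  have hne2 : ∀ᶠ σ in 𝓝 τ, rn 0 σ x ≠ 0 := by
    have h2 : ContinuousAt (fun σ : ℝ => rn 0 σ x) τ :=
      (rn_time 0 (by linarith) x).continuousAt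
    exact h2.eventually_ne hxz
  filter_upwards [hun, hne2, lt_mem_nhds h0, gt_mem_nhds h1] with σ g1 g2 g3 g4
  obtain ⟨hnb, -, -⟩ := rouche (DD_diff 0 h0.le) (DD_diff 0 g3.le) hx2
    (fun z hz => (g1 z hz).trans_le (hmin hz))
  rw [← cn_nb RH h0 h1.le hxz, ← cn_nb RH g3 g4.le g2, hnb]

/-- the labelled zeros are continuous in the time -/
theorem en_cont (RH : RiemannHypothesis) {τ : ℝ} (h0 : 0 < τ) (h1 : τ < 1 / 8) (n : ℕ) :
    ContinuousAt (fun σ => en (ZZ σ) n) τ := by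
  have hLF := ZZ_LF RH h0.le h1.le
  obtain ⟨y, hy⟩ : ∃ y, y = en (ZZ τ) n := ⟨_, rfl⟩
  have hy0 : 0 < y := by rw [hy]; exact en_pos hLF n
  have hyz : rn 0 τ y = 0 := by rw [hy]; exact (en_spec hLF n).1.2
  have hd := simple RH h0 (by linarith) hyz
  have hev : ∀ᶠ x in 𝓝[≠] y, rn 0 τ x ≠ 0 := (rn_der 0 h0.le y).eventually_ne hd
  rw [Metric.continuousAt_iff']
  intro ε hε
  obtain ⟨δ, hδ⟩ : ∃ δ, δ = min ε y := ⟨_, rfl⟩
  have hδ0 : 0 < δ := by rw [hδ]; exact lt_min hε hy0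
  have hδε : δ ≤ ε := by rw [hδ]; exact min_le_left _ _
  have hδy : δ ≤ y := by rw [hδ]; exact min_le_right _ _
  obtain ⟨x1, hx1, hx1'⟩ : ∃ x1, rn 0 τ x1 ≠ 0 ∧ x1 ∈ Ioo (y - δ) y := by
    have h2 : ∀ᶠ x in 𝓝[<] y, rn 0 τ x ≠ 0 := hev.filter_mono (nhdsWithin_mono _ (fun x hx => ne_of_lt hx))
    exact (h2.and (Ioo_mem_nhdsLT (by linarith))).exists
  obtain ⟨x2, hx2, hx2'⟩ : ∃ x2, rn 0 τ x2 ≠ 0 ∧ x2 ∈ Ioo y (y + δ) := by
    have h2 : ∀ᶠ x in 𝓝[>] y, rn 0 τ x ≠ 0 := hev.filter_mono (nhdsWithin_mono _ (fun x hx => ne_of_gt hx))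
    exact (h2.and (Ioo_mem_nhdsGT (by linarith))).exists
  filter_upwards [cn_const RH h0 h1 (show 0 < x1 by linarith [hx1'.1]) hx1,
    cn_const RH h0 h1 (show 0 < x2 by linarith [hx2'.1]) hx2, lt_mem_nhds h0, gt_mem_nhds h1] with σ g1 g2 g3 g4
  have hLFσ := ZZ_LF RH g3.le g4.le
  rw [← hy, Real.dist_eq, abs_lt]
  have h2 : x1 < en (ZZ σ) n := by
    by_contra hcon
    rw [not_lt, en_le_iff hLFσ, g1, ← en_le_iff hLF, ← hy] at hcon
    linarith [hx1'.2]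
  have h3 : en (ZZ σ) n ≤ x2 := by
    rw [en_le_iff hLFσ, g2, ← en_le_iff hLF, ← hy]
    exact hx2'.1.le
  constructor
  · linarith [hx1'.1]
  · linarith [hx2'.2]

/-- the velocity of a zero -/
theorem en_der (RH : RiemannHypothesis) {τ : ℝ} (h0 : 0 < τ) (h1 : τ < 1 / 8) (n : ℕ) :
    HasDerivAt (fun σ => en (ZZ σ) n) (rn 2 τ (en (ZZ τ) n) / rn 1 τ (en (ZZ τ) n)) τ := by
  have hLF := ZZ_LF RH h0.le h1.le
  have hc := en_cont RH h0 h1 n
  obtain ⟨y, hy⟩ : ∃ y, y = en (ZZ τ) n := ⟨_, rfl⟩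
  have hyz : rn 0 τ y = 0 := by rw [hy]; exact (en_spec hLF n).1.2
  have hd := simple RH h0 (by linarith) hyz
  rw [← hy]
  rw [hasDerivAt_iff_tendsto_slope]
  have hct : Tendsto (fun σ => en (ZZ σ) n) (𝓝[≠] τ) (𝓝 y) := by
    rw [hy]
    exact hc.tendsto.mono_left nhdsWithin_le_nhds
  -- the denominator
  have hm : Tendsto (fun σ => dslope (rn 0 τ) y (en (ZZ σ) n)) (𝓝[≠] τ) (𝓝 (rn 1 τ y)) := by
    have h2 : ContinuousAt (dslope (rn 0 τ) y) y :=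
      continuousAt_dslope_same.2 (rn_der 0 h0.le y).differentiableAt
    have h3 := h2.tendsto.comp hct
    rw [dslope_same, (rn_der 0 h0.le y).deriv] at h3
    exact h3
  -- the numerator
  have hex : ∀ σ : ℝ, ∃ ξ : ℝ, σ ∈ Ioo (0 : ℝ) (1 / 8) → σ ≠ τ → |ξ - τ| ≤ |σ - τ| ∧
      rn 0 σ (en (ZZ σ) n) - rn 0 τ (en (ZZ σ) n) = -rn 2 ξ (en (ZZ σ) n) * (σ - τ) := by
    intro σ
    by_cases hσ : σ ∈ Ioo (0 : ℝ) (1 / 8) ∧ σ ≠ τ
    · obtain ⟨hσ1, hσ2⟩ := hσ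
      rcases lt_or_gt_of_ne hσ2 with h | h
      · obtain ⟨ξ, hξ, e1⟩ := exists_hasDerivAt_eq_slope (fun t => rn 0 t (en (ZZ σ) n))
          (fun t => -rn 2 t (en (ZZ σ) n)) h
          (fun t ht => (rn_time 0 (by linarith [ht.2]) _).continuousAt.continuousWithinAt)
          (fun t ht => rn_time 0 (by linarith [ht.2]) _)
        refine ⟨ξ, fun _ _ => ⟨?_, ?_⟩⟩
        · rw [abs_of_nonpos (by linarith [hξ.2]), abs_of_nonpos (by linarith)]
          linarith [hξ.1]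
        · rw [e1]
          field_simp [show τ - σ ≠ 0 by intro h; linarith]
          ring
      · obtain ⟨ξ, hξ, e1⟩ := exists_hasDerivAt_eq_slope (fun t => rn 0 t (en (ZZ σ) n))
          (fun t => -rn 2 t (en (ZZ σ) n)) h
          (fun t ht => (rn_time 0 (by linarith [ht.2, hσ1.2]) _).continuousAt.continuousWithinAt)
          (fun t ht => rn_time 0 (by linarith [ht.2, hσ1.2]) _)
        refine ⟨ξ, fun _ _ => ⟨?_, ?_⟩⟩
        · rw [abs_of_nonneg (by linarith [hξ.1]), abs_of_nonneg (by linarith)]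
          linarith [hξ.2]
        · rw [e1]
          field_simp [show σ - τ ≠ 0 by intro h; linarith]
    · exact ⟨0, fun h2 h3 => absurd ⟨h2, h3⟩ hσ⟩
  choose ξ hξ using hex
  have hdom : ∀ᶠ σ in 𝓝[≠] τ, σ ∈ Ioo (0 : ℝ) (1 / 8) ∧ σ ≠ τ :=
    ((Ioo_mem_nhds h0 h1 : Ioo (0 : ℝ) (1 / 8) ∈ 𝓝 τ) |> fun h => (nhdsWithin_le_nhds h : _ ∈ 𝓝[≠] τ)) |>
      fun h => (Filter.Eventually.and h self_mem_nhdsWithin)
  have hξt : Tendsto ξ (𝓝[≠] τ) (𝓝 τ) := by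
    rw [tendsto_iff_dist_tendsto_zero]
    have h2 : Tendsto (fun σ : ℝ => |σ - τ|) (𝓝[≠] τ) (𝓝 0) := by
      have h3 : ContinuousAt (fun σ : ℝ => |σ - τ|) τ := by fun_prop
      have h4 := h3.tendsto.mono_left (nhdsWithin_le_nhds (s := {τ}ᶜ))
      simpa using h4
    refine squeeze_zero' (Eventually.of_forall fun _ => dist_nonneg) ?_ h2
    filter_upwards [hdom] with σ hσ
    rw [Real.dist_eq]
    exact (hξ σ hσ.1 hσ.2).1
  have hq2 : Tendsto (fun p : ℝ × ℝ => rn 2 p.1 p.2) (𝓝 (τ, y)) (𝓝 (rn 2 τ y)) :=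
    rn_cont 2 (show τ < 1 by linarith) y
  have hq3 : Tendsto (fun σ => ((ξ σ, en (ZZ σ) n) : ℝ × ℝ)) (𝓝[≠] τ) (𝓝 (τ, y)) := hξt.prodMk_nhds hct
  have hq := hq2.comp hq3
  simp only [Function.comp_def] at hq
  have hlim := hq.div hm hd
  refine hlim.congr' ?_
  have hmne : ∀ᶠ σ in 𝓝[≠] τ, dslope (rn 0 τ) y (en (ZZ σ) n) ≠ 0 := hm.eventually_ne hd
  filter_upwards [hdom, hmne] with σ hσ hne
  obtain ⟨-, h3⟩ := hξ σ hσ.1 hσ.2
  have hLFσ := ZZ_LF RH hσ.1.1.le hσ.1.2.le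
  have h4 : rn 0 σ (en (ZZ σ) n) = 0 := (en_spec hLFσ n).1.2
  have h5 := sub_smul_dslope (rn 0 τ) y (en (ZZ σ) n)
  rw [hyz, sub_zero, smul_eq_mul] at h5
  rw [h4, zero_sub, ← h5] at h3
  have hne2 : σ - τ ≠ 0 := sub_ne_zero.2 hσ.2
  rw [slope_def_field, ← hy]
  simp only [Pi.div_apply]
  rw [div_eq_div_iff hne hne2]
  linarith

end Pool.Agent.P8H8.HF
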