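import Pool.Agent.P8H8.HF.Glob

set_option autoImplicit false

/-!
# If the law of the gaps is the same at two times, then it is trivial: finite form
-/

namespace Pool.Agent.P8H8.HF

open Finset Filter Topology

/-- The quantitative statement. -/
theorem rigid {y : ℝ → ℤ → ℝ} {R : ℝ} (hF : Flow y R) {τ₁ τ₂ τ₃ : ℝ} (h0 : 0 < τ₁) (h12 : τ₁ < τ₂) (h23 : τ₂ ≤ τ₃)
    (hR : τ₃ < R) {m q N : ℕ} (hm : 1 ≤ m) (hN : N = m * q) {s h e s0 Θ η D U : ℝ} (hs : 0 < s) (hh : 0 < h)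
    (he : 0 < e) (hs0 : 0 < s0) (hΘ : τ₃ - τ₁ ≤ Θ) (hη : η ≤ 1)
    (hm1 : ∀ τ, τ₁ ≤ τ → τ ≤ τ₃ → |y τ N - y τ 0 - N| ≤ η * N)
    (hm2 : ∀ τ, τ₁ ≤ τ → τ ≤ τ₃ → y τ (N + 1) - y τ 0 ≤ 3 * N)
    (hD : (∑ k ∈ Ico (0 : ℤ) (N + 1), prim s h (gp (y τ₁) k) -
      ∑ k ∈ Ico (0 : ℤ) (N + 1), prim s h (gp (y τ₂) k)) / (2 * (τ₂ - τ₁)) +
      8 * h / s * Real.log (1 + 3 * N / s) ≤ D)
    (hU : ∑ k ∈ Ico (0 : ℤ) (N + 1), max (gp (y τ₁) k - (s + h) / 2) 0 +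
      32 / (s + h) * (τ₂ - τ₁) * Real.log (1 + 6 * N / (s + h)) ≤ U) :
    ∑ k ∈ Ico (0 : ℤ) N, max (gp (y τ₂) k - 1) 0 ≤ ∑ k ∈ Ico (0 : ℤ) N, |gp (y τ₃) k - 1| +
      3 * (m * (N * (s + e) + (s + h) ^ 2 * D / e + 4 * U)) + 2 * (s0 * N) + 2 * (η * N) +
      64 / s0 * Θ * Real.sqrt (m / s0) * (3 + Real.sqrt (8 * Θ)) * q +
      16 * (τ₂ - τ₁) * Real.log (1 + 3 * N) := by
  have hN0 : (0 : ℝ) ≤ N := Nat.cast_nonneg N
  have hd : 0 < τ₂ - τ₁ := by linarith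
  obtain ⟨τ, h1, h2, h3⟩ := win_mvt hF hs hh.le (a := 0) (b := N + 1) (by omega) h0 h12 (h23.trans_lt hR)
  have hy := hF.mono τ (h0.trans h1) (by linarith)
  have hlen : ∀ t, τ₁ ≤ t → t ≤ τ₃ → ∀ r : ℝ, 0 < r → Real.log (1 + (y t (N + 1) - y t 0) / r) ≤
      Real.log (1 + 3 * N / r) := by
    intro t ht1 ht2 r hr
    have h4 : 0 ≤ y t (N + 1) - y t 0 :=
      sub_nonneg.2 ((hF.mono t (h0.trans_le ht1) (ht2.trans_lt hR)).monotone (by omega))
    apply Real.log_le_log (by positivity)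
    have := div_le_div_of_nonneg_right (hm2 t ht1 ht2) hr.le
    linarith
  -- the dissipation
  have hdis : dis s h (y τ) 0 (N + 1) ≤ D := by
    have h4 := hlen τ h1.le (by linarith) s hs
    have h5 : 8 * h / s * Real.log (1 + (y τ (N + 1) - y τ 0) / s) ≤ 8 * h / s * Real.log (1 + 3 * N / s) :=
      mul_le_mul_of_nonneg_left h4 (by positivity)
    have h6 : dis s h (y τ) 0 (N + 1) ≤ (∑ k ∈ Ico (0 : ℤ) (N + 1), prim s h (gp (y τ₁) k) -
        ∑ k ∈ Ico (0 : ℤ) (N + 1), prim s h (gp (y τ₂) k)) / (2 * (τ₂ - τ₁)) +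
        8 * h / s * Real.log (1 + (y τ (N + 1) - y τ 0) / s) := by
      rw [← sub_le_iff_le_add, le_div_iff₀ (by positivity)]
      linarith
    linarith
  -- the tail
  have htail : ∑ k ∈ Ico (0 : ℤ) (N + 1), max (gp (y τ) k - (s + h) / 2) 0 ≤ U := by
    have h4 := win_mono hF (s := (s + h) / 2) (by positivity) (a := 0) (b := N + 1) (by omega) h0 h1.le
      (by linarith) (L := 3 * N) (fun t ht1 ht2 => hm2 t ht1 (by linarith))
    have e1 : 16 / ((s + h) / 2) * (τ - τ₁) * Real.log (1 + 3 * N / ((s + h) / 2)) =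
        32 / (s + h) * (τ - τ₁) * Real.log (1 + 6 * N / (s + h)) := by
      have e2 : 3 * (N : ℝ) / ((s + h) / 2) = 6 * N / (s + h) := by
        field_simp
        ring
      have e3 : 16 / ((s + h) / 2) = 32 / (s + h) := by
        field_simp
        ring
      rw [e2, e3]
    rw [e1] at h4
    have h5 : 0 ≤ Real.log (1 + 6 * N / (s + h)) := Real.log_nonneg (by
      have : 0 ≤ 6 * N / (s + h) := by positivity
      linarith)
    have h6 : 32 / (s + h) * (τ - τ₁) * Real.log (1 + 6 * N / (s + h)) ≤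
        32 / (s + h) * (τ₂ - τ₁) * Real.log (1 + 6 * N / (s + h)) := by
      apply mul_le_mul_of_nonneg_right _ h5
      apply mul_le_mul_of_nonneg_left (by linarith) (by positivity)
    linarith
  have hA := adj_le hy hs hh he N
  have hA2 : ∑ k ∈ Ico (0 : ℤ) N, |gp (y τ) (k + 1) - gp (y τ) k| ≤
      N * (s + e) + (s + h) ^ 2 * D / e + 4 * U := by
    have h4 : (s + h) ^ 2 * dis s h (y τ) 0 (N + 1) / e ≤ (s + h) ^ 2 * D / e := by
      apply div_le_div_of_nonneg_right _ he.le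
      exact mul_le_mul_of_nonneg_left hdis (by positivity)
    linarith
  have hprop := prop_all hF (τ₁ := τ) (τ₂ := τ₃) (h0.trans h1) (by linarith) hR (q := q) hm hs0
    (A := N * (s + e) + (s + h) ^ 2 * D / e + 4 * U)
    (show τ₃ - τ ≤ Θ by linarith) hη (by rw [← hN]; exact hm1 τ h1.le (by linarith))
    (by rw [← hN]; exact hm1 τ₃ (by linarith) le_rfl) (by rw [← hN]; exact hA2)
  rw [← hN] at hprop
  -- from τ to τ₂
  have h4 := win_mono hF (s := 1) one_pos (a := 0) (b := N) (by omega) (h0.trans h1) h2.le (h23.trans_lt hR)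
    (L := 3 * N) (fun t ht1 ht2 => by
      have h5 := hm2 t (by linarith) (by linarith)
      have h6 := (hF.mono t (by linarith) (by linarith)) (show (N : ℤ) < N + 1 by omega)
      linarith)
  have h5 : 16 / 1 * (τ₂ - τ) * Real.log (1 + 3 * N / 1) ≤ 16 * (τ₂ - τ₁) * Real.log (1 + 3 * N) := by
    rw [div_one, div_one]
    apply mul_le_mul_of_nonneg_right _ (Real.log_nonneg (by linarith))
    linarith
  have h6 : ∑ k ∈ Ico (0 : ℤ) N, max (gp (y τ) k - 1) 0 ≤ ∑ k ∈ Ico (0 : ℤ) N, |gp (y τ) k - gp (y τ₃) k| +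
      ∑ k ∈ Ico (0 : ℤ) N, |gp (y τ₃) k - 1| := by
    rw [← sum_add_distrib]
    refine sum_le_sum fun k _ => ?_
    apply max_le _ (by positivity)
    have h7 := le_abs_self (gp (y τ) k - gp (y τ₃) k)
    have h8 := le_abs_self (gp (y τ₃) k - 1)
    linarith
  linarith

/-- Closeness at nearby times. -/
theorem close {y : ℝ → ℤ → ℝ} {R : ℝ} (hF : Flow y R) {τ₁ τ₂ : ℝ} (h0 : 0 < τ₁) (h12 : τ₁ ≤ τ₂) (hR : τ₂ < R)
    {N : ℕ} {η : ℝ} (hm1 : |y τ₁ N - y τ₁ 0 - N| ≤ η * N) (hm2 : |y τ₂ N - y τ₂ 0 - N| ≤ η * N) :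
    ∑ k ∈ Ico (0 : ℤ) N, |gp (y τ₂) k - gp (y τ₁) k| ≤ 2 * (N * Real.sqrt (8 * (τ₂ - τ₁))) + 2 * (η * N) := by
  have h1 : ∀ k ∈ Ico (0 : ℤ) N, |gp (y τ₂) k - gp (y τ₁) k| ≤
      2 * Real.sqrt (8 * (τ₂ - τ₁)) - (gp (y τ₂) k - gp (y τ₁) k) := by
    intro k _
    have h2 := gap_growth hF h0 h12 hR k
    rw [pos_part]
    have h3 : max (gp (y τ₂) k - gp (y τ₁) k) 0 ≤ Real.sqrt (8 * (τ₂ - τ₁)) :=
      max_le (by linarith) (Real.sqrt_nonneg _)
    linarith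
  refine (sum_le_sum h1).trans ?_
  rw [sum_sub_distrib, sum_sub_distrib, sum_const, Int.card_Ico, nsmul_eq_mul, sum_gp _ (by omega),
    sum_gp _ (by omega)]
  have e : ((((N : ℤ) - 0).toNat : ℕ) : ℝ) = N := by simp
  rw [e]
  have h2 := (abs_le.1 hm1).2
  have h3 := (abs_le.1 hm2).1
  linarith

/-- rescaling -/
theorem Flow.scale {y : ℝ → ℤ → ℝ} {R : ℝ} (hF : Flow y R) {l : ℝ} (hl : 0 < l) :
    Flow (fun θ k => l * y (θ / l ^ 2) k) (R * l ^ 2) := by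
  have hdom : ∀ τ : ℝ, 0 < τ → τ < R * l ^ 2 → 0 < τ / l ^ 2 ∧ τ / l ^ 2 < R := fun τ h1 h2 =>
    ⟨by positivity, by rw [div_lt_iff₀ (by positivity)]; exact h2⟩
  refine ⟨fun τ h1 h2 i j hij => ?_, fun τ h1 h2 k => ?_, fun τ h1 h2 => ?_, fun τ h1 h2 => ?_⟩
  · obtain ⟨h3, h4⟩ := hdom τ h1 h2
    exact mul_lt_mul_of_pos_left (hF.mono _ h3 h4 hij) hl
  · obtain ⟨h3, h4⟩ := hdom τ h1 h2
    obtain ⟨v, hv, hl2⟩ := hF.der _ h3 h4 k
    refine ⟨v / l, ?_, ?_⟩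
    · have h5 : HasDerivAt (fun s : ℝ => s / l ^ 2) (1 / l ^ 2) τ := (hasDerivAt_id τ).div_const _
      have h6 := (HasDerivAt.comp τ hv h5).const_mul l
      refine h6.congr_deriv ?_
      field_simp
    · refine (hl2.div_const l).congr (fun M => ?_)
      unfold vel
      rw [mul_div_assoc, sum_div]
      congr 1
      apply sum_congr rfl
      intro i _
      rw [← mul_sub, mul_inv]
      ring
  · obtain ⟨h3, h4⟩ := hdom τ h1 h2
    exact (hF.top _ h3 h4).const_mul_atTop hl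
  · obtain ⟨h3, h4⟩ := hdom τ h1 h2
    exact (hF.bot _ h3 h4).const_mul_atBot hl

end Pool.Agent.P8H8.HF
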