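import Pool.Agent.P8H8.HF.Prod
import Pool.Agent.P8H8.HF.Main

set_option autoImplicit false

/-!
# The zeros of the heat flow form a flow
-/

namespace Pool.Agent.P8H8.HF

open Complex Filter Topology MeasureTheory Set Metric
open Pool.Agent.H986R2.DBN (XT ker FT b1A)

/-- all the zeros -/
noncomputable def YY (τ : ℝ) (k : ℤ) : ℝ := if 0 ≤ k then en (ZZ τ) k.toNat else -en (ZZ τ) (-k - 1).toNat

lemma YY_nat (τ : ℝ) (n : ℕ) : YY τ (n : ℤ) = en (ZZ τ) n := by
  unfold YY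
  rw [if_pos (by omega)]
  simp

lemma YY_neg (τ : ℝ) (n : ℕ) : YY τ (-(n : ℤ) - 1) = -en (ZZ τ) n := by
  unfold YY
  rw [if_neg (by omega)]
  congr 2
  omega

lemma YY_refl (τ : ℝ) (k : ℤ) : YY τ (-k - 1) = -YY τ k := by
  rcases le_or_gt 0 k with h | h
  · obtain ⟨n, rfl⟩ := Int.eq_ofNat_of_zero_le h
    rw [YY_neg, YY_nat]
  · obtain ⟨n, hn⟩ := Int.eq_ofNat_of_zero_le (show 0 ≤ -k - 1 by omega)
    have hk : k = -(n : ℤ) - 1 := by omega
    rw [hn, hk, YY_neg, YY_nat, neg_neg]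

lemma YY_mono (RH : RiemannHypothesis) {τ : ℝ} (h0 : 0 ≤ τ) (h1 : τ ≤ 1 / 8) : StrictMono (YY τ) := by
  have hLF := ZZ_LF RH h0 h1
  apply strictMono_int_of_lt_succ
  intro k
  rcases lt_trichotomy k (-1) with h | h | h
  · obtain ⟨n, hn⟩ := Int.eq_ofNat_of_zero_le (show 0 ≤ -k - 2 by omega)
    have hk : k = -((n + 1 : ℕ) : ℤ) - 1 := by push_cast; omega
    have hk2 : k + 1 = -(n : ℤ) - 1 := by omega
    rw [hk2, hk, YY_neg, YY_neg]
    have := en_strictMono hLF (Nat.lt_succ_self n)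
    linarith
  · have h2 := YY_neg τ 0
    have h3 := YY_nat τ 0
    have h4 := en_pos hLF 0
    rw [h]
    norm_num at h2 h3 ⊢
    rw [h2, h3]
    linarith
  · obtain ⟨n, hn⟩ := Int.eq_ofNat_of_zero_le (show 0 ≤ k by omega)
    have hk2 : k + 1 = ((n + 1 : ℕ) : ℤ) := by push_cast; omega
    rw [hk2, hn, YY_nat, YY_nat]
    exact en_strictMono hLF (Nat.lt_succ_self n)

/-- the symmetric sum -/
lemma vel_sym {y : ℤ → ℝ} (hr : ∀ k, y (-k - 1) = -y k) (hy : StrictMono y) (n : ℕ) {M : ℕ} (hM : n < M) :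
    vel y M n = 1 / y n - 4 * y n * ∑ j ∈ (Finset.range M).erase n, ((y j) ^ 2 - (y n) ^ 2)⁻¹ := by
  unfold vel
  have hpos : ∀ j : ℕ, 0 < y (j : ℤ) := by
    intro j
    have h1 := hr (j : ℤ)
    have h2 := hy (show -(j : ℤ) - 1 < j by omega)
    linarith
  have e1 : (Finset.Ico (-(M : ℤ)) M).erase (n : ℤ) =
      (((Finset.range M).erase n).image (fun j : ℕ => (j : ℤ))) ∪
        ((Finset.range M).image (fun j : ℕ => -(j : ℤ) - 1)) := by
    ext i
    simp only [Finset.mem_erase, Finset.mem_Ico, Finset.mem_union, Finset.mem_image, Finset.mem_range]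
    constructor
    · rintro ⟨h3, h4, h5⟩
      rcases le_or_gt 0 i with h6 | h6
      · left
        exact ⟨i.toNat, ⟨by omega, by omega⟩, by omega⟩
      · right
        exact ⟨(-i - 1).toNat, by omega, by omega⟩
    · rintro (⟨j, ⟨h3, h4⟩, rfl⟩ | ⟨j, h3, rfl⟩) <;> omega
  have hdisj : Disjoint (((Finset.range M).erase n).image (fun j : ℕ => (j : ℤ)))
      ((Finset.range M).image (fun j : ℕ => -(j : ℤ) - 1)) := by
    rw [Finset.disjoint_left]
    intro i h1 h2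
    rw [Finset.mem_image] at h1 h2
    obtain ⟨a, -, rfl⟩ := h1
    obtain ⟨b, -, hb⟩ := h2
    omega
  rw [e1, Finset.sum_union hdisj, Finset.sum_image (by intro a _ b _ hab; simpa using hab),
    Finset.sum_image (by intro a _ b _ hab; simpa using hab)]
  have e2 : Finset.range M = insert n ((Finset.range M).erase n) :=
    (Finset.insert_erase (Finset.mem_range.2 hM)).symm
  have e3 : ∑ x ∈ Finset.range M, (y n - y (-(x : ℤ) - 1))⁻¹ =
      (2 * y n)⁻¹ + ∑ x ∈ (Finset.range M).erase n, (y n + y x)⁻¹ := by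
    rw [e2, Finset.sum_insert (by simp), ← e2]
    congr 1
    · rw [hr]
      congr 1
      ring
    · apply Finset.sum_congr rfl
      intro x _
      rw [hr]
      congr 1
      ring
  rw [e3]
  have e4 : ∀ x ∈ (Finset.range M).erase n, (y n - y x)⁻¹ + (y n + y x)⁻¹ =
      -(2 * y n) * ((y x) ^ 2 - (y n) ^ 2)⁻¹ := by
    intro x hx
    rw [Finset.mem_erase] at hx
    have h1 : y n - y x ≠ 0 := by
      intro h
      have h2 : (n : ℤ) = x := hy.injective (by linarith)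
      exact hx.1 (by omega)
    have h2 : y n + y x ≠ 0 := by
      have := hpos n
      have := hpos x
      positivity
    have h3 : y x ^ 2 - y n ^ 2 ≠ 0 := by
      have : y x ^ 2 - y n ^ 2 = -((y n - y x) * (y n + y x)) := by ring
      rw [this]
      exact neg_ne_zero.2 (mul_ne_zero h1 h2)
    field_simp
    ring
  have e5 : ∑ x ∈ (Finset.range M).erase n, (y n - y x)⁻¹ + ∑ x ∈ (Finset.range M).erase n, (y n + y x)⁻¹ =
      -(2 * y n) * ∑ j ∈ (Finset.range M).erase n, ((y j) ^ 2 - (y n) ^ 2)⁻¹ := by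
    rw [← Finset.sum_add_distrib, Finset.sum_congr rfl e4, Finset.mul_sum]
  have hn := (hpos n).ne'
  have e6 : 2 * (2 * y n)⁻¹ = 1 / y n := by
    field_simp
  linear_combination 2 * e5 + e6

lemma vel_refl {y : ℤ → ℝ} (hr : ∀ k, y (-k - 1) = -y k) (M : ℕ) (k : ℤ) : vel y M (-k - 1) = -vel y M k := by
  unfold vel
  have e1 : (Finset.Ico (-(M : ℤ)) M).erase (-k - 1) =
      ((Finset.Ico (-(M : ℤ)) M).erase k).image (fun i : ℤ => -i - 1) := by
    ext i
    simp only [Finset.mem_erase, Finset.mem_Ico, Finset.mem_image]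
    constructor
    · rintro ⟨h1, h2, h3⟩
      exact ⟨-i - 1, ⟨by omega, by omega, by omega⟩, by omega⟩
    · rintro ⟨j, ⟨h1, h2, h3⟩, rfl⟩
      omega
  rw [e1, Finset.sum_image (by intro a _ b _ hab; simp only at hab; omega), ← mul_neg, ← Finset.sum_neg_distrib]
  congr 1
  apply Finset.sum_congr rfl
  intro i _
  rw [hr, hr, ← inv_neg]
  congr 1
  ring

/-- the velocity is the limit of the truncated velocities -/
theorem vel_lim (RH : RiemannHypothesis) {τ : ℝ} (h0 : 0 < τ) (h1 : τ ≤ 1 / 8) (n : ℕ) :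
    Tendsto (fun M : ℕ => vel (YY τ) M n) atTop
      (𝓝 (rn 2 τ (en (ZZ τ) n) / rn 1 τ (en (ZZ τ) n))) := by
  have hLF := ZZ_LF RH h0.le h1
  have h2 := ratio_lim RH h0 h1 n
  obtain ⟨y, hy⟩ : ∃ y, y = en (ZZ τ) n := ⟨_, rfl⟩
  have hy0 : 0 < y := by rw [hy]; exact en_pos hLF n
  have hyZ : y ∈ ZZ τ := by rw [hy]; exact (en_spec hLF n).1
  have hF1 := FT_simple RH h0 (by linarith) hyZ
  rw [← hy] at h2 ⊢
  have h3 : Tendsto (fun M : ℕ => 1 / y - 4 * y *
      ∑ j ∈ (Finset.range M).erase n, ((en (ZZ τ) j) ^ 2 - y ^ 2)⁻¹) atTop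
      (𝓝 (1 / y - 4 * y * (deriv (deriv (FT τ)) (-((y ^ 2 : ℝ) : ℂ)) /
        (2 * deriv (FT τ) (-((y ^ 2 : ℝ) : ℂ)))).re)) := (h2.const_mul (4 * y)).const_sub (1 / y)
  have e1 : 1 / y - 4 * y * (deriv (deriv (FT τ)) (-((y ^ 2 : ℝ) : ℂ)) /
        (2 * deriv (FT τ) (-((y ^ 2 : ℝ) : ℂ)))).re = rn 2 τ y / rn 1 τ y := by
    have hyc : (y : ℂ) ≠ 0 := by exact_mod_cast hy0.ne'
    have e2 : (I * (y : ℂ)) ^ 2 = -((y ^ 2 : ℝ) : ℂ) := by
      push_cast
      rw [mul_pow, I_sq]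
      ring
    have r1 := rn_eq 1 h0.le y
    have r2 := rn_eq 2 h0.le y
    rw [FT_der1 h0.le, e2, pow_one] at r1
    rw [FT_der2 h0.le, e2, I_sq] at r2
    have r1' : ((rn 1 τ y : ℝ) : ℂ) = -(2 * y) * deriv (FT τ) (-((y ^ 2 : ℝ) : ℂ)) := by
      rw [r1]
      have : I * I = -1 := I_mul_I
      linear_combination 2 * (y : ℂ) * deriv (FT τ) (-((y ^ 2 : ℝ) : ℂ)) * this
    have e3 : ((rn 2 τ y / rn 1 τ y : ℝ) : ℂ) = 1 / y - 4 * y * (deriv (deriv (FT τ)) (-((y ^ 2 : ℝ) : ℂ)) /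
        (2 * deriv (FT τ) (-((y ^ 2 : ℝ) : ℂ)))) := by
      rw [Complex.ofReal_div, r1', r2]
      push_cast at hF1 ⊢
      field_simp
      ring
    have e4 := congrArg Complex.re e3
    rw [Complex.ofReal_re] at e4
    rw [e4, Complex.sub_re]
    congr 1
    · rw [← Complex.ofReal_one, ← Complex.ofReal_div, Complex.ofReal_re]
    · have : (4 : ℂ) * (y : ℂ) = ((4 * y : ℝ) : ℂ) := by push_cast; ring
      rw [this, Complex.re_ofReal_mul]
  rw [e1] at h3
  refine h3.congr' ?_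
  filter_upwards [eventually_gt_atTop n] with M hM
  rw [vel_sym (YY_refl τ) (YY_mono RH h0.le h1) n hM, YY_nat, hy]
  simp only [YY_nat]

theorem flow_xi (RH : RiemannHypothesis) : Flow YY (1 / 8) := by
  refine ⟨fun τ h0 h1 => YY_mono RH h0.le h1.le, fun τ h0 h1 k => ?_, fun τ h0 h1 => ?_, fun τ h0 h1 => ?_⟩
  · rcases le_or_gt 0 k with h | h
    · obtain ⟨n, rfl⟩ := Int.eq_ofNat_of_zero_le h
      refine ⟨rn 2 τ (en (ZZ τ) n) / rn 1 τ (en (ZZ τ) n), ?_, vel_lim RH h0 h1.le n⟩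
      have h2 := en_der RH h0 h1 n
      refine h2.congr_of_eventuallyEq (Eventually.of_forall fun s => ?_)
      exact YY_nat s n
    · obtain ⟨n, hn⟩ := Int.eq_ofNat_of_zero_le (show 0 ≤ -k - 1 by omega)
      have hk : k = -(n : ℤ) - 1 := by omega
      refine ⟨-(rn 2 τ (en (ZZ τ) n) / rn 1 τ (en (ZZ τ) n)), ?_, ?_⟩
      · have h2 := (en_der RH h0 h1 n).neg
        refine h2.congr_of_eventuallyEq (Eventually.of_forall fun s => ?_)
        rw [hk]
        exact YY_neg s n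
      · refine (vel_lim RH h0 h1.le n).neg.congr (fun M => ?_)
        rw [hk, ← vel_refl (YY_refl τ)]
  · simp only [YY_nat]
    exact en_tendsto (ZZ_LF RH h0.le h1.le)
  · have h2 : Tendsto (fun n : ℕ => en (ZZ τ) n) atTop atTop := en_tendsto (ZZ_LF RH h0.le h1.le)
    rw [← tendsto_add_atTop_iff_nat 1]
    refine (tendsto_neg_atTop_atBot.comp h2).congr (fun n => ?_)
    simp only [Function.comp_def]
    rw [← YY_neg]
    congr 1
    push_cast
    ring

end Pool.Agent.P8H8.HF
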