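import Pool.Agent.P8H8.HF.Trans

set_option autoImplicit false

/-!
# The gaps at later times, and counting functions
-/

namespace Pool.Agent.P8H8.HF

open Filter Topology

/-- at all later times there are few large gaps -/
theorem crystal_late (RH : RiemannHypothesis) (κ : ℝ) (hκ : 0 < κ) (hκ1 : κ ≤ 1 / 2) : ∃ K1 : ℝ, 0 < K1 ∧
    ∀ᶠ T : ℝ in atTop, ∀ τ : ℝ, K1 ≤ τ * Real.log T ^ 2 → τ < 1 / 8 →
    ∀ N : ℕ, MT T / 2 ≤ N → (N : ℝ) ≤ 2 * MT T → ∑ k ∈ Finset.range N, max (gg T τ k - 1) 0 ≤ κ * N := by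
  obtain ⟨K1, hK1, hc⟩ := crystal RH (κ / 2) (by positivity) (by linarith)
  refine ⟨K1, hK1, ?_⟩
  have hlog4 : ∀ᶠ T : ℝ in atTop, Real.log T ^ 4 ≤ κ ^ 2 / 256 * T := by
    have h1 := (Real.isLittleO_pow_log_id_atTop (n := 4)).bound (show 0 < κ ^ 2 / 256 by positivity)
    filter_upwards [h1, eventually_ge_atTop 1] with T hT hT1
    rw [id, Real.norm_eq_abs, Real.norm_eq_abs, abs_of_nonneg (by linarith : (0 : ℝ) ≤ T)] at hT
    exact (le_abs_self _).trans hT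
  filter_upwards [hc K1 le_rfl, count_unif RH K1 (1 / 2) hK1 (by norm_num) le_rfl, lam_tendsto.eventually_ge_atTop 2,
    hlog4, time_ok hK1, eventually_ge_atTop 1] with T g1 g2 g3 g4 g5 g6
  intro τ hτ hτ8 N hN1 hN2
  have hlam0 : 0 < lam T := by linarith
  have hlamsq : 0 < lam T ^ 2 := by positivity
  have hpi := Real.pi_gt_three
  have hlogeq : lam T * (2 * Real.pi) = Real.log T := by
    unfold lam
    field_simp
  have hlog0 : 0 < Real.log T := by rw [← hlogeq]; positivity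
  have hlogsq : 0 < Real.log T ^ 2 := by positivity
  obtain ⟨τ3, hτ3⟩ : ∃ τ3, τ3 = K1 / Real.log T ^ 2 := ⟨_, rfl⟩
  have hτ3K : τ3 * Real.log T ^ 2 = K1 := by rw [hτ3]; exact div_mul_cancel₀ _ hlogsq.ne'
  have hτ30 : 0 < τ3 := by rw [hτ3]; positivity
  have hττ : τ3 ≤ τ := by rw [hτ3, div_le_iff₀ hlogsq]; exact hτ
  have hτ0 : 0 < τ := by linarith
  have hF := flow_s RH hlam0
  have hMT : T ≤ N := by
    have h1 : T * 2 ≤ T * lam T := mul_le_mul_of_nonneg_left g3 (by linarith)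
    rw [← MT_eq] at h1
    linarith
  have hN0 : (1 : ℝ) ≤ N := by linarith
  have hθ3 : 0 < τ3 * lam T ^ 2 := by positivity
  have hθ : τ3 * lam T ^ 2 ≤ τ * lam T ^ 2 := mul_le_mul_of_nonneg_right hττ hlamsq.le
  have hθR : τ * lam T ^ 2 < 1 / 8 * lam T ^ 2 := mul_lt_mul_of_pos_right hτ8 hlamsq
  obtain ⟨c1, -⟩ := g2 τ3 hτ30.le hτ3K.le N hN1 hN2
  rw [abs_le] at c1
  have e3 := YS_nat hlam0 hτ30 0
  simp only [Nat.cast_zero] at e3
  have hlen : ∀ t, τ3 * lam T ^ 2 ≤ t → t ≤ τ * lam T ^ 2 → YS T t N - YS T t 0 ≤ N * (2 + lam T) := by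
    intro t h1 h2
    have h3 := win_len hF (a := 0) (b := N) (by omega) hθ3 h1 h2 hθR
    rw [YS_nat hlam0 hτ30, e3] at h3
    have h4 : Real.sqrt (8 * (τ * lam T ^ 2 - τ3 * lam T ^ 2)) ≤ lam T := by
      rw [Real.sqrt_le_left hlam0.le]
      nlinarith
    simp only [sub_zero, Int.cast_natCast] at h3
    have h5 : (N : ℝ) * Real.sqrt (8 * (τ * lam T ^ 2 - τ3 * lam T ^ 2)) ≤ N * lam T :=
      mul_le_mul_of_nonneg_left h4 (by linarith)
    linarith [c1.2]
  have h1 := win_mono hF (s := 1) one_pos (a := 0) (b := N) (by omega) hθ3 hθ hθR hlen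
  have e1 : ∀ t : ℝ, 0 < t → ∑ k ∈ Finset.Ico (0 : ℤ) N, max (gp (YS T (t * lam T ^ 2)) k - 1) 0 =
      ∑ k ∈ Finset.range N, max (gg T t k - 1) 0 := by
    intro t ht
    rw [sum_int (fun k => max (gp (YS T (t * lam T ^ 2)) k - 1) 0)]
    apply Finset.sum_congr rfl
    intro k _
    rw [gp_YS hlam0 ht]
  rw [e1 τ hτ0, e1 τ3 hτ30, div_one, div_one] at h1
  have h2 : ∑ k ∈ Finset.range N, max (gg T τ3 k - 1) 0 ≤ κ / 2 * N := by
    refine le_trans (Finset.sum_le_sum fun k _ => ?_) (g1 τ3 hτ30 hτ3K.ge hτ3K.le N hN1 hN2)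
    exact max_le (le_abs_self _) (abs_nonneg _)
  have h3 : 16 * (τ * lam T ^ 2 - τ3 * lam T ^ 2) * Real.log (1 + N * (2 + lam T)) ≤ κ / 2 * N := by
    have hlamle : 2 + lam T ≤ N + 2 := by
      have h4 : lam T ≤ Real.log T := by rw [← hlogeq]; nlinarith
      have h5 := Real.log_le_sub_one_of_pos (show 0 < T by linarith)
      linarith
    have h4 : Real.log (1 + N * (2 + lam T)) ≤ 4 * Real.sqrt N := by
      have h5 : 1 + (N : ℝ) * (2 + lam T) ≤ (1 + N) ^ 2 := by nlinarith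
      have h6 : Real.log (1 + N * (2 + lam T)) ≤ Real.log ((1 + N) ^ 2) :=
        Real.log_le_log (by positivity) h5
      rw [Real.log_pow] at h6
      have h7 := log_le_two_sqrt (show (0 : ℝ) ≤ N by linarith)
      push_cast at h6
      linarith
    have h5 : 16 * (τ * lam T ^ 2 - τ3 * lam T ^ 2) ≤ 2 * lam T ^ 2 := by
      have : τ * lam T ^ 2 ≤ 1 / 8 * lam T ^ 2 := hθR.le
      linarith
    have hsq : 0 ≤ Real.sqrt (N : ℝ) := Real.sqrt_nonneg _
    have h6 : 16 * (τ * lam T ^ 2 - τ3 * lam T ^ 2) * Real.log (1 + N * (2 + lam T)) ≤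
        2 * lam T ^ 2 * (4 * Real.sqrt N) := by
      apply mul_le_mul h5 h4 _ (by positivity)
      apply Real.log_nonneg
      have : 0 ≤ (N : ℝ) * (2 + lam T) := by positivity
      linarith
    refine h6.trans ?_
    have h7 : 16 * lam T ^ 2 ≤ κ * Real.sqrt N := by
      apply le_of_sq_le_sq _ (by positivity)
      rw [mul_pow, mul_pow, Real.sq_sqrt (by linarith)]
      have h8 : lam T ^ 4 ≤ Real.log T ^ 4 := by
        apply pow_le_pow_left₀ hlam0.le
        rw [← hlogeq]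
        nlinarith
      have h9 : κ ^ 2 / 256 * T ≤ κ ^ 2 / 256 * N := mul_le_mul_of_nonneg_left hMT (by positivity)
      nlinarith
    have h8 : (N : ℝ) = Real.sqrt N * Real.sqrt N := (Real.mul_self_sqrt (by linarith)).symm
    have h9 : 16 * lam T ^ 2 * Real.sqrt N ≤ κ * Real.sqrt N * Real.sqrt N := mul_le_mul_of_nonneg_right h7 hsq
    nlinarith
  linarith
where
  le_of_sq_le_sq {a b : ℝ} (h : a ^ 2 ≤ b ^ 2) (hb : 0 ≤ b) : a ≤ b := by
    by_contra hcon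
    rw [not_le] at hcon
    nlinarith

lemma GG_tendsto (RH : RiemannHypothesis) {τ : ℝ} (h0 : 0 ≤ τ) (h1 : τ ≤ 1 / 8) : Tendsto (GG τ) atTop atTop := by
  rcases h0.eq_or_lt with rfl | h
  · have h2 : GG 0 = fun n => SG.ord (n + 1) := funext GG_zero
    rw [h2]
    exact SG.ord_tendsto.comp (tendsto_add_atTop_nat 1)
  · have h2 : GG τ = en (ZZ τ) := funext (GG_pos_eq h)
    rw [h2]
    exact en_tendsto (ZZ_LF RH h0 h1)

/-- the number of zeros up to `T` at the time `τ` -/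
noncomputable def KK (τ T : ℝ) : ℕ := sInf {n : ℕ | T < GG τ n}

lemma KK_spec (RH : RiemannHypothesis) {τ : ℝ} (h0 : 0 ≤ τ) (h1 : τ ≤ 1 / 8) (T : ℝ) (k : ℕ) :
    GG τ k ≤ T ↔ k < KK τ T := by
  have hne : {n : ℕ | T < GG τ n}.Nonempty := by
    obtain ⟨n, hn⟩ := ((GG_tendsto RH h0 h1).eventually_gt_atTop T).exists
    exact ⟨n, hn⟩
  have hmem : T < GG τ (KK τ T) := Nat.sInf_mem hne
  constructor
  · intro h
    by_contra hcon
    rw [not_lt] at hcon
    have := GG_mono RH h0 h1 hcon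
    linarith
  · intro h
    have := Nat.notMem_of_lt_sInf (show k < sInf {n : ℕ | T < GG τ n} from h)
    rw [Set.mem_ofPred_eq, not_lt] at this
    exact this

/-- the asymptotics of the number of zeros -/
theorem KK_lim (RH : RiemannHypothesis) {K : ℝ} (hK : 0 < K) {τ : ℝ → ℝ} (h0 : ∀ T, 0 ≤ τ T)
    (hτ : ∀ᶠ T in atTop, τ T * Real.log T ^ 2 ≤ K) :
    Tendsto (fun T => (KK (τ T) T : ℝ) / MT T) atTop (𝓝 1) := by
  rw [Metric.tendsto_nhds]
  intro ε hε
  obtain ⟨η, hη⟩ : ∃ η, η = min (ε / 8) (1 / 8) := ⟨_, rfl⟩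
  have hη0 : 0 < η := by rw [hη]; positivity
  have hη1 : η ≤ 1 / 8 := by rw [hη]; exact min_le_right _ _
  have hη2 : η ≤ ε / 8 := by rw [hη]; exact min_le_left _ _
  filter_upwards [count_unif RH K η hK hη0 (by linarith), hτ, time_ok hK, lam_tendsto.eventually_ge_atTop 1,
    MT_tendsto.eventually_ge_atTop (16 / η)] with T g1 g2 g3 g4 g5
  obtain ⟨t1, -, -⟩ := g3 (τ T) (h0 T) g2
  have hlam0 : 0 < lam T := by linarith
  have hMη : 16 ≤ η * MT T := by
    rw [div_le_iff₀ hη0] at g5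
    linarith
  have hM0 : 128 ≤ MT T := by nlinarith
  have hGM : ∀ n, GG (τ T) n ≤ T ↔ lam T * GG (τ T) n ≤ MT T := by
    intro n
    rw [MT_eq, mul_comm T (lam T)]
    exact (mul_le_mul_iff_right₀ hlam0).symm
  -- upper bound
  obtain ⟨n, hn⟩ : ∃ n, n = ⌈(1 + 3 * η) * MT T⌉₊ := ⟨_, rfl⟩
  have hn1 : (1 + 3 * η) * MT T ≤ n := by rw [hn]; exact Nat.le_ceil _
  have hn2 : (n : ℝ) ≤ (1 + 3 * η) * MT T + 1 := by rw [hn]; exact (Nat.ceil_lt_add_one (by positivity)).le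
  have hup : KK (τ T) T ≤ n := by
    by_contra hcon
    rw [not_le] at hcon
    have h1 := (KK_spec RH (h0 T) t1.le T n).2 hcon
    rw [hGM] at h1
    obtain ⟨c1, c2⟩ := g1 (τ T) (h0 T) g2 n (by nlinarith) (by nlinarith)
    rw [abs_le] at c1
    have h2 : 0 ≤ lam T * GG (τ T) 0 := by
      have : 0 ≤ GG (τ T) 0 := by
        rcases (h0 T).eq_or_lt with h | h
        · rw [← h, GG_zero]
          exact (SG.ord_pos (by omega)).le
        · rw [GG_pos_eq h]
          exact (en_pos (ZZ_LF RH (h0 T) t1.le) 0).le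
      positivity
    have h3 : (1 - η) * n ≤ MT T := by nlinarith [c1.1]
    have h4 : (1 - η) * ((1 + 3 * η) * MT T) ≤ (1 - η) * n := mul_le_mul_of_nonneg_left hn1 (by linarith)
    nlinarith
  -- lower bound
  obtain ⟨m, hm⟩ : ∃ m, m = ⌊(1 - 3 * η) * MT T⌋₊ := ⟨_, rfl⟩
  have hm1 : (m : ℝ) ≤ (1 - 3 * η) * MT T := by
    rw [hm]
    exact Nat.floor_le (by
      apply mul_nonneg _ (by linarith)
      linarith)
  have hm2 : (1 - 3 * η) * MT T - 1 ≤ m := by
    rw [hm]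
    have := Nat.lt_floor_add_one ((1 - 3 * η) * MT T)
    linarith
  have hlo : m < KK (τ T) T := by
    rw [← KK_spec RH (h0 T) t1.le, hGM]
    obtain ⟨c1, c2⟩ := g1 (τ T) (h0 T) g2 m (by nlinarith) (by nlinarith)
    rw [abs_le] at c1
    have h3 : lam T * GG (τ T) m ≤ (1 + 2 * η) * m := by nlinarith [c1.2]
    have h4 : (1 + 2 * η) * (m : ℝ) ≤ (1 + 2 * η) * ((1 - 3 * η) * MT T) := mul_le_mul_of_nonneg_left hm1 (by linarith)
    nlinarith
  have hup' : (KK (τ T) T : ℝ) ≤ n := by exact_mod_cast hup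
  have hlo' : (m : ℝ) ≤ KK (τ T) T := by exact_mod_cast hlo.le
  have hMpos : 0 < MT T := by linarith
  rw [Real.dist_eq]
  have e : (KK (τ T) T : ℝ) / MT T - 1 = ((KK (τ T) T : ℝ) - MT T) / MT T := by field_simp
  rw [e, abs_div, abs_of_pos hMpos, div_lt_iff₀ hMpos, abs_lt]
  constructor <;> nlinarith

end Pool.Agent.P8H8.HF
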