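import Mathlib
import Pool.Agent.P8H8.HF.Flow

set_option autoImplicit false

/-!
# Arrays of gaps with a limiting law
-/

namespace Pool.Agent.P8H8.HF

open MeasureTheory Filter Topology

/-- a gap probability: `D0` is the integrated tail, `1 + D1` the distribution function -/
structure GD (D0 D1 : ℝ → ℝ) : Prop where
  d0 : ∀ s, HasDerivAt D0 (D1 s) s
  c1 : Continuous D1
  z0 : D0 0 = 1
  z1 : D1 0 = -1
  nn : ∀ s, 0 < s → 0 ≤ D0 s ∧ D0 s ≤ 1
  lim : Tendsto D0 atTop (𝓝 0)

/-- number of values in `(a, b]` -/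
noncomputable def cnt (g : ℕ → ℝ) (N : ℕ) (a b : ℝ) : ℕ := ((Finset.range N).filter (fun k => a < g k ∧ g k ≤ b)).card

/-- number of values up to `x` -/
noncomputable def cdf (g : ℕ → ℝ) (N : ℕ) (x : ℝ) : ℕ := ((Finset.range N).filter (fun k => g k ≤ x)).card

/-- law on intervals -/
def LA (D1 : ℝ → ℝ) (N : ℝ → ℕ) (g : ℝ → ℕ → ℝ) : Prop := ∀ a b : ℝ, 0 ≤ a → a < b →
  Tendsto (fun T : ℝ => (cnt (g T) (N T) a b : ℝ) / N T) atTop (𝓝 (D1 b - D1 a))

/-- law of the distribution functions -/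
def LC (D1 : ℝ → ℝ) (N : ℝ → ℕ) (g : ℝ → ℕ → ℝ) : Prop := ∀ x : ℝ, 0 ≤ x →
  Tendsto (fun T : ℝ => (cdf (g T) (N T) x : ℝ) / N T) atTop (𝓝 (1 + D1 x))

variable {D0 D1 : ℝ → ℝ}

lemma GD.step (h : GD D0 D1) {a b : ℝ} (hab : a < b) : ∃ c, a < c ∧ c < b ∧ D0 b - D0 a = D1 c * (b - a) := by
  obtain ⟨c, hc, e⟩ := exists_hasDerivAt_eq_slope D0 D1 hab
    (fun x _ => (h.d0 x).continuousAt.continuousWithinAt) (fun x _ => h.d0 x)
  refine ⟨c, hc.1, hc.2, ?_⟩
  rw [e]
  field_simp [show b - a ≠ 0 by intro h; linarith]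

lemma GD.nonneg (h : GD D0 D1) {s : ℝ} (hs : 0 ≤ s) : 0 ≤ D0 s ∧ D0 s ≤ 1 := by
  rcases hs.eq_or_lt with rfl | h1
  · rw [h.z0]; norm_num
  · exact h.nn s h1

lemma GD.nonpos (h : GD D0 D1) (hm : ∀ a b, 0 ≤ a → a < b → D1 a ≤ D1 b) {x : ℝ} (hx : 0 ≤ x) : D1 x ≤ 0 := by
  by_contra hcon
  rw [not_le] at hcon
  obtain ⟨c, h1, h2, h3⟩ := h.step (show x < x + 2 / D1 x by
    have : 0 < 2 / D1 x := by positivity
    linarith)
  have h4 := hm x c hx h1
  have h5 := h.nonneg (show 0 ≤ x + 2 / D1 x by positivity)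
  have h6 := h.nonneg hx
  have h7 : D1 x * (2 / D1 x) = 2 := by field_simp
  have h8 : D1 x * (x + 2 / D1 x - x) ≤ D1 c * (x + 2 / D1 x - x) := by
    apply mul_le_mul_of_nonneg_right h4
    have : 0 < 2 / D1 x := by positivity
    linarith
  have e : x + 2 / D1 x - x = 2 / D1 x := by ring
  rw [e] at h8 h3
  rw [h7] at h8
  linarith [h5.2, h6.1]

lemma GD.large (h : GD D0 D1) (_hm : ∀ a b, 0 ≤ a → a < b → D1 a ≤ D1 b) {ε : ℝ} (hε : 0 < ε) (x0 : ℝ) :
    ∃ B, x0 < B ∧ 0 < B ∧ -ε < D1 B := by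
  obtain ⟨a, ha⟩ : ∃ a, a = max x0 0 := ⟨_, rfl⟩
  have ha0 : 0 ≤ a := by rw [ha]; exact le_max_right _ _
  have ha1 : x0 ≤ a := by rw [ha]; exact le_max_left _ _
  obtain ⟨c, h1, h2, h3⟩ := h.step (show a < a + 2 / ε by
    have : 0 < 2 / ε := by positivity
    linarith)
  refine ⟨c, by linarith, by linarith, ?_⟩
  by_contra hcon
  rw [not_lt] at hcon
  have h5 := h.nonneg (show 0 ≤ a + 2 / ε by positivity)
  have h6 := h.nonneg ha0
  have e : a + 2 / ε - a = 2 / ε := by ring
  rw [e] at h3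
  have h7 : D1 c * (2 / ε) ≤ -ε * (2 / ε) := mul_le_mul_of_nonneg_right hcon (by positivity)
  have h8 : -ε * (2 / ε) = -2 := by field_simp
  linarith [h5.1, h6.2]

lemma GD.ge (h : GD D0 D1) (hm : ∀ a b, 0 ≤ a → a < b → D1 a ≤ D1 b) {x : ℝ} (hx : 0 ≤ x) : -1 ≤ D1 x := by
  rcases hx.eq_or_lt with rfl | h1
  · rw [h.z1]
  · have := hm 0 x le_rfl h1
    rw [h.z1] at this
    exact this

/-- the value at one is positive -/
lemma GD.one (h : GD D0 D1) (hm : ∀ a b, 0 ≤ a → a < b → D1 a ≤ D1 b) : 0 < D0 1 := by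
  by_contra hcon
  have h0 : D0 1 = 0 := le_antisymm (not_lt.1 hcon) (h.nonneg zero_le_one).1
  have hmin : IsLocalMin D0 1 := by
    filter_upwards [lt_mem_nhds (show (0 : ℝ) < 1 by norm_num)] with x hx
    rw [h0]
    exact (h.nonneg hx.le).1
  have h1 : D1 1 = 0 := hmin.hasDerivAt_eq_zero (h.d0 1)
  have hev : ∀ᶠ x in 𝓝 (1 : ℝ), -(1 / 2) < D1 x := by
    have h2 := h.c1.tendsto 1
    rw [h1] at h2
    exact h2.eventually (lt_mem_nhds (by norm_num))
  have hev2 : ∀ᶠ x in 𝓝[<] (1 : ℝ), -(1 / 2) < D1 x := nhdsWithin_le_nhds hev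
  have hev3 : ∀ᶠ x in 𝓝[<] (1 : ℝ), 0 < x ∧ x < 1 := Ioo_mem_nhdsLT (by norm_num)
  obtain ⟨x, hx, hx0, hx1⟩ := (hev2.and hev3).exists
  obtain ⟨c, c1, c2, c3⟩ := h.step hx1
  obtain ⟨d, d1, d2, d3⟩ := h.step hx0
  have h3 := hm x c hx0.le c1
  have h4 := h.ge hm d1.le
  rw [h.z0, sub_zero] at d3
  rw [h0] at c3
  have h5 : -1 * x ≤ D1 d * x := mul_le_mul_of_nonneg_right h4 hx0.le
  have h6 : -(1 / 2) * (1 - x) ≤ D1 c * (1 - x) := mul_le_mul_of_nonneg_right (by linarith) (by linarith)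
  linarith

lemma LA.mono {N : ℝ → ℕ} {g : ℝ → ℕ → ℝ} (h : LA D1 N g) : ∀ a b, 0 ≤ a → a < b → D1 a ≤ D1 b := by
  intro a b ha hab
  have h1 := ge_of_tendsto (h a b ha hab) (Eventually.of_forall fun T => by positivity : ∀ᶠ T : ℝ in atTop,
    (0 : ℝ) ≤ (cnt (g T) (N T) a b : ℝ) / N T)
  linarith

lemma cdf_cnt (g : ℕ → ℝ) (N : ℕ) {a b : ℝ} (hab : a ≤ b) : cdf g N b = cdf g N a + cnt g N a b := by
  classical
  unfold cdf cnt
  rw [← Finset.card_union_of_disjoint]
  · congr 1
    ext k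
    simp only [Finset.mem_filter, Finset.mem_union]
    constructor
    · rintro ⟨h1, h2⟩
      rcases le_or_gt (g k) a with h3 | h3
      · left; exact ⟨h1, h3⟩
      · right; exact ⟨h1, h3, h2⟩
    · rintro (⟨h1, h2⟩ | ⟨h1, h2, h3⟩)
      · exact ⟨h1, h2.trans hab⟩
      · exact ⟨h1, h3⟩
  · rw [Finset.disjoint_left]
    intro k h1 h2
    rw [Finset.mem_filter] at h1 h2
    linarith [h1.2, h2.2.1]

lemma cdf_le (g : ℕ → ℝ) (N : ℕ) (x : ℝ) : cdf g N x ≤ N := by
  unfold cdf
  refine (Finset.card_filter_le _ _).trans (le_of_eq (Finset.card_range N))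

lemma cdf_mono (g : ℕ → ℝ) (N : ℕ) : Monotone (cdf g N) := by
  intro x y hxy
  rw [cdf_cnt g N hxy]
  omega

theorem LA.toLC (h : GD D0 D1) {N : ℝ → ℕ} {g : ℝ → ℕ → ℝ} (hN : ∀ᶠ T in atTop, 0 < N T) (hLA : LA D1 N g) :
    LC D1 N g := by
  have hm := hLA.mono
  intro x hx
  rw [Metric.tendsto_nhds]
  intro ε hε
  obtain ⟨B, hB1, hB0, hB2⟩ := h.large hm (show 0 < ε / 3 by positivity) x
  have h1 := (Metric.tendsto_nhds.1 (hLA x B hx hB1)) (ε / 3) (by positivity)
  have h2 : ∀ᶠ T : ℝ in atTop, 1 + D1 x - ε / 3 < (cdf (g T) (N T) x : ℝ) / N T := by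
    rcases hx.eq_or_lt with rfl | hx'
    · rw [h.z1]
      filter_upwards with T
      have : (0 : ℝ) ≤ (cdf (g T) (N T) 0 : ℝ) / N T := by positivity
      linarith
    · filter_upwards [(Metric.tendsto_nhds.1 (hLA 0 x le_rfl hx')) (ε / 3) (by positivity), hN] with T hT hT2
      rw [Real.dist_eq, abs_lt, h.z1] at hT
      have h3 : (cnt (g T) (N T) 0 x : ℝ) / N T ≤ (cdf (g T) (N T) x : ℝ) / N T := by
        apply div_le_div_of_nonneg_right _ (Nat.cast_nonneg _)
        rw [cdf_cnt (g T) (N T) hx]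
        push_cast
        linarith [(Nat.cast_nonneg (cdf (g T) (N T) 0) : (0 : ℝ) ≤ _)]
      linarith [hT.1]
  filter_upwards [h1, h2, hN] with T g1 g2 g3
  have hN0 : (0 : ℝ) < N T := by exact_mod_cast g3
  rw [Real.dist_eq, abs_lt] at g1 ⊢
  refine ⟨by linarith, ?_⟩
  have h3 : (cdf (g T) (N T) x : ℝ) / N T + (cnt (g T) (N T) x B : ℝ) / N T ≤ 1 := by
    rw [← add_div, div_le_one hN0]
    have := cdf_cnt (g T) (N T) hB1.le
    have h4 := cdf_le (g T) (N T) B
    rw [this] at h4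
    exact_mod_cast h4
  linarith [g1.1]

theorem LC.toLA {N : ℝ → ℕ} {g : ℝ → ℕ → ℝ} (hLC : LC D1 N g) : LA D1 N g := by
  intro a b ha hab
  have h1 := (hLC b (by linarith)).sub (hLC a ha)
  have e : 1 + D1 b - (1 + D1 a) = D1 b - D1 a := by ring
  rw [e] at h1
  refine h1.congr (fun T => ?_)
  rw [cdf_cnt (g T) (N T) hab.le]
  push_cast
  ring

/-- transfer to a close array -/
theorem LC.close (h : GD D0 D1) {N : ℝ → ℕ} {g g' : ℝ → ℕ → ℝ} (hN : ∀ᶠ T in atTop, 0 < N T)
    (hLC : LC D1 N g)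
    (hc : ∀ ε : ℝ, 0 < ε → ∀ᶠ T in atTop, ∑ k ∈ Finset.range (N T), |g' T k - g T k| ≤ ε * N T) : LC D1 N g' := by
  classical
  -- comparison of the distribution functions
  have hcmp : ∀ δ ε : ℝ, 0 < δ → 0 < ε → ∀ᶠ T in atTop, ∀ x : ℝ,
      (cdf (g' T) (N T) x : ℝ) / N T ≤ (cdf (g T) (N T) (x + δ) : ℝ) / N T + ε ∧
      (cdf (g T) (N T) x : ℝ) / N T ≤ (cdf (g' T) (N T) (x + δ) : ℝ) / N T + ε := by
    intro δ ε hδ hε
    filter_upwards [hc (δ * ε) (by positivity), hN] with T hT hT2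
    have hN0 : (0 : ℝ) < N T := by exact_mod_cast hT2
    have hbad : (((Finset.range (N T)).filter (fun k => δ < |g' T k - g T k|)).card : ℝ) ≤ ε * N T := by
      have h1 : δ * (((Finset.range (N T)).filter (fun k => δ < |g' T k - g T k|)).card : ℝ) ≤
          ∑ k ∈ Finset.range (N T), |g' T k - g T k| := by
        calc δ * (((Finset.range (N T)).filter (fun k => δ < |g' T k - g T k|)).card : ℝ)
            = ∑ k ∈ (Finset.range (N T)).filter (fun k => δ < |g' T k - g T k|), δ := by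
              rw [Finset.sum_const, nsmul_eq_mul]; ring
          _ ≤ ∑ k ∈ (Finset.range (N T)).filter (fun k => δ < |g' T k - g T k|), |g' T k - g T k| := by
              refine Finset.sum_le_sum fun k hk => ?_
              rw [Finset.mem_filter] at hk
              exact hk.2.le
          _ ≤ _ := Finset.sum_le_sum_of_subset_of_nonneg (Finset.filter_subset _ _) (fun k _ _ => abs_nonneg _)
      have h2 : δ * (((Finset.range (N T)).filter (fun k => δ < |g' T k - g T k|)).card : ℝ) ≤ δ * (ε * N T) := by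
        linarith
      exact le_of_mul_le_mul_left h2 hδ
    have key : ∀ (u v : ℕ → ℝ), (∀ k, |v k - u k| = |g' T k - g T k|) → ∀ x,
        (cdf v (N T) x : ℝ) / N T ≤ (cdf u (N T) (x + δ) : ℝ) / N T + ε := by
      intro u v huv x
      have h1 : (Finset.range (N T)).filter (fun k => v k ≤ x) ⊆
          (Finset.range (N T)).filter (fun k => u k ≤ x + δ) ∪
          (Finset.range (N T)).filter (fun k => δ < |g' T k - g T k|) := by
        intro k hk
        rw [Finset.mem_filter] at hk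
        rw [Finset.mem_union, Finset.mem_filter, Finset.mem_filter]
        rcases lt_or_ge δ |g' T k - g T k| with h2 | h2
        · right; exact ⟨hk.1, h2⟩
        · left
          refine ⟨hk.1, ?_⟩
          rw [← huv k, abs_le] at h2
          linarith [h2.1, hk.2]
      have h2 := (Finset.card_le_card h1).trans (Finset.card_union_le _ _)
      have h3 : (cdf v (N T) x : ℝ) ≤ cdf u (N T) (x + δ) +
          (((Finset.range (N T)).filter (fun k => δ < |g' T k - g T k|)).card : ℝ) := by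
        unfold cdf
        exact_mod_cast h2
      rw [div_le_iff₀ hN0, add_mul, div_mul_cancel₀ _ hN0.ne']
      linarith
    intro x
    exact ⟨key (g T) (g' T) (fun k => rfl) x, key (g' T) (g T) (fun k => abs_sub_comm _ _) x⟩
  intro x hx
  rw [Metric.tendsto_nhds]
  intro ε hε
  -- continuity
  obtain ⟨δ, hδ, hδ1⟩ : ∃ δ > 0, ∀ y, |y - x| ≤ δ → |D1 y - D1 x| < ε / 4 := by
    obtain ⟨δ, hδ, h1⟩ := Metric.continuous_iff.1 h.c1 x (ε / 4) (by positivity)
    refine ⟨δ / 2, by positivity, fun y hy => ?_⟩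
    have := h1 y (by rw [Real.dist_eq]; linarith)
    rwa [Real.dist_eq] at this
  have h1 := (Metric.tendsto_nhds.1 (hLC (x + δ) (by linarith))) (ε / 4) (by positivity)
  have h2 : ∀ᶠ T in atTop, 1 + D1 x - ε / 2 < (cdf (g T) (N T) (x - δ) : ℝ) / N T + ε / 4 ∨ x < δ := by
    rcases lt_or_ge x δ with h3 | h3
    · exact Eventually.of_forall fun T => Or.inr h3
    · filter_upwards [(Metric.tendsto_nhds.1 (hLC (x - δ) (by linarith))) (ε / 4) (by positivity)] with T hT
      left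
      rw [Real.dist_eq, abs_lt] at hT
      have h4 := hδ1 (x - δ) (by rw [show x - δ - x = -δ by ring, abs_neg, abs_of_pos hδ])
      rw [abs_lt] at h4
      linarith [hT.1, h4.1]
  filter_upwards [hcmp δ (ε / 4) hδ (by positivity), h1, h2, hN] with T g1 g2 g3 g4
  rw [Real.dist_eq, abs_lt] at g2 ⊢
  have h4 := hδ1 (x + δ) (by rw [show x + δ - x = δ by ring, abs_of_pos hδ])
  rw [abs_lt] at h4
  refine ⟨?_, by linarith [(g1 x).1, g2.2, h4.2]⟩
  rcases g3 with h5 | h5
  · have h6 := (g1 (x - δ)).2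
    rw [sub_add_cancel] at h6
    linarith
  · -- `x < δ`: the limit itself is small
    have h6 := hδ1 0 (by rw [zero_sub, abs_neg, abs_of_nonneg hx]; exact h5.le)
    rw [h.z1, abs_lt] at h6
    have h7 : (0 : ℝ) ≤ (cdf (g' T) (N T) x : ℝ) / N T := by positivity
    linarith [h6.1, h6.2]

/-- `min` as an integral -/
lemma min_int {x u : ℝ} (hx : 0 ≤ x) (hu : 0 ≤ u) : ∫ y in (0 : ℝ)..u, (if y < x then (1 : ℝ) else 0) = min x u := by
  have hI : IntervalIntegrable (fun y : ℝ => if y < x then (1 : ℝ) else 0) volume 0 (min x u) ∧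
      IntervalIntegrable (fun y : ℝ => if y < x then (1 : ℝ) else 0) volume (min x u) u := by
    have hanti : Antitone (fun y : ℝ => if y < x then (1 : ℝ) else 0) := by
      intro a b hab
      simp only
      split_ifs with h1 h2
      · exact le_rfl
      · exfalso; exact h2 (by linarith)
      · exact zero_le_one
      · exact le_rfl
    exact ⟨hanti.intervalIntegrable, hanti.intervalIntegrable⟩
  rw [← intervalIntegral.integral_add_adjacent_intervals hI.1 hI.2]
  have h0 : 0 ≤ min x u := le_min hx hu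
  have e1 : ∫ y in (0 : ℝ)..(min x u), (if y < x then (1 : ℝ) else 0) = ∫ _y in (0 : ℝ)..(min x u), (1 : ℝ) := by
    apply intervalIntegral.integral_congr_ae
    have hne : ∀ᵐ y : ℝ, y ≠ x := by
      rw [ae_iff]
      simp
    filter_upwards [hne] with y hy hy2
    rw [Set.uIoc_of_le h0] at hy2
    have : y < x := lt_of_le_of_ne (hy2.2.trans (min_le_left _ _)) hy
    rw [if_pos this]
  have e2 : ∫ y in (min x u)..u, (if y < x then (1 : ℝ) else 0) = 0 := by
    rcases le_total x u with h1 | h1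
    · rw [min_eq_left h1]
      apply intervalIntegral.integral_zero_ae
      refine Eventually.of_forall fun y hy => ?_
      rw [Set.uIoc_of_le h1] at hy
      rw [if_neg (not_lt.2 hy.1.le)]
    · rw [min_eq_right h1, intervalIntegral.integral_same]
  rw [e1, e2, intervalIntegral.integral_const]
  simp

/-- the mean residual function -/
theorem res_lim (h : GD D0 D1) {N : ℝ → ℕ} {g : ℝ → ℕ → ℝ} (hN : ∀ᶠ T in atTop, 0 < N T)
    (hg : ∀ᶠ T in atTop, ∀ k, 0 ≤ g T k) (hLC : LC D1 N g)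
    (hmean : Tendsto (fun T => (∑ k ∈ Finset.range (N T), g T k) / N T) atTop (𝓝 1)) {u : ℝ} (hu : 0 ≤ u) :
    Tendsto (fun T => (∑ k ∈ Finset.range (N T), max (g T k - u) 0) / N T) atTop (𝓝 (D0 u)) := by
  classical
  have h1 : Tendsto (fun T => ∫ y in (0 : ℝ)..u, (1 - (cdf (g T) (N T) y : ℝ) / N T)) atTop
      (𝓝 (∫ y in (0 : ℝ)..u, (1 - (1 + D1 y)))) := by
    apply intervalIntegral.tendsto_integral_filter_of_dominated_convergence (fun _ => 1)
    · refine Eventually.of_forall fun T => ?_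
      have : Monotone (fun y => (cdf (g T) (N T) y : ℝ)) := fun a b hab => by
        show (cdf (g T) (N T) a : ℝ) ≤ cdf (g T) (N T) b
        exact_mod_cast cdf_mono (g T) (N T) hab
      exact (measurable_const.sub (this.measurable.div_const _)).aestronglyMeasurable
    · filter_upwards [hN] with T hT
      refine Eventually.of_forall fun y _ => ?_
      have hN0 : (0 : ℝ) < N T := by exact_mod_cast hT
      have h2 : (cdf (g T) (N T) y : ℝ) / N T ≤ 1 := by
        rw [div_le_one hN0]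
        exact_mod_cast cdf_le (g T) (N T) y
      have h3 : (0 : ℝ) ≤ (cdf (g T) (N T) y : ℝ) / N T := by positivity
      rw [Real.norm_eq_abs, abs_le]
      constructor <;> linarith
    · exact intervalIntegrable_const
    · refine Eventually.of_forall fun y hy => ?_
      rw [Set.uIoc_of_le hu] at hy
      exact (hLC y hy.1.le).const_sub 1
  have e1 : ∫ y in (0 : ℝ)..u, (1 - (1 + D1 y)) = 1 - D0 u := by
    have h2 : ∫ y in (0 : ℝ)..u, D1 y = D0 u - D0 0 :=
      intervalIntegral.integral_eq_sub_of_hasDerivAt (fun x _ => h.d0 x) (h.c1.intervalIntegrable _ _)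
    have h3 : ∫ y in (0 : ℝ)..u, (1 - (1 + D1 y)) = ∫ y in (0 : ℝ)..u, -(D1 y) := by
      congr 1
      funext y
      ring
    rw [h3, intervalIntegral.integral_neg, h2, h.z0]
    ring
  rw [e1] at h1
  have h2 := hmean.sub h1
  have e2 : 1 - (1 - D0 u) = D0 u := by ring
  rw [e2] at h2
  refine h2.congr' ?_
  filter_upwards [hN, hg] with T hT hgT
  have hN0 : (0 : ℝ) < N T := by exact_mod_cast hT
  have e3 : ∀ y : ℝ, 1 - (cdf (g T) (N T) y : ℝ) / N T =
      (∑ k ∈ Finset.range (N T), (if y < g T k then (1 : ℝ) else 0)) / N T := by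
    intro y
    have h3 : (cdf (g T) (N T) y : ℝ) + ∑ k ∈ Finset.range (N T), (if y < g T k then (1 : ℝ) else 0) = N T := by
      unfold cdf
      rw [← Finset.sum_filter, Finset.sum_const, nsmul_eq_mul, mul_one]
      have h4 := Finset.card_filter_add_card_filter_not (s := Finset.range (N T)) (fun k => g T k ≤ y)
      rw [Finset.card_range] at h4
      simp only [not_le] at h4
      exact_mod_cast h4
    rw [eq_div_iff hN0.ne', sub_mul, div_mul_cancel₀ _ hN0.ne', one_mul]
    linarith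
  have e4 : ∫ y in (0 : ℝ)..u, (1 - (cdf (g T) (N T) y : ℝ) / N T) =
      (∑ k ∈ Finset.range (N T), min (g T k) u) / N T := by
    simp_rw [e3]
    rw [intervalIntegral.integral_div, intervalIntegral.integral_finsetSum]
    · congr 1
      apply Finset.sum_congr rfl
      intro k _
      exact min_int (hgT k) hu
    · intro k _
      have hanti : Antitone (fun y : ℝ => if y < g T k then (1 : ℝ) else 0) := by
        intro a b hab
        simp only
        split_ifs with h1 h2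
        · exact le_rfl
        · exfalso; exact h2 (by linarith)
        · exact zero_le_one
        · exact le_rfl
      exact hanti.intervalIntegrable
  rw [e4, ← sub_div, ← Finset.sum_sub_distrib]
  congr 1
  apply Finset.sum_congr rfl
  intro k _
  rcases le_total (g T k) u with h5 | h5
  · rw [min_eq_left h5, max_eq_right (by linarith)]
    ring
  · rw [min_eq_right h5, max_eq_left (by linarith)]

end Pool.Agent.P8H8.HF
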