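import Pool.Agent.P8H8.HF.Law

set_option autoImplicit false

/-!
# Arrays of gaps with a limiting law, continued
-/

namespace Pool.Agent.P8H8.HF

open MeasureTheory Filter Topology

variable {D0 D1 : ℝ → ℝ}

/-- the primitive as a mixture of residuals -/
lemma prim_int {s h x : ℝ} (hs : 0 ≤ s) (hh : 0 ≤ h) : prim s h x = ∫ u in s..(s + h), max (x - u) 0 := by
  have hr : ∀ t : ℝ, ramp s h t = max (t - s) 0 - max (t - (s + h)) 0 := by
    intro t
    unfold ramp
    rcases le_total t s with h1 | h1
    · rw [max_eq_right (by linarith), max_eq_right (by linarith), min_eq_left hh]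
      ring
    · rw [max_eq_left (by linarith)]
      rcases le_total t (s + h) with h2 | h2
      · rw [max_eq_right (by linarith), min_eq_left (by linarith)]
        ring
      · rw [max_eq_left (by linarith), min_eq_right (by linarith)]
        ring
  have hI : ∀ a b c : ℝ, IntervalIntegrable (fun t : ℝ => max (t - c) 0) volume a b := fun a b c =>
    Continuous.intervalIntegrable (by fun_prop) _ _
  have hI0 : ∀ a b : ℝ, IntervalIntegrable (fun t : ℝ => max t 0) volume a b := fun a b =>
    Continuous.intervalIntegrable (by fun_prop) _ _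
  have hshift : ∀ c : ℝ, 0 ≤ c → ∫ t in (0 : ℝ)..x, max (t - c) 0 = ∫ t in (0 : ℝ)..(x - c), max t 0 := by
    intro c hc
    rw [intervalIntegral.integral_comp_sub_right (fun t => max t 0) c]
    have h1 : ∫ t in (0 - c)..(0 : ℝ), max t 0 = 0 := by
      apply intervalIntegral.integral_zero_ae
      refine Eventually.of_forall fun t ht => ?_
      rw [Set.uIoc_of_le (by linarith)] at ht
      exact max_eq_right ht.2
    rw [← intervalIntegral.integral_add_adjacent_intervals (hI0 (0 - c) 0) (hI0 0 (x - c)), h1, zero_add]
  unfold prim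
  simp_rw [hr]
  rw [intervalIntegral.integral_sub (hI _ _ _) (hI _ _ _), hshift s hs, hshift (s + h) (by linarith),
    intervalIntegral.integral_comp_sub_left (fun t => max t 0) x,
    ← intervalIntegral.integral_add_adjacent_intervals (hI0 0 (x - (s + h))) (hI0 (x - (s + h)) (x - s))]
  ring

theorem prim_lim (h : GD D0 D1) {N : ℝ → ℕ} {g : ℝ → ℕ → ℝ} (hN : ∀ᶠ T in atTop, 0 < N T)
    (hg : ∀ᶠ T in atTop, ∀ k, 0 ≤ g T k) (hLC : LC D1 N g)
    (hmean : Tendsto (fun T => (∑ k ∈ Finset.range (N T), g T k) / N T) atTop (𝓝 1)) {s l : ℝ} (hs : 0 ≤ s)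
    (hl : 0 ≤ l) :
    Tendsto (fun T => (∑ k ∈ Finset.range (N T), prim s l (g T k)) / N T) atTop (𝓝 (∫ u in s..(s + l), D0 u)) := by
  have h1 : Tendsto (fun T => ∫ u in s..(s + l), (∑ k ∈ Finset.range (N T), max (g T k - u) 0) / (N T : ℝ)) atTop
      (𝓝 (∫ u in s..(s + l), D0 u)) := by
    apply intervalIntegral.tendsto_integral_filter_of_dominated_convergence (fun _ => 2)
    · refine Eventually.of_forall fun T => ?_
      apply Continuous.aestronglyMeasurable
      fun_prop
    · filter_upwards [hN, hg, hmean.eventually (gt_mem_nhds (show (1 : ℝ) < 2 by norm_num))] with T hT hgT hm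
      refine Eventually.of_forall fun u hu => ?_
      rw [Set.uIoc_of_le (by linarith)] at hu
      have hu0 : 0 ≤ u := by linarith [hu.1]
      have hN0 : (0 : ℝ) < N T := by exact_mod_cast hT
      have h2 : ∑ k ∈ Finset.range (N T), max (g T k - u) 0 ≤ ∑ k ∈ Finset.range (N T), g T k := by
        refine Finset.sum_le_sum fun k _ => ?_
        exact max_le (by linarith) (hgT k)
      have h3 : 0 ≤ ∑ k ∈ Finset.range (N T), max (g T k - u) 0 := Finset.sum_nonneg fun k _ => le_max_right _ _
      rw [Real.norm_eq_abs, abs_of_nonneg (by positivity)]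
      exact (div_le_div_of_nonneg_right h2 hN0.le).trans hm.le
    · exact intervalIntegrable_const
    · refine Eventually.of_forall fun u hu => ?_
      rw [Set.uIoc_of_le (by linarith)] at hu
      exact res_lim h hN hg hLC hmean (by linarith [hu.1])
  refine h1.congr (fun T => ?_)
  rw [intervalIntegral.integral_div, intervalIntegral.integral_finsetSum]
  · congr 1
    apply Finset.sum_congr rfl
    intro k _
    rw [prim_int hs hl]
  · intro k _
    exact Continuous.intervalIntegrable (by fun_prop) _ _

/-- change of the length of the array -/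
theorem LC.reidx {N N' : ℝ → ℕ} {g : ℝ → ℕ → ℝ} (hN : ∀ᶠ T in atTop, 0 < N T)
    (hLC : LC D1 N g) (hNN : Tendsto (fun T => (N' T : ℝ) / N T) atTop (𝓝 1)) : LC D1 N' g := by
  classical
  intro x hx
  -- the numerators over the old length
  have h1 : Tendsto (fun T => (cdf (g T) (N' T) x : ℝ) / N T) atTop (𝓝 (1 + D1 x)) := by
    have h2 : Tendsto (fun T => (cdf (g T) (N' T) x : ℝ) / N T - (cdf (g T) (N T) x : ℝ) / N T) atTop (𝓝 0) := by
      have h3 : Tendsto (fun T => |(N' T : ℝ) / N T - 1|) atTop (𝓝 0) := by
        have h4 := (hNN.sub_const 1).abs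
        rw [sub_self, abs_zero] at h4
        exact h4
      refine squeeze_zero_norm' ?_ h3
      filter_upwards [hN] with T hT
      have hN0 : (0 : ℝ) < N T := by exact_mod_cast hT
      have key : ∀ a b : ℕ, a ≤ b → cdf (g T) a x ≤ cdf (g T) b x ∧ cdf (g T) b x ≤ cdf (g T) a x + (b - a) := by
        intro a b hab
        unfold cdf
        constructor
        · apply Finset.card_le_card
          intro k hk
          rw [Finset.mem_filter, Finset.mem_range] at hk ⊢
          exact ⟨by omega, hk.2⟩
        · have h5 : (Finset.range b).filter (fun k => g T k ≤ x) ⊆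
              (Finset.range a).filter (fun k => g T k ≤ x) ∪ Finset.Ico a b := by
            intro k hk
            rw [Finset.mem_filter, Finset.mem_range] at hk
            rw [Finset.mem_union, Finset.mem_filter, Finset.mem_range, Finset.mem_Ico]
            rcases lt_or_ge k a with h6 | h6
            · left; exact ⟨h6, hk.2⟩
            · right; exact ⟨h6, hk.1⟩
          have h6 := (Finset.card_le_card h5).trans (Finset.card_union_le _ _)
          rwa [Nat.card_Ico] at h6
      have e : (N' T : ℝ) / N T - 1 = ((N' T : ℝ) - N T) / N T := by field_simp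
      rw [← sub_div, Real.norm_eq_abs, e, abs_div, abs_div]
      apply div_le_div_of_nonneg_right _ (abs_nonneg _)
      rcases le_total (N T) (N' T) with h4 | h4
      · obtain ⟨k1, k2⟩ := key _ _ h4
        have k1' : (cdf (g T) (N T) x : ℝ) ≤ cdf (g T) (N' T) x := by exact_mod_cast k1
        have k2' : (cdf (g T) (N' T) x : ℝ) ≤ cdf (g T) (N T) x + ((N' T : ℝ) - N T) := by
          rw [← Nat.cast_sub h4]
          exact_mod_cast k2
        have h5 : (N T : ℝ) ≤ N' T := by exact_mod_cast h4
        rw [abs_of_nonneg (by linarith), abs_of_nonneg (by linarith)]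
        linarith
      · obtain ⟨k1, k2⟩ := key _ _ h4
        have k1' : (cdf (g T) (N' T) x : ℝ) ≤ cdf (g T) (N T) x := by exact_mod_cast k1
        have k2' : (cdf (g T) (N T) x : ℝ) ≤ cdf (g T) (N' T) x + ((N T : ℝ) - N' T) := by
          rw [← Nat.cast_sub h4]
          exact_mod_cast k2
        have h5 : (N' T : ℝ) ≤ N T := by exact_mod_cast h4
        rw [abs_of_nonpos (by linarith), abs_of_nonpos (by linarith)]
        linarith
    have h3 := h2.add (hLC x hx)
    rw [zero_add] at h3
    refine h3.congr (fun T => by ring)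
  have h2 := h1.div hNN one_ne_zero
  rw [div_one] at h2
  refine h2.congr' ?_
  have hN' : ∀ᶠ T in atTop, (0 : ℝ) < (N' T : ℝ) / N T := hNN.eventually (lt_mem_nhds one_pos)
  filter_upwards [hN, hN'] with T hT hT'
  have hN0 : (0 : ℝ) < N T := by exact_mod_cast hT
  have hN1 : (0 : ℝ) < N' T := by
    by_contra hcon
    have : (N' T : ℝ) = 0 := le_antisymm (not_lt.1 hcon) (Nat.cast_nonneg _)
    rw [this, zero_div] at hT'
    exact lt_irrefl _ hT'
  simp only [Pi.div_apply]
  field_simp

end Pool.Agent.P8H8.HF
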