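import Pool.Agent.P8H8.HF.Had

set_option autoImplicit false

/-!
# The velocity of a zero as a symmetric series
-/

namespace Pool.Agent.P8H8.HF

open Complex Filter Topology MeasureTheory Set Metric
open Pool.Agent.H986R2.DBN (XT ker FT b1A)
open Pool.Agent.H24R2.JP (had_base had_lim)

/-- the cofactor tends to a constant -/
theorem fac_lim (RH : RiemannHypothesis) {τ : ℝ} (h0 : 0 < τ) (h1 : τ ≤ 1 / 8) : ∃ G : ℕ → ℂ → ℂ,
    (∀ N, Differentiable ℂ (G N)) ∧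
    (∀ (N : ℕ) (w : ℂ), FT τ w = (∏ j ∈ Finset.range (cn (ZZ τ) (Real.sqrt ((N : ℝ) + 1))),
      (1 + w / ((en (ZZ τ) j ^ 2 : ℝ) : ℂ))) * G N w) ∧
    ∀ r ε : ℝ, 0 < r → 0 < ε → ∀ᶠ N : ℕ in atTop, ∀ w : ℂ, ‖w‖ ≤ r → ‖G N w - FT τ 0‖ ≤ ε := by
  obtain ⟨K, hK0, hK⟩ := FT_growth h0.le
  choose G hG hF hL using fun N : ℕ => fac_disc RH h0 h1 hK hK0 (ρ := (N : ℝ) + 1) (by positivity)
  refine ⟨G, hG, hF, fun r ε hr hε => ?_⟩
  have hδ : 0 < min 1 (ε / (2 * (‖FT τ 0‖ + 1))) := by positivity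
  filter_upwards [had_lim hK0 hr (abs_nonneg (Real.log ‖FT τ 0‖)) hδ] with N hN w hw
  obtain ⟨hN1, hN2⟩ := hN
  have hwN : ‖w‖ < (N : ℝ) + 1 := by linarith
  obtain ⟨l, hl1, hl2⟩ := hL N w hwN
  have h5 : ‖w‖ / (((N : ℝ) + 1) - ‖w‖) ≤ r / (((N : ℝ) + 1) - r) := by
    apply div_le_div₀ hr.le hw (by linarith) (by linarith)
  have h6 : 0 ≤ 2 * (K * (1 + 2 * ((N : ℝ) + 1)) ^ (3/4 : ℝ) + |Real.log ‖FT τ 0‖|) := by positivity
  have h7 : ‖l‖ < min 1 (ε / (2 * (‖FT τ 0‖ + 1))) :=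
    lt_of_le_of_lt (hl2.trans (mul_le_mul_of_nonneg_left h5 h6)) hN2
  have h8 : ‖l‖ ≤ 1 := (h7.trans_le (min_le_left _ _)).le
  have h9 : ‖l‖ ≤ ε / (2 * (‖FT τ 0‖ + 1)) := (h7.trans_le (min_le_right _ _)).le
  rw [hl1]
  have e : FT τ 0 * cexp l - FT τ 0 = FT τ 0 * (cexp l - 1) := by ring
  rw [e, norm_mul]
  have h10 := Complex.norm_exp_sub_one_le h8
  rw [le_div_iff₀ (by positivity)] at h9
  calc ‖FT τ 0‖ * ‖cexp l - 1‖ ≤ (‖FT τ 0‖ + 1) * (2 * ‖l‖) := by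
        apply mul_le_mul _ h10 (norm_nonneg _) (by positivity)
        linarith
    _ = ‖l‖ * (2 * (‖FT τ 0‖ + 1)) := by ring
    _ ≤ ε := h9

lemma fac_two {F H : ℂ → ℂ} (hH : Differentiable ℂ H) {r : ℂ} (hr : r ≠ 0) (h : ∀ w, F w = (1 + w / r) * H w) :
    deriv F (-r) = H (-r) / r ∧ deriv (deriv F) (-r) = 2 * deriv H (-r) / r := by
  have hlin : ∀ w : ℂ, HasDerivAt (fun w : ℂ => 1 + w / r) (1 / r) w := fun w =>
    ((hasDerivAt_id w).div_const r).const_add 1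
  have hF : F = fun w => (1 + w / r) * H w := funext h
  have h1 : ∀ w, HasDerivAt F (1 / r * H w + (1 + w / r) * deriv H w) w := by
    intro w
    rw [hF]
    exact (hlin w).mul (hH w).hasDerivAt
  have h2 : deriv F = fun w => 1 / r * H w + (1 + w / r) * deriv H w := funext fun w => (h1 w).deriv
  have hH1 : Differentiable ℂ (deriv H) := fun w => ((hH.analyticAt w).deriv).differentiableAt
  have e0 : 1 + -r / r = 0 := by field_simp; ring
  constructor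
  · rw [(h1 (-r)).deriv, e0]
    ring
  · rw [h2]
    have h3 := ((hH (-r)).hasDerivAt.const_mul (1 / r)).add ((hlin (-r)).mul (hH1 (-r)).hasDerivAt)
    have h4 := h3.deriv
    rw [e0] at h4
    refine Eq.trans ?_ (h4.trans ?_)
    · rfl
    · ring

/-- the logarithmic derivative at a zero -/
theorem ratio_lim (RH : RiemannHypothesis) {τ : ℝ} (h0 : 0 < τ) (h1 : τ ≤ 1 / 8) (k : ℕ) :
    Tendsto (fun M : ℕ => ∑ j ∈ (Finset.range M).erase k, ((en (ZZ τ) j) ^ 2 - (en (ZZ τ) k) ^ 2)⁻¹) atTop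
      (𝓝 (deriv (deriv (FT τ)) (-((en (ZZ τ) k ^ 2 : ℝ) : ℂ)) /
        (2 * deriv (FT τ) (-((en (ZZ τ) k ^ 2 : ℝ) : ℂ)))).re) := by
  have hLF := ZZ_LF RH h0.le h1
  obtain ⟨G, hG, hF, hlim⟩ := fac_lim RH h0 h1
  obtain ⟨y, hy⟩ : ∃ y, y = en (ZZ τ) k := ⟨_, rfl⟩
  have hy0 : 0 < y := by rw [hy]; exact en_pos hLF k
  rw [← hy]
  have hyZ : y ∈ ZZ τ := by rw [hy]; exact (en_spec hLF k).1
  have hrc : ((y ^ 2 : ℝ) : ℂ) ≠ 0 := by exact_mod_cast (by positivity : y ^ 2 ≠ 0)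
  have hF0 := FT_zero_ne h0.le
  have hF1 := FT_simple RH h0 (by linarith) hyZ
  -- the counting function tends to infinity
  have hm : Tendsto (fun N : ℕ => cn (ZZ τ) (Real.sqrt ((N : ℝ) + 1))) atTop atTop := by
    rw [Filter.tendsto_atTop]
    intro b
    have h2 : Tendsto (fun N : ℕ => Real.sqrt ((N : ℝ) + 1)) atTop atTop :=
      Real.tendsto_sqrt_atTop.comp (tendsto_atTop_add_const_right _ _ tendsto_natCast_atTop_atTop)
    filter_upwards [h2.eventually_ge_atTop (en (ZZ τ) b)] with N hN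
    exact ((en_le_iff hLF b _).1 hN).le
  have hk : ∀ᶠ N : ℕ in atTop, k < cn (ZZ τ) (Real.sqrt ((N : ℝ) + 1)) := hm.eventually_gt_atTop k
  obtain ⟨c, hc⟩ : ∃ c, c = deriv (deriv (FT τ)) (-((y ^ 2 : ℝ) : ℂ)) / (2 * deriv (FT τ) (-((y ^ 2 : ℝ) : ℂ))) :=
    ⟨_, rfl⟩
  rw [← hc]
  -- the identity
  have hid : ∀ᶠ N : ℕ in atTop, c = (∑ j ∈ (Finset.range (cn (ZZ τ) (Real.sqrt ((N : ℝ) + 1)))).erase k,
      (((en (ZZ τ) j ^ 2 : ℝ) : ℂ) - ((y ^ 2 : ℝ) : ℂ))⁻¹) +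
      deriv (G N) (-((y ^ 2 : ℝ) : ℂ)) / G N (-((y ^ 2 : ℝ) : ℂ)) := by
    filter_upwards [hk] with N hN
    obtain ⟨J, hJ⟩ : ∃ J, J = (Finset.range (cn (ZZ τ) (Real.sqrt ((N : ℝ) + 1)))).erase k := ⟨_, rfl⟩
    rw [← hJ]
    obtain ⟨Q, hQ⟩ : ∃ Q : ℂ → ℂ, Q = fun w => ∏ j ∈ J, (1 + w / ((en (ZZ τ) j ^ 2 : ℝ) : ℂ)) := ⟨_, rfl⟩
    have hQd : Differentiable ℂ Q := by rw [hQ]; fun_prop
    have hH : Differentiable ℂ (fun w => Q w * G N w) := hQd.mul (hG N)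
    have hfac : ∀ w, FT τ w = (1 + w / ((y ^ 2 : ℝ) : ℂ)) * (Q w * G N w) := by
      intro w
      rw [hF N w, hQ, ← mul_assoc, hJ, hy]
      congr 1
      exact (Finset.mul_prod_erase _ (fun j => 1 + w / ((en (ZZ τ) j ^ 2 : ℝ) : ℂ)) (Finset.mem_range.2 hN)).symm
    obtain ⟨g1, g2⟩ := fac_two hH hrc hfac
    have hHne : Q (-((y ^ 2 : ℝ) : ℂ)) * G N (-((y ^ 2 : ℝ) : ℂ)) ≠ 0 := by
      intro h
      rw [h, zero_div] at g1
      exact hF1 g1
    have hQne : Q (-((y ^ 2 : ℝ) : ℂ)) ≠ 0 := left_ne_zero_of_mul hHne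
    have hGne : G N (-((y ^ 2 : ℝ) : ℂ)) ≠ 0 := right_ne_zero_of_mul hHne
    have e1 : c = logDeriv (fun w => Q w * G N w) (-((y ^ 2 : ℝ) : ℂ)) := by
      rw [hc, g1, g2, logDeriv_apply]
      field_simp
    rw [e1, logDeriv_mul _ hQne hGne hQd.differentiableAt (hG N).differentiableAt]
    congr 1
    rw [hQ, logDeriv_prod]
    · apply Finset.sum_congr rfl
      intro j hj
      have hj0 := en_pos hLF j
      have hjc : ((en (ZZ τ) j ^ 2 : ℝ) : ℂ) ≠ 0 := by exact_mod_cast (by positivity : en (ZZ τ) j ^ 2 ≠ 0)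
      have hne : ((en (ZZ τ) j ^ 2 : ℝ) : ℂ) - ((y ^ 2 : ℝ) : ℂ) ≠ 0 := by
        rw [← Complex.ofReal_sub]
        intro h
        have h2 : en (ZZ τ) j ^ 2 - y ^ 2 = 0 := by exact_mod_cast h
        have h3 : en (ZZ τ) j = y := (pow_left_inj₀ hj0.le hy0.le (two_ne_zero)).1 (by linarith)
        rw [hy] at h3
        have h4 := (en_strictMono hLF).injective h3
        rw [hJ, Finset.mem_erase] at hj
        exact hj.1 h4
      rw [logDeriv_apply]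
      have hd : HasDerivAt (fun w : ℂ => 1 + w / ((en (ZZ τ) j ^ 2 : ℝ) : ℂ)) (1 / ((en (ZZ τ) j ^ 2 : ℝ) : ℂ))
          (-((y ^ 2 : ℝ) : ℂ)) := ((hasDerivAt_id _).div_const _).const_add 1
      rw [hd.deriv]
      have e2 : 1 + -((y ^ 2 : ℝ) : ℂ) / ((en (ZZ τ) j ^ 2 : ℝ) : ℂ) =
          (((en (ZZ τ) j ^ 2 : ℝ) : ℂ) - ((y ^ 2 : ℝ) : ℂ)) / ((en (ZZ τ) j ^ 2 : ℝ) : ℂ) := by
        field_simp
        ring
      rw [e2]
      field_simp
    · intro j hj h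
      apply hQne
      rw [hQ]
      exact Finset.prod_eq_zero hj h
    · intro j hj
      fun_prop
  -- the error tends to zero
  have herr : Tendsto (fun N : ℕ => deriv (G N) (-((y ^ 2 : ℝ) : ℂ)) / G N (-((y ^ 2 : ℝ) : ℂ))) atTop (𝓝 0) := by
    have hnum : Tendsto (fun N : ℕ => deriv (G N) (-((y ^ 2 : ℝ) : ℂ))) atTop (𝓝 0) := by
      rw [Metric.tendsto_nhds]
      intro ε hε
      filter_upwards [hlim (y ^ 2 + 1) (ε / 2) (by positivity) (by positivity)] with N hN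
      rw [dist_zero_right]
      have h2 : ‖deriv (fun w => G N w - FT τ 0) (-((y ^ 2 : ℝ) : ℂ))‖ ≤ ε / 2 / 1 := by
        apply Complex.norm_deriv_le_of_forall_mem_sphere_norm_le one_pos
        · exact ((hG N).sub_const _).diffContOnCl
        · intro z hz
          apply hN
          rw [mem_sphere, dist_eq_norm] at hz
          have h3 : ‖z‖ ≤ ‖z - -((y ^ 2 : ℝ) : ℂ)‖ + ‖-((y ^ 2 : ℝ) : ℂ)‖ := by
            have := norm_add_le (z - -((y ^ 2 : ℝ) : ℂ)) (-((y ^ 2 : ℝ) : ℂ))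
            simpa using this
          rw [hz, norm_neg, Complex.norm_real, Real.norm_eq_abs, abs_of_pos (by positivity)] at h3
          linarith
      rw [deriv_sub_const] at h2
      linarith
    have hden : Tendsto (fun N : ℕ => G N (-((y ^ 2 : ℝ) : ℂ))) atTop (𝓝 (FT τ 0)) := by
      rw [Metric.tendsto_nhds]
      intro ε hε
      filter_upwards [hlim (y ^ 2) (ε / 2) (by positivity) (by positivity)] with N hN
      rw [dist_eq_norm]
      refine (hN _ ?_).trans_lt (by linarith)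
      rw [norm_neg, Complex.norm_real, Real.norm_eq_abs, abs_of_pos (by positivity)]
    have := hnum.div hden hF0
    rwa [zero_div] at this
  -- the limit along the subsequence
  have hsub : Tendsto (fun N : ℕ => ∑ j ∈ (Finset.range (cn (ZZ τ) (Real.sqrt ((N : ℝ) + 1)))).erase k,
      ((en (ZZ τ) j) ^ 2 - y ^ 2)⁻¹) atTop (𝓝 c.re) := by
    have h2 : Tendsto (fun N : ℕ => (c - deriv (G N) (-((y ^ 2 : ℝ) : ℂ)) / G N (-((y ^ 2 : ℝ) : ℂ))).re) atTop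
        (𝓝 (c - 0).re) := (Complex.continuous_re.tendsto _).comp (tendsto_const_nhds.sub herr)
    rw [sub_zero] at h2
    refine h2.congr' ?_
    filter_upwards [hid] with N hN
    have e1 : c - deriv (G N) (-((y ^ 2 : ℝ) : ℂ)) / G N (-((y ^ 2 : ℝ) : ℂ)) =
        ((∑ j ∈ (Finset.range (cn (ZZ τ) (Real.sqrt ((N : ℝ) + 1)))).erase k,
      ((en (ZZ τ) j) ^ 2 - y ^ 2)⁻¹ : ℝ) : ℂ) := by
      push_cast
      push_cast at hN
      linear_combination hN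
    rw [e1, Complex.ofReal_re]
  -- monotone partial sums
  have hmono : Monotone (fun M : ℕ => ∑ j ∈ (Finset.range (M + (k + 1))).erase k, ((en (ZZ τ) j) ^ 2 - y ^ 2)⁻¹) := by
    apply monotone_nat_of_le_succ
    intro M
    have e1 : (Finset.range (M + 1 + (k + 1))).erase k = insert (M + (k + 1)) ((Finset.range (M + (k + 1))).erase k) := by
      ext i
      simp only [Finset.mem_erase, Finset.mem_range, Finset.mem_insert]
      omega
    rw [e1, Finset.sum_insert (by simp)]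
    have h2 : y < en (ZZ τ) (M + (k + 1)) := by
      rw [hy]
      exact en_strictMono hLF (by omega)
    have h3 : y ^ 2 < en (ZZ τ) (M + (k + 1)) ^ 2 := pow_lt_pow_left₀ h2 hy0.le (by norm_num)
    have h4 : 0 ≤ ((en (ZZ τ) (M + (k + 1))) ^ 2 - y ^ 2)⁻¹ := inv_nonneg.2 (by linarith)
    linarith
  rw [← tendsto_add_atTop_iff_nat (k + 1)]
  have hm2 : Tendsto (fun N : ℕ => cn (ZZ τ) (Real.sqrt ((N : ℝ) + 1)) - (k + 1)) atTop atTop :=
    (tendsto_sub_atTop_nat (k + 1)).comp hm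
  rw [tendsto_iff_tendsto_subseq_of_monotone hmono hm2]
  refine hsub.congr' ?_
  filter_upwards [hk] with N hN
  simp only [Function.comp_def]
  rw [Nat.sub_add_cancel (by omega)]

end Pool.Agent.P8H8.HF
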