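import Pool.Agent.P8H8.HF.Asm

set_option autoImplicit false

/-!
# The threshold law for the limiting distributions
-/

namespace Pool.Agent.P8H8.HF

open Filter Topology

/-- replacing the times by positive times -/
theorem pos_time (RH : RiemannHypothesis) (τ : ℝ → ℝ) (h0 : ∀ T, 0 ≤ τ T) : ∃ τ' : ℝ → ℝ, (∀ T, 0 < τ' T) ∧
    (∀ T, τ T ≤ τ' T) ∧ (∀ T, (τ' T - τ T) * Real.log T ^ 2 ≤ 1 / (1 + |T|)) ∧
    ∀ T, ∀ k < NT T, |gg T (τ' T) k - gg T (τ T) k| ≤ 1 / ((NT T : ℝ) + 1) := by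
  have key : ∀ T : ℝ, ∃ σ : ℝ, 0 < σ ∧ τ T ≤ σ ∧ (σ - τ T) * Real.log T ^ 2 ≤ 1 / (1 + |T|) ∧
      ∀ k < NT T, |gg T σ k - gg T (τ T) k| ≤ 1 / ((NT T : ℝ) + 1) := by
    intro T
    obtain ⟨ε, hε⟩ : ∃ ε, ε = min (1 / ((1 + |T|) * (1 + Real.log T ^ 2))) (1 / (2 * (1 + |lam T|) * ((NT T : ℝ) + 1))) :=
      ⟨_, rfl⟩
    have hε0 : 0 < ε := by rw [hε]; positivity
    obtain ⟨σ, s1, s2, s3, s4⟩ := GG_approx RH (h0 T) (NT T) hε0
    refine ⟨σ, s1, s2, ?_, fun k hk => ?_⟩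
    · have h1 : σ - τ T ≤ 1 / ((1 + |T|) * (1 + Real.log T ^ 2)) := by
        have := min_le_left (1 / ((1 + |T|) * (1 + Real.log T ^ 2))) (1 / (2 * (1 + |lam T|) * ((NT T : ℝ) + 1)))
        linarith
      have h2 : (σ - τ T) * Real.log T ^ 2 ≤ 1 / ((1 + |T|) * (1 + Real.log T ^ 2)) * (1 + Real.log T ^ 2) := by
        apply mul_le_mul h1 (by linarith) (by positivity) (by positivity)
      refine h2.trans (le_of_eq ?_)
      field_simp
    · have a1 := s4 k (by omega)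
      have a2 := s4 (k + 1) (by omega)
      have e : gg T σ k - gg T (τ T) k = lam T * ((GG σ (k + 1) - GG (τ T) (k + 1)) - (GG σ k - GG (τ T) k)) := by
        unfold gg
        ring
      rw [e, abs_mul]
      have h3 : |(GG σ (k + 1) - GG (τ T) (k + 1)) - (GG σ k - GG (τ T) k)| ≤ ε + ε :=
        (abs_sub _ _).trans (add_le_add a2 a1)
      have h4 : ε ≤ 1 / (2 * (1 + |lam T|) * ((NT T : ℝ) + 1)) := by rw [hε]; exact min_le_right _ _
      calc |lam T| * |(GG σ (k + 1) - GG (τ T) (k + 1)) - (GG σ k - GG (τ T) k)|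
          ≤ (1 + |lam T|) * (2 * (1 / (2 * (1 + |lam T|) * ((NT T : ℝ) + 1)))) := by
            apply mul_le_mul (by linarith) (by linarith) (abs_nonneg _) (by positivity)
        _ = 1 / ((NT T : ℝ) + 1) := by field_simp
  choose τ' h1 h2 h3 h4 using key
  exact ⟨τ', h1, h2, h3, h4⟩

lemma one_div_abs : Tendsto (fun T : ℝ => 1 / (1 + |T|)) atTop (𝓝 0) := by
  have h1 : Tendsto (fun T : ℝ => 1 + |T|) atTop atTop := tendsto_atTop_add_const_left _ _ tendsto_abs_atTop_atTop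
  simp only [one_div]
  exact tendsto_inv_atTop_zero.comp h1

lemma NTr : ∀ᶠ T : ℝ in atTop, MT T / 2 ≤ (NT T : ℝ) ∧ (NT T : ℝ) ≤ 2 * MT T := by
  filter_upwards [NT_ev, MT_tendsto.eventually_ge_atTop 2] with T g1 g2
  constructor <;> linarith [g1.1, g1.2]

/-- positive times, both bounds -/
lemma close_pos (RH : RiemannHypothesis) {K : ℝ} (hK : 0 < K) {ε : ℝ} (hε : 0 < ε) (hε1 : ε ≤ 1) :
    ∀ᶠ T : ℝ in atTop, ∀ a b : ℝ, 0 < a → a ≤ b → b * Real.log T ^ 2 ≤ K →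
      (b - a) * Real.log T ^ 2 ≤ ε ^ 2 / 128 → ∑ k ∈ Finset.range (NT T), |gg T b k - gg T a k| ≤ ε * NT T := by
  filter_upwards [count_unif RH K (ε / 4) hK (by positivity) (by linarith), time_ok hK,
    lam_tendsto.eventually_ge_atTop 1, NTr] with T g1 g2 g3 g4
  intro a b ha hab hbK hd
  have hlam0 : 0 < lam T := by linarith
  have hlamsq : 0 < lam T ^ 2 := by positivity
  have hpi := Real.pi_gt_three
  have hlogeq : lam T ^ 2 * (2 * Real.pi) ^ 2 = Real.log T ^ 2 := by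
    unfold lam
    field_simp
  have hb : 0 < b := by linarith
  obtain ⟨t1, -, -⟩ := g2 b hb.le hbK
  have haK : a * Real.log T ^ 2 ≤ K := by
    refine le_trans ?_ hbK
    exact mul_le_mul_of_nonneg_right hab (by positivity)
  obtain ⟨c1, -⟩ := g1 a ha.le haK (NT T) g4.1 g4.2
  obtain ⟨c2, -⟩ := g1 b hb.le hbK (NT T) g4.1 g4.2
  have ea := YS_nat hlam0 ha 0
  have eb := YS_nat hlam0 hb 0
  simp only [Nat.cast_zero] at ea eb
  have h1 := close (flow_s RH hlam0) (τ₁ := a * lam T ^ 2) (τ₂ := b * lam T ^ 2) (N := NT T) (η := ε / 4)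
    (by positivity) (mul_le_mul_of_nonneg_right hab hlamsq.le) (mul_lt_mul_of_pos_right t1 hlamsq)
    (by rw [YS_nat hlam0 ha, ea, ← mul_sub]; exact c1) (by rw [YS_nat hlam0 hb, eb, ← mul_sub]; exact c2)
  have e1 : ∑ k ∈ Finset.Ico (0 : ℤ) (NT T), |gp (YS T (b * lam T ^ 2)) k - gp (YS T (a * lam T ^ 2)) k| =
      ∑ k ∈ Finset.range (NT T), |gg T b k - gg T a k| := by
    rw [sum_int (fun k => |gp (YS T (b * lam T ^ 2)) k - gp (YS T (a * lam T ^ 2)) k|)]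
    apply Finset.sum_congr rfl
    intro k _
    rw [gp_YS hlam0 ha, gp_YS hlam0 hb]
  rw [e1] at h1
  have h2 : Real.sqrt (8 * (b * lam T ^ 2 - a * lam T ^ 2)) ≤ ε / 4 := by
    rw [Real.sqrt_le_left (by positivity)]
    have h3 : (b * lam T ^ 2 - a * lam T ^ 2) ≤ (b - a) * Real.log T ^ 2 := by
      rw [← hlogeq, ← sub_mul]
      apply mul_le_mul_of_nonneg_left _ (by linarith)
      have : (1 : ℝ) ≤ (2 * Real.pi) ^ 2 := by nlinarith
      nlinarith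
    nlinarith
  have hN0 : (0 : ℝ) ≤ NT T := Nat.cast_nonneg _
  have h3 : (NT T : ℝ) * Real.sqrt (8 * (b * lam T ^ 2 - a * lam T ^ 2)) ≤ NT T * (ε / 4) :=
    mul_le_mul_of_nonneg_left h2 hN0
  linarith

theorem close_ev (RH : RiemannHypothesis) {K : ℝ} (hK : 0 < K) {τ1 τ2 : ℝ → ℝ}
    (h1 : ∀ T, 0 ≤ τ1 T) (h2 : ∀ T, 0 ≤ τ2 T) (hK1 : ∀ᶠ T in atTop, τ1 T * Real.log T ^ 2 ≤ K)
    (hK2 : ∀ᶠ T in atTop, τ2 T * Real.log T ^ 2 ≤ K)
    (hd : Tendsto (fun T => (τ1 T - τ2 T) * Real.log T ^ 2) atTop (𝓝 0)) :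
    ∀ ε : ℝ, 0 < ε → ∀ᶠ T in atTop, ∑ k ∈ Finset.range (NT T), |gg T (τ2 T) k - gg T (τ1 T) k| ≤ ε * NT T := by
  intro ε hε
  obtain ⟨a1, p1, p2, p3, p4⟩ := pos_time RH τ1 h1
  obtain ⟨a2, q1, q2, q3, q4⟩ := pos_time RH τ2 h2
  obtain ⟨δ, hδ⟩ : ∃ δ, δ = min (ε / 2) 1 := ⟨_, rfl⟩
  have hδ0 : 0 < δ := by rw [hδ]; positivity
  have hδ1 : δ ≤ 1 := by rw [hδ]; exact min_le_right _ _
  have hδ2 : δ ≤ ε / 2 := by rw [hδ]; exact min_le_left _ _
  have hd' := (Metric.tendsto_nhds.1 hd) (δ ^ 2 / 256) (by positivity)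
  have ho := one_div_abs.eventually (gt_mem_nhds (show (0 : ℝ) < min (δ ^ 2 / 512) 1 by positivity))
  filter_upwards [close_pos RH (show 0 < K + 1 by linarith) hδ0 hδ1, hK1, hK2, hd', ho,
    NT_tendsto'.eventually_ge_atTop (4 / ε), NT_tendsto.eventually_gt_atTop 0] with T g1 g2 g3 g4 g5 g6 g7
  have hN0 : (0 : ℝ) < NT T := by exact_mod_cast g7
  have hlog : 0 ≤ Real.log T ^ 2 := by positivity
  rw [dist_zero_right, Real.norm_eq_abs, abs_lt] at g4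
  have g5a := g5.trans_le (min_le_left _ _)
  have g5b := g5.trans_le (min_le_right _ _)
  have r1 := p3 T
  have r2 := q3 T
  have u1 : 0 ≤ (a1 T - τ1 T) * Real.log T ^ 2 := mul_nonneg (by linarith [p2 T]) hlog
  have u2 : 0 ≤ (a2 T - τ2 T) * Real.log T ^ 2 := mul_nonneg (by linarith [q2 T]) hlog
  have k1 : a1 T * Real.log T ^ 2 ≤ K + 1 := by
    have : a1 T * Real.log T ^ 2 = τ1 T * Real.log T ^ 2 + (a1 T - τ1 T) * Real.log T ^ 2 := by ring
    linarith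
  have k2 : a2 T * Real.log T ^ 2 ≤ K + 1 := by
    have : a2 T * Real.log T ^ 2 = τ2 T * Real.log T ^ 2 + (a2 T - τ2 T) * Real.log T ^ 2 := by ring
    linarith
  have kd : (a2 T - a1 T) * Real.log T ^ 2 = -((τ1 T - τ2 T) * Real.log T ^ 2) + (a2 T - τ2 T) * Real.log T ^ 2 -
    (a1 T - τ1 T) * Real.log T ^ 2 := by ring
  have hmid : ∑ k ∈ Finset.range (NT T), |gg T (a2 T) k - gg T (a1 T) k| ≤ δ * NT T := by
    rcases le_total (a1 T) (a2 T) with h3 | h3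
    · exact g1 (a1 T) (a2 T) (p1 T) h3 k2 (by linarith [g4.1, g4.2])
    · have := g1 (a2 T) (a1 T) (q1 T) h3 k1 (by
        have e : (a1 T - a2 T) * Real.log T ^ 2 = -((a2 T - a1 T) * Real.log T ^ 2) := by ring
        rw [e, kd]
        linarith [g4.1, g4.2])
      refine le_trans (le_of_eq ?_) this
      exact Finset.sum_congr rfl fun k _ => abs_sub_comm _ _
  have hs1 : ∑ k ∈ Finset.range (NT T), |gg T (a1 T) k - gg T (τ1 T) k| ≤ 1 := by
    refine (Finset.sum_le_sum fun k hk => p4 T k (Finset.mem_range.1 hk)).trans ?_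
    rw [Finset.sum_const, Finset.card_range, nsmul_eq_mul, mul_one_div, div_le_one (by positivity)]
    linarith
  have hs2 : ∑ k ∈ Finset.range (NT T), |gg T (a2 T) k - gg T (τ2 T) k| ≤ 1 := by
    refine (Finset.sum_le_sum fun k hk => q4 T k (Finset.mem_range.1 hk)).trans ?_
    rw [Finset.sum_const, Finset.card_range, nsmul_eq_mul, mul_one_div, div_le_one (by positivity)]
    linarith
  have htri : ∑ k ∈ Finset.range (NT T), |gg T (τ2 T) k - gg T (τ1 T) k| ≤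
      ∑ k ∈ Finset.range (NT T), |gg T (a2 T) k - gg T (τ2 T) k| +
      ∑ k ∈ Finset.range (NT T), |gg T (a2 T) k - gg T (a1 T) k| +
      ∑ k ∈ Finset.range (NT T), |gg T (a1 T) k - gg T (τ1 T) k| := by
    rw [← Finset.sum_add_distrib, ← Finset.sum_add_distrib]
    refine Finset.sum_le_sum fun k _ => ?_
    have e : gg T (τ2 T) k - gg T (τ1 T) k = -(gg T (a2 T) k - gg T (τ2 T) k) + (gg T (a2 T) k - gg T (a1 T) k) +
      (gg T (a1 T) k - gg T (τ1 T) k) := by ring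
    rw [e]
    refine (abs_add_le _ _).trans ?_
    have := abs_add_le (-(gg T (a2 T) k - gg T (τ2 T) k)) (gg T (a2 T) k - gg T (a1 T) k)
    rw [abs_neg] at this
    linarith
  have h2N : 2 ≤ ε / 2 * NT T := by
    rw [div_le_iff₀ hε] at g6
    linarith
  have h3N : δ * NT T ≤ ε / 2 * NT T := mul_le_mul_of_nonneg_right hδ2 hN0.le
  linarith

lemma gg_nn (RH : RiemannHypothesis) {K : ℝ} (hK : 0 < K) {τ : ℝ → ℝ} (ht0 : ∀ T, 0 ≤ τ T)
    (htK : ∀ᶠ T in atTop, τ T * Real.log T ^ 2 ≤ K) : ∀ᶠ T in atTop, ∀ k, 0 ≤ gg T (τ T) k := by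
  filter_upwards [htK, time_ok hK, lam_tendsto.eventually_ge_atTop 1] with T g1 g2 g3 k
  exact gg_nonneg RH (by linarith) (ht0 T) ((g2 (τ T) (ht0 T) g1).1.le) k

/-- transfer of the law -/
theorem lc_close (RH : RiemannHypothesis) {D0 D1 : ℝ → ℝ} (hD : GD D0 D1) {K : ℝ} (hK : 0 < K) {τ1 τ2 : ℝ → ℝ}
    (h1 : ∀ T, 0 ≤ τ1 T) (h2 : ∀ T, 0 ≤ τ2 T) (hK1 : ∀ᶠ T in atTop, τ1 T * Real.log T ^ 2 ≤ K)
    (hK2 : ∀ᶠ T in atTop, τ2 T * Real.log T ^ 2 ≤ K)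
    (hL1 : LC D1 NT (fun T => gg T (τ1 T)))
    (hd : Tendsto (fun T => (τ1 T - τ2 T) * Real.log T ^ 2) atTop (𝓝 0)) : LC D1 NT (fun T => gg T (τ2 T)) :=
  LC.close hD (NT_tendsto.eventually_gt_atTop 0) hL1 (close_ev RH hK h1 h2 hK1 hK2 hd)

/-- one sided uniqueness -/
theorem uniq_one (RH : RiemannHypothesis) {D0 D1 : ℝ → ℝ} (hD : GD D0 D1) {K : ℝ} (hK : 0 < K) {τ1 τ2 : ℝ → ℝ}
    (h1 : ∀ T, 0 ≤ τ1 T) (h2 : ∀ T, 0 ≤ τ2 T) (hK1 : ∀ᶠ T in atTop, τ1 T * Real.log T ^ 2 ≤ K)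
    (hK2 : ∀ᶠ T in atTop, τ2 T * Real.log T ^ 2 ≤ K)
    (hL1 : LC D1 NT (fun T => gg T (τ1 T))) (hL2 : LC D1 NT (fun T => gg T (τ2 T))) {c : ℝ} (hc : 0 < c) :
    ∀ᶠ T in atTop, (τ2 T - τ1 T) * Real.log T ^ 2 < c := by
  obtain ⟨a1, p1, p2, p3, p4⟩ := pos_time RH τ1 h1
  have ho := one_div_abs.eventually (gt_mem_nhds (show (0 : ℝ) < min (c / 2) 1 by positivity))
  have hd : Tendsto (fun T => (τ1 T - a1 T) * Real.log T ^ 2) atTop (𝓝 0) := by
    refine squeeze_zero_norm (fun T => ?_) one_div_abs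
    have u1 : 0 ≤ (a1 T - τ1 T) * Real.log T ^ 2 := mul_nonneg (by linarith [p2 T]) (by positivity)
    have e : (τ1 T - a1 T) * Real.log T ^ 2 = -((a1 T - τ1 T) * Real.log T ^ 2) := by ring
    rw [e, norm_neg, Real.norm_eq_abs, abs_of_nonneg u1]
    exact p3 T
  have hKa : ∀ᶠ T in atTop, a1 T * Real.log T ^ 2 ≤ K + 1 := by
    filter_upwards [hK1, ho] with T g1 g2
    have g2b := g2.trans_le (min_le_right _ _)
    have : a1 T * Real.log T ^ 2 = τ1 T * Real.log T ^ 2 + (a1 T - τ1 T) * Real.log T ^ 2 := by ring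
    linarith [p3 T]
  have hLa : LC D1 NT (fun T => gg T (a1 T)) :=
    lc_close RH hD (show 0 < K + 1 by linarith) h1 (fun T => (p1 T).le) (hK1.mono fun T g => by linarith) hKa hL1 hd
  have hm := hL2.toLA.mono
  have hone := hD.one hm
  have hr := rig RH hD (show 0 < K + 1 by linarith) p1 h2 hKa (hK2.mono fun T g => by linarith) hLa hL2
    (c := c / 2) (κ := D0 1 / 2) (by positivity) (by positivity)
  have hmean := mean_lim RH hK h2 hK2 (N := NT) (NTr.mono fun T g => g.1) (NTr.mono fun T g => g.2)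
  have hres := res_lim hD (NT_tendsto.eventually_gt_atTop 0) (gg_nn RH hK h2 hK2) hL2 hmean (u := 1) zero_le_one
  filter_upwards [hr, hres.eventually (lt_mem_nhds (show D0 1 / 2 < D0 1 by linarith)), ho,
    NT_tendsto.eventually_gt_atTop 0] with T g1 g2 g3 g4
  have hN0 : (0 : ℝ) < NT T := by exact_mod_cast g4
  by_contra hcon
  rw [not_lt] at hcon
  have g3a := g3.trans_le (min_le_left _ _)
  have h3 := g1 (by
    have : (τ2 T - a1 T) * Real.log T ^ 2 = (τ2 T - τ1 T) * Real.log T ^ 2 - (a1 T - τ1 T) * Real.log T ^ 2 := by ring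
    rw [this]
    linarith [p3 T])
  rw [lt_div_iff₀ hN0] at g2
  linarith

/-- **The threshold law.** -/
theorem lc_iff (RH : RiemannHypothesis) {D0 D1 : ℝ → ℝ} (hD : GD D0 D1) {K : ℝ} (hK : 0 < K) {τ1 τ2 : ℝ → ℝ}
    (h1 : ∀ T, 0 ≤ τ1 T) (h2 : ∀ T, 0 ≤ τ2 T) (hK1 : ∀ᶠ T in atTop, τ1 T * Real.log T ^ 2 ≤ K)
    (hK2 : ∀ᶠ T in atTop, τ2 T * Real.log T ^ 2 ≤ K)
    (hL1 : LC D1 NT (fun T => gg T (τ1 T))) :
    LC D1 NT (fun T => gg T (τ2 T)) ↔ Tendsto (fun T => (τ1 T - τ2 T) * Real.log T ^ 2) atTop (𝓝 0) := by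
  constructor
  · intro hL2
    rw [Metric.tendsto_nhds]
    intro c hc
    filter_upwards [uniq_one RH hD hK h1 h2 hK1 hK2 hL1 hL2 hc, uniq_one RH hD hK h2 h1 hK2 hK1 hL2 hL1 hc]
      with T g1 g2
    rw [dist_zero_right, Real.norm_eq_abs, abs_lt]
    constructor
    · have : (τ1 T - τ2 T) * Real.log T ^ 2 = -((τ2 T - τ1 T) * Real.log T ^ 2) := by ring
      linarith
    · exact g2
  · exact lc_close RH hD hK h1 h2 hK1 hK2 hL1

end Pool.Agent.P8H8.HF
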