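import Pool.Agent.P8H8.HF.Inst
import Pool.Agent.H382R2.Final0
import Pool.Agent.R838.ST.Zcor

set_option autoImplicit false

/-!
# The zeros as the time tends to zero
-/

namespace Pool.Agent.P8H8.HF

open Complex Filter Topology MeasureTheory Set Metric
open Pool.Agent.H24R2.JP (XX HH)
open Pool.Agent.H986R2.DBN (XT ker FT b1A)
open Pool.Agent.R838.ST (nb rouche stb_xi zfin order_XX strip_XX HH_ne)

lemma DD_XX : DD 0 0 = XX := by
  rw [DD_zero]
  exact stb_xi.zero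

lemma ZS_re (RH : RiemannHypothesis) {t : ℝ} {s : ℂ} (hs : s ∈ SG.ZS t) : s.re = 1 / 2 := by
  obtain ⟨h1, h2, h3, h4, h5⟩ := hs
  apply RH s h1
  · rintro ⟨k, hk⟩
    have := congrArg Complex.im hk
    simp at this
    linarith
  · intro h
    rw [h] at h4
    simp at h4

/-- the number of zeros with multiplicity -/
theorem nb_zero (RH : RiemannHypothesis) {x : ℝ} (hxz : rn 0 0 x ≠ 0) :
    nb (DD 0 0) (I * ((x / 2 : ℝ) : ℂ)) (x / 2) = SG.NZ x := by
  classical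
  unfold nb SG.NZ
  rw [← finsum_mem_inter_support]
  have e1 : ball (I * ((x / 2 : ℝ) : ℂ)) (x / 2) ∩ Function.support (fun z => analyticOrderNatAt (DD 0 0) z) =
      (fun s : ℂ => s - 1 / 2) '' {s : ℂ | riemannZeta s = 0 ∧ 0 < s.re ∧ s.re < 1 ∧ 0 < s.im ∧ s.im ≤ x} := by
    ext z
    constructor
    · rintro ⟨h2, h3⟩
      have hz : DD 0 0 z = 0 := apply_eq_zero_of_analyticOrderNatAt_ne_zero h3
      have hre := DD_re RH 0 le_rfl hz
      have hz' := axis hre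
      rw [mem_ball, Complex.dist_eq, hz'] at h2
      have e1 : I * (z.im : ℂ) - I * ((x / 2 : ℝ) : ℂ) = I * ((z.im - x / 2 : ℝ) : ℂ) := by push_cast; ring
      rw [e1, norm_mul, Complex.norm_I, one_mul, Complex.norm_real, Real.norm_eq_abs, abs_lt] at h2
      have him : 0 < z.im := by linarith [h2.1]
      have hzeta : riemannZeta (1 / 2 + z) = 0 := by
        rw [DD_XX, Pool.Agent.H24R2.JP.ZetaTask.part1 z him] at hz
        rcases mul_eq_zero.1 hz with h | h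
        · exact absurd h (HH_ne him)
        · exact h
      refine ⟨1 / 2 + z, ⟨hzeta, ?_, ?_, ?_, ?_⟩, by ring⟩
      · simp [hre]
      · simp [hre]
        norm_num
      · simpa using him
      · simp
        linarith [h2.2]
    · rintro ⟨s, hs, rfl⟩
      have hre := ZS_re RH (t := x) hs
      obtain ⟨h1, h2, h3, h4, h5⟩ := hs
      have hs' : s - 1 / 2 = I * (s.im : ℂ) := by
        have := axis (z := s - 1 / 2) (by simp [hre])
        simpa using this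
      have him : 0 < (s - 1 / 2).im := by simpa using h4
      have hz : DD 0 0 (s - 1 / 2) = 0 := by
        rw [DD_XX, Pool.Agent.H24R2.JP.ZetaTask.part1 _ him]
        have e : 1 / 2 + (s - 1 / 2) = s := by ring
        rw [e, h1, mul_zero]
      have hlt : s.im < x := by
        refine lt_of_le_of_ne h5 (fun h => hxz ?_)
        rw [rn_zero_iff 0 le_rfl, ← h, ← hs']
        exact hz
      refine ⟨?_, ?_⟩
      · show s - 1 / 2 ∈ _
        rw [mem_ball, Complex.dist_eq, hs']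
        have e1 : I * (s.im : ℂ) - I * ((x / 2 : ℝ) : ℂ) = I * ((s.im - x / 2 : ℝ) : ℂ) := by push_cast; ring
        rw [e1, norm_mul, Complex.norm_I, one_mul, Complex.norm_real, Real.norm_eq_abs, abs_lt]
        constructor <;> linarith
      · show analyticOrderNatAt (DD 0 0) (s - 1 / 2) ≠ 0
        rw [DD_XX, order_XX him]
        have e : 1 / 2 + (s - 1 / 2) = s := by ring
        rw [e]
        have := SG.zmult_pos h4 h1
        unfold SG.zmult at this
        omega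
  have hinj : Set.InjOn (fun s : ℂ => s - 1 / 2)
      {s : ℂ | riemannZeta s = 0 ∧ 0 < s.re ∧ s.re < 1 ∧ 0 < s.im ∧ s.im ≤ x} := by
    intro a _ b _ hab
    simpa using hab
  rw [e1, finsum_mem_image hinj]
  apply finsum_mem_congr rfl
  rintro s ⟨h1, h2, h3, h4, h5⟩
  have him : 0 < (s - 1 / 2).im := by simpa using h4
  rw [DD_XX, order_XX him]
  have e : 1 / 2 + (s - 1 / 2) = s := by ring
  rw [e]
  rfl

/-- the counting function near the time zero -/
theorem cn_zero_ev (RH : RiemannHypothesis) {x : ℝ} (hx : 0 < x) (hxz : rn 0 0 x ≠ 0) :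
    ∀ᶠ σ in 𝓝[>] (0 : ℝ), cn (ZZ σ) x = SG.NZ x := by
  have hx2 : 0 < x / 2 := by positivity
  have hsph : ∀ z ∈ sphere (I * ((x / 2 : ℝ) : ℂ)) (x / 2), DD 0 0 z ≠ 0 := by
    intro z hz hzero
    have hre := DD_re RH 0 le_rfl hzero
    have hz' := axis hre
    rw [mem_sphere, Complex.dist_eq, hz'] at hz
    have e1 : I * (z.im : ℂ) - I * ((x / 2 : ℝ) : ℂ) = I * ((z.im - x / 2 : ℝ) : ℂ) := by push_cast; ring
    rw [e1, norm_mul, Complex.norm_I, one_mul, Complex.norm_real, Real.norm_eq_abs] at hz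
    have h4 : rn 0 0 z.im = 0 := by
      rw [rn_zero_iff 0 le_rfl, ← hz']
      exact hzero
    rcases (abs_eq hx2.le).1 hz with h | h
    · have : z.im = x := by linarith
      rw [this] at h4
      exact hxz h4
    · have : z.im = 0 := by linarith
      rw [this] at h4
      exact rn_zero_ne le_rfl h4
  have hne : (sphere (I * ((x / 2 : ℝ) : ℂ)) (x / 2)).Nonempty := NormedSpace.sphere_nonempty.2 hx2.le
  obtain ⟨z0, hz0', hmin⟩ := (isCompact_sphere (I * ((x / 2 : ℝ) : ℂ)) (x / 2)).exists_isMinOn hne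
    (f := fun z => ‖DD 0 0 z‖) (DD_diff 0 le_rfl).continuous.norm.continuousOn
  have hδ : 0 < ‖DD 0 0 z0‖ := norm_pos_iff.2 (hsph z0 hz0')
  have hun := DD_unif 0 (show (0 : ℝ) < 1 by norm_num) (isCompact_sphere (I * ((x / 2 : ℝ) : ℂ)) (x / 2)) hδ
  have hne2 : ∀ᶠ σ in 𝓝 (0 : ℝ), rn 0 σ x ≠ 0 := by
    have h2 : ContinuousAt (fun σ : ℝ => rn 0 σ x) 0 :=
      (rn_time 0 (by norm_num) x).continuousAt
    exact h2.eventually_ne hxz
  have h8 : ∀ᶠ σ in 𝓝 (0 : ℝ), σ < 1 / 8 := gt_mem_nhds (by norm_num)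
  filter_upwards [nhdsWithin_le_nhds hun, nhdsWithin_le_nhds hne2, self_mem_nhdsWithin,
    nhdsWithin_le_nhds h8] with σ g1 g2 g3 g4
  have g3' : 0 < σ := g3
  obtain ⟨hnb, -, -⟩ := rouche (DD_diff 0 le_rfl) (DD_diff 0 g3'.le) hx2
    (fun z hz => (g1 z hz).trans_le (hmin hz))
  rw [← nb_zero RH hxz, ← cn_nb RH g3' g4.le g2, hnb]

lemma exists_nonzero {a b : ℝ} (hab : a < b) : ∃ x : ℝ, rn 0 0 x ≠ 0 ∧ x ∈ Ioo (max a 0) (max a 0 + (b - a)) := by
  have h1 : (ZZ 0 ∩ Iic (max a 0 + (b - a))).Finite := ZZ_fin le_rfl _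
  have h2 : (Ioo (max a 0) (max a 0 + (b - a))).Infinite := Ioo_infinite (by linarith)
  obtain ⟨x, hx, hx2⟩ := h2.exists_notMem_finite h1
  refine ⟨x, fun h => hx2 ⟨⟨?_, h⟩, hx.2.le⟩, hx⟩
  exact lt_of_le_of_lt (le_max_right _ _) hx.1

/-- the zeros at small times -/
theorem en_zero_lim (RH : RiemannHypothesis) (n : ℕ) :
    Tendsto (fun σ => en (ZZ σ) n) (𝓝[>] (0 : ℝ)) (𝓝 (SG.ord (n + 1))) := by
  obtain ⟨y, hy⟩ : ∃ y, y = SG.ord (n + 1) := ⟨_, rfl⟩
  have hy0 : 0 < y := by rw [hy]; exact SG.ord_pos (by omega)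
  rw [← hy, Metric.tendsto_nhds]
  intro ε hε
  obtain ⟨δ, hδ⟩ : ∃ δ, δ = min ε y := ⟨_, rfl⟩
  have hδ0 : 0 < δ := by rw [hδ]; exact lt_min hε hy0
  have hδε : δ ≤ ε := by rw [hδ]; exact min_le_left _ _
  have hδy : δ ≤ y := by rw [hδ]; exact min_le_right _ _
  obtain ⟨x1, hx1, hx1'⟩ := exists_nonzero (show y - δ < y by linarith)
  obtain ⟨x2, hx2, hx2'⟩ := exists_nonzero (show y < y + δ by linarith)
  rw [max_eq_left (by linarith)] at hx1' hx2'
  have hx10 : 0 < x1 := by linarith [hx1'.1]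
  have h8 : ∀ᶠ σ in 𝓝 (0 : ℝ), σ < 1 / 8 := gt_mem_nhds (by norm_num)
  filter_upwards [cn_zero_ev RH hx10 hx1, cn_zero_ev RH (show 0 < x2 by linarith [hx2'.1]) hx2,
    self_mem_nhdsWithin, nhdsWithin_le_nhds h8] with σ g1 g2 g3 g4
  have g3' : 0 < σ := g3
  have hLFσ := ZZ_LF RH g3'.le g4.le
  rw [Real.dist_eq, abs_lt]
  have h2 : x1 < en (ZZ σ) n := by
    by_contra hcon
    rw [not_lt, en_le_iff hLFσ, g1] at hcon
    have h3 := (SG.ord_le_iff (show 1 ≤ n + 1 by omega) x1).2 (by omega)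
    rw [← hy] at h3
    linarith [hx1'.2]
  have h3 : en (ZZ σ) n ≤ x2 := by
    rw [en_le_iff hLFσ, g2]
    have h4 := (SG.ord_le_iff (show 1 ≤ n + 1 by omega) x2).1 (by rw [← hy]; exact hx2'.1.le)
    omega
  constructor
  · linarith [hx1'.1]
  · linarith [hx2'.2]

/-- the zeros at all times -/
noncomputable def GG (τ : ℝ) (n : ℕ) : ℝ := if τ = 0 then SG.ord (n + 1) else en (ZZ τ) n

lemma GG_pos_eq {τ : ℝ} (h : 0 < τ) (n : ℕ) : GG τ n = en (ZZ τ) n := if_neg h.ne'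

lemma GG_zero (n : ℕ) : GG 0 n = SG.ord (n + 1) := if_pos rfl

lemma GG_mono (RH : RiemannHypothesis) {τ : ℝ} (h0 : 0 ≤ τ) (h1 : τ ≤ 1 / 8) : Monotone (GG τ) := by
  rcases h0.eq_or_lt with rfl | h
  · intro a b hab
    rw [GG_zero, GG_zero]
    exact SG.ord_mono (by omega) (by omega)
  · intro a b hab
    rw [GG_pos_eq h, GG_pos_eq h]
    exact (en_strictMono (ZZ_LF RH h0 h1)).monotone hab

/-- approximation by positive times -/
theorem GG_approx (RH : RiemannHypothesis) {τ : ℝ} (h0 : 0 ≤ τ) (N : ℕ) {ε : ℝ} (hε : 0 < ε) :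
    ∃ σ : ℝ, 0 < σ ∧ τ ≤ σ ∧ σ ≤ τ + ε ∧ ∀ n ≤ N, |GG σ n - GG τ n| ≤ ε := by
  rcases h0.eq_or_lt with rfl | h
  · have h1 : ∀ᶠ σ in 𝓝[>] (0 : ℝ), ∀ n ∈ Finset.range (N + 1), |en (ZZ σ) n - SG.ord (n + 1)| < ε := by
      rw [Filter.eventually_all_finset]
      intro n _
      have := (Metric.tendsto_nhds.1 (en_zero_lim RH n)) ε hε
      simpa only [Real.dist_eq] using this
    have h2 : ∀ᶠ σ in 𝓝 (0 : ℝ), σ < ε := gt_mem_nhds hε
    have h2' : ∀ᶠ σ in 𝓝[>] (0 : ℝ), σ < ε := nhdsWithin_le_nhds h2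
    have h6 : ∀ᶠ σ in 𝓝[>] (0 : ℝ), 0 < σ := self_mem_nhdsWithin
    obtain ⟨σ, h3, h4, h5'⟩ := (h1.and (h2'.and h6)).exists
    refine ⟨σ, h5', h5'.le, by linarith, fun n hn => ?_⟩
    rw [GG_pos_eq h5', GG_zero]
    exact (h3 n (Finset.mem_range.2 (by omega))).le
  · exact ⟨τ, h, le_rfl, by linarith, fun n _ => by rw [sub_self, abs_zero]; exact hε.le⟩

end Pool.Agent.P8H8.HF
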